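import Pool.Agent.Helper8.BC.Defs
import Pool.Agent.Helper83.HLC.Final
import Pool.Agent.Helper13.MRF.Final

/-!
# BC-09: short windows with arbitrary coefficients

MODELS: `Pool/Agent/Helper39/SP/TwoPt.lean` (how `Helper83.HLC.final` with `k = 0` is applied) and `win_mx` in `Pool/Agent/Helper8/DW/Window.lean` (the mean is small; copy it).
PROOF. Let `f n = b (s + Ω n)`, `|f| ≤ 1`, `μ = (∑_(n ≤ M) f n)/M`, `|μ| ≤ δ/16` for `M ≥ M0` (`win_mx`, uniform in `s`). `f - μ` is `Centred M` (second alternative with `b (s + ·)`).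
`HLC.final` (`k = 0`, `X = M`, `y = 0`, `g = f`, `ε = δ/16`): there are `K`, `X1` such that for `M ≥ X1`, `K ≤ L ≤ M`:
`∑_(h ∈ Ioc 0 L) |∑_(n ∈ Icc 1 M) f n (f (n + h) - μ)| ≤ (δ/16) L M`, so `∑_(h ∈ Ioc 0 L) |R h| ≤ (δ/8) L M`, `R h = ∑_(n ∈ Icc 1 M) f n f (n + h)`.
Fix `L ≥ K`, `L ≥ 8/δ`, `L ≥ 1`. Expand the square: `∑_m ((1/L) ∑_i c i f (m + i))^2 ≤ (1/L^2) ∑_(i, i' < L) |∑_(m ∈ Icc 1 M) f (m + i) f (m + i')|`.
For `i = i'`: `≤ M`, total `L M`. For `i < i'`: `∑_(m ∈ Icc 1 M) f (m + i) f (m + i') = R (i' - i) + O(2 i)` (shift of the range of summation by `i ≤ L`), so the sum over `i < i'` is at most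
`L ∑_(h ∈ Ioc 0 L) |R h| + 2 L^3 ≤ (δ/8) L^2 M + 2 L^3`; the same for `i > i'`. Altogether `(1/L^2)(L M + (δ/4) L^2 M + 4 L^3) ≤ (δ/8 + δ/4) M + 4 L ≤ δ M` for `M ≥ 8 L/δ`.
-/

set_option autoImplicit false

namespace Pool.Agent.Helper8.BC

open Finset
open Pool.Agent.Helper8.DW (Per)

private theorem wc_period {q : ℕ} {b : ℕ → ℝ} (hb : Per q b) (m : ℕ) :
    ∑ i ∈ range q, b (m + i) = 0 := by
  induction m with
  | zero =>
    simpa using hb.zero
  | succ m ih =>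
    have h1 := Finset.sum_range_succ (fun i => b (m + i)) q
    have h2 := Finset.sum_range_succ' (fun i => b (m + i)) q
    have h3 : ∑ i ∈ range q, b (m + (i + 1)) = ∑ i ∈ range q, b (m + 1 + i) :=
      Finset.sum_congr rfl fun i _ => by rw [show m + (i + 1) = m + 1 + i by omega]
    rw [h3] at h2
    have h4 := hb.per m
    simp only [Nat.add_zero] at h2
    linarith

private theorem wc_mx {q : ℕ} {b : ℕ → ℝ} (hb : Per q b) (δ : ℝ) (hδ : 0 < δ) : ∃ x0 : ℕ,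
    ∀ x : ℕ, x0 ≤ x → ∀ s : ℕ, |MRP.mx x (MRP.up s b)| ≤ δ := by
  have hq : (0 : ℝ) < q := by exact_mod_cast hb.pos
  obtain ⟨x0, h0⟩ := MRP.lawx (δ / q) (by positivity) 1 le_rfl
  refine ⟨x0, fun x hx s => ?_⟩
  have hstep : ∀ t, |MRP.mx x (MRP.up (t + 1) b) - MRP.mx x (MRP.up t b)| ≤ δ / q := by
    intro t
    have h1 := (h0 x hx (MRP.up t b) (fun m => hb.le _)).1
    have h2 : MRP.up 1 (MRP.up t b) = MRP.up (t + 1) b := by
      funext m
      unfold MRP.up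
      rw [show m + 1 + t = m + (t + 1) by omega]
    rwa [h2] at h1
  have hk : ∀ k, |MRP.mx x (MRP.up (s + k) b) - MRP.mx x (MRP.up s b)| ≤ k * (δ / q) := by
    intro k
    induction k with
    | zero => simp
    | succ k ih =>
      have h1 := hstep (s + k)
      have h2 := abs_sub_le (MRP.mx x (MRP.up (s + (k + 1)) b)) (MRP.mx x (MRP.up (s + k) b))
        (MRP.mx x (MRP.up s b))
      rw [show s + (k + 1) = s + k + 1 by omega] at h2 ⊢
      push_cast
      linarith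
  have hsum : ∑ k ∈ range q, MRP.mx x (MRP.up (s + k) b) = 0 := by
    unfold MRP.mx MRP.up
    rw [← Finset.sum_div, Finset.sum_comm]
    have h1 : ∀ n ∈ Icc 1 x, ∑ k ∈ range q, b (MRP.Om n + (s + k)) = 0 := by
      intro n _
      have h2 := wc_period hb (MRP.Om n + s)
      rw [← h2]
      exact Finset.sum_congr rfl fun i _ => by rw [Nat.add_assoc]
    rw [Finset.sum_eq_zero h1, zero_div]
  have h3 : (q : ℝ) * MRP.mx x (MRP.up s b) =
      ∑ k ∈ range q, (MRP.mx x (MRP.up s b) - MRP.mx x (MRP.up (s + k) b)) := by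
    rw [Finset.sum_sub_distrib, hsum, Finset.sum_const, card_range, nsmul_eq_mul, sub_zero]
  have h4 : (q : ℝ) * |MRP.mx x (MRP.up s b)| ≤ q * δ := by
    rw [← abs_of_pos hq, ← abs_mul, h3, abs_of_pos hq]
    refine (Finset.abs_sum_le_sum_abs _ _).trans ?_
    have h5 : ∀ k ∈ range q, |MRP.mx x (MRP.up s b) - MRP.mx x (MRP.up (s + k) b)| ≤ δ := by
      intro k hk'
      rw [abs_sub_comm]
      refine (hk k).trans ?_
      have h6 : (k : ℝ) ≤ q := by exact_mod_cast (Finset.mem_range.1 hk').le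
      calc (k : ℝ) * (δ / q) ≤ q * (δ / q) := by gcongr
        _ = δ := by field_simp
    refine (Finset.sum_le_card_nsmul _ _ _ h5).trans ?_
    rw [card_range, nsmul_eq_mul]
  exact le_of_mul_le_mul_left h4 hq

private theorem wc_tele (G : ℕ → ℝ) (M : ℕ) :
    ∑ m ∈ Icc 1 M, G (m + 1) - ∑ m ∈ Icc 1 M, G m = G (M + 1) - G 1 := by
  induction M with
  | zero => simp
  | succ M ih =>
    rw [Finset.sum_Icc_succ_top (by omega), Finset.sum_Icc_succ_top (by omega)]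
    linarith

private theorem wc_shift (F : ℕ → ℝ) (hF : ∀ n, |F n| ≤ 1) (M i : ℕ) :
    |∑ m ∈ Icc 1 M, F (m + i) - ∑ m ∈ Icc 1 M, F m| ≤ 2 * i := by
  induction i with
  | zero => simp
  | succ i ih =>
    have h1 := wc_tele (fun n => F (n + i)) M
    beta_reduce at h1
    have h2 : ∑ m ∈ Icc 1 M, F (m + (i + 1)) = ∑ m ∈ Icc 1 M, F (m + 1 + i) :=
      Finset.sum_congr rfl fun m _ => by rw [show m + (i + 1) = m + 1 + i by omega]
    rw [h2]
    have h3 := abs_le.1 ih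
    have h4 := abs_le.1 (hF (M + 1 + i))
    have h5 := abs_le.1 (hF (1 + i))
    push_cast
    rw [abs_le]
    constructor
    · linarith [h3.1, h4.1, h5.2]
    · linarith [h3.2, h4.2, h5.1]

private theorem wc_inj (A : ℕ → ℝ) (hA : ∀ h, 0 ≤ A h) (L : ℕ) (g : ℕ → ℕ) (hg : ∀ j ∈ range L, g j ≤ L)
    (hi : ∀ j ∈ range L, ∀ j' ∈ range L, g j ≠ 0 → g j = g j' → j = j') :
    ∑ j ∈ range L, (if g j = 0 then 0 else A (g j)) ≤ ∑ h ∈ Ioc 0 L, A h := by
  have h1 : ∑ j ∈ range L, (if g j = 0 then 0 else A (g j)) =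
      ∑ j ∈ (range L).filter (fun j => g j ≠ 0), A (g j) := by
    rw [Finset.sum_filter]
    refine Finset.sum_congr rfl fun j _ => ?_
    by_cases h : g j = 0
    · rw [if_pos h, if_neg (by simpa using h)]
    · rw [if_neg h, if_pos h]
  have h2 : ∑ j ∈ (range L).filter (fun j => g j ≠ 0), A (g j) =
      ∑ h ∈ ((range L).filter (fun j => g j ≠ 0)).image g, A h := by
    rw [Finset.sum_image]
    intro j hj j' hj' h
    rw [Finset.mem_coe, mem_filter] at hj hj'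
    exact hi j hj.1 j' hj'.1 hj.2 h
  rw [h1, h2]
  refine Finset.sum_le_sum_of_subset_of_nonneg ?_ fun h _ _ => hA h
  intro h hh
  obtain ⟨j, hj, rfl⟩ := Finset.mem_image.1 hh
  rw [mem_filter] at hj
  rw [mem_Ioc]
  exact ⟨Nat.pos_of_ne_zero hj.2, hg j hj.1⟩

private theorem wc_pair (f : ℕ → ℝ) (hf : ∀ n, |f n| ≤ 1) (M i j : ℕ) (hij : i ≤ j) :
    |∑ m ∈ Icc 1 M, f (m + i) * f (m + j)| ≤ |∑ n ∈ Icc 1 M, f n * f (n + (j - i))| + 2 * i := by
  have h0 : ∀ n, |f n * f (n + (j - i))| ≤ 1 := by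
    intro n
    rw [abs_mul]
    exact mul_le_one₀ (hf _) (abs_nonneg _) (hf _)
  have h1 := wc_shift (fun n => f n * f (n + (j - i))) h0 M i
  beta_reduce at h1
  have h2 : ∑ m ∈ Icc 1 M, f (m + i) * f (m + i + (j - i)) = ∑ m ∈ Icc 1 M, f (m + i) * f (m + j) :=
    Finset.sum_congr rfl fun m _ => by rw [show m + i + (j - i) = m + j by omega]
  rw [h2] at h1
  have h3 := abs_sub_abs_le_abs_sub (∑ m ∈ Icc 1 M, f (m + i) * f (m + j))
    (∑ n ∈ Icc 1 M, f n * f (n + (j - i)))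
  linarith

private theorem wc_expand (f : ℕ → ℝ) (hf : ∀ n, |f n| ≤ 1) (c : ℕ → ℝ) (hc : ∀ i, |c i| ≤ 1) (L M : ℕ) :
    ∑ m ∈ Icc 1 M, (∑ i ∈ range L, c i * f (m + i)) ^ 2 ≤
      L * (2 * ∑ h ∈ Ioc 0 L, |∑ n ∈ Icc 1 M, f n * f (n + h)| + M + 2 * (L : ℝ) ^ 2) := by
  have h1 : ∑ m ∈ Icc 1 M, (∑ i ∈ range L, c i * f (m + i)) ^ 2 =
      ∑ i ∈ range L, ∑ j ∈ range L, c i * c j * ∑ m ∈ Icc 1 M, f (m + i) * f (m + j) := by
    have h2 : ∑ m ∈ Icc 1 M, (∑ i ∈ range L, c i * f (m + i)) ^ 2 =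
        ∑ m ∈ Icc 1 M, ∑ i ∈ range L, ∑ j ∈ range L, c i * c j * (f (m + i) * f (m + j)) := by
      refine Finset.sum_congr rfl fun m _ => ?_
      rw [sq, Finset.sum_mul_sum]
      exact Finset.sum_congr rfl fun i _ => Finset.sum_congr rfl fun j _ => by ring
    rw [h2, Finset.sum_comm]
    refine Finset.sum_congr rfl fun i _ => ?_
    rw [Finset.sum_comm]
    refine Finset.sum_congr rfl fun j _ => ?_
    rw [Finset.mul_sum]
  rw [h1]
  set R : ℕ → ℝ := fun h => |∑ n ∈ Icc 1 M, f n * f (n + h)| with hR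
  have hR0 : ∀ h, 0 ≤ R h := fun h => abs_nonneg _
  have h2 : ∀ i ∈ range L, ∑ j ∈ range L, c i * c j * ∑ m ∈ Icc 1 M, f (m + i) * f (m + j) ≤
      2 * ∑ h ∈ Ioc 0 L, R h + M + 2 * (L : ℝ) ^ 2 := by
    intro i hi
    rw [mem_range] at hi
    have h3 : ∀ j ∈ range L, c i * c j * ∑ m ∈ Icc 1 M, f (m + i) * f (m + j) ≤
        (if i - j = 0 then 0 else R (i - j)) + (if j - i = 0 then 0 else R (j - i)) +
          (if j = i then (M : ℝ) else 0) + 2 * (L : ℝ) := by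
      intro j hj
      rw [mem_range] at hj
      have h4 : c i * c j * ∑ m ∈ Icc 1 M, f (m + i) * f (m + j) ≤
          |∑ m ∈ Icc 1 M, f (m + i) * f (m + j)| := by
        refine (le_abs_self _).trans ?_
        rw [abs_mul, abs_mul]
        have h5 : |c i| * |c j| ≤ 1 := mul_le_one₀ (hc _) (abs_nonneg _) (hc _)
        calc |c i| * |c j| * |∑ m ∈ Icc 1 M, f (m + i) * f (m + j)| ≤
            1 * |∑ m ∈ Icc 1 M, f (m + i) * f (m + j)| :=
              mul_le_mul_of_nonneg_right h5 (abs_nonneg _)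
          _ = _ := one_mul _
      refine h4.trans ?_
      have hiL : (i : ℝ) ≤ L := by exact_mod_cast hi.le
      have hjL : (j : ℝ) ≤ L := by exact_mod_cast hj.le
      have hL0 : (0 : ℝ) ≤ L := Nat.cast_nonneg _
      rcases lt_trichotomy i j with h | h | h
      · rw [if_pos (by omega), if_neg (by omega), if_neg (by omega)]
        have h5 := wc_pair f hf M i j h.le
        change _ ≤ R (j - i) + 2 * (i : ℝ) at h5
        linarith
      · subst h
        rw [if_pos (by omega), if_pos rfl]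
        have h5 : |∑ m ∈ Icc 1 M, f (m + i) * f (m + i)| ≤ M := by
          refine (Finset.abs_sum_le_sum_abs _ _).trans ?_
          refine (Finset.sum_le_card_nsmul _ _ 1 fun m _ => ?_).trans ?_
          · rw [abs_mul]
            exact mul_le_one₀ (hf _) (abs_nonneg _) (hf _)
          · rw [Nat.card_Icc, nsmul_eq_mul, Nat.add_sub_cancel, mul_one]
        linarith
      · rw [if_neg (by omega), if_pos (by omega), if_neg (by omega)]
        have h5 := wc_pair f hf M j i h.le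
        have h6 : ∑ m ∈ Icc 1 M, f (m + j) * f (m + i) = ∑ m ∈ Icc 1 M, f (m + i) * f (m + j) :=
          Finset.sum_congr rfl fun m _ => mul_comm _ _
        rw [h6] at h5
        change _ ≤ R (i - j) + 2 * (j : ℝ) at h5
        linarith
    refine (Finset.sum_le_sum h3).trans ?_
    rw [Finset.sum_add_distrib, Finset.sum_add_distrib, Finset.sum_add_distrib]
    have h7 := wc_inj R hR0 L (fun j => i - j) (fun j _ => by omega) (fun j hj j' hj' h0 h => by omega)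
    have h8 := wc_inj R hR0 L (fun j => j - i) (fun j hj => by rw [mem_range] at hj; omega)
      (fun j hj j' hj' h0 h => by omega)
    have h9 : ∑ j ∈ range L, (if j = i then (M : ℝ) else 0) = M := by
      rw [Finset.sum_ite_eq' (range L) i (fun _ => (M : ℝ)), if_pos (mem_range.2 hi)]
    rw [h9, Finset.sum_const, card_range, nsmul_eq_mul]
    beta_reduce at h7 h8
    have h10 : (L : ℝ) * (2 * L) = 2 * (L : ℝ) ^ 2 := by ring
    rw [h10]
    linarith
  refine (Finset.sum_le_card_nsmul _ _ _ h2).trans ?_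
  rw [card_range, nsmul_eq_mul]

theorem win_coef {q : ℕ} {b : ℕ → ℝ} (hb : Per q b) (δ : ℝ) (hδ : 0 < δ) : ∃ L : ℕ, 1 ≤ L ∧ ∃ M0 : ℕ, ∀ M : ℕ, M0 ≤ M →
    ∀ s : ℕ, ∀ c : ℕ → ℝ, (∀ i, |c i| ≤ 1) →
      ∑ m ∈ Icc 1 M, ((1 / (L : ℝ)) * ∑ i ∈ range L, c i * b (s + ArithmeticFunction.cardFactors (m + i))) ^ 2 ≤
        δ * M := by
  obtain ⟨K, X₀, h⟩ := Helper83.HLC.final
    (MRC.expx_bridge MRP.mrchi0x_holds MRP.mrchi1x_holds MRP.lawx) MRP.lawx 0 Fin.elim0
    (fun i => i.elim0) (δ / 16) (by positivity)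
  obtain ⟨X1, hX1⟩ := wc_mx hb (δ / 16) (by positivity)
  obtain ⟨L2, hL2⟩ := exists_nat_ge (8 / δ)
  set L : ℕ := max (max ⌈K⌉₊ L2) 1 with hLdef
  have hL1 : 1 ≤ L := le_max_right _ _
  have hLK : K ≤ L := (Nat.le_ceil K).trans (by exact_mod_cast (le_max_left _ _).trans (le_max_left _ _))
  have hL8 : 8 / δ ≤ L := hL2.trans (by exact_mod_cast (le_max_right _ _).trans (le_max_left _ _))
  clear_value L
  obtain ⟨M2, hM2⟩ := exists_nat_ge (4 * (L : ℝ) / δ)
  have hL0 : (0 : ℝ) < L := by exact_mod_cast hL1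
  refine ⟨L, hL1, max (max X₀ X1) (max M2 L), fun M hM s c hc => ?_⟩
  have hMX : X₀ ≤ M := ((le_max_left _ _).trans (le_max_left _ _)).trans hM
  have hMX1 : X1 ≤ M := ((le_max_right _ _).trans (le_max_left _ _)).trans hM
  have hMM2 : M2 ≤ M := ((le_max_left _ _).trans (le_max_right _ _)).trans hM
  have hML : L ≤ M := ((le_max_right _ _).trans (le_max_right _ _)).trans hM
  have hM0 : (0 : ℝ) ≤ M := Nat.cast_nonneg _
  set f : ℕ → ℝ := fun n => b (s + ArithmeticFunction.cardFactors n) with hfdef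
  have hf1 : ∀ n, |f n| ≤ 1 := fun n => hb.le _
  set μ : ℝ := (∑ m ∈ Icc 1 M, b (s + ArithmeticFunction.cardFactors m)) / M with hμ
  have hμ1 : |μ| ≤ δ / 16 := by
    have h1 := hX1 M hMX1 s
    have h2 : MRP.mx M (MRP.up s b) = μ := by
      rw [hμ]
      unfold MRP.mx MRP.up MRP.Om
      congr 1
      exact Finset.sum_congr rfl fun n _ => by rw [Nat.add_comm]
    rwa [h2] at h1
  have hcen : Helper83.HLC.Centred M (fun n => f n - μ) :=
    Or.inr ⟨fun t => b (s + t), fun t => hb.le _, fun n => rfl⟩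
  have hmain := h M L 0 hMX (by rw [pow_zero, mul_one]; exact hLK) hML (Nat.zero_le _)
    (fun n => f n - μ) hcen (fun n => ((f n : ℝ) : ℂ)) (fun n => by
      rw [Complex.norm_real, Real.norm_eq_abs]
      exact hf1 n)
  rw [Nat.zero_add] at hmain
  have hS : ∑ t ∈ Ioc 0 L, |∑ n ∈ Icc 1 M, f n * f (n + t)| ≤ δ / 8 * L * M := by
    have h1 : ∀ t ∈ Ioc 0 L, |∑ n ∈ Icc 1 M, f n * f (n + t)| ≤
        ‖∑ n ∈ Icc 1 M, (∏ i : Fin 0, (ArithmeticFunction.vonMangoldt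
          (n + (Fin.elim0 i : ℕ)) : ℂ)) * ((f n : ℝ) : ℂ) * ((f (n + t) - μ : ℝ) : ℂ)‖ + M * (δ / 16) := by
      intro t _
      have e1 : ∑ n ∈ Icc 1 M, (∏ i : Fin 0, (ArithmeticFunction.vonMangoldt
          (n + (Fin.elim0 i : ℕ)) : ℂ)) * ((f n : ℝ) : ℂ) * ((f (n + t) - μ : ℝ) : ℂ) =
          ((∑ n ∈ Icc 1 M, f n * (f (n + t) - μ) : ℝ) : ℂ) := by
        rw [Complex.ofReal_sum]
        refine Finset.sum_congr rfl fun n _ => ?_
        simp
      rw [e1, Complex.norm_real, Real.norm_eq_abs]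
      have e2 : ∑ n ∈ Icc 1 M, f n * f (n + t) = ∑ n ∈ Icc 1 M, f n * (f (n + t) - μ) +
          (∑ n ∈ Icc 1 M, f n) * μ := by
        rw [Finset.sum_mul, ← Finset.sum_add_distrib]
        exact Finset.sum_congr rfl fun n _ => by ring
      rw [e2]
      refine (abs_add_le _ _).trans (add_le_add le_rfl ?_)
      rw [abs_mul]
      refine mul_le_mul ?_ hμ1 (abs_nonneg _) hM0
      refine (Finset.abs_sum_le_sum_abs _ _).trans ?_
      refine (Finset.sum_le_card_nsmul _ _ 1 fun n _ => hf1 n).trans ?_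
      rw [Nat.card_Icc, nsmul_eq_mul, Nat.add_sub_cancel, mul_one]
    refine (Finset.sum_le_sum h1).trans ?_
    rw [Finset.sum_add_distrib, Finset.sum_const, Nat.card_Ioc, nsmul_eq_mul, Nat.sub_zero]
    have h2 : δ / 8 * L * M = δ / 16 * L * M + L * (M * (δ / 16)) := by ring
    rw [h2]
    exact add_le_add hmain le_rfl
  have hex := wc_expand f hf1 c hc L M
  have h3 : ∑ m ∈ Icc 1 M, ((1 / (L : ℝ)) * ∑ i ∈ range L, c i *
      b (s + ArithmeticFunction.cardFactors (m + i))) ^ 2 =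
      (1 / (L : ℝ)) ^ 2 * ∑ m ∈ Icc 1 M, (∑ i ∈ range L, c i * f (m + i)) ^ 2 := by
    rw [Finset.mul_sum]
    exact Finset.sum_congr rfl fun m _ => by rw [mul_pow]
  rw [h3]
  have h4 : (1 / (L : ℝ)) ^ 2 * ∑ m ∈ Icc 1 M, (∑ i ∈ range L, c i * f (m + i)) ^ 2 ≤
      (1 / (L : ℝ)) ^ 2 * (L * (2 * (δ / 8 * L * M) + M + 2 * (L : ℝ) ^ 2)) := by
    refine mul_le_mul_of_nonneg_left (hex.trans ?_) (by positivity)
    refine mul_le_mul_of_nonneg_left ?_ hL0.le
    linarith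
  refine h4.trans ?_
  have h5 : (1 / (L : ℝ)) ^ 2 * (L * (2 * (δ / 8 * L * M) + M + 2 * (L : ℝ) ^ 2)) =
      δ / 4 * M + 1 / L * M + 2 * L := by
    field_simp
    ring
  rw [h5]
  have h6 : 1 / (L : ℝ) ≤ δ / 8 := by
    rw [div_le_iff₀ hL0]
    rw [div_le_iff₀ hδ] at hL8
    linarith
  have h7 : 4 * (L : ℝ) ≤ δ * M := by
    have h8 : 4 * (L : ℝ) / δ ≤ M := hM2.trans (by exact_mod_cast hMM2)
    rw [div_le_iff₀ hδ] at h8
    linarith
  have h9 : 1 / (L : ℝ) * M ≤ δ / 8 * M := mul_le_mul_of_nonneg_right h6 hM0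
  have h10 : 0 ≤ δ * M := by positivity
  linarith

end Pool.Agent.Helper8.BC
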