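import Pool.Agent.Helper8.BC.Second
import Pool.Agent.Helper8.BC.WinCoef

/-!
# BC-10: the sieve weight against the squares of the windows

PROOF. `Λ = (VV 0 N)⁻¹ ^ k`. For `N ≤ z`: `nuA a 0 z n = nuA a 0 N n + phi a N z n` (`Helper39.SP.nuA_mul`; `phi = nuA a 0 N * (nuA a N z - 1)`), and `nuA a 0 N n ≤ Λ`. So
`nh a z X d h m ≤ Λ + ph a N z X d h m`; more exactly `nh = (nuA a 0 N (d m - h) or 0) + ph`, and `ww^2 ≥ 0`.
(1) `∑_d ∑_h ∑_m Λ ww^2 ≤ Λ |S| H δ M` by `win_coef` (`s = Ω d`, `c i ↦ c d (h + d i)`); take `δ = 1/(N Λ)`: this part is `≤ |S| H M/N`. `L` is the one of `win_coef`.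
(2) Expand the square of `ww`: `∑_(d,h,m) ph ww^2 = (1/L^2) ∑_(i, i' < L) ∑_m ∑_(d, h prim) ph d h m * c d (h + d i) c d (h + d i') * b (Ω d + Ω (m + i)) b (Ω d + Ω (m + i'))`. By periodicity
`b (Ω d + x) = b (Ω d % q + x)` (`x ↦ b (t + x)` depends on `t % q`; see `sm_per` in `DW/Smooth.lean`), so for fixed `i, i'`:
`= ∑_(s < q) ∑_m b (s + Ω (m + i)) b (s + Ω (m + i')) A_s(m)`, `A_s(m) = ∑_(d ∈ S) ∑_(h ∈ Ioc) γ_s d h * ph a N z X d h m`,
`γ_s d h = c d (h + d i) c d (h + d i')` if `Ω d % q = s` and `prim a d h`, and `0` otherwise (`|γ_s| ≤ 1`). In absolute value at most `∑_s ∑_m |A_s m| ≤ ∑_s √(M ∑_m A_s^2) ≤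
q √(C1 (log N)^(2k)/√N) M |S| H` by `second` (for the whole set `S`).
Total `≤ (1/N + q √C1 (log N)^k / √√N) M |S| H ≤ C (log N)^k/√√N * M |S| H` (`log N ≥ 1`, `1/N ≤ 1/√√N`). `M ≥ M0` of `win_coef` follows from `M^2 ≥ X ≥ X0 ≥ M0^2`.
-/

set_option autoImplicit false

namespace Pool.Agent.Helper8.BC

open Finset
open Pool.Agent.Helper40.DB (PP VV DD)
open Pool.Agent.Helper39.SP (nuA phi gg)
open Pool.Agent.Helper8.DW (Per)

private theorem bl_swap1 {α β γ ι : Type} (S : Finset α) (T : α → Finset β) (U : Finset γ)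
    (R : Finset ι) (F : α → β → γ → ι → ℝ) :
    ∑ d ∈ S, ∑ h ∈ T d, ∑ m ∈ U, ∑ i ∈ R, F d h m i =
      ∑ i ∈ R, ∑ d ∈ S, ∑ h ∈ T d, ∑ m ∈ U, F d h m i := by
  symm
  rw [Finset.sum_comm]
  refine Finset.sum_congr rfl fun d _ => ?_
  rw [Finset.sum_comm]
  refine Finset.sum_congr rfl fun h _ => ?_
  rw [Finset.sum_comm]

private theorem bl_swap2 {α β γ ι κ : Type} (S : Finset α) (T : α → Finset β) (U : Finset γ)
    (R : Finset ι) (Q : Finset κ) (F : α → β → γ → ι → κ → ℝ) :
    ∑ d ∈ S, ∑ h ∈ T d, ∑ m ∈ U, ∑ i ∈ R, ∑ j ∈ Q, F d h m i j =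
      ∑ i ∈ R, ∑ j ∈ Q, ∑ d ∈ S, ∑ h ∈ T d, ∑ m ∈ U, F d h m i j := by
  rw [bl_swap1 S T U R (fun d h m i => ∑ j ∈ Q, F d h m i j)]
  refine Finset.sum_congr rfl fun i _ => ?_
  exact bl_swap1 S T U Q (fun d h m j => F d h m i j)

private theorem bl_swap3 {α β γ ι : Type} (S : Finset α) (T : Finset β) (U : Finset γ)
    (R : Finset ι) (F : α → β → γ → ι → ℝ) :
    ∑ d ∈ S, ∑ h ∈ T, ∑ m ∈ U, ∑ i ∈ R, F d h m i =
      ∑ i ∈ R, ∑ m ∈ U, ∑ d ∈ S, ∑ h ∈ T, F d h m i := by
  rw [bl_swap1 S (fun _ => T) U R F]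
  refine Finset.sum_congr rfl fun i _ => ?_
  symm
  rw [Finset.sum_comm]
  refine Finset.sum_congr rfl fun d _ => ?_
  rw [Finset.sum_comm]

private theorem bl_per {q : ℕ} {b : ℕ → ℝ} (hb : Per q b) (t x : ℕ) :
    b (t + x) = b (t % q + x) := by
  have h1 : ∀ k x : ℕ, b (x + q * k) = b x := by
    intro k
    induction k with
    | zero => intro x; simp
    | succ k ih =>
      intro x
      rw [show x + q * (k + 1) = (x + q * k) + q by ring, hb.per, ih]
  have h2 : t + x = (t % q + x) + q * (t / q) := by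
    have := Nat.mod_add_div t q
    omega
  rw [h2, h1]

private theorem bl_nh {k : ℕ} (a : Fin k → ℕ) (N z X d h m : ℕ) (hNz : N ≤ z) :
    nh a z X d h m ≤ (VV 0 N)⁻¹ ^ k + ph a N z X d h m := by
  have h0 : 0 ≤ (VV 0 N)⁻¹ ^ k := by
    have := Pool.Agent.Helper40.DB.VV_pos 0 N
    positivity
  unfold nh ph
  split_ifs with hc
  · rw [← Pool.Agent.Helper39.SP.nuA_mul a N z _ hNz]
    unfold Pool.Agent.Helper39.SP.phi
    have h1 := Pool.Agent.Helper39.SP.nuA_le a 0 N (d * m - h)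
    have h2 : nuA a 0 N (d * m - h) * nuA a N z (d * m - h) =
        nuA a 0 N (d * m - h) + nuA a 0 N (d * m - h) * (nuA a N z (d * m - h) - 1) := by ring
    rw [h2]
    linarith
  · linarith

private theorem bl_expand {α β : Type} (S : Finset α) (T : α → Finset β) (U : Finset ℕ) (L : ℕ)
    (p : α → β → ℕ → ℝ) (x : α → β → ℕ → ℕ → ℝ) (t : ℝ) :
    ∑ d ∈ S, ∑ h ∈ T d, ∑ m ∈ U, p d h m * (t * ∑ i ∈ range L, x d h m i) ^ 2 =
      t ^ 2 * ∑ i ∈ range L, ∑ j ∈ range L, ∑ d ∈ S, ∑ h ∈ T d, ∑ m ∈ U,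
        p d h m * (x d h m i * x d h m j) := by
  rw [← bl_swap2 S T U (range L) (range L) (fun d h m i j => p d h m * (x d h m i * x d h m j)),
    Finset.mul_sum]
  refine Finset.sum_congr rfl fun d _ => ?_
  rw [Finset.mul_sum]
  refine Finset.sum_congr rfl fun h _ => ?_
  rw [Finset.mul_sum]
  refine Finset.sum_congr rfl fun m _ => ?_
  rw [mul_pow, sq (∑ i ∈ range L, x d h m i), Finset.sum_mul_sum]
  simp only [Finset.mul_sum]
  exact Finset.sum_congr rfl fun i _ => Finset.sum_congr rfl fun j _ => by ring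

open Classical in
private theorem bl_res {k : ℕ} (a : Fin k → ℕ) {q : ℕ} {b : ℕ → ℝ} (hb : Per q b)
    (N z X M H y : ℕ) (S : Finset ℕ) (c : ℕ → ℕ → ℝ) (i j : ℕ) :
    ∑ d ∈ S, ∑ h ∈ (Ioc y (y + H)).filter (fun h => prim a d h), ∑ m ∈ Icc 1 M,
      ph a N z X d h m * ((c d (h + d * i) * b (ArithmeticFunction.cardFactors d +
        ArithmeticFunction.cardFactors (m + i))) * (c d (h + d * j) *
          b (ArithmeticFunction.cardFactors d + ArithmeticFunction.cardFactors (m + j)))) =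
    ∑ s ∈ range q, ∑ m ∈ Icc 1 M, b (s + ArithmeticFunction.cardFactors (m + i)) *
      b (s + ArithmeticFunction.cardFactors (m + j)) *
        ∑ d ∈ S, ∑ h ∈ Ioc y (y + H), (if ArithmeticFunction.cardFactors d % q = s ∧ prim a d h then
          c d (h + d * i) * c d (h + d * j) else 0) * ph a N z X d h m := by
  have h1 : ∀ d ∈ S, ∀ h ∈ Ioc y (y + H), ∀ m ∈ Icc 1 M,
      (if prim a d h then
        ph a N z X d h m * ((c d (h + d * i) * b (ArithmeticFunction.cardFactors d +
        ArithmeticFunction.cardFactors (m + i))) * (c d (h + d * j) *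
          b (ArithmeticFunction.cardFactors d + ArithmeticFunction.cardFactors (m + j)))) else 0) =
      ∑ s ∈ range q, b (s + ArithmeticFunction.cardFactors (m + i)) *
        b (s + ArithmeticFunction.cardFactors (m + j)) *
        ((if ArithmeticFunction.cardFactors d % q = s ∧ prim a d h then
          c d (h + d * i) * c d (h + d * j) else 0) * ph a N z X d h m) := by
    intro d _ h _ m _
    rw [Finset.sum_eq_single (ArithmeticFunction.cardFactors d % q)]
    · by_cases hp : prim a d h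
      · rw [if_pos hp, if_pos ⟨rfl, hp⟩, bl_per hb _ (ArithmeticFunction.cardFactors (m + i)),
          bl_per hb _ (ArithmeticFunction.cardFactors (m + j))]
        ring
      · rw [if_neg hp, if_neg (fun hh => hp hh.2)]
        ring
    · intro s _ hs
      rw [if_neg (fun hh => hs hh.1.symm)]
      ring
    · intro hh
      exact absurd (Finset.mem_range.2 (Nat.mod_lt _ hb.pos)) hh
  have h2 : ∑ d ∈ S, ∑ h ∈ (Ioc y (y + H)).filter (fun h => prim a d h), ∑ m ∈ Icc 1 M,
      ph a N z X d h m * ((c d (h + d * i) * b (ArithmeticFunction.cardFactors d +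
        ArithmeticFunction.cardFactors (m + i))) * (c d (h + d * j) *
          b (ArithmeticFunction.cardFactors d + ArithmeticFunction.cardFactors (m + j)))) =
      ∑ d ∈ S, ∑ h ∈ Ioc y (y + H), ∑ m ∈ Icc 1 M,
      ∑ s ∈ range q, b (s + ArithmeticFunction.cardFactors (m + i)) *
        b (s + ArithmeticFunction.cardFactors (m + j)) *
        ((if ArithmeticFunction.cardFactors d % q = s ∧ prim a d h then
          c d (h + d * i) * c d (h + d * j) else 0) * ph a N z X d h m) := by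
    refine Finset.sum_congr rfl fun d hd => ?_
    rw [Finset.sum_filter]
    refine Finset.sum_congr rfl fun h hh => ?_
    by_cases hp : prim a d h
    · rw [if_pos hp]
      refine Finset.sum_congr rfl fun m hm => ?_
      rw [← h1 d hd h hh m hm, if_pos hp]
    · rw [if_neg hp]
      symm
      refine Finset.sum_eq_zero fun m hm => ?_
      rw [← h1 d hd h hh m hm, if_neg hp]
  rw [h2, bl_swap3]
  refine Finset.sum_congr rfl fun s _ => Finset.sum_congr rfl fun m _ => ?_
  rw [Finset.mul_sum]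
  refine Finset.sum_congr rfl fun d _ => ?_
  rw [Finset.mul_sum]

open Classical in
theorem block {k : ℕ} (a : Fin k → ℕ) (ha : Function.Injective a) {q : ℕ} {b : ℕ → ℝ} (hb : Per q b) :
    ∃ C : ℝ, 0 < C ∧ ∃ N0 : ℕ, ∀ N : ℕ, N0 ≤ N → ∃ K : ℝ, 0 < K ∧ ∃ L : ℕ, 1 ≤ L ∧ ∃ X0 : ℕ, ∀ X M z D H y : ℕ,
      X0 ≤ X → X ≤ M ^ 2 → z ^ (160 * (Nat.log 2 N + 2)) ≤ X → N ≤ z →
        1 ≤ D → 2 * D ≤ X → D ≤ H → H ≤ X → y ≤ X → ∀ S ⊆ Ico D (2 * D), (∀ d ∈ S, sg N d ≤ 2 / √N) →
          K * Real.log X ^ k ≤ S.card * H → ∀ c : ℕ → ℕ → ℝ, (∀ d h, |c d h| ≤ 1) →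
            ∑ d ∈ S, ∑ h ∈ (Ioc y (y + H)).filter (fun h => prim a d h), ∑ m ∈ Icc 1 M,
              nh a z X d h m * ww b c L d h m ^ 2 ≤
                C * Real.log N ^ k / √√N * M * (S.card * H) := by
  obtain ⟨C1, hC1, N1, hsec0⟩ := second a ha
  have hq : (0 : ℝ) < q := by exact_mod_cast hb.pos
  refine ⟨1 + q * √C1, by positivity, max N1 3, fun N hN => ?_⟩
  have hN1 : N1 ≤ N := le_trans (le_max_left _ _) hN
  have hN3 : 3 ≤ N := le_trans (le_max_right _ _) hN
  have hN0 : (0 : ℝ) < N := by exact_mod_cast (by omega : 0 < N)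
  have hNge1 : (1 : ℝ) ≤ N := by exact_mod_cast (by omega : 1 ≤ N)
  obtain ⟨K, hK, X1, hsec⟩ := hsec0 N hN1
  have hV := Pool.Agent.Helper40.DB.VV_pos 0 N
  set Lam : ℝ := (VV 0 N)⁻¹ ^ k with hLam
  have hLam0 : 0 < Lam := by
    rw [hLam]
    positivity
  obtain ⟨L, hL, M0, hwin⟩ := win_coef hb (1 / (N * Lam)) (by positivity)
  refine ⟨K, hK, L, hL, max X1 (M0 ^ 2), fun X M z D H y hX hXM hz hNz hD hDX hDH hHX hyX S hS hsg
    hKS c hc => ?_⟩
  have hM0 : M0 ≤ M := by
    have h1 : M0 ^ 2 ≤ M ^ 2 := le_trans (le_trans (le_max_right _ _) hX) hXM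
    exact (Nat.pow_le_pow_iff_left (by norm_num)).1 h1
  have hL0 : (0 : ℝ) < L := by exact_mod_cast hL
  have hlog1 : 1 ≤ Real.log N := by
    rw [Real.le_log_iff_exp_le hN0]
    have h3 : (3 : ℝ) ≤ N := by exact_mod_cast hN3
    have := Real.exp_one_lt_d9
    linarith
  set SH : ℝ := (S.card : ℝ) * H with hSH
  have hSH0 : 0 ≤ SH := by positivity
  have hMn : (0 : ℝ) ≤ M := Nat.cast_nonneg _
  -- the constant of the second part
  set R : ℝ := √C1 * Real.log N ^ k / √√N * M * SH with hR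
  have hR0 : 0 ≤ R := by
    rw [hR]
    positivity
  -- the second part for fixed `i`, `j`
  have hT : ∀ i j : ℕ, |∑ d ∈ S, ∑ h ∈ (Ioc y (y + H)).filter (fun h => prim a d h),
      ∑ m ∈ Icc 1 M,
      ph a N z X d h m * ((c d (h + d * i) * b (ArithmeticFunction.cardFactors d +
        ArithmeticFunction.cardFactors (m + i))) * (c d (h + d * j) *
          b (ArithmeticFunction.cardFactors d + ArithmeticFunction.cardFactors (m + j))))| ≤
      q * R := by
    intro i j
    rw [bl_res a hb N z X M H y S c i j]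
    refine (Finset.abs_sum_le_sum_abs _ _).trans ?_
    have hs : ∀ s ∈ range q, |∑ m ∈ Icc 1 M, b (s + ArithmeticFunction.cardFactors (m + i)) *
      b (s + ArithmeticFunction.cardFactors (m + j)) *
        ∑ d ∈ S, ∑ h ∈ Ioc y (y + H), (if ArithmeticFunction.cardFactors d % q = s ∧ prim a d h then
          c d (h + d * i) * c d (h + d * j) else 0) * ph a N z X d h m| ≤ R := by
      intro s _
      set A : ℕ → ℝ := fun m => ∑ d ∈ S, ∑ h ∈ Ioc y (y + H),
        (if ArithmeticFunction.cardFactors d % q = s ∧ prim a d h then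
          c d (h + d * i) * c d (h + d * j) else 0) * ph a N z X d h m with hA
      have hA2 : ∑ m ∈ Icc 1 M, A m ^ 2 ≤ C1 * Real.log N ^ (2 * k) / √N * M * SH ^ 2 := by
        refine hsec X M z D H y (le_trans (le_max_left _ _) hX) hXM hz hD hDX hDH hHX hyX S hS hsg
          hKS (fun d h => if ArithmeticFunction.cardFactors d % q = s ∧ prim a d h then
          c d (h + d * i) * c d (h + d * j) else 0) ?_ ?_
        · intro d h
          show |if ArithmeticFunction.cardFactors d % q = s ∧ prim a d h then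
            c d (h + d * i) * c d (h + d * j) else 0| ≤ 1
          split_ifs
          · rw [abs_mul]
            exact mul_le_one₀ (hc _ _) (abs_nonneg _) (hc _ _)
          · simp
        · intro d _ h hne
          by_contra hp
          exact hne (if_neg (fun hh => hp hh.2))
      have hA1 : ∑ m ∈ Icc 1 M, |A m| ≤ R := by
        have h1 : (∑ m ∈ Icc 1 M, |A m|) ^ 2 ≤ R ^ 2 := by
          have h2 := sq_sum_le_card_mul_sum_sq (s := Icc 1 M) (f := fun m => |A m|)
          simp only [sq_abs, Nat.card_Icc, Nat.add_sub_cancel] at h2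
          refine h2.trans ((mul_le_mul_of_nonneg_left hA2 hMn).trans (le_of_eq ?_))
          rw [hR]
          have h3 : √C1 ^ 2 = C1 := Real.sq_sqrt hC1.le
          have h4 : √√(N : ℝ) ^ 2 = √N := Real.sq_sqrt (Real.sqrt_nonneg _)
          have h5 : (√C1 * Real.log N ^ k / √√N * M * SH) ^ 2 =
              √C1 ^ 2 * Real.log N ^ (2 * k) / √√N ^ 2 * M ^ 2 * SH ^ 2 := by ring
          rw [h5, h3, h4]
          ring
        exact (pow_le_pow_iff_left₀ (Finset.sum_nonneg fun m _ => abs_nonneg _) hR0 two_ne_zero).1 h1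
      refine (Finset.abs_sum_le_sum_abs _ _).trans (le_trans ?_ hA1)
      refine Finset.sum_le_sum fun m _ => ?_
      rw [abs_mul, abs_mul]
      have h5 : |b (s + ArithmeticFunction.cardFactors (m + i))| *
          |b (s + ArithmeticFunction.cardFactors (m + j))| ≤ 1 :=
        mul_le_one₀ (hb.le _) (abs_nonneg _) (hb.le _)
      exact mul_le_of_le_one_left (abs_nonneg _) h5
    refine (Finset.sum_le_sum hs).trans (le_of_eq ?_)
    rw [Finset.sum_const, Finset.card_range, nsmul_eq_mul]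
  -- the second part
  have hP2 : ∑ d ∈ S, ∑ h ∈ (Ioc y (y + H)).filter (fun h => prim a d h), ∑ m ∈ Icc 1 M,
      ph a N z X d h m * ww b c L d h m ^ 2 ≤ q * R := by
    unfold ww
    rw [bl_expand S (fun d => (Ioc y (y + H)).filter (fun h => prim a d h)) (Icc 1 M) L
      (fun d h m => ph a N z X d h m) (fun d h m i => c d (h + d * i) *
        b (ArithmeticFunction.cardFactors d + ArithmeticFunction.cardFactors (m + i)))]
    have h1 : ∑ i ∈ range L, ∑ j ∈ range L, ∑ d ∈ S,
        ∑ h ∈ (Ioc y (y + H)).filter (fun h => prim a d h), ∑ m ∈ Icc 1 M,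
        ph a N z X d h m * ((c d (h + d * i) * b (ArithmeticFunction.cardFactors d +
        ArithmeticFunction.cardFactors (m + i))) * (c d (h + d * j) *
          b (ArithmeticFunction.cardFactors d + ArithmeticFunction.cardFactors (m + j)))) ≤
        ∑ _i ∈ range L, ∑ _j ∈ range L, (q * R) :=
      Finset.sum_le_sum fun i _ => Finset.sum_le_sum fun j _ => (le_abs_self _).trans (hT i j)
    rw [Finset.sum_const, Finset.sum_const, Finset.card_range, nsmul_eq_mul, nsmul_eq_mul] at h1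
    calc (1 / (L : ℝ)) ^ 2 * _ ≤ (1 / (L : ℝ)) ^ 2 * (L * (L * (q * R))) :=
          mul_le_mul_of_nonneg_left h1 (by positivity)
      _ = q * R := by
          field_simp
  -- the first part
  have hP1 : ∑ d ∈ S, ∑ h ∈ (Ioc y (y + H)).filter (fun h => prim a d h), ∑ m ∈ Icc 1 M,
      Lam * ww b c L d h m ^ 2 ≤ 1 / N * M * SH := by
    have h1 : ∀ d ∈ S, ∑ h ∈ (Ioc y (y + H)).filter (fun h => prim a d h), ∑ m ∈ Icc 1 M,
        Lam * ww b c L d h m ^ 2 ≤ H * (1 / N * M) := by
      intro d _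
      have h2 : ∀ h ∈ (Ioc y (y + H)).filter (fun h => prim a d h), ∑ m ∈ Icc 1 M,
          Lam * ww b c L d h m ^ 2 ≤ 1 / N * M := by
        intro h _
        rw [← Finset.mul_sum]
        have h3 := hwin M hM0 (ArithmeticFunction.cardFactors d) (fun i => c d (h + d * i))
          (fun i => hc _ _)
        calc Lam * ∑ m ∈ Icc 1 M, ww b c L d h m ^ 2 ≤ Lam * (1 / (N * Lam) * M) :=
              mul_le_mul_of_nonneg_left h3 hLam0.le
          _ = 1 / N * M := by
              field_simp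
      refine (Finset.sum_le_sum h2).trans ?_
      rw [Finset.sum_const, nsmul_eq_mul]
      refine mul_le_mul_of_nonneg_right ?_ (by positivity)
      have h4 : ((Ioc y (y + H)).filter (fun h => prim a d h)).card ≤ H := by
        refine (Finset.card_filter_le _ _).trans (le_of_eq ?_)
        rw [Nat.card_Ioc]
        omega
      exact_mod_cast h4
    refine (Finset.sum_le_sum h1).trans (le_of_eq ?_)
    rw [Finset.sum_const, nsmul_eq_mul, hSH]
    ring
  have htot : ∑ d ∈ S, ∑ h ∈ (Ioc y (y + H)).filter (fun h => prim a d h), ∑ m ∈ Icc 1 M,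
      nh a z X d h m * ww b c L d h m ^ 2 ≤ 1 / N * M * SH + q * R := by
    refine le_trans ?_ (add_le_add hP1 hP2)
    rw [← Finset.sum_add_distrib]
    refine Finset.sum_le_sum fun d _ => ?_
    rw [← Finset.sum_add_distrib]
    refine Finset.sum_le_sum fun h _ => ?_
    rw [← Finset.sum_add_distrib]
    refine Finset.sum_le_sum fun m _ => ?_
    rw [← add_mul]
    exact mul_le_mul_of_nonneg_right (bl_nh a N z X d h m hNz) (sq_nonneg _)
  refine htot.trans ?_
  have hs1 : (1 : ℝ) / N ≤ Real.log N ^ k / √√N := by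
    have h1 : √√(N : ℝ) ≤ N := by
      have h2 : √(N : ℝ) ≤ N := by
        rw [Real.sqrt_le_left hN0.le]
        nlinarith
      have h3 : √√(N : ℝ) ≤ √N := by
        refine Real.sqrt_le_sqrt h2
      exact h3.trans h2
    have h4 : (0 : ℝ) < √√N := by positivity
    have h5 : (1 : ℝ) ≤ Real.log N ^ k := one_le_pow₀ hlog1
    rw [div_le_div_iff₀ hN0 h4]
    nlinarith
  have hMS : 0 ≤ (M : ℝ) * SH := by positivity
  calc 1 / (N : ℝ) * M * SH + q * R = (1 / N) * (M * SH) + q * R := by ring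
    _ ≤ (Real.log N ^ k / √√N) * (M * SH) + q * R :=
        add_le_add (mul_le_mul_of_nonneg_right hs1 hMS) le_rfl
    _ = (1 + q * √C1) * Real.log N ^ k / √√N * M * SH := by
        rw [hR]
        ring

end Pool.Agent.Helper8.BC
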