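import Pool.Agent.Helper8.BC.Defs
import Pool.Agent.Helper40.DB.Fund

/-!
# BC-01: the fundamental lemma for a set of linear forms

MODEL: `Pool/Agent/Helper39/SP/CorrD.lean` (theorem `corrD`; there all forms are `W m + d`).
PROOF. `C` is the constant of `Helper40.DB.fund t`, `P = PP N z` (primes `N < p ≤ z`, so `t < p`), `E = Nat.log 2 z`. With `m = u + x`, `x ∈ Icc 1 M`, let
`Z p = {x ∈ range p | ∃ L ∈ s, p ∣ L.1 (u + x) + L.2}`. The condition in `nuL` on `m = u + x` is: `x % p ∉ Z p` for all `p ∈ P` (`p ∣ L.1 (u + x) + L.2` depends on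
`x % p` only). `(Z p).card = rhoL s p` (the map `x ↦ (u + x) % p` is a bijection of `range p` to itself which maps `Z p` to the set in `rhoL`).
`rhoL s p ≤ s.card ≤ t`: by `PrimN` a form `L` with `p ∣ L.1` has no root (then `¬ p ∣ L.2`) and a form with `¬ p ∣ L.1` has exactly one root in `range p`.
Multiply `fund` by `V⁻¹ ^ s.card`, `V = VV N z = ∏ (1 - 1/p)`: `V⁻¹ ^ s.card ∏ (1 - rhoL/p) = SSL N z s`.
`rhoL_le` (also used in BC-02) is the bound of the number of roots.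
-/

set_option autoImplicit false

namespace Pool.Agent.Helper8.BC

open Finset
open Pool.Agent.Helper40.DB (PP VV DD)

private lemma root_mod (p w : ℕ) (a b : ℤ) :
    (p : ℤ) ∣ a * ((w % p : ℕ) : ℤ) + b ↔ (p : ℤ) ∣ a * (w : ℤ) + b := by
  have h : (w : ℤ) = ((w % p : ℕ) : ℤ) + p * ((w / p : ℕ) : ℤ) := by
    exact_mod_cast (Nat.mod_add_div w p).symm
  have e : a * (w : ℤ) + b = (a * ((w % p : ℕ) : ℤ) + b) + p * (a * ((w / p : ℕ) : ℤ)) := by
    conv_lhs => rw [h]
    ring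
  rw [e]
  exact (dvd_add_left (Dvd.intro _ rfl)).symm

theorem rhoL_le (N z : ℕ) (s : Finset (ℤ × ℤ)) (hs : PrimN N z s) (p : ℕ) (hp : p ∈ PP N z) :
    rhoL s p ≤ s.card := by
  classical
  have hpr : p.Prime := by
    unfold PP at hp
    exact (mem_filter.1 hp).2
  unfold rhoL
  have hsub : ((range p).filter fun x : ℕ => ∃ L ∈ s, (p : ℤ) ∣ L.1 * x + L.2) ⊆
      s.biUnion (fun L => (range p).filter fun x : ℕ => (p : ℤ) ∣ L.1 * x + L.2) := by
    intro x hx
    rw [mem_filter] at hx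
    obtain ⟨hx1, L, hL, hLd⟩ := hx
    rw [mem_biUnion]
    exact ⟨L, hL, mem_filter.2 ⟨hx1, hLd⟩⟩
  refine le_trans (le_of_eq ?_) ((card_le_card hsub).trans (card_biUnion_le.trans ?_))
  · congr
  have h1 : ∀ L ∈ s, ((range p).filter fun x : ℕ => (p : ℤ) ∣ L.1 * x + L.2).card ≤ 1 := by
    intro L hL
    rw [card_le_one]
    intro x hx y hy
    rw [mem_filter, mem_range] at hx hy
    have h2 : (p : ℤ) ∣ L.1 * ((x : ℤ) - y) := by
      have := dvd_sub hx.2 hy.2
      have e : L.1 * (x : ℤ) + L.2 - (L.1 * y + L.2) = L.1 * ((x : ℤ) - y) := by ring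
      rwa [e] at this
    rcases (Nat.prime_iff_prime_int.1 hpr).dvd_or_dvd h2 with h3 | h3
    · exfalso
      exact hs p hp L hL ⟨h3, (dvd_add_right (h3.mul_right _)).1 hx.2⟩
    · have h4 : ((x : ℤ) - y) = 0 := Int.eq_zero_of_abs_lt_dvd h3 (by rw [abs_lt]; omega)
      omega
  calc ∑ L ∈ s, ((range p).filter fun x : ℕ => (p : ℤ) ∣ L.1 * x + L.2).card ≤ ∑ _L ∈ s, 1 :=
        sum_le_sum h1
    _ = s.card := by simp

/-- The forbidden residue classes. -/
private noncomputable def forb (u : ℕ) (s : Finset (ℤ × ℤ)) (p : ℕ) : Finset ℕ :=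
  open Classical in (range p).filter fun x : ℕ => ∃ L ∈ s, (p : ℤ) ∣ L.1 * ((u + x : ℕ) : ℤ) + L.2

private lemma mem_forb (u : ℕ) (s : Finset (ℤ × ℤ)) {p : ℕ} (hp : 0 < p) (x : ℕ) :
    x % p ∈ forb u s p ↔ ∃ L ∈ s, (p : ℤ) ∣ L.1 * ((u + x : ℕ) : ℤ) + L.2 := by
  classical
  unfold forb
  rw [mem_filter, mem_range]
  have h : ∀ L : ℤ × ℤ, (p : ℤ) ∣ L.1 * ((u + x % p : ℕ) : ℤ) + L.2 ↔
      (p : ℤ) ∣ L.1 * ((u + x : ℕ) : ℤ) + L.2 := by
    intro L
    rw [← root_mod p (u + x % p), ← root_mod p (u + x), Nat.add_mod_mod]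
  constructor
  · rintro ⟨-, L, hL, hd⟩
    exact ⟨L, hL, (h L).1 hd⟩
  · rintro ⟨L, hL, hd⟩
    exact ⟨Nat.mod_lt _ hp, L, hL, (h L).2 hd⟩

private lemma forb_card (u : ℕ) (s : Finset (ℤ × ℤ)) {p : ℕ} (hp : 0 < p) :
    (forb u s p).card = rhoL s p := by
  classical
  unfold forb rhoL
  apply le_antisymm
  · refine card_le_card_of_injOn (fun x => (u + x) % p) ?_ ?_
    · intro x hx
      rw [mem_coe, mem_filter, mem_range] at hx
      obtain ⟨-, L, hL, hd⟩ := hx
      rw [mem_coe, mem_filter, mem_range]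
      exact ⟨Nat.mod_lt _ hp, L, hL, (root_mod p (u + x) L.1 L.2).2 hd⟩
    · intro x hx y hy hxy
      rw [mem_coe, mem_filter, mem_range] at hx hy
      have h1 : u + x ≡ u + y [MOD p] := hxy
      have h2 : x ≡ y [MOD p] := Nat.ModEq.add_left_cancel' u h1
      exact h2.eq_of_lt_of_lt hx.1 hy.1
  · refine card_le_card_of_injOn (fun y => (y + (p - u % p)) % p) ?_ ?_
    · intro y hy
      rw [mem_coe, mem_filter, mem_range] at hy
      obtain ⟨-, L, hL, hd⟩ := hy
      rw [mem_coe, mem_filter, mem_range]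
      refine ⟨Nat.mod_lt _ hp, L, hL, ?_⟩
      have h1 : (u + (y + (p - u % p)) % p) % p = y % p := by
        rw [Nat.add_mod_mod]
        have h2 : u % p < p := Nat.mod_lt _ hp
        have h3 : u + (y + (p - u % p)) = y + p * (u / p + 1) := by
          have h4 := Nat.mod_add_div u p
          rw [Nat.mul_add, mul_one]
          omega
        rw [h3, Nat.add_mul_mod_self_left]
      rw [← root_mod p, h1, root_mod p]
      exact hd
    · intro x hx y hy hxy
      rw [mem_coe, mem_filter, mem_range] at hx hy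
      have h1 : x + (p - u % p) ≡ y + (p - u % p) [MOD p] := hxy
      have h2 : x ≡ y [MOD p] := Nat.ModEq.add_right_cancel' _ h1
      exact h2.eq_of_lt_of_lt hx.1 hy.1

private lemma VV_pos' (N z : ℕ) : 0 < VV N z := by
  unfold VV
  apply prod_pos
  intro p hp
  have h1 : p.Prime := (mem_filter.1 hp).2
  have h2 : (2 : ℝ) ≤ p := by exact_mod_cast h1.two_le
  have h3 : 1 / (p : ℝ) ≤ 1 / 2 := one_div_le_one_div_of_le (by norm_num) h2
  linarith

theorem corrL (t : ℕ) : ∃ C : ℝ, 0 ≤ C ∧ ∀ N z : ℕ, t ≤ N → ∀ s : Finset (ℤ × ℤ), s.card ≤ t → PrimN N z s →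
    ∀ b : ℕ, 1 ≤ b → ∀ u M : ℕ,
      |∑ m ∈ Ioc u (u + M), nuL N z s m - M * SSL N z s| ≤
        C * (1 / 4) ^ b * (M * SSL N z s) +
          (VV N z)⁻¹ ^ s.card * ((2 * Nat.log 2 z + 3) * 2 ^ (20 * Nat.log 2 z * (b + 2))) := by
  classical
  obtain ⟨C, hC0, hC⟩ := Pool.Agent.Helper40.DB.fund t
  refine ⟨C, hC0, ?_⟩
  intro N z hN s hst hs b hb u M
  have hP : ∀ p ∈ PP N z, p.Prime ∧ t < p := by
    intro p hp
    unfold PP at hp
    rw [mem_filter, mem_Ioc] at hp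
    exact ⟨hp.2, lt_of_le_of_lt hN hp.1.1⟩
  have hlog : ∀ p ∈ PP N z, Nat.log 2 p ≤ Nat.log 2 z := by
    intro p hp
    unfold PP at hp
    rw [mem_filter, mem_Ioc] at hp
    exact Nat.log_mono_right hp.1.2
  have hZ : ∀ p ∈ PP N z, forb u s p ⊆ range p ∧ (forb u s p).card ≤ t := by
    intro p hp
    refine ⟨?_, ?_⟩
    · unfold forb
      exact filter_subset _ _
    · rw [forb_card u s (hP p hp).1.pos]
      exact (rhoL_le N z s hs p hp).trans hst
  have hf := hC (PP N z) hP (Nat.log 2 z) hlog (forb u s) hZ b hb M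
  set S : Finset ℕ := (Icc 1 M).filter (fun m => ∀ p ∈ PP N z, m % p ∉ forb u s p) with hS
  have hprod : ∏ p ∈ PP N z, (1 - ((forb u s p).card : ℝ) / p) =
      ∏ p ∈ PP N z, (1 - (rhoL s p : ℝ) / p) := by
    apply prod_congr rfl
    intro p hp
    rw [forb_card u s (hP p hp).1.pos]
  rw [hprod] at hf
  have hsum : ∑ m ∈ Ioc u (u + M), nuL N z s m = (VV N z)⁻¹ ^ s.card * S.card := by
    have h1 : ∑ m ∈ Ioc u (u + M), nuL N z s m = ∑ x ∈ Icc 1 M, nuL N z s (u + x) := by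
      refine sum_nbij' (fun m => m - u) (fun x => u + x) ?_ ?_ ?_ ?_ ?_
      · intro m hm
        rw [mem_Ioc] at hm
        rw [mem_Icc]
        omega
      · intro x hx
        rw [mem_Icc] at hx
        rw [mem_Ioc]
        omega
      · intro m hm
        rw [mem_Ioc] at hm
        omega
      · intro x hx
        rw [mem_Icc] at hx
        omega
      · intro m hm
        rw [mem_Ioc] at hm
        congr 1
        omega
    rw [h1]
    have h2 : ∀ x ∈ Icc 1 M, nuL N z s (u + x) =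
        if ∀ p ∈ PP N z, x % p ∉ forb u s p then (VV N z)⁻¹ ^ s.card else 0 := by
      intro x _
      unfold nuL
      have h3 : (∀ p ∈ PP N z, ∀ L ∈ s, ¬ (p : ℤ) ∣ L.1 * ((u + x : ℕ) : ℤ) + L.2) ↔
          ∀ p ∈ PP N z, x % p ∉ forb u s p := by
        constructor
        · intro h p hp hx
          obtain ⟨L, hL, hdv⟩ := (mem_forb u s (hP p hp).1.pos x).1 hx
          exact h p hp L hL hdv
        · intro h p hp L hL hdv
          exact h p hp ((mem_forb u s (hP p hp).1.pos x).2 ⟨L, hL, hdv⟩)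
      by_cases h4 : ∀ p ∈ PP N z, x % p ∉ forb u s p
      · rw [if_pos h4, if_pos (h3.2 h4)]
      · rw [if_neg h4, if_neg (fun h => h4 (h3.1 h))]
    rw [sum_congr rfl h2, ← sum_filter, sum_const, nsmul_eq_mul, mul_comm]
  have hSS : SSL N z s = (VV N z)⁻¹ ^ s.card * ∏ p ∈ PP N z, (1 - (rhoL s p : ℝ) / p) := by
    unfold SSL VV
    rw [prod_div_distrib, prod_pow, inv_pow, div_eq_mul_inv, mul_comm]
  have hV := VV_pos' N z
  rw [hsum, hSS]
  set U : ℝ := (VV N z)⁻¹ ^ s.card with hU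
  have hU0 : 0 < U := by positivity
  set R : ℝ := ∏ p ∈ PP N z, (1 - (rhoL s p : ℝ) / p) with hR
  have e1 : U * (S.card : ℝ) - M * (U * R) = U * ((S.card : ℝ) - M * R) := by ring
  rw [e1, abs_mul, abs_of_pos hU0]
  calc U * |(S.card : ℝ) - M * R|
      ≤ U * (C * (1 / 4) ^ b * (M * R) +
          (2 * Nat.log 2 z + 3) * 2 ^ (20 * Nat.log 2 z * (b + 2))) :=
        mul_le_mul_of_nonneg_left hf hU0.le
    _ = C * (1 / 4) ^ b * (M * (U * R)) +
          U * ((2 * Nat.log 2 z + 3) * 2 ^ (20 * Nat.log 2 z * (b + 2))) := by ring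

end Pool.Agent.Helper8.BC
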