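import Pool.Agent.Helper39.SP.Merten
import Pool.Agent.Helper8.DW.Root

/-!
# Project BC (MP_e6fa8b_nt): Hardy-Littlewood-Chowla on average below the critical range: definitions

Memo: `/team-store/memo_MP_e6fa8b_nt_helper8_BC.md`.
-/

set_option autoImplicit false

namespace Pool.Agent.Helper8.BC

open Finset
open Pool.Agent.Helper40.DB (PP VV DD)
open Pool.Agent.Helper39.SP (nuA phi gg)
open Pool.Agent.Helper8.DW (vv mul Per)

/-- The normalised indicator function of the `m` at which no form of `s` has a prime factor in `(N, z]`. -/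
noncomputable def nuL (N z : ℕ) (s : Finset (ℤ × ℤ)) (m : ℕ) : ℝ :=
  open Classical in if ∀ p ∈ PP N z, ∀ L ∈ s, ¬ (p : ℤ) ∣ L.1 * m + L.2 then (VV N z)⁻¹ ^ s.card else 0

/-- The number of the roots of the forms modulo `p`. -/
noncomputable def rhoL (s : Finset (ℤ × ℤ)) (p : ℕ) : ℕ :=
  open Classical in ((range p).filter fun x : ℕ => ∃ L ∈ s, (p : ℤ) ∣ L.1 * x + L.2).card

/-- The singular series of the forms over the primes in `(N, z]`. -/
noncomputable def SSL (N z : ℕ) (s : Finset (ℤ × ℤ)) : ℝ :=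
  ∏ p ∈ PP N z, ((1 - (rhoL s p : ℝ) / p) / (1 - 1 / (p : ℝ)) ^ s.card)

/-- The forms are primitive at the primes in `(N, z]`. -/
def PrimN (N z : ℕ) (s : Finset (ℤ × ℤ)) : Prop :=
  ∀ p ∈ PP N z, ∀ L ∈ s, ¬ ((p : ℤ) ∣ L.1 ∧ (p : ℤ) ∣ L.2)

/-- The forms `d m - h + a i` are primitive. -/
def prim {k : ℕ} (a : Fin k → ℕ) (d h : ℕ) : Prop := ∀ i, Int.gcd d ((a i : ℤ) - h) = 1

/-- The forms `D m + (a i + e)`. -/
def fm {k : ℕ} (a : Fin k → ℕ) (D e : ℤ) : Finset (ℤ × ℤ) := univ.image fun i => (D, (a i : ℤ) + e)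

/-- The sum of `1 / p` over the prime divisors `p > N` of `d`. -/
noncomputable def sg (N d : ℕ) : ℝ := ∑ p ∈ d.primeFactors.filter (fun p => N < p), (1 : ℝ) / p

/-- The determinant of the forms `d m - h + u` and `d' m - h' + u'`. -/
def del (d h u d' h' u' : ℕ) : ℤ := (d' : ℤ) * ((h : ℤ) - u) - d * ((h' : ℤ) - u')

/-- `phi` on the line `n = d m - h`, for `1 ≤ n ≤ X`. -/
noncomputable def ph {k : ℕ} (a : Fin k → ℕ) (N z X d h m : ℕ) : ℝ :=
  if h < d * m ∧ d * m ≤ X + h then phi a N z (d * m - h) else 0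

/-- The sieve weight on the line `n = d m - h`, for `1 ≤ n ≤ X`. -/
noncomputable def nh {k : ℕ} (a : Fin k → ℕ) (z X d h m : ℕ) : ℝ :=
  if h < d * m ∧ d * m ≤ X + h then nuA a 0 z (d * m - h) else 0

/-- The short windows with coefficients. -/
noncomputable def ww (b : ℕ → ℝ) (c : ℕ → ℕ → ℝ) (L d h m : ℕ) : ℝ :=
  (1 / (L : ℝ)) * ∑ i ∈ range L, c d (h + d * i) *
    b (ArithmeticFunction.cardFactors d + ArithmeticFunction.cardFactors (m + i))

/-- The sums over the multiples of `d` in the window, with coefficients. -/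
noncomputable def Tc (b : ℕ → ℝ) (c : ℕ → ℕ → ℝ) (y H n d e : ℕ) : ℝ :=
  |∑ h ∈ mul n e y H, c d h * b (ArithmeticFunction.cardFactors (n + h))|

/-- The same with complex coefficients. -/
noncomputable def TC (b : ℕ → ℝ) (c : ℕ → ℕ → ℂ) (y H n d e : ℕ) : ℝ :=
  ‖∑ h ∈ mul n e y H, c d h * ((b (ArithmeticFunction.cardFactors (n + h)) : ℝ) : ℂ)‖

/-- The primes in `(R ^ u, R ^ v]`. -/
noncomputable def PU (R : ℕ) (u v : ℝ) : Finset ℕ :=
  (Ioc ⌊(R : ℝ) ^ u⌋₊ ⌊(R : ℝ) ^ v⌋₊).filter Nat.Prime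

end Pool.Agent.Helper8.BC
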