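import Pool.Agent.Helper8.BC.Defs
import Pool.Agent.Helper8.DW.Prm

/-!
# BC-16: the mass of the primes, and the bad `d`

MODEL for `mass`: `prm_mass` in `Pool/Agent/Helper8/DW/Prm.lean` (it uses `Pool.Agent.Helper32.M3.W_tendsto`: `∑_(p ≤ n) 1/p - log log n → c`).
`mass`: `∑_(p ∈ PU R u v) 1/p = W(⌊R^v⌋) - W(⌊R^u⌋)`, both floors tend to infinity, `log log ⌊R^v⌋ - log log ⌊R^u⌋ → log (v/u)` (`log ⌊x⌋ / log x → 1`; e.g. `x/2 ≤ ⌊x⌋ ≤ x`, so
`log ⌊R^v⌋ ≥ v log R - log 2`, `log ⌊R^u⌋ ≤ u log R`, and `log ((v log R - log 2)/(u log R)) → log (v/u)`). Only the lower bound is needed.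
`bad_sum`: `∑_(d ∈ Ico D (2 D)) sg N d = ∑_(N < p < 2 D) (1/p) #{d : p ∣ d} ≤ ∑_(p > N) (1/p)(3 D/p) ≤ 3 D/N` (`#{d ∈ [D, 2D) : p ∣ d} ≤ D/p + 1 ≤ 3 D/p` for `p < 2 D`; `∑_(n > N) 1/n^2 ≤ 1/N`).
`bad_card`: so the number of the `d` with `1/√N < sg N d` is at most `√N 3 D/N = 3 D/√N`.
-/

set_option autoImplicit false

namespace Pool.Agent.Helper8.BC

open Finset Filter Topology

private theorem fl_tendsto (v : ℝ) (hv : 0 < v) :
    Tendsto (fun R : ℕ => ⌊(R : ℝ) ^ v⌋₊) atTop atTop :=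
  (tendsto_nat_floor_atTop (α := ℝ)).comp ((tendsto_rpow_atTop hv).comp tendsto_natCast_atTop_atTop)

private theorem log_fl (v : ℝ) (hv : 0 < v) :
    Tendsto (fun R : ℕ => Real.log (Real.log (⌊(R : ℝ) ^ v⌋₊ : ℝ)) - Real.log (Real.log (R : ℝ))) atTop
      (𝓝 (Real.log v)) := by
  have h1 : Tendsto (fun R : ℕ => (R : ℝ) ^ v) atTop atTop :=
    (tendsto_rpow_atTop hv).comp tendsto_natCast_atTop_atTop
  have h2 : Tendsto (fun R : ℕ => (⌊(R : ℝ) ^ v⌋₊ : ℝ) / (R : ℝ) ^ v) atTop (𝓝 1) :=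
    (tendsto_nat_floor_div_atTop (R := ℝ)).comp h1
  have h3 : Tendsto (fun R : ℕ => Real.log ((⌊(R : ℝ) ^ v⌋₊ : ℝ) / (R : ℝ) ^ v)) atTop (𝓝 0) := by
    have := (Real.continuousAt_log (one_ne_zero)).tendsto.comp h2
    rwa [Real.log_one] at this
  have h4 : Tendsto (fun R : ℕ => Real.log (R : ℝ)) atTop atTop :=
    Real.tendsto_log_atTop.comp tendsto_natCast_atTop_atTop
  have h5 : Tendsto (fun R : ℕ => v + Real.log ((⌊(R : ℝ) ^ v⌋₊ : ℝ) / (R : ℝ) ^ v) * (Real.log (R : ℝ))⁻¹) atTop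
      (𝓝 (v + 0 * 0)) := (h3.mul h4.inv_tendsto_atTop).const_add v
  rw [mul_zero, add_zero] at h5
  have h6 := (Real.continuousAt_log hv.ne').tendsto.comp h5
  refine h6.congr' ?_
  have e1 := h1.eventually_ge_atTop 1
  have e2 := (fl_tendsto v hv).eventually_ge_atTop 2
  have e3 := h4.eventually_gt_atTop 0
  have e4 := eventually_ge_atTop 1 (α := ℕ)
  filter_upwards [e1, e2, e3, e4] with R hR1 hR2 hR3 hR4
  simp only [Function.comp_apply]
  have hx : (0 : ℝ) < (R : ℝ) ^ v := by linarith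
  have hR0 : (0 : ℝ) < R := by exact_mod_cast hR4
  have hf : (2 : ℝ) ≤ (⌊(R : ℝ) ^ v⌋₊ : ℝ) := by exact_mod_cast hR2
  have hlf : 0 < Real.log (⌊(R : ℝ) ^ v⌋₊ : ℝ) := Real.log_pos (by linarith)
  rw [← Real.log_div hlf.ne' hR3.ne']
  congr 1
  rw [Real.log_div (by linarith) hx.ne', Real.log_rpow hR0]
  field_simp
  ring

theorem mass (u v η : ℝ) (hu : 0 < u) (huv : u < v) (hη : 0 < η) : ∃ R0 : ℕ, ∀ R : ℕ, R0 ≤ R →
    Real.log (v / u) - η ≤ ∑ p ∈ PU R u v, (1 : ℝ) / p := by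
  obtain ⟨c, hc⟩ := Pool.Agent.Helper32.M3.W_tendsto
  have hv : 0 < v := hu.trans huv
  have h1 := hc.comp (fl_tendsto v hv)
  have h2 := hc.comp (fl_tendsto u hu)
  have h3 := (h1.sub h2).add ((log_fl v hv).sub (log_fl u hu))
  rw [sub_self, zero_add, ← Real.log_div hv.ne' hu.ne'] at h3
  have h4 : ∀ᶠ R : ℕ in atTop, Real.log (v / u) - η ≤ ∑ p ∈ PU R u v, (1 : ℝ) / p := by
    have h5 := h3.eventually_const_lt (show Real.log (v / u) - η < Real.log (v / u) by linarith)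
    filter_upwards [h5, eventually_ge_atTop 1 (α := ℕ)] with R hR hR1
    simp only [Function.comp_apply] at hR
    have hR1' : (1 : ℝ) ≤ R := by exact_mod_cast hR1
    have hle : ⌊(R : ℝ) ^ u⌋₊ ≤ ⌊(R : ℝ) ^ v⌋₊ :=
      Nat.floor_mono (Real.rpow_le_rpow_of_exponent_le hR1' huv.le)
    have h6 : Pool.Agent.Helper16.UB.W ⌊(R : ℝ) ^ v⌋₊ =
        Pool.Agent.Helper16.UB.W ⌊(R : ℝ) ^ u⌋₊ + ∑ p ∈ PU R u v, (1 : ℝ) / p := by
      unfold Pool.Agent.Helper16.UB.W Pool.Agent.Helper16.UB.PL PU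
      generalize ⌊(R : ℝ) ^ u⌋₊ = a at *
      generalize ⌊(R : ℝ) ^ v⌋₊ = b at *
      rw [← Finset.sum_union]
      · refine Finset.sum_congr ?_ fun _ _ => rfl
        ext p
        simp only [Finset.mem_filter, Finset.mem_union, Finset.mem_Ioc, Finset.mem_Icc]
        constructor
        · rintro ⟨h6, h7⟩
          have := h7.one_lt
          by_cases h8 : p ≤ a
          · left; refine ⟨?_, h7⟩; omega
          · right; refine ⟨?_, h7⟩; omega
        · rintro (⟨h6, h7⟩ | ⟨h6, h7⟩)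
          · refine ⟨?_, h7⟩; omega
          · refine ⟨?_, h7⟩
            have := h7.one_lt
            omega
      · rw [Finset.disjoint_left]
        intro p hp hp'
        simp only [Finset.mem_filter, Finset.mem_Ioc, Finset.mem_Icc] at hp hp'
        omega
    linarith
  exact eventually_atTop.1 h4

private theorem card_mult (D p : ℕ) (hD : 1 ≤ D) (hp : 1 ≤ p) (hp2 : p ≤ 2 * D) :
    ((((Ico D (2 * D)).filter (fun d => p ∣ d)).card : ℕ) : ℝ) ≤ 3 * D / p := by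
  have h1 : (Ico D (2 * D)).filter (fun d => p ∣ d) ∪ (Ioc 0 (D - 1)).filter (fun d => p ∣ d) ⊆
      (Ioc 0 (2 * D - 1)).filter (fun d => p ∣ d) := by
    intro x hx
    simp only [mem_union, mem_filter, mem_Ico, mem_Ioc] at hx ⊢
    rcases hx with ⟨h, h'⟩ | ⟨h, h'⟩
    · exact ⟨by omega, h'⟩
    · exact ⟨by omega, h'⟩
  have h2 : Disjoint ((Ico D (2 * D)).filter (fun d => p ∣ d)) ((Ioc 0 (D - 1)).filter (fun d => p ∣ d)) := by
    rw [Finset.disjoint_left]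
    intro x hx hx'
    simp only [mem_filter, mem_Ico, mem_Ioc] at hx hx'
    omega
  have h3 := card_le_card h1
  rw [card_union_of_disjoint h2, Nat.Ioc_filter_dvd_card_eq_div, Nat.Ioc_filter_dvd_card_eq_div] at h3
  have hpR : (0 : ℝ) < p := by exact_mod_cast hp
  have h4 : p * ((Ico D (2 * D)).filter (fun d => p ∣ d)).card ≤ D + p := by
    have h5 : p * ((2 * D - 1) / p) ≤ 2 * D - 1 := Nat.mul_div_le _ _
    have h6 : D - 1 < p * ((D - 1) / p + 1) := by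
      have := Nat.lt_mul_div_succ (D - 1) (show 0 < p by omega)
      simpa using this
    have h7 := Nat.mul_le_mul_left p h3
    rw [mul_add] at h7 h6
    omega
  rw [le_div_iff₀ hpR]
  have h5 : ((p * ((Ico D (2 * D)).filter (fun d => p ∣ d)).card : ℕ) : ℝ) ≤ ((D + p : ℕ) : ℝ) := by
    exact_mod_cast h4
  push_cast at h5
  have h6 : (p : ℝ) ≤ 2 * D := by exact_mod_cast hp2
  linarith

theorem bad_sum (N D : ℕ) (hN : 1 ≤ N) (hD : 1 ≤ D) : ∑ d ∈ Ico D (2 * D), sg N d ≤ 3 * D / N := by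
  have hDR : (0 : ℝ) < D := by exact_mod_cast hD
  have hNR : (0 : ℝ) < N := by exact_mod_cast hN
  have h1 : ∀ d ∈ Ico D (2 * D), sg N d ≤ ∑ p ∈ Ioc N (2 * D), if p ∣ d then (1 : ℝ) / p else 0 := by
    intro d hd
    rw [mem_Ico] at hd
    unfold sg
    rw [← Finset.sum_filter]
    refine Finset.sum_le_sum_of_subset_of_nonneg ?_ fun _ _ _ => by positivity
    intro p hp
    simp only [mem_filter, Nat.mem_primeFactors] at hp
    simp only [mem_filter, mem_Ioc]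
    have := Nat.le_of_dvd (by omega) hp.1.2.1
    exact ⟨⟨hp.2, by omega⟩, hp.1.2.1⟩
  refine (Finset.sum_le_sum h1).trans ?_
  rw [Finset.sum_comm]
  have h2 : ∀ p ∈ Ioc N (2 * D), (∑ d ∈ Ico D (2 * D), if p ∣ d then (1 : ℝ) / p else 0) ≤ 3 * D * ((p : ℝ) ^ 2)⁻¹ := by
    intro p hp
    rw [mem_Ioc] at hp
    rw [← Finset.sum_filter, Finset.sum_const, nsmul_eq_mul]
    have hp1 : (0 : ℝ) < p := by exact_mod_cast (show 0 < p by omega)
    have h3 := card_mult D p hD (by omega) hp.2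
    calc _ ≤ 3 * D / (p : ℝ) * (1 / p) := mul_le_mul_of_nonneg_right h3 (by positivity)
      _ = _ := by field_simp
  refine (Finset.sum_le_sum h2).trans ?_
  rw [← Finset.mul_sum]
  rcases le_or_gt N (2 * D) with h | h
  · have h3 := sum_Ioc_inv_sq_le_sub (α := ℝ) (show N ≠ 0 by omega) h
    have h4 : (0 : ℝ) ≤ ((2 * D : ℕ) : ℝ)⁻¹ := by positivity
    rw [div_eq_mul_inv]
    exact mul_le_mul_of_nonneg_left (by linarith) (by positivity)
  · rw [Ioc_eq_empty (by omega), sum_empty, mul_zero]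
    positivity

theorem bad_card (N D : ℕ) (hN : 1 ≤ N) (hD : 1 ≤ D) :
    ((((Ico D (2 * D)).filter (fun d => ¬ sg N d ≤ 1 / √N)).card : ℕ) : ℝ) ≤ 3 * D / √N := by
  have hNR : (0 : ℝ) < N := by exact_mod_cast hN
  have hs : 0 < √(N : ℝ) := Real.sqrt_pos.2 hNR
  have h1 := bad_sum N D hN hD
  have h2 : ((((Ico D (2 * D)).filter (fun d => ¬ sg N d ≤ 1 / √N)).card : ℕ) : ℝ) * (1 / √N) ≤
      ∑ d ∈ Ico D (2 * D), sg N d := by
    rw [← nsmul_eq_mul, ← Finset.sum_const]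
    refine (Finset.sum_le_sum (g := sg N) ?_).trans (Finset.sum_le_sum_of_subset_of_nonneg (filter_subset _ _) ?_)
    · intro d hd
      rw [mem_filter, not_le] at hd
      exact hd.2.le
    · intro d _ _
      unfold sg
      exact Finset.sum_nonneg fun _ _ => by positivity
  have h3 := h2.trans h1
  rw [mul_one_div, div_le_div_iff₀ hs hNR] at h3
  rw [le_div_iff₀ hs]
  have h4 : (√(N : ℝ)) * √(N : ℝ) = N := Real.mul_self_sqrt hNR.le
  have h5 : ((((Ico D (2 * D)).filter (fun d => ¬ sg N d ≤ 1 / √N)).card : ℕ) : ℝ) * √(N : ℝ) * √(N : ℝ) ≤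
      3 * D * √(N : ℝ) := by
    rw [mul_assoc, h4]
    exact h3
  exact le_of_mul_le_mul_right h5 hs

end Pool.Agent.Helper8.BC
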