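import Pool.Agent.Helper8.BC.BlocksC
import Pool.Agent.Helper8.BC.TKc
import Pool.Agent.Helper8.BC.Mass

/-!
# BC-18: the main theorem in the dual form

PROOF. `M∞ = log (1/(2 u)) > 0`. `t ↦ 1/√(1 + t)` is continuous on `t ≥ 0`: choose `0 < δ < M∞/2` with `1/√(1 + M∞ - δ) ≤ 1/√(1 + M∞) + ε'`. Choose `u < u' < v < 1/2` with `log (v/u') ≥ M∞ - δ/2`
(e.g. `u' = u e^(δ/4)`, `v = e^(-δ/4)/2`; `log (v/u') = M∞ - δ/2 > 0`). `C` = constant of `sum_GG`. `R = H/(2 D)` (natural division), `P = PU R u' v`: `2 D R ≤ H ≤ 2 D (R + 1) ≤ 4 D R`, `R ≥ R0` if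
`H ≥ H1 D`. `M = ∑_P 1/p ≥ M∞ - δ` (`mass` with `δ/2`). `|P| ≤ R^v`, `4 |P|^2 ≤ 4 R^(2 v) ≤ η R` for `R ≥ R0(η)`.
`N1 ≥ 1` with `6 C * (3/√N1) ≤ ε/8`; `blocks` with `N1`, `ε/16` gives `N`. `A = {d ∈ Ico D (2 D) | sg N d ≤ 1/√N}`.
(1) `d ∉ A`: `TC ≤ |mul| ≤ H/D + 1 ≤ 2 H/D`; `bad_card`: `≤ C X (3 D/√N)(2 H/D) ≤ (ε/8) H X`.
(2) `d ∈ A`: `tkd`. Its first part: `∑_n GG n ∑_(d ∈ A) |mul n d y H| (1/√(1 + M) + √η)`, `∑_(d ∈ Ico D (2 D)) |mul n d y H| ≤ ∑ (H/d + 1) ≤ H + D` (`∑_(D ≤ d < 2 D) 1/d ≤ 1`), `D ≤ H/H1`. So it is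
`≤ (1/√(1 + M∞) + ε' + √η)(1 + 1/H1) H ∑ GG ≤ (1/√(1 + M∞)) H ∑ GG + (ε' + √η + 2/H1) H C X·2`: choose `ε'`, `η`, `H1` so that the last term is `≤ (ε/4) H X`.
The second part: `TC b c y H n d e ≤ Tc b (Re c) y H n d e + Tc b (Im c) y H n d e` (`‖z‖ ≤ |Re z| + |Im z|`), `blocks` for `Re c` and for `Im c`: `≤ 2 (ε/16)(1 + M) H X/(1 + M) ≤ (ε/8) H X`.
-/

set_option autoImplicit false

namespace Pool.Agent.Helper8.BC

open Finset Pool.Agent.Helper83.HLC
open Pool.Agent.Helper8.DW (vv mul Per)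

private theorem inv_sqrt_le (x y : ℝ) (hx : 1 ≤ x) (hxy : x ≤ y) : 1 / √x ≤ 1 / √y + (y - x) := by
  have hx' : 1 ≤ √x := Real.one_le_sqrt.2 hx
  have hy' : 1 ≤ √y := Real.one_le_sqrt.2 (hx.trans hxy)
  have hxx : √x * √x = x := Real.mul_self_sqrt (by linarith)
  have hyy : √y * √y = y := Real.mul_self_sqrt (by linarith)
  have hxy' : √x ≤ √y := Real.sqrt_le_sqrt hxy
  have hx0 : 0 < √x := by linarith
  have hy0 : 0 < √y := by linarith
  have h1 : 1 / √x - 1 / √y = (√y - √x) / (√x * √y) := by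
    field_simp
  have h2 : (√y - √x) / (√x * √y) ≤ y - x := by
    rw [div_le_iff₀ (mul_pos hx0 hy0)]
    have h3 : y - x = (√y - √x) * (√y + √x) := by
      rw [← hxx, ← hyy]
      simp only [Real.sqrt_mul_self hx0.le, Real.sqrt_mul_self hy0.le]
      ring
    rw [h3]
    have h4 : 1 ≤ √x * √y := by nlinarith
    have h5 : 1 ≤ (√y + √x) * (√x * √y) := by nlinarith
    have h6 : 0 ≤ √y - √x := by linarith
    calc √y - √x = (√y - √x) * 1 := (mul_one _).symm
      _ ≤ (√y - √x) * ((√y + √x) * (√x * √y)) := mul_le_mul_of_nonneg_left h5 h6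
      _ = _ := by ring
  linarith

private theorem card_PU (R : ℕ) (u v : ℝ) : ((PU R u v).card : ℝ) ≤ (R : ℝ) ^ v := by
  have h : (PU R u v).card ≤ ⌊(R : ℝ) ^ v⌋₊ := by
    unfold PU
    refine (card_filter_le _ _).trans ?_
    rw [Nat.card_Ioc]
    omega
  calc ((PU R u v).card : ℝ) ≤ (⌊(R : ℝ) ^ v⌋₊ : ℝ) := by exact_mod_cast h
    _ ≤ _ := Nat.floor_le (by positivity)

private theorem exists_Reta (v η : ℝ) (hv : v < 1 / 2) (hη : 0 < η) : ∃ R0 : ℕ, 1 ≤ R0 ∧ ∀ R : ℕ, R0 ≤ R → ∀ u : ℝ,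
    4 * ((PU R u v).card : ℝ) ^ 2 ≤ η * R := by
  have h1 : Filter.Tendsto (fun R : ℕ => (R : ℝ) ^ (1 - 2 * v)) Filter.atTop Filter.atTop :=
    (tendsto_rpow_atTop (by linarith)).comp tendsto_natCast_atTop_atTop
  obtain ⟨R0, h0⟩ := Filter.eventually_atTop.1 (h1.eventually_ge_atTop (4 / η))
  refine ⟨max R0 1, le_max_right _ _, fun R hR u => ?_⟩
  have hR1 : 1 ≤ R := (le_max_right _ _).trans hR
  have hRR : (0 : ℝ) < R := by exact_mod_cast hR1
  have h2 := h0 R ((le_max_left _ _).trans hR)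
  have h3 : ((PU R u v).card : ℝ) ^ 2 ≤ (R : ℝ) ^ (2 * v) := by
    calc ((PU R u v).card : ℝ) ^ 2 ≤ ((R : ℝ) ^ v) ^ 2 := pow_le_pow_left₀ (by positivity) (card_PU R u v) 2
      _ = (R : ℝ) ^ (2 * v) := by
        rw [← Real.rpow_natCast, ← Real.rpow_mul hRR.le]
        congr 1
        push_cast
        ring
  have h4 : (R : ℝ) ^ (1 - 2 * v) * (R : ℝ) ^ (2 * v) = R := by
    rw [← Real.rpow_add hRR, sub_add_cancel, Real.rpow_one]
  have h5 : 4 ≤ (R : ℝ) ^ (1 - 2 * v) * η := by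
    rwa [div_le_iff₀ hη] at h2
  have h6 : 0 ≤ (R : ℝ) ^ (2 * v) := by positivity
  calc 4 * ((PU R u v).card : ℝ) ^ 2 ≤ 4 * (R : ℝ) ^ (2 * v) := by linarith
    _ ≤ ((R : ℝ) ^ (1 - 2 * v) * η) * (R : ℝ) ^ (2 * v) := mul_le_mul_of_nonneg_right h5 h6
    _ = η * ((R : ℝ) ^ (1 - 2 * v) * (R : ℝ) ^ (2 * v)) := by ring
    _ = η * R := by rw [h4]

private theorem sum_mul_card (D H n y : ℕ) (hD : 1 ≤ D) :
    ∑ d ∈ Ico D (2 * D), ((mul n d y H).card : ℝ) ≤ H + D := by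
  have hDR : (0 : ℝ) < D := by exact_mod_cast hD
  calc ∑ d ∈ Ico D (2 * D), ((mul n d y H).card : ℝ) ≤ ∑ _d ∈ Ico D (2 * D), ((H : ℝ) / D + 1) := by
        refine sum_le_sum fun d hd => ?_
        have hd' := mem_Ico.1 hd
        refine (Pool.Agent.Helper8.DW.card_mul n d y H (by omega)).trans ?_
        have h1 : (H : ℝ) / d ≤ H / D :=
          div_le_div_of_nonneg_left (Nat.cast_nonneg H) hDR (by exact_mod_cast hd'.1)
        linarith
    _ = H + D := by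
      rw [sum_const, Nat.card_Ico, nsmul_eq_mul, show 2 * D - D = D by omega]
      field_simp

private theorem TC_le_card {q : ℕ} {b : ℕ → ℝ} (hb : Per q b) (c : ℕ → ℕ → ℂ) (hc : ∀ d h, ‖c d h‖ ≤ 1)
    (y H n d e : ℕ) : TC b c y H n d e ≤ ((mul n e y H).card : ℝ) := by
  unfold TC
  refine (norm_sum_le _ _).trans ?_
  calc ∑ h ∈ mul n e y H, ‖c d h * ((b (ArithmeticFunction.cardFactors (n + h)) : ℝ) : ℂ)‖ ≤
      ∑ _h ∈ mul n e y H, (1 : ℝ) := by
        refine sum_le_sum fun h _ => ?_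
        rw [norm_mul, Complex.norm_real, Real.norm_eq_abs]
        exact mul_le_one₀ (hc d h) (abs_nonneg _) (hb.le _)
    _ = _ := by rw [sum_const, nsmul_eq_mul, mul_one]

private theorem TC_le_ri (b : ℕ → ℝ) (c : ℕ → ℕ → ℂ) (y H n d e : ℕ) : TC b c y H n d e ≤
    Tc b (fun d h => (c d h).re) y H n d e + Tc b (fun d h => (c d h).im) y H n d e := by
  unfold TC Tc
  refine (Complex.norm_le_abs_re_add_abs_im _).trans ?_
  rw [Complex.re_sum, Complex.im_sum]
  refine le_of_eq ?_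
  congr 2
  · refine sum_congr rfl fun h _ => ?_
    rw [Complex.re_mul_ofReal]
  · refine sum_congr rfl fun h _ => ?_
    rw [Complex.im_mul_ofReal]

theorem dilc {k : ℕ} (a : Fin k → ℕ) (ha : Function.Injective a) {q : ℕ} {b : ℕ → ℝ} (hb : Per q b) (u : ℝ)
    (hu : 0 < u) (hu2 : u < 1 / 2) (ε : ℝ) (hε : 0 < ε) :
    ∃ H1 X0 : ℕ, ∀ X : ℕ, X0 ≤ X → ∀ D H y : ℕ, 1 ≤ D → H1 * D ≤ H → D * H ≤ X → y ≤ X →
      Real.log X ^ k ≤ D * H * ((H : ℝ) / D) ^ u → ∀ c : ℕ → ℕ → ℂ, (∀ d h, ‖c d h‖ ≤ 1) →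
        ∑ n ∈ Icc 1 X, GG a n * ∑ d ∈ Ico D (2 * D), TC b c y H n d d ≤
          1 / √(1 + Real.log (1 / (2 * u))) * H * ∑ n ∈ Icc 1 X, GG a n + ε * H * X := by
  obtain ⟨C, hC, X1, hGG⟩ := sum_GG a ha
  set Mi : ℝ := Real.log (1 / (2 * u)) with hMi
  have hMi0 : 0 < Mi := Real.log_pos (by rw [lt_div_iff₀ (by positivity)]; linarith)
  set e1 : ℝ := min 1 (ε / (20 * C)) with he1
  have he0 : 0 < e1 := lt_min one_pos (by positivity)
  have he1' : e1 ≤ 1 := min_le_left _ _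
  have heC : 5 * e1 * C ≤ ε / 4 := by
    have h1 : e1 ≤ ε / (20 * C) := min_le_right _ _
    rw [le_div_iff₀ (by positivity)] at h1
    linarith
  set δ : ℝ := min Mi e1 with hδ
  have hδ0 : 0 < δ := lt_min hMi0 he0
  have hδM : δ ≤ Mi := min_le_left _ _
  have hδe : δ ≤ e1 := min_le_right _ _
  set u' : ℝ := u * Real.exp (δ / 4) with hu'
  set v : ℝ := Real.exp (-(δ / 4)) / 2 with hv
  have huu' : u < u' := by
    rw [hu']
    have h1 : 1 < Real.exp (δ / 4) := Real.one_lt_exp_iff.2 (by positivity)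
    nlinarith
  have hu'0 : 0 < u' := by positivity
  have hv0 : 0 < v := by positivity
  have hv2 : v < 1 / 2 := by
    rw [hv]
    have h1 : Real.exp (-(δ / 4)) < 1 := Real.exp_lt_one_iff.2 (by linarith)
    linarith
  have hlog : Real.log (v / u') = Mi - δ / 2 := by
    rw [Real.log_div hv0.ne' hu'0.ne', hv, hu', Real.log_div (Real.exp_pos _).ne' two_ne_zero, Real.log_exp,
      Real.log_mul hu.ne' (Real.exp_pos _).ne', Real.log_exp, hMi, Real.log_div one_ne_zero (by positivity),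
      Real.log_one, Real.log_mul two_ne_zero hu.ne']
    ring
  have hu'v : u' < v := by
    have h1 : 0 < Real.log (v / u') := by rw [hlog]; linarith
    have h2 : 1 < v / u' := by
      by_contra h3
      rw [not_lt] at h3
      exact absurd (Real.log_nonpos (by positivity) h3) (not_le.2 h1)
    rwa [lt_div_iff₀ hu'0, one_mul] at h2
  -- the natural numbers `N1`, `N`, `R0`
  obtain ⟨N1, hN1⟩ := exists_nat_ge ((48 * C / ε) ^ 2 + 1)
  obtain ⟨N, hN1N, Rb, Xb, hblocks⟩ := blocks a ha hb u u' v hu huu' hu'v hv2 N1 (ε / 16) (by positivity)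
  obtain ⟨Rm, hmass⟩ := mass u' v (δ / 2) hu'0 hu'v (by positivity)
  obtain ⟨Re, hRe1, hcardP⟩ := exists_Reta v (e1 ^ 2) hv2 (by positivity)
  obtain ⟨H2, hH2⟩ := exists_nat_ge (1 / e1)
  have hNR : (48 * C / ε) ^ 2 + 1 ≤ (N : ℝ) := hN1.trans (by exact_mod_cast hN1N)
  have hNpos : (0 : ℝ) < N := by
    have := sq_nonneg (48 * C / ε)
    linarith
  have hN0 : 1 ≤ N := by exact_mod_cast hNpos
  have hsN : 0 < √(N : ℝ) := Real.sqrt_pos.2 hNpos
  have hbadc : C * (6 / √(N : ℝ)) ≤ ε / 8 := by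
    have h1 : 48 * C / ε ≤ √(N : ℝ) := Real.le_sqrt_of_sq_le (by linarith)
    rw [div_le_iff₀ hε] at h1
    rw [mul_div_assoc', div_le_iff₀ hsN]
    linarith
  refine ⟨2 * (Rb + Rm + Re) + H2, max X1 Xb, fun X hX D H y hD hHD hDHX hyX hlogX c hc => ?_⟩
  have hsum := hGG X ((le_max_left _ _).trans hX)
  set G : ℝ := ∑ n ∈ Icc 1 X, GG a n with hG
  have hG0 : 0 ≤ G := Finset.sum_nonneg fun n _ => GG_nonneg a n
  have hDR : (0 : ℝ) < D := by exact_mod_cast hD
  set R : ℕ := H / (2 * D) with hR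
  have hRge : Rb + Rm + Re ≤ R := by
    rw [hR, Nat.le_div_iff_mul_le (by omega)]
    calc (Rb + Rm + Re) * (2 * D) = 2 * (Rb + Rm + Re) * D := by ring
      _ ≤ (2 * (Rb + Rm + Re) + H2) * D := Nat.mul_le_mul_right _ (Nat.le_add_right _ _)
      _ ≤ H := hHD
  have hR1 : 1 ≤ R := by omega
  have h2DR : 2 * D * R ≤ H := Nat.mul_div_le _ _
  have hH4 : H ≤ 4 * D * R := by
    have h1 : H < 2 * D * (R + 1) := Nat.lt_mul_div_succ H (show 0 < 2 * D by omega)
    calc H ≤ 2 * D * (R + 1) := h1.le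
      _ ≤ 2 * D * (R + R) := Nat.mul_le_mul_left _ (by omega)
      _ = 4 * D * R := by ring
  have hDH : D ≤ H := by
    calc D ≤ (2 * (Rb + Rm + Re) + H2) * D := Nat.le_mul_of_pos_left _ (by omega)
      _ ≤ H := hHD
  have hHR : (0 : ℝ) < H := by exact_mod_cast lt_of_lt_of_le hD hDH
  have hDe : (D : ℝ) ≤ e1 * H := by
    have h1 : ((2 * (Rb + Rm + Re) + H2 : ℕ) : ℝ) * D ≤ H := by exact_mod_cast hHD
    have h2 : (H2 : ℝ) * D ≤ H := by
      refine le_trans (mul_le_mul_of_nonneg_right ?_ hDR.le) h1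
      exact_mod_cast Nat.le_add_left _ _
    have h3 : 1 / e1 * D ≤ H := (mul_le_mul_of_nonneg_right hH2 hDR.le).trans h2
    rw [one_div, inv_mul_le_iff₀ he0] at h3
    exact h3
  set P : Finset ℕ := PU R u' v with hP
  have hPp : ∀ p ∈ P, p.Prime := by
    intro p hp
    rw [hP] at hp
    unfold PU at hp
    exact (Finset.mem_filter.1 hp).2
  set M : ℝ := ∑ p ∈ P, (1 : ℝ) / p with hM
  have hMge : Mi - δ ≤ M := by
    have h1 := hmass R (by omega)
    rw [hlog] at h1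
    linarith
  have hM0 : 0 ≤ M := by linarith
  have hPK : 4 * (P.card : ℝ) ^ 2 ≤ e1 ^ 2 * ((H / (2 * D) : ℕ) : ℝ) := hcardP R (by omega) u'
  have hsqM : 1 / √(1 + M) ≤ 1 / √(1 + Mi) + e1 := by
    have h1 : 1 / √(1 + M) ≤ 1 / √(1 + (Mi - δ)) := by
      refine one_div_le_one_div_of_le (Real.sqrt_pos.2 (by linarith)) (Real.sqrt_le_sqrt (by linarith))
    have h2 := inv_sqrt_le (1 + (Mi - δ)) (1 + Mi) (by linarith) (by linarith)
    linarith
  have hs0 : 1 / √(1 + Mi) ≤ 1 := by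
    rw [div_le_one (Real.sqrt_pos.2 (by linarith))]
    exact Real.one_le_sqrt.2 (by linarith)
  have hs00 : 0 ≤ 1 / √(1 + Mi) := by positivity
  have hsqe : √(e1 ^ 2) = e1 := Real.sqrt_sq he0.le
  set A : Finset ℕ := (Ico D (2 * D)).filter (fun d => sg N d ≤ 1 / √N) with hA
  have hAsub : A ⊆ Ico D (2 * D) := Finset.filter_subset _ _
  -- the second part of `tkd`
  have hsecond : ∑ n ∈ Icc 1 X, GG a n * ∑ d ∈ A, ∑ p ∈ P, TC b c y H n d (d * p) ≤ ε / 8 * (1 + M) * H * X := by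
    have h1 := hblocks X ((le_max_right _ _).trans hX) D H R y hD (by omega) h2DR hH4 hDHX hyX hlogX A hAsub
      (fun d hd => (Finset.mem_filter.1 hd).2) (fun d h => (c d h).re)
      (fun d h => (Complex.abs_re_le_norm _).trans (hc d h))
    have h2 := hblocks X ((le_max_right _ _).trans hX) D H R y hD (by omega) h2DR hH4 hDHX hyX hlogX A hAsub
      (fun d hd => (Finset.mem_filter.1 hd).2) (fun d h => (c d h).im)
      (fun d h => (Complex.abs_im_le_norm _).trans (hc d h))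
    have h3 : ∑ n ∈ Icc 1 X, GG a n * ∑ d ∈ A, ∑ p ∈ P, TC b c y H n d (d * p) ≤
        ∑ n ∈ Icc 1 X, GG a n * ∑ d ∈ A, ∑ p ∈ P, Tc b (fun d h => (c d h).re) y H n d (d * p) +
        ∑ n ∈ Icc 1 X, GG a n * ∑ d ∈ A, ∑ p ∈ P, Tc b (fun d h => (c d h).im) y H n d (d * p) := by
      rw [← Finset.sum_add_distrib]
      refine Finset.sum_le_sum fun n _ => ?_
      rw [← mul_add]
      refine mul_le_mul_of_nonneg_left ?_ (GG_nonneg a n)
      rw [← Finset.sum_add_distrib]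
      refine Finset.sum_le_sum fun d _ => ?_
      rw [← Finset.sum_add_distrib]
      exact Finset.sum_le_sum fun p _ => TC_le_ri b c y H n d (d * p)
    linarith
  have hfirst : ∀ n, ∑ d ∈ A, ((mul n d y H).card : ℝ) * (1 / √(1 + M) + √(e1 ^ 2)) ≤
      (1 / √(1 + Mi) + 5 * e1) * H := by
    intro n
    rw [← Finset.sum_mul, hsqe]
    have h1 : ∑ d ∈ A, ((mul n d y H).card : ℝ) ≤ H + D :=
      (Finset.sum_le_sum_of_subset_of_nonneg hAsub fun _ _ _ => Nat.cast_nonneg _).trans (sum_mul_card D H n y hD)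
    have h2 : 0 ≤ ∑ d ∈ A, ((mul n d y H).card : ℝ) := Finset.sum_nonneg fun _ _ => Nat.cast_nonneg _
    have h3 : 1 / √(1 + M) + e1 ≤ 1 / √(1 + Mi) + 2 * e1 := by linarith
    have h4 : 1 / √(1 + Mi) + 2 * e1 ≤ 3 := by linarith
    calc (∑ d ∈ A, ((mul n d y H).card : ℝ)) * (1 / √(1 + M) + e1) ≤
        (∑ d ∈ A, ((mul n d y H).card : ℝ)) * (1 / √(1 + Mi) + 2 * e1) := mul_le_mul_of_nonneg_left h3 h2
      _ ≤ (H + D) * (1 / √(1 + Mi) + 2 * e1) := mul_le_mul_of_nonneg_right h1 (by positivity)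
      _ = (1 / √(1 + Mi) + 2 * e1) * H + D * (1 / √(1 + Mi) + 2 * e1) := by ring
      _ ≤ (1 / √(1 + Mi) + 2 * e1) * H + (e1 * H) * 3 := by
          refine add_le_add le_rfl (mul_le_mul hDe h4 (by positivity) (by positivity))
      _ = _ := by ring
  have hgood : ∑ n ∈ Icc 1 X, GG a n * ∑ d ∈ A, TC b c y H n d d ≤
      (1 / √(1 + Mi) + 5 * e1) * H * G + ε / 8 * H * X := by
    have h1M : 0 < 1 + M := by linarith
    calc ∑ n ∈ Icc 1 X, GG a n * ∑ d ∈ A, TC b c y H n d d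
        ≤ ∑ n ∈ Icc 1 X, GG a n * ((1 / √(1 + Mi) + 5 * e1) * H +
            (∑ d ∈ A, ∑ p ∈ P, TC b c y H n d (d * p)) / (1 + M)) := by
          refine Finset.sum_le_sum fun n _ => mul_le_mul_of_nonneg_left ?_ (GG_nonneg a n)
          calc ∑ d ∈ A, TC b c y H n d d ≤ ∑ d ∈ A, (((mul n d y H).card : ℝ) * (1 / √(1 + M) + √(e1 ^ 2)) +
                (∑ p ∈ P, TC b c y H n d (d * p)) / (1 + M)) := by
                refine Finset.sum_le_sum fun d hd => ?_
                have h1 := Finset.mem_Ico.1 (hAsub hd)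
                exact tkd hb c hc P hPp (e1 ^ 2) (by positivity) D H hD hPK n d y h1.1 h1.2
            _ ≤ _ := by
                rw [Finset.sum_add_distrib, Finset.sum_div]
                exact add_le_add (hfirst n) le_rfl
      _ = (1 / √(1 + Mi) + 5 * e1) * H * G +
          (∑ n ∈ Icc 1 X, GG a n * ∑ d ∈ A, ∑ p ∈ P, TC b c y H n d (d * p)) / (1 + M) := by
          rw [hG, Finset.sum_div, Finset.mul_sum, ← Finset.sum_add_distrib]
          exact Finset.sum_congr rfl fun n _ => by ring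
      _ ≤ (1 / √(1 + Mi) + 5 * e1) * H * G + ε / 8 * H * X := by
          refine add_le_add le_rfl ?_
          rw [div_le_iff₀ h1M]
          linarith
  -- the bad integers
  have hbad := bad_card N D hN0 hD
  have hbadsum : ∑ n ∈ Icc 1 X, GG a n * ∑ d ∈ (Ico D (2 * D)).filter (fun d => ¬ sg N d ≤ 1 / √N), TC b c y H n d d ≤
      ε / 8 * H * X := by
    calc ∑ n ∈ Icc 1 X, GG a n * ∑ d ∈ (Ico D (2 * D)).filter (fun d => ¬ sg N d ≤ 1 / √N), TC b c y H n d d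
        ≤ ∑ n ∈ Icc 1 X, GG a n * (3 * D / √N * (2 * H / D)) := by
          refine Finset.sum_le_sum fun n _ => mul_le_mul_of_nonneg_left ?_ (GG_nonneg a n)
          calc ∑ d ∈ (Ico D (2 * D)).filter (fun d => ¬ sg N d ≤ 1 / √N), TC b c y H n d d
              ≤ ∑ _d ∈ (Ico D (2 * D)).filter (fun d => ¬ sg N d ≤ 1 / √N), 2 * (H : ℝ) / D := by
                refine Finset.sum_le_sum fun d hd => ?_
                have hd' := Finset.mem_Ico.1 (Finset.mem_filter.1 hd).1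
                refine (TC_le_card hb c hc y H n d d).trans ?_
                refine (Pool.Agent.Helper8.DW.card_mul n d y H (by omega)).trans ?_
                have h1 : (H : ℝ) / d ≤ H / D :=
                  div_le_div_of_nonneg_left (Nat.cast_nonneg H) hDR (by exact_mod_cast hd'.1)
                have h2 : (1 : ℝ) ≤ H / D := by
                  rw [le_div_iff₀ hDR, one_mul]
                  exact_mod_cast hDH
                have h3 : 2 * (H : ℝ) / D = H / D + H / D := by ring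
                linarith
            _ = (((Ico D (2 * D)).filter (fun d => ¬ sg N d ≤ 1 / √N)).card : ℝ) * (2 * H / D) := by
                rw [Finset.sum_const, nsmul_eq_mul]
            _ ≤ 3 * D / √N * (2 * H / D) := mul_le_mul_of_nonneg_right hbad (by positivity)
      _ = G * (3 * D / √N * (2 * H / D)) := by rw [hG, Finset.sum_mul]
      _ ≤ (C * X) * (3 * D / √N * (2 * H / D)) := mul_le_mul_of_nonneg_right hsum (by positivity)
      _ = (C * (6 / √N)) * (H * X) := by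
          field_simp
          ring
      _ ≤ ε / 8 * (H * X) := mul_le_mul_of_nonneg_right hbadc (by positivity)
      _ = _ := by ring
  have hsplit : ∑ n ∈ Icc 1 X, GG a n * ∑ d ∈ Ico D (2 * D), TC b c y H n d d =
      ∑ n ∈ Icc 1 X, GG a n * ∑ d ∈ A, TC b c y H n d d +
        ∑ n ∈ Icc 1 X, GG a n * ∑ d ∈ (Ico D (2 * D)).filter (fun d => ¬ sg N d ≤ 1 / √N), TC b c y H n d d := by
    rw [← Finset.sum_add_distrib]
    refine Finset.sum_congr rfl fun n _ => ?_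
    rw [← mul_add, hA, Finset.sum_filter_add_sum_filter_not]
  rw [hsplit]
  have hfin : 5 * e1 * H * G ≤ ε / 4 * H * X := by
    calc 5 * e1 * H * G ≤ 5 * e1 * H * (C * X) := mul_le_mul_of_nonneg_left hsum (by positivity)
      _ = (5 * e1 * C) * (H * X) := by ring
      _ ≤ ε / 4 * (H * X) := mul_le_mul_of_nonneg_right heC (by positivity)
      _ = _ := by ring
  have hpos : 0 ≤ ε * H * X := by positivity
  have hexp : (1 / √(1 + Mi) + 5 * e1) * H * G = 1 / √(1 + Mi) * H * G + 5 * e1 * H * G := by ring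
  linarith

end Pool.Agent.Helper8.BC
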