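import Pool.Agent.Helper8.BC.DilC

/-!
# BC-19: the theorem

PROOF. `‖Z‖ = c Z` with `‖c‖ ≤ 1` (`c = conj Z/‖Z‖`, or `0`), for `Z = Z(d, h) = ∑_(n ≤ X, d ∣ n + h) (∏ Λ) g_d(n) f(n + h)`; so the left side is (the real part of)
`∑_n GG n ∑_d g_d(n) ∑_(h ∈ mul n d y H) c(d, h) b (Ω (n + h)) ≤ ∑_n GG n ∑_d TC b c y H n d d` (`mul n d y H` = the `h ∈ Ioc y (y + H)` with `d ∣ n + h`); then `dilc`. `GG a n = ∏ Λ (n + a i)`.
-/

set_option autoImplicit false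

namespace Pool.Agent.Helper8.BC

open Finset
open Pool.Agent.Helper8.DW (Per)

private theorem dual_unit (z : ℂ) : ∃ c : ℂ, ‖c‖ ≤ 1 ∧ c * z = (‖z‖ : ℂ) := by
  by_cases hz : z = 0
  · exact ⟨0, by simp, by simp [hz]⟩
  · have hn : (‖z‖ : ℂ) ≠ 0 := by
      exact_mod_cast (norm_ne_zero_iff.mpr hz)
    refine ⟨(starRingEnd ℂ) z / (‖z‖ : ℂ), ?_, ?_⟩
    · rw [norm_div, RCLike.norm_conj, Complex.norm_real, norm_norm, div_self (norm_ne_zero_iff.mpr hz)]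
    · rw [div_mul_eq_mul_div, div_eq_iff hn, ← Complex.normSq_eq_conj_mul_self, Complex.normSq_eq_norm_sq]
      push_cast
      ring

theorem below_critical {k : ℕ} (a : Fin k → ℕ) (ha : Function.Injective a) {q : ℕ} {b : ℕ → ℝ} (hb : Per q b) (u : ℝ)
    (hu : 0 < u) (hu2 : u < 1 / 2) (ε : ℝ) (hε : 0 < ε) :
    ∃ H1 X0 : ℕ, ∀ X D H y : ℕ, X0 ≤ X → 1 ≤ D → H1 * D ≤ H → D * H ≤ X → y ≤ X →
      Real.log X ^ k ≤ D * H * ((H : ℝ) / D) ^ u → ∀ g : ℕ → ℕ → ℂ, (∀ d n, ‖g d n‖ ≤ 1) →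
        ∑ d ∈ Ico D (2 * D), ∑ h ∈ Ioc y (y + H), ‖∑ n ∈ (Icc 1 X).filter (fun n => d ∣ n + h),
          (∏ i, (ArithmeticFunction.vonMangoldt (n + a i) : ℂ)) * g d n *
            ((b (ArithmeticFunction.cardFactors (n + h)) : ℝ) : ℂ)‖ ≤
          1 / √(1 + Real.log (1 / (2 * u))) * H * ∑ n ∈ Icc 1 X, ∏ i, ArithmeticFunction.vonMangoldt (n + a i) +
            ε * H * X := by
  obtain ⟨H1, X0, hmain⟩ := dilc a ha hb u hu hu2 ε hε
  refine ⟨H1, X0, fun X D H y hX hD hH hDH hy hlog g hg => ?_⟩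
  set Z : ℕ → ℕ → ℂ := fun d h => ∑ n ∈ (Icc 1 X).filter (fun n => d ∣ n + h),
          (∏ i, (ArithmeticFunction.vonMangoldt (n + a i) : ℂ)) * g d n *
            ((b (ArithmeticFunction.cardFactors (n + h)) : ℝ) : ℂ) with hZ
  choose c hc1 hc2 using fun d h => dual_unit (Z d h)
  have hmain' := hmain X hX D H y hD hH hDH hy hlog c hc1
  have hGG : ∀ n, Pool.Agent.Helper83.HLC.GG a n = ∏ i, ArithmeticFunction.vonMangoldt (n + a i) := fun n => rfl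
  have hGG0 : ∀ n, 0 ≤ Pool.Agent.Helper83.HLC.GG a n := fun n => by
    rw [hGG]; exact Finset.prod_nonneg fun i _ => ArithmeticFunction.vonMangoldt_nonneg
  have hkey : ((∑ d ∈ Ico D (2 * D), ∑ h ∈ Ioc y (y + H), ‖Z d h‖ : ℝ) : ℂ) =
      ∑ n ∈ Icc 1 X, ∑ d ∈ Ico D (2 * D), (Pool.Agent.Helper83.HLC.GG a n : ℂ) * (g d n *
        ∑ h ∈ Pool.Agent.Helper8.DW.mul n d y H, c d h * ((b (ArithmeticFunction.cardFactors (n + h)) : ℝ) : ℂ)) := by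
    push_cast
    rw [Finset.sum_comm (s := Icc 1 X)]
    refine Finset.sum_congr rfl fun d _ => ?_
    have h1 : ∀ h ∈ Ioc y (y + H), ((‖Z d h‖ : ℝ) : ℂ) = ∑ n ∈ Icc 1 X, if d ∣ n + h then
        (Pool.Agent.Helper83.HLC.GG a n : ℂ) * (g d n * (c d h * ((b (ArithmeticFunction.cardFactors (n + h)) : ℝ) : ℂ))) else 0 := by
      intro h _
      rw [← hc2 d h, hZ]
      simp only
      rw [Finset.mul_sum, ← Finset.sum_filter]
      refine Finset.sum_congr rfl fun n _ => ?_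
      rw [hGG]
      push_cast
      ring
    rw [Finset.sum_congr rfl h1, Finset.sum_comm]
    refine Finset.sum_congr rfl fun n _ => ?_
    rw [Pool.Agent.Helper8.DW.mul, ← Finset.sum_filter, Finset.mul_sum, Finset.mul_sum]
  have hle : ∑ d ∈ Ico D (2 * D), ∑ h ∈ Ioc y (y + H), ‖Z d h‖ ≤
      ∑ n ∈ Icc 1 X, Pool.Agent.Helper83.HLC.GG a n * ∑ d ∈ Ico D (2 * D), TC b c y H n d d := by
    have h0 : 0 ≤ ∑ d ∈ Ico D (2 * D), ∑ h ∈ Ioc y (y + H), ‖Z d h‖ :=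
      Finset.sum_nonneg fun d _ => Finset.sum_nonneg fun h _ => norm_nonneg _
    have h1 : ∑ d ∈ Ico D (2 * D), ∑ h ∈ Ioc y (y + H), ‖Z d h‖ =
        ‖((∑ d ∈ Ico D (2 * D), ∑ h ∈ Ioc y (y + H), ‖Z d h‖ : ℝ) : ℂ)‖ := by
      rw [Complex.norm_real, Real.norm_of_nonneg h0]
    rw [h1, hkey]
    refine (norm_sum_le _ _).trans (Finset.sum_le_sum fun n _ => ?_)
    refine (norm_sum_le _ _).trans ?_
    rw [Finset.mul_sum]
    refine Finset.sum_le_sum fun d _ => ?_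
    rw [norm_mul, norm_mul, Complex.norm_real, Real.norm_of_nonneg (hGG0 n)]
    refine mul_le_mul_of_nonneg_left ?_ (hGG0 n)
    have h2 : ‖g d n‖ * TC b c y H n d d ≤ 1 * TC b c y H n d d :=
      mul_le_mul_of_nonneg_right (hg d n) (norm_nonneg _)
    rw [one_mul] at h2
    exact h2
  exact hle.trans hmain'

end Pool.Agent.Helper8.BC
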