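import Pool.Agent.Helper8.BC.Defs
import Pool.Agent.Helper8.DW.Smooth

/-!
# BC-11: exchange of the sums and smoothing, with coefficients

MODELS: `exch` in `Pool/Agent/Helper8/DW/Exch.lean` and `smooth` in `Pool/Agent/Helper8/DW/Smooth.lean` (import `Pool.Agent.Helper8.DW.Smooth` for `smooth_gen`).
`exchc`: for fixed `d ∈ S`, `h ∈ Ioc y (y + H)` the map `n ↦ (n + h)/d = m` is a bijection from the `n ∈ Icc 1 X` with `d ∣ n + h` to the `m` with `1 ≤ d m - h ≤ X` (all of them in `Icc 1 M`, as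
`d m ≤ X + y + H ≤ D M ≤ d M`), inverse `m ↦ d m - h`; and `vv a X (d * m - h) ≠ 0` implies `1 ≤ d * m - h ≤ X` (so `h < d * m`).
`smoothc`: the multiples of `d` in the window are `n + h = d m`, `m ∈ Ioc u v` (`mul_sum'` in `DW/Dil.lean`, `sm_sum` in `DW/Smooth.lean`). Apply `smooth_gen` with
`g m = c d (d * m - n) * b (Ω d + Ω m)` and `M = L`: `|∑_(m ∈ Ioc u v) g m| ≤ ∑_(m ∈ Ioc u v) (1/L) |∑_(i ∈ Icc 1 L) g (m - 1 + i)| + L`, and for `m = (n + h)/d`, `i = j + 1`:
`g (m + j) = c d (h + d j) * b (Ω d + Ω (m + j))`, since `d (m + j) - n = h + d j`. For `m ≥ 1`: `Ω (d m) = Ω d + Ω m`.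
-/

set_option autoImplicit false

namespace Pool.Agent.Helper8.BC

open Finset
open Pool.Agent.Helper8.DW (vv mul Per)

theorem exchc {k : ℕ} (a : Fin k → ℕ) (X D H y M : ℕ) (hD : 1 ≤ D) (S : Finset ℕ) (hS : ∀ d ∈ S, D ≤ d)
    (hM : X + y + H ≤ D * M) (F : ℕ → ℕ → ℕ → ℝ) :
    ∑ n ∈ Icc 1 X, vv a X n * ∑ d ∈ S, ∑ h ∈ mul n d y H, F d h ((n + h) / d) =
      ∑ d ∈ S, ∑ h ∈ Ioc y (y + H), ∑ m ∈ Icc 1 M, vv a X (d * m - h) * F d h m := by
  classical
  have hL : ∑ n ∈ Icc 1 X, vv a X n * ∑ d ∈ S, ∑ h ∈ mul n d y H, F d h ((n + h) / d) =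
      ∑ d ∈ S, ∑ h ∈ Ioc y (y + H), ∑ n ∈ (Icc 1 X).filter (fun n => d ∣ n + h),
        vv a X n * F d h ((n + h) / d) := by
    have h1 : ∀ n ∈ Icc 1 X, vv a X n * ∑ d ∈ S, ∑ h ∈ mul n d y H, F d h ((n + h) / d) =
        ∑ d ∈ S, ∑ h ∈ Ioc y (y + H),
          if d ∣ n + h then vv a X n * F d h ((n + h) / d) else 0 := by
      intro n _
      rw [Finset.mul_sum]
      refine Finset.sum_congr rfl fun d _ => ?_
      rw [Finset.mul_sum, mul, Finset.sum_filter]
    rw [Finset.sum_congr rfl h1, Finset.sum_comm]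
    refine Finset.sum_congr rfl fun d _ => ?_
    rw [Finset.sum_comm]
    refine Finset.sum_congr rfl fun h _ => ?_
    rw [Finset.sum_filter]
  rw [hL]
  refine Finset.sum_congr rfl fun d hd => Finset.sum_congr rfl fun h hh => ?_
  have hd1 : D ≤ d := hS d hd
  have hd0 : 0 < d := lt_of_lt_of_le (by omega) hd1
  have hh2 : h ≤ y + H := (Finset.mem_Ioc.1 hh).2
  have hh1 : y < h := (Finset.mem_Ioc.1 hh).1
  have hinj : ∀ n ∈ (Icc 1 X).filter (fun n => d ∣ n + h),
      d * ((n + h) / d) = n + h := fun n hn => Nat.mul_div_cancel' (Finset.mem_filter.1 hn).2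
  have hinj' : Set.InjOn (fun n => (n + h) / d)
      ((Icc 1 X).filter (fun n => d ∣ n + h) : Finset ℕ) := by
    intro n hn n' hn' he
    have h1 := hinj n hn
    have h2 := hinj n' hn'
    have he' : (n + h) / d = (n' + h) / d := he
    rw [he'] at h1
    omega
  have h3 : ∑ n ∈ (Icc 1 X).filter (fun n => d ∣ n + h), vv a X n * F d h ((n + h) / d) =
      ∑ m ∈ ((Icc 1 X).filter (fun n => d ∣ n + h)).image (fun n => (n + h) / d),
        vv a X (d * m - h) * F d h m := by
    rw [Finset.sum_image hinj']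
    refine Finset.sum_congr rfl fun n hn => ?_
    rw [hinj n hn, Nat.add_sub_cancel]
  rw [h3]
  apply Finset.sum_subset
  · intro m hm
    obtain ⟨n, hn, rfl⟩ := Finset.mem_image.1 hm
    have hn1 := Finset.mem_Icc.1 (Finset.mem_filter.1 hn).1
    have h4 := hinj n hn
    rw [Finset.mem_Icc]
    constructor
    · rcases Nat.eq_zero_or_pos ((n + h) / d) with h5 | h5
      · rw [h5] at h4
        omega
      · exact h5
    · by_contra hc
      have h5 : M < (n + h) / d := by omega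
      have h6 : D * M < d * ((n + h) / d) := by
        calc D * M ≤ d * M := Nat.mul_le_mul_right _ hd1
          _ < d * ((n + h) / d) := Nat.mul_lt_mul_of_pos_left h5 hd0
      rw [h4] at h6
      omega
  · intro m _ hm
    have h0 : vv a X (d * m - h) = 0 := by
      unfold vv
      rw [if_neg]
      rintro ⟨g1, g2, -⟩
      apply hm
      rw [Finset.mem_image]
      refine ⟨d * m - h, ?_, ?_⟩
      · rw [Finset.mem_filter, Finset.mem_Icc]
        refine ⟨⟨g1, g2⟩, ⟨m, by omega⟩⟩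
      · rw [show d * m - h + h = d * m by omega, Nat.mul_div_cancel_left _ hd0]
    rw [h0, zero_mul]

private theorem ec_bij {n d y H : ℕ} (hd : 1 ≤ d) :
    mul n d y H = ((Ioc ((n + y) / d) ((n + y + H) / d)).image (fun m => d * m - n)) := by
  ext h
  unfold mul
  simp only [Finset.mem_filter, Finset.mem_Ioc, Finset.mem_image]
  constructor
  · rintro ⟨⟨h1, h2⟩, ⟨m, hm⟩⟩
    refine ⟨m, ⟨?_, ?_⟩, ?_⟩
    · rw [Nat.div_lt_iff_lt_mul (by omega)]
      rw [mul_comm m d]
      omega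
    · rw [Nat.le_div_iff_mul_le (by omega)]
      rw [mul_comm m d]
      omega
    · omega
  · rintro ⟨m, ⟨h1, h2⟩, h3⟩
    rw [Nat.div_lt_iff_lt_mul (by omega), mul_comm m d] at h1
    rw [Nat.le_div_iff_mul_le (by omega), mul_comm m d] at h2
    refine ⟨⟨by omega, by omega⟩, ⟨m, by omega⟩⟩

private theorem ec_inj {n d y H : ℕ} (hd : 1 ≤ d) :
    Set.InjOn (fun m => d * m - n) (Ioc ((n + y) / d) ((n + y + H) / d) : Finset ℕ) := by
  intro a ha b hb hab
  have ha1 := (Finset.mem_Ioc.1 (Finset.mem_coe.1 ha)).1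
  have hb1 := (Finset.mem_Ioc.1 (Finset.mem_coe.1 hb)).1
  rw [Nat.div_lt_iff_lt_mul (by omega), mul_comm _ d] at ha1 hb1
  simp only at hab
  have h1 : d * a = d * b := by omega
  exact Nat.eq_of_mul_eq_mul_left (by omega) h1

private theorem ec_Icc (f : ℕ → ℝ) (M : ℕ) : ∑ i ∈ Icc 1 M, f i = ∑ i ∈ range M, f (i + 1) := by
  induction M with
  | zero => simp
  | succ M ih => rw [Finset.sum_Icc_succ_top (by omega), ih, Finset.sum_range_succ]

private theorem ec_sum {n d y H : ℕ} (hd : 1 ≤ d) (F : ℕ → ℕ → ℝ) :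
    ∑ h ∈ mul n d y H, F h ((n + h) / d) =
      ∑ m ∈ Ioc ((n + y) / d) ((n + y + H) / d), F (d * m - n) m := by
  rw [ec_bij hd, Finset.sum_image (ec_inj hd)]
  refine Finset.sum_congr rfl fun m hm => ?_
  have h1 := (Finset.mem_Ioc.1 hm).1
  rw [Nat.div_lt_iff_lt_mul (by omega), mul_comm _ d] at h1
  rw [show n + (d * m - n) = d * m by omega, Nat.mul_div_cancel_left _ (by omega)]

theorem smoothc {q : ℕ} {b : ℕ → ℝ} (hb : Per q b) (c : ℕ → ℕ → ℝ) (hc : ∀ d h, |c d h| ≤ 1) (L : ℕ) (hL : 1 ≤ L)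
    (n d y H : ℕ) (hn : 1 ≤ n) (hd : 1 ≤ d) :
    |∑ h ∈ mul n d y H, c d h * b (ArithmeticFunction.cardFactors (n + h))| ≤
      ∑ h ∈ mul n d y H, |ww b c L d h ((n + h) / d)| + L := by
  have h1 : ∑ h ∈ mul n d y H, c d h * b (ArithmeticFunction.cardFactors (n + h)) =
      ∑ h ∈ mul n d y H, c d h * b (ArithmeticFunction.cardFactors d +
        ArithmeticFunction.cardFactors ((n + h) / d)) := by
    refine Finset.sum_congr rfl fun h hh => ?_
    unfold mul at hh
    obtain ⟨m, hm⟩ := (Finset.mem_filter.1 hh).2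
    have hm0 : m ≠ 0 := by
      rintro rfl
      omega
    rw [hm, Nat.mul_div_cancel_left _ (by omega),
      ArithmeticFunction.cardFactors_mul (by omega) hm0]
  rw [h1, ec_sum hd (fun h m => c d h * b (ArithmeticFunction.cardFactors d +
    ArithmeticFunction.cardFactors m)), ec_sum hd (fun h m => |ww b c L d h m|)]
  refine (Pool.Agent.Helper8.DW.smooth_gen (fun m => c d (d * m - n) *
    b (ArithmeticFunction.cardFactors d + ArithmeticFunction.cardFactors m)) (fun m => ?_) L hL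
      _ _).trans ?_
  · rw [abs_mul]
    exact mul_le_one₀ (hc _ _) (abs_nonneg _) (hb.le _)
  · refine add_le_add (Finset.sum_le_sum fun m hm => ?_) le_rfl
    have h2 := (Finset.mem_Ioc.1 hm).1
    rw [Nat.div_lt_iff_lt_mul (by omega), mul_comm _ d] at h2
    have hm0 : 1 ≤ m := by
      rcases Nat.eq_zero_or_pos m with h | h
      · rw [h] at h2
        omega
      · exact h
    have h3 : ∑ i ∈ Icc 1 L, (fun m => c d (d * m - n) *
        b (ArithmeticFunction.cardFactors d + ArithmeticFunction.cardFactors m)) (m - 1 + i) =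
        ∑ i ∈ range L, c d (d * m - n + d * i) *
          b (ArithmeticFunction.cardFactors d + ArithmeticFunction.cardFactors (m + i)) := by
      rw [ec_Icc]
      refine Finset.sum_congr rfl fun i _ => ?_
      have e1 : m - 1 + (i + 1) = m + i := by omega
      have e2 : d * (m + i) - n = d * m - n + d * i := by
        rw [Nat.mul_add]
        omega
      simp only [e1, e2]
    rw [h3, ww, abs_mul, abs_of_nonneg (by positivity : (0 : ℝ) ≤ 1 / (L : ℝ))]

end Pool.Agent.Helper8.BC
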