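import Pool.Agent.Helper8.BC.Main0

/-!
# BC-13: the block theorem with von Mangoldt weights

MODEL: `Pool/Agent/Helper8/DW/Final.lean` (theorem `final`, word for word the same proof; `inner_le` with a coefficient `|c| ≤ 1`).
Split the `n ≤ X` according to `vv a X n ≠ 0` or `= 0`.
* `≠ 0`: `DW.GG_good`, `main0` with `ε / 2 ^ (k + 1)`; the powers of `log X` cancel.
* `= 0`: the sum over `d` is at most `|S| (H / D + 1) ≤ 2 |S| H / D` (`Tc_le`); `DW.GG_bad` with `η = ε / 4`.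
`Tc_le`: `DW.card_mul`, `|c| ≤ 1`, `|b| ≤ 1`; `H / e + 1 ≤ 2 H / D` for `D ≤ e`, `D ≤ H`.
-/

set_option autoImplicit false

namespace Pool.Agent.Helper8.BC

open Finset Pool.Agent.Helper83.HLC
open Pool.Agent.Helper8.DW (vv mul Per)

theorem Tc_le {q : ℕ} {b : ℕ → ℝ} (hb : Per q b) (c : ℕ → ℕ → ℝ) (hc : ∀ d h, |c d h| ≤ 1) (y H n d e D : ℕ)
    (hD : 1 ≤ D) (hDe : D ≤ e) (hDH : D ≤ H) : Tc b c y H n d e ≤ 2 * H / D := by
  have hD0 : (0 : ℝ) < D := by exact_mod_cast hD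
  have e1 : Tc b c y H n d e ≤ (mul n e y H).card := by
    unfold Tc
    refine (Finset.abs_sum_le_sum_abs _ _).trans ?_
    have e0 : ∀ h ∈ mul n e y H, |c d h * b (ArithmeticFunction.cardFactors (n + h))| ≤ 1 := by
      intro h _
      rw [abs_mul]
      exact mul_le_one₀ (hc d h) (abs_nonneg _) (hb.le _)
    refine (Finset.sum_le_sum e0).trans ?_
    simp
  refine e1.trans ((Pool.Agent.Helper8.DW.card_mul n e y H (hD.trans hDe)).trans ?_)
  have e2 : (H : ℝ) / e ≤ H / D :=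
    div_le_div_of_nonneg_left (Nat.cast_nonneg _) hD0 (by exact_mod_cast hDe)
  have e3 : (1 : ℝ) ≤ H / D := by
    rw [le_div_iff₀ hD0, one_mul]
    exact_mod_cast hDH
  have e4 : (2 : ℝ) * H / D = H / D + H / D := by ring
  rw [e4]
  linarith

theorem final {k : ℕ} (a : Fin k → ℕ) (ha : Function.Injective a) {q : ℕ} {b : ℕ → ℝ} (hb : Per q b) (N1 : ℕ) (ε : ℝ)
    (hε : 0 < ε) : ∃ N : ℕ, N1 ≤ N ∧ ∃ K : ℝ, 0 < K ∧ ∃ H0 X0 : ℕ, ∀ X : ℕ, X0 ≤ X → ∀ D H y : ℕ, 1 ≤ D → D ^ 2 ≤ X →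
      H0 * D ≤ H → D ≤ H → H ≤ X → y ≤ X → ∀ S ⊆ Ico D (2 * D), (∀ d ∈ S, sg N d ≤ 2 / √N) →
        K * Real.log X ^ k ≤ S.card * H → ∀ c : ℕ → ℕ → ℝ, (∀ d h, |c d h| ≤ 1) →
          ∑ n ∈ Icc 1 X, GG a n * ∑ d ∈ S, Tc b c y H n d d ≤ ε * (S.card / D) * H * X := by
  obtain ⟨N, hN, K, hK, H0, X1, h1⟩ := main0 a ha hb N1 (ε / 2 ^ (k + 1)) (by positivity)
  obtain ⟨X2, h2⟩ := Pool.Agent.Helper8.DW.GG_bad a (ε / 4) (by linarith)
  refine ⟨N, hN, K, hK, H0, max (max X1 X2) (max 3 (∑ i, a i)), ?_⟩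
  intro X hX D H y hD hDX hH hDH hHX hyX S hS hSC hcS c hc
  have hX1 : X1 ≤ X := (le_max_left _ _).trans ((le_max_left _ _).trans hX)
  have hX2 : X2 ≤ X := (le_max_right _ _).trans ((le_max_left _ _).trans hX)
  have hX3 : 3 ≤ X := (le_max_left _ _).trans ((le_max_right _ _).trans hX)
  have hXa : ∑ i, a i ≤ X := (le_max_right _ _).trans ((le_max_right _ _).trans hX)
  have hD0 : (0 : ℝ) < D := by exact_mod_cast hD
  have hX0 : (0 : ℝ) < X := by
    have : 0 < X := by omega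
    exact_mod_cast this
  have hL : 0 < Real.log X := Real.log_pos (by
    have : 1 < X := by omega
    exact_mod_cast this)
  set T : ℕ → ℝ := fun n => ∑ d ∈ S, Tc b c y H n d d with hT
  have hT0 : ∀ n, 0 ≤ T n := fun n => Finset.sum_nonneg fun _ _ => abs_nonneg _
  have hTle : ∀ n, T n ≤ (S.card : ℝ) * (2 * H / D) := by
    intro n
    refine (Finset.sum_le_sum fun d hd => Tc_le hb c hc y H n d d D hD
      (Finset.mem_Ico.1 (hS hd)).1 hDH).trans ?_
    rw [Finset.sum_const, nsmul_eq_mul]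
  have hm := h1 X hX1 D H y hD hDX hH hDH hHX hyX S hS hSC hcS c hc
  change ∑ n ∈ Icc 1 X, vv a X n * T n ≤ _ at hm
  have hbad := h2 X hX2
  change ∑ n ∈ Icc 1 X, GG a n * T n ≤ _
  rw [← Finset.sum_filter_add_sum_filter_not (Icc 1 X) (fun n => vv a X n = 0)]
  have hA : ∑ n ∈ (Icc 1 X).filter (fun n => vv a X n = 0), GG a n * T n ≤
      ε / 2 * ((S.card / D) * H * X) := by
    have e1 : ∑ n ∈ (Icc 1 X).filter (fun n => vv a X n = 0), GG a n * T n ≤
        ∑ n ∈ (Icc 1 X).filter (fun n => vv a X n = 0), GG a n * ((S.card : ℝ) * (2 * H / D)) :=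
      Finset.sum_le_sum fun n _ => mul_le_mul_of_nonneg_left (hTle n) (GG_nonneg _ _)
    rw [← Finset.sum_mul] at e1
    have hnn : 0 ≤ (S.card : ℝ) * (2 * H / D) := by positivity
    have e2 := mul_le_mul_of_nonneg_right hbad hnn
    refine (e1.trans e2).trans (le_of_eq ?_)
    field_simp
    ring
  have hB : ∑ n ∈ (Icc 1 X).filter (fun n => ¬ vv a X n = 0), GG a n * T n ≤
      ε / 2 * ((S.card / D) * H * X) := by
    have e1 : ∑ n ∈ (Icc 1 X).filter (fun n => ¬ vv a X n = 0), GG a n * T n ≤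
        ∑ n ∈ (Icc 1 X).filter (fun n => ¬ vv a X n = 0),
          (2 * Real.log X) ^ k * (vv a X n * T n) := by
      refine Finset.sum_le_sum fun n hn => ?_
      rw [Finset.mem_filter] at hn
      rw [← mul_assoc]
      exact mul_le_mul_of_nonneg_right
        (Pool.Agent.Helper8.DW.GG_good a X n (by omega) hXa hn.1 hn.2) (hT0 n)
    have e2 : ∑ n ∈ (Icc 1 X).filter (fun n => ¬ vv a X n = 0),
        (2 * Real.log X) ^ k * (vv a X n * T n) ≤
        (2 * Real.log X) ^ k * ∑ n ∈ Icc 1 X, vv a X n * T n := by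
      rw [Finset.mul_sum]
      exact Finset.sum_le_sum_of_subset_of_nonneg (Finset.filter_subset _ _) fun n _ _ =>
        mul_nonneg (by positivity) (mul_nonneg (Pool.Agent.Helper8.DW.vv_nonneg _ _ _) (hT0 n))
    have e3 := mul_le_mul_of_nonneg_left hm (by positivity : 0 ≤ (2 * Real.log X) ^ k)
    refine ((e1.trans e2).trans e3).trans (le_of_eq ?_)
    have hLk : Real.log X ^ k ≠ 0 := by positivity
    have h2k : (2 : ℝ) ^ k ≠ 0 := by positivity
    rw [mul_pow, pow_succ]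
    field_simp
  calc _ ≤ ε / 2 * ((S.card / D) * H * X) + ε / 2 * ((S.card / D) * H * X) := add_le_add hA hB
    _ = ε * (S.card / D) * H * X := by ring

end Pool.Agent.Helper8.BC
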