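import Pool.Agent.Helper8.BC.SingL

/-!
# BC-03: the correlation of two groups of forms over an interval

PROOF. `N0 ≥ 4 k + 4` and `N0 ≥ a i` for all `i`. Let `s = fm a D e`, `s' = fm a D' e'`; `s.card = s'.card = k` (`a` injective), `s` and `s'` are disjoint
(a common form `(D, a i + e) = (D', a j + e')` has determinant `0`), so `(s ∪ s').card = 2 k` and `nuL N z (s ∪ s') m = nuL N z s m * nuL N z s' m`. So
`(nuL s - 1)(nuL s' - 1) = (nuL (s ∪ s') - 1) - (nuL s - 1) - (nuL s' - 1)` and the sum over `m ∈ Ioc u (u + M)` of each bracket is, by `corrL (2 k)` (with the given `b`) and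
`SSL_sub_one (2 k)`, at most `M |SSL - 1| + C1 (1/4)^b M SSL + R ≤ (1 + C1) M |SSL - 1| + C1 (1/4)^b M + R`, `R = V⁻¹ ^ (2 k) ((2 E + 3) 2 ^ (20 E (b + 2)))`
(`V⁻¹ ≥ 1`, so smaller powers are at most `V⁻¹ ^ (2 k)`).
In `SSL_sub_one`: `∑_(L ∈ s ∪ s') gg (L.1) ≤ k gg D + k gg D'`; in the sum over `offDiag` a pair inside `s` has determinant `D (a j - a i)`, `a i ≠ a j`, `|a i - a j| ≤ N < p`, so
`DD N z (D (a j - a i)) = DD N z D` and it contributes `gg D`, at most `k ^ 2` times, the same for `s'`; a mixed pair contributes `gg` of `± (D (a j + e') - D' (a i + e))`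
(each pair `(i, j)` twice; `DD` does not see the sign). `gg C` is nonnegative and increasing in `C` (for the final constant take `C` large).
For `k = 0` both factors are `0` (`nuL N z ∅ m = 1`).
-/

set_option autoImplicit false

namespace Pool.Agent.Helper8.BC

open Finset
open Pool.Agent.Helper40.DB (PP VV DD)
open Pool.Agent.Helper39.SP (gg)

theorem gg_nonneg (C : ℝ) (hC : 0 ≤ C) (N z : ℕ) (t : ℤ) : 0 ≤ gg C N z t := by
  unfold gg
  have h : (1 : ℝ) ≤ ∏ p ∈ DD N z t, (1 + C / (p : ℝ)) := by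
    have h1 : ∏ p ∈ DD N z t, (1 : ℝ) ≤ ∏ p ∈ DD N z t, (1 + C / (p : ℝ)) := by
      refine Finset.prod_le_prod (fun p _ => zero_le_one) fun p _ => ?_
      have : 0 ≤ C / (p : ℝ) := by positivity
      linarith
    rwa [prod_const_one] at h1
  linarith

theorem gg_mono {C C' : ℝ} (hC : 0 ≤ C) (h : C ≤ C') (N z : ℕ) (t : ℤ) : gg C N z t ≤ gg C' N z t := by
  unfold gg
  refine sub_le_sub_right (Finset.prod_le_prod (fun p _ => by positivity) fun p _ => ?_) 1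
  have : C / (p : ℝ) ≤ C' / (p : ℝ) := by gcongr
  linarith

/-- A factor without prime divisors in `(N, z]` does not matter. -/
theorem gg_mul_eq (C : ℝ) (N z : ℕ) (t w : ℤ) (hw : ∀ p ∈ PP N z, ¬ (p : ℤ) ∣ w) : gg C N z (t * w) = gg C N z t := by
  unfold gg
  have h : DD N z (t * w) = DD N z t := by
    unfold DD
    refine filter_congr fun p hp => ?_
    constructor
    · intro hd
      have hpp : p.Prime := (mem_filter.1 hp).2
      have hpi : Prime (p : ℤ) := Nat.prime_iff_prime_int.1 hpp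
      rcases hpi.dvd_or_dvd hd with h1 | h1
      · exact h1
      · exact absurd h1 (hw p hp)
    · intro hd
      exact Dvd.dvd.mul_right hd w
  rw [h]

private theorem gg_neg (C : ℝ) (N z : ℕ) (t : ℤ) : gg C N z (-t) = gg C N z t := by
  unfold gg
  have h : DD N z (-t) = DD N z t := by
    unfold DD
    exact filter_congr fun p _ => dvd_neg
  rw [h]

private theorem sum_union_le' {α : Type} [DecidableEq α] (A B : Finset α) (f : α → ℝ)
    (hf : ∀ x, 0 ≤ f x) : ∑ x ∈ A ∪ B, f x ≤ ∑ x ∈ A, f x + ∑ x ∈ B, f x := by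
  rw [← sum_union_inter]
  exact le_add_of_nonneg_right (sum_nonneg fun x _ => hf x)

private theorem fm_inj {k : ℕ} (a : Fin k → ℕ) (ha : Function.Injective a) (D e : ℤ) :
    Function.Injective (fun i => ((D, (a i : ℤ) + e) : ℤ × ℤ)) := by
  intro i j h
  have h1 := (Prod.mk.inj h).2
  have h2 : (a i : ℤ) = a j := by linarith
  exact ha (by exact_mod_cast h2)

private theorem fm_card {k : ℕ} (a : Fin k → ℕ) (ha : Function.Injective a) (D e : ℤ) :
    (fm a D e).card = k := by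
  unfold fm
  rw [card_image_of_injective _ (fm_inj a ha D e), card_univ, Fintype.card_fin]

private theorem mem_fm {k : ℕ} (a : Fin k → ℕ) (D e : ℤ) (L : ℤ × ℤ) :
    L ∈ fm a D e ↔ ∃ i, (D, (a i : ℤ) + e) = L := by
  unfold fm
  rw [mem_image]
  exact ⟨fun ⟨i, _, hi⟩ => ⟨i, hi⟩, fun ⟨i, hi⟩ => ⟨i, mem_univ i, hi⟩⟩

private theorem sum_self {k : ℕ} (a : Fin k → ℕ) (ha : Function.Injective a) (C : ℝ) (hC : 0 ≤ C)
    (N z : ℕ) (haN : ∀ i, a i ≤ N) (D e : ℤ) :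
    ∑ x ∈ (fm a D e).offDiag, gg C N z (x.1.1 * x.2.2 - x.2.1 * x.1.2) ≤
      (k : ℝ) ^ 2 * gg C N z D := by
  have h1 : ∀ x ∈ (fm a D e).offDiag, gg C N z (x.1.1 * x.2.2 - x.2.1 * x.1.2) ≤ gg C N z D := by
    intro x hx
    rw [mem_offDiag, mem_fm, mem_fm] at hx
    obtain ⟨⟨i, hi⟩, ⟨j, hj⟩, hne⟩ := hx
    rw [← hi, ← hj] at hne ⊢
    have hij : (a i : ℤ) ≠ a j := by
      intro h0
      apply hne
      rw [h0]
    have e1 : D * ((a j : ℤ) + e) - D * ((a i : ℤ) + e) = D * ((a j : ℤ) - a i) := by ring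
    simp only
    rw [e1, gg_mul_eq]
    intro p hp hd
    unfold PP at hp
    rw [mem_filter, mem_Ioc] at hp
    have h2 : (a j : ℤ) - a i ≠ 0 := sub_ne_zero.2 (Ne.symm hij)
    have h3 := Int.le_of_dvd (abs_pos.2 h2) ((dvd_abs _ _).2 hd)
    have h4 : |(a j : ℤ) - a i| ≤ N := by
      rw [abs_le]
      have h5 := haN i
      have h6 := haN j
      constructor <;> omega
    have h7 : (p : ℤ) ≤ N := h3.trans h4
    have h8 : p ≤ N := by exact_mod_cast h7
    omega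
  refine (sum_le_card_nsmul _ _ _ h1).trans ?_
  rw [nsmul_eq_mul]
  refine mul_le_mul_of_nonneg_right ?_ (gg_nonneg C hC N z D)
  have h2 : (fm a D e).offDiag.card ≤ k ^ 2 := by
    rw [offDiag_card, fm_card a ha, sq]
    exact Nat.sub_le _ _
  exact_mod_cast h2

private theorem sum_cross {k : ℕ} (a : Fin k → ℕ) (ha : Function.Injective a) (C : ℝ)
    (N z : ℕ) (D e D' e' : ℤ) :
    ∑ x ∈ fm a D e ×ˢ fm a D' e', gg C N z (x.1.1 * x.2.2 - x.2.1 * x.1.2) =
      ∑ i, ∑ j, gg C N z (D * ((a j : ℤ) + e') - D' * ((a i : ℤ) + e)) := by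
  rw [sum_product]
  unfold fm
  rw [sum_image fun i _ j _ h => fm_inj a ha D e h]
  refine sum_congr rfl fun i _ => ?_
  rw [sum_image fun i _ j _ h => fm_inj a ha D' e' h]

private theorem VV_le_one (N z : ℕ) : VV N z ≤ 1 := by
  unfold VV
  refine prod_le_one (fun p hp => ?_) fun p hp => ?_
  · unfold PP at hp
    rw [mem_filter] at hp
    have h1 : (1 : ℝ) ≤ p := by exact_mod_cast hp.2.one_le
    have h2 : 1 / (p : ℝ) ≤ 1 := by
      rw [div_le_one (by linarith)]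
      exact h1
    linarith
  · have : 0 ≤ 1 / (p : ℝ) := by positivity
    linarith

private theorem VV_pos' (N z : ℕ) : 0 < VV N z := by
  unfold VV
  refine prod_pos fun p hp => ?_
  unfold PP at hp
  rw [mem_filter] at hp
  have h1 : (1 : ℝ) < p := by exact_mod_cast hp.2.one_lt
  have h2 : 1 / (p : ℝ) < 1 := by
    rw [div_lt_one (by linarith)]
    exact h1
  linarith

private theorem nuL_union (N z : ℕ) (s s' : Finset (ℤ × ℤ)) (h : Disjoint s s') (m : ℕ) :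
    nuL N z (s ∪ s') m = nuL N z s m * nuL N z s' m := by
  classical
  unfold nuL
  have h1 : (∀ p ∈ PP N z, ∀ L ∈ s ∪ s', ¬ (p : ℤ) ∣ L.1 * m + L.2) ↔
      (∀ p ∈ PP N z, ∀ L ∈ s, ¬ (p : ℤ) ∣ L.1 * m + L.2) ∧
        ∀ p ∈ PP N z, ∀ L ∈ s', ¬ (p : ℤ) ∣ L.1 * m + L.2 := by
    constructor
    · intro h
      exact ⟨fun p hp L hL => h p hp L (mem_union_left _ hL),
        fun p hp L hL => h p hp L (mem_union_right _ hL)⟩
    · rintro ⟨h, h'⟩ p hp L hL
      rcases mem_union.1 hL with hL | hL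
      · exact h p hp L hL
      · exact h' p hp L hL
  simp only [h1]
  by_cases hs : ∀ p ∈ PP N z, ∀ L ∈ s, ¬ (p : ℤ) ∣ L.1 * m + L.2
  · by_cases hs' : ∀ p ∈ PP N z, ∀ L ∈ s', ¬ (p : ℤ) ∣ L.1 * m + L.2
    · rw [if_pos ⟨hs, hs'⟩, if_pos hs, if_pos hs', card_union_of_disjoint h, pow_add]
    · rw [if_neg (fun h => hs' h.2), if_neg hs', mul_zero]
  · rw [if_neg (fun h => hs h.1), if_neg hs, zero_mul]

theorem form_int {k : ℕ} (a : Fin k → ℕ) (ha : Function.Injective a) : ∃ C : ℝ, 0 ≤ C ∧ ∃ N0 : ℕ, ∀ N z : ℕ, N0 ≤ N →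
    ∀ D e D' e' : ℤ, PrimN N z (fm a D e) → PrimN N z (fm a D' e') →
      (∀ i j, D * ((a j : ℤ) + e') - D' * ((a i : ℤ) + e) ≠ 0) → ∀ b : ℕ, 1 ≤ b → ∀ u M : ℕ,
        |∑ m ∈ Ioc u (u + M), (nuL N z (fm a D e) m - 1) * (nuL N z (fm a D' e') m - 1)| ≤
          C * (1 / N + (1 / 4) ^ b + gg C N z D + gg C N z D' +
            ∑ i, ∑ j, gg C N z (D * ((a j : ℤ) + e') - D' * ((a i : ℤ) + e))) * M +
          C * ((VV N z)⁻¹ ^ (2 * k) * ((2 * Nat.log 2 z + 3) * 2 ^ (20 * Nat.log 2 z * (b + 2)))) := by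
  obtain ⟨C1, hC1, h1⟩ := corrL (2 * k)
  obtain ⟨C2, hC2, h2⟩ := SSL_sub_one (2 * k)
  set C : ℝ := 3 * (1 + C1) * (C2 + (k + k ^ 2 + 2)) + 3 * C1 + 3 + C2 with hC
  have hk0 : (0 : ℝ) ≤ k := Nat.cast_nonneg k
  have hq0 : (0 : ℝ) ≤ (k : ℝ) + k ^ 2 + 2 := by positivity
  have hC0 : 0 ≤ C := by positivity
  refine ⟨C, hC0, 4 * k + 4 + ∑ i, a i, fun N z hN D e D' e' hp hp' hdet b hb u M => ?_⟩
  have haN : ∀ i, a i ≤ N := by
    intro i
    have := Finset.single_le_sum (f := a) (fun i _ => Nat.zero_le _) (mem_univ i)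
    omega
  set s := fm a D e with hs
  set s' := fm a D' e' with hs'
  have hcs : s.card = k := fm_card a ha D e
  have hcs' : s'.card = k := fm_card a ha D' e'
  have hdisj : Disjoint s s' := by
    rw [disjoint_left]
    intro L hL hL'
    rw [hs, mem_fm] at hL
    rw [hs', mem_fm] at hL'
    obtain ⟨i, hi⟩ := hL
    obtain ⟨j, hj⟩ := hL'
    rw [← hi] at hj
    obtain ⟨e1, e2⟩ := Prod.mk.inj hj
    apply hdet i j
    rw [e1, e2]
    ring
  have hcu : (s ∪ s').card = 2 * k := by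
    rw [card_union_of_disjoint hdisj, hcs, hcs']
    ring
  have hpu : PrimN N z (s ∪ s') := by
    intro p hpp L hL
    rcases mem_union.1 hL with h | h
    · exact hp p hpp L h
    · exact hp' p hpp L h
  set R : ℝ := (VV N z)⁻¹ ^ (2 * k) * ((2 * Nat.log 2 z + 3) * 2 ^ (20 * Nat.log 2 z * (b + 2)))
    with hR
  set Q : ℝ := ∑ L ∈ s ∪ s', gg C2 N z L.1 +
    ∑ x ∈ (s ∪ s').offDiag, gg C2 N z (x.1.1 * x.2.2 - x.2.1 * x.1.2) with hQ
  set G : ℝ := gg C2 N z D + gg C2 N z D' +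
    ∑ i, ∑ j, gg C2 N z (D * ((a j : ℤ) + e') - D' * ((a i : ℤ) + e)) with hG
  have hgD : 0 ≤ gg C2 N z D := gg_nonneg C2 hC2 N z D
  have hgD' : 0 ≤ gg C2 N z D' := gg_nonneg C2 hC2 N z D'
  have hgS : 0 ≤ ∑ i, ∑ j, gg C2 N z (D * ((a j : ℤ) + e') - D' * ((a i : ℤ) + e)) :=
    sum_nonneg fun i _ => sum_nonneg fun j _ => gg_nonneg C2 hC2 N z _
  have hG0 : 0 ≤ G := by positivity
  -- the sums for the union
  have hQG : Q ≤ ((k : ℝ) + k ^ 2 + 2) * G := by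
    have q1 : ∑ L ∈ s ∪ s', gg C2 N z L.1 ≤ k * gg C2 N z D + k * gg C2 N z D' := by
      rw [sum_union hdisj]
      refine add_le_add ?_ ?_
      · rw [← hcs, ← nsmul_eq_mul]
        refine sum_le_card_nsmul _ _ _ fun L hL => ?_
        rw [hs, mem_fm] at hL
        obtain ⟨i, hi⟩ := hL
        rw [← hi]
      · rw [← hcs', ← nsmul_eq_mul]
        refine sum_le_card_nsmul _ _ _ fun L hL => ?_
        rw [hs', mem_fm] at hL
        obtain ⟨i, hi⟩ := hL
        rw [← hi]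
    have hf0 : ∀ x : (ℤ × ℤ) × (ℤ × ℤ), 0 ≤ gg C2 N z (x.1.1 * x.2.2 - x.2.1 * x.1.2) :=
      fun x => gg_nonneg C2 hC2 N z _
    have q2 : ∑ x ∈ (s ∪ s').offDiag, gg C2 N z (x.1.1 * x.2.2 - x.2.1 * x.1.2) ≤
        (k : ℝ) ^ 2 * gg C2 N z D + (k : ℝ) ^ 2 * gg C2 N z D' +
        ∑ i, ∑ j, gg C2 N z (D * ((a j : ℤ) + e') - D' * ((a i : ℤ) + e)) +
        ∑ i, ∑ j, gg C2 N z (D * ((a j : ℤ) + e') - D' * ((a i : ℤ) + e)) := by
      rw [offDiag_union hdisj]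
      refine (sum_union_le' _ _ _ hf0).trans (add_le_add ((sum_union_le' _ _ _ hf0).trans
        (add_le_add ((sum_union_le' _ _ _ hf0).trans (add_le_add ?_ ?_)) ?_)) ?_)
      · exact sum_self a ha C2 hC2 N z haN D e
      · exact sum_self a ha C2 hC2 N z haN D' e'
      · exact (sum_cross a ha C2 N z D e D' e').le
      · rw [sum_cross a ha C2 N z D' e' D e, sum_comm]
        refine sum_le_sum fun i _ => sum_le_sum fun j _ => ?_
        rw [← gg_neg]
        apply le_of_eq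
        congr 1
        ring
    have q3 : 0 ≤ (k : ℝ) * ∑ i, ∑ j, gg C2 N z (D * ((a j : ℤ) + e') - D' * ((a i : ℤ) + e)) :=
      mul_nonneg hk0 hgS
    have q4 : 0 ≤ (k : ℝ) ^ 2 * ∑ i, ∑ j, gg C2 N z (D * ((a j : ℤ) + e') - D' * ((a i : ℤ) + e)) :=
      mul_nonneg (by positivity) hgS
    rw [hQ, hG]
    nlinarith
  have hVpos := VV_pos' N z
  have hVinv : (1 : ℝ) ≤ (VV N z)⁻¹ := (one_le_inv₀ hVpos).2 (VV_le_one N z)
  -- one bracket
  have key : ∀ r : Finset (ℤ × ℤ), r ⊆ s ∪ s' →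
      |∑ m ∈ Ioc u (u + M), (nuL N z r m - 1)| ≤
        (1 + C1) * (M * (C2 / N + Q)) + C1 * (1 / 4) ^ b * M + R := by
    intro r hr
    have hcr : r.card ≤ 2 * k := hcu ▸ card_le_card hr
    have hpr : PrimN N z r := fun p hpp L hL => hpu p hpp L (hr hL)
    have k1 := h1 N z (by omega) r hcr hpr b hb u M
    have k2 := h2 N z (by omega) r hcr hpr
    have k3 : |SSL N z r - 1| ≤ C2 / N + Q := by
      refine k2.trans ?_
      rw [hQ, add_assoc]
      refine add_le_add le_rfl (add_le_add ?_ ?_)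
      · exact sum_le_sum_of_subset_of_nonneg hr fun L _ _ => gg_nonneg C2 hC2 N z _
      · exact sum_le_sum_of_subset_of_nonneg (offDiag_mono hr) fun L _ _ => gg_nonneg C2 hC2 N z _
    have hM0 : (0 : ℝ) ≤ M := Nat.cast_nonneg M
    have k4 : ∑ m ∈ Ioc u (u + M), (nuL N z r m - 1) =
        (∑ m ∈ Ioc u (u + M), nuL N z r m - M * SSL N z r) + M * (SSL N z r - 1) := by
      rw [sum_sub_distrib, sum_const, Nat.card_Ioc, nsmul_eq_mul]
      have : u + M - u = M := by omega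
      rw [this]
      ring
    have k5 : |(M : ℝ) * (SSL N z r - 1)| ≤ M * (C2 / N + Q) := by
      rw [abs_mul, abs_of_nonneg hM0]
      exact mul_le_mul_of_nonneg_left k3 hM0
    have k6 : (VV N z)⁻¹ ^ r.card * ((2 * Nat.log 2 z + 3) * 2 ^ (20 * Nat.log 2 z * (b + 2))) ≤ R := by
      rw [hR]
      refine mul_le_mul_of_nonneg_right (pow_le_pow_right₀ hVinv hcr) (by positivity)
    have k7 : SSL N z r ≤ 1 + (C2 / N + Q) := by
      have := (abs_le.1 k3).2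
      linarith
    have k8 : C1 * (1 / 4) ^ b * (M * SSL N z r) ≤ C1 * (1 / 4) ^ b * (M * (1 + (C2 / N + Q))) := by
      gcongr
    have k9 : C1 * (1 / 4 : ℝ) ^ b ≤ C1 := by
      have : (1 / 4 : ℝ) ^ b ≤ 1 := pow_le_one₀ (by norm_num) (by norm_num)
      nlinarith
    have k10 : 0 ≤ (M : ℝ) * (C2 / N + Q) := (abs_nonneg _).trans k5
    have k11 : C1 * (1 / 4 : ℝ) ^ b * (M * (C2 / N + Q)) ≤ C1 * (M * (C2 / N + Q)) :=
      mul_le_mul_of_nonneg_right k9 k10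
    rw [k4]
    refine (abs_add_le _ _).trans ?_
    calc _ ≤ (C1 * (1 / 4) ^ b * (M * (1 + (C2 / N + Q))) + R) + M * (C2 / N + Q) := by linarith
      _ = C1 * (1 / 4 : ℝ) ^ b * (M * (C2 / N + Q)) + (C1 * (1 / 4 : ℝ) ^ b * M + R +
          M * (C2 / N + Q)) := by ring
      _ ≤ C1 * (M * (C2 / N + Q)) + (C1 * (1 / 4 : ℝ) ^ b * M + R + M * (C2 / N + Q)) := by
          linarith
      _ = _ := by ring
  have b1 := key (s ∪ s') Subset.rfl
  have b2 := key s subset_union_left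
  have b3 := key s' subset_union_right
  have hsplit : ∑ m ∈ Ioc u (u + M), (nuL N z s m - 1) * (nuL N z s' m - 1) =
      ∑ m ∈ Ioc u (u + M), (nuL N z (s ∪ s') m - 1) - ∑ m ∈ Ioc u (u + M), (nuL N z s m - 1) -
        ∑ m ∈ Ioc u (u + M), (nuL N z s' m - 1) := by
    rw [← sum_sub_distrib, ← sum_sub_distrib]
    refine sum_congr rfl fun m _ => ?_
    rw [nuL_union N z s s' hdisj]
    ring
  have b4 : |∑ m ∈ Ioc u (u + M), (nuL N z s m - 1) * (nuL N z s' m - 1)| ≤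
      3 * ((1 + C1) * (M * (C2 / N + Q)) + C1 * (1 / 4) ^ b * M + R) := by
    rw [hsplit]
    refine (abs_sub _ _).trans ?_
    refine (add_le_add (abs_sub _ _) le_rfl).trans ?_
    linarith
  refine b4.trans ?_
  have hM0 : (0 : ℝ) ≤ M := Nat.cast_nonneg M
  have hR0 : 0 ≤ R := by positivity
  have hC2C : C2 ≤ C := by
    rw [hC]
    have : 0 ≤ 3 * (1 + C1) * (C2 + (k + k ^ 2 + 2)) + 3 * C1 + 3 := by positivity
    linarith
  set G' : ℝ := gg C N z D + gg C N z D' +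
    ∑ i, ∑ j, gg C N z (D * ((a j : ℤ) + e') - D' * ((a i : ℤ) + e)) with hG'
  have hGG : G ≤ G' := by
    rw [hG, hG']
    refine add_le_add (add_le_add (gg_mono hC2 hC2C N z D) (gg_mono hC2 hC2C N z D')) ?_
    exact sum_le_sum fun i _ => sum_le_sum fun j _ => gg_mono hC2 hC2C N z _
  have c1 : 3 * (1 + C1) * C2 ≤ C := by
    rw [hC]
    nlinarith [mul_nonneg hC1 hq0]
  have c2 : 3 * C1 ≤ C := by
    rw [hC]
    nlinarith [mul_nonneg hC1 hq0, mul_nonneg hC1 hC2]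
  have c3 : 3 * (1 + C1) * ((k : ℝ) + k ^ 2 + 2) ≤ C := by
    rw [hC]
    nlinarith [mul_nonneg hC1 hC2]
  have c4 : (3 : ℝ) ≤ C := by
    rw [hC]
    nlinarith [mul_nonneg hC1 hq0, mul_nonneg hC1 hC2]
  have hN0 : (0 : ℝ) ≤ 1 / (N : ℝ) := by positivity
  have d1 : 3 * (1 + C1) * C2 * (1 / (N : ℝ)) ≤ C * (1 / N) := mul_le_mul_of_nonneg_right c1 hN0
  have d2 : 3 * C1 * (1 / 4 : ℝ) ^ b ≤ C * (1 / 4) ^ b :=
    mul_le_mul_of_nonneg_right c2 (by positivity)
  have d3 : 3 * (1 + C1) * Q ≤ C * G' := by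
    calc 3 * (1 + C1) * Q ≤ 3 * (1 + C1) * (((k : ℝ) + k ^ 2 + 2) * G) :=
          mul_le_mul_of_nonneg_left hQG (by positivity)
      _ = (3 * (1 + C1) * ((k : ℝ) + k ^ 2 + 2)) * G := by ring
      _ ≤ C * G' := mul_le_mul c3 hGG hG0 hC0
  have d4 : 3 * R ≤ C * R := mul_le_mul_of_nonneg_right c4 hR0
  have d5 : 3 * ((1 + C1) * (M * (C2 / N + Q)) + C1 * (1 / 4) ^ b * M + R) =
      (3 * (1 + C1) * C2 * (1 / (N : ℝ)) + 3 * C1 * (1 / 4 : ℝ) ^ b + 3 * (1 + C1) * Q) * M +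
        3 * R := by ring
  rw [d5]
  refine add_le_add ?_ d4
  refine mul_le_mul_of_nonneg_right ?_ hM0
  have d6 : C * (1 / N + (1 / 4) ^ b + gg C N z D + gg C N z D' +
      ∑ i, ∑ j, gg C N z (D * ((a j : ℤ) + e') - D' * ((a i : ℤ) + e))) =
      C * (1 / N) + C * (1 / 4) ^ b + C * G' := by
    rw [hG']
    ring
  rw [d6]
  linarith

end Pool.Agent.Helper8.BC
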