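import Pool.Agent.Helper8.BC.Defs

/-!
# BC-06: the primes larger than `Q` in an interval

PROOF. Let `r = Nat.ceil C`, so `(1 + 2/p)^r ≥ 1 + 2 r/p ≥ 1 + C/p`. For `t ≠ 0`, `|t| ≤ 2 Y^5 ≤ Y^6`, let `T = DD Q z t` (primes `p > Q` dividing `t`),
`σ t = ∑_(p ∣ t, p > Q) 1/p`. `gg C Q z t = ∏_(p ∈ T) (1 + C/p) - 1 ≤ (∑_(p ∈ T) C/p) ∏_(p ∈ T) (1 + C/p) ≤ C σ(t) W(|t|)^r` (`∏ (1 + x_i) - 1 ≤ (∑ x_i) ∏ (1 + x_i)`, induction).
Cauchy-Schwarz: `∑_t gg ≤ C (∑_t σ^2)^(1/2) (∑_t W^(2 r))^(1/2)`, and `∑_t W^(2 r) ≤ C2 L` by `Helper8.DW.sum_W_int (2 r) 1` (`log Y ≤ Q log Y ≤ L^2`).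
`σ = σ1 + σ2 + σ3`, over the primes in `(Q, L]`, `(L, L^2]`, `(L^2, ∞)`; `σ^2 ≤ 3 (σ1^2 + σ2^2 + σ3^2)`.
* `σ3 ≤ (number of prime divisors of t)/L^2 ≤ 9 log Y / L^2 ≤ 9/Q` (see `sum_big` in `Helper8/DW/Root.lean`: `Helper83.HLD.card_primeFactors_le`), so `σ3^2 ≤ 81/Q` (`Q ≥ 1`).
* `σ2 ≤ 4` (`sum_mid` in `DW/Root.lean`, copy it; it uses `Pool.Agent.Helper10.mertens_upper`), so `∑_t σ2^2 ≤ 4 ∑_t σ2 ≤ 4 ∑_(L < p ≤ L^2) (1/p) · 1 ≤ 16` (an interval of `L` integers has at most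
  one multiple of `p > L`).
* `∑_t σ1^2 = ∑_(p, p' ∈ (Q, L]) (1/(p p')) #{t : p ∣ t, p' ∣ t}`. Diagonal: `∑_p (1/p^2)(L/p + 1) ≤ 2 L ∑_(p > Q) 1/p^3·... ≤ 2 L/Q` (`L/p + 1 ≤ 2 L/p`, `∑_(n > Q) 1/n^2 ≤ 1/Q`).
  Off the diagonal (`p ≠ p'` coprime): `≤ L/(p p') + 1`: `∑ ≤ L (∑_(p > Q) 1/p^2)^2 + (∑_(p ≤ L) 1/p)^2 ≤ L/Q + (1 + log L)^2 ≤ 2 L/Q` for `L ≥ L0(Q)`.
So `∑_t σ^2 ≤ 3 (4 L/Q + 16 + 81 L/Q) ≤ 300 L/Q` for `L ≥ L0(Q)` and the sum is at most `C √(300 L/Q) √(C2 L) = C' L/√Q`. (Number of multiples of `n` in an interval of `L` integers: at most `L/n + 1`.)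
-/

set_option autoImplicit false

namespace Pool.Agent.Helper8.BC

open Finset
open Pool.Agent.Helper40.DB (PP VV DD)
open Pool.Agent.Helper39.SP (gg)
open Pool.Agent.Helper83.HLC (W one_le_W)

private theorem sum_mid (N : ℕ) (hN : 1 ≤ N) (T : Finset ℕ)
    (hT : ∀ p ∈ T, p.Prime ∧ N < p ∧ p ≤ N ^ 2) : ∑ p ∈ T, (1 : ℝ) / p ≤ 4 := by
  rcases Nat.lt_or_ge N 2 with h | h
  · have hN1 : N = 1 := by omega
    subst hN1
    have hT0 : T = ∅ := by
      rw [Finset.eq_empty_iff_forall_notMem]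
      intro p hp
      have := hT p hp
      omega
    rw [hT0, Finset.sum_empty]
    norm_num
  · have hNR : (2 : ℝ) ≤ N := by exact_mod_cast h
    have hlog2 : 0 < Real.log 2 := Real.log_pos (by norm_num)
    have hlogN : Real.log 2 ≤ Real.log N := Real.log_le_log (by norm_num) hNR
    have hlogN0 : 0 < Real.log N := by linarith
    have h1 : Real.log N * ∑ p ∈ T, (1 : ℝ) / p ≤ Real.log ((N ^ 2 : ℕ) : ℝ) + Real.log 4 := by
      refine le_trans ?_ (Pool.Agent.Helper10.mertens_upper (N ^ 2) (Nat.one_le_pow _ _ (by omega)))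
      rw [Finset.mul_sum]
      have h2 : T ⊆ (Icc 1 (N ^ 2)).filter Nat.Prime := by
        intro p hp
        have h3 := hT p hp
        rw [Finset.mem_filter, Finset.mem_Icc]
        exact ⟨⟨h3.1.one_lt.le, h3.2.2⟩, h3.1⟩
      refine le_trans ?_ (Finset.sum_le_sum_of_subset_of_nonneg h2 fun p _ _ =>
        div_nonneg (Real.log_natCast_nonneg p) (Nat.cast_nonneg p))
      refine Finset.sum_le_sum fun p hp => ?_
      have h3 := hT p hp
      have hp0 : (0 : ℝ) < p := by exact_mod_cast h3.1.pos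
      have hNp : (N : ℝ) ≤ p := by exact_mod_cast h3.2.1.le
      rw [mul_one_div]
      exact div_le_div_of_nonneg_right (Real.log_le_log (by linarith) hNp) hp0.le
    have h2 : Real.log ((N ^ 2 : ℕ) : ℝ) = 2 * Real.log N := by
      rw [Nat.cast_pow, Real.log_pow]
      norm_num
    have h3 : Real.log 4 = 2 * Real.log 2 := by
      rw [show (4 : ℝ) = 2 ^ 2 by norm_num, Real.log_pow]
      norm_num
    rw [h2, h3] at h1
    have h4 : Real.log N * ∑ p ∈ T, (1 : ℝ) / p ≤ Real.log N * 4 := by linarith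
    exact le_of_mul_le_mul_left h4 hlogN0

private theorem sum_big (Y N d : ℕ) (c : ℝ) (hc : 0 < c) (hY : 2 ≤ Y) (hN : 1 ≤ N) (hd0 : d ≠ 0)
    (hd : d ≤ Y ^ 6) (hcY : c * Real.log Y ≤ (N : ℝ) ^ 2) (T : Finset ℕ)
    (hT : ∀ p ∈ T, p ∈ d.primeFactors ∧ N ^ 2 < p) : ∑ p ∈ T, (1 : ℝ) / p ≤ 9 / c := by
  have hNR : (1 : ℝ) ≤ N := by exact_mod_cast hN
  have hN2 : (0 : ℝ) < (N : ℝ) ^ 2 := by positivity
  have h1 : ∑ p ∈ T, (1 : ℝ) / p ≤ ∑ _p ∈ T, (1 : ℝ) / (N : ℝ) ^ 2 := by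
    refine Finset.sum_le_sum fun p hp => ?_
    have h2 : ((N : ℝ)) ^ 2 ≤ p := by exact_mod_cast (hT p hp).2.le
    exact one_div_le_one_div_of_le hN2 h2
  refine h1.trans ?_
  rw [Finset.sum_const, nsmul_eq_mul, mul_one_div, div_le_div_iff₀ hN2 hc]
  have hsub : T ⊆ d.primeFactors := fun p hp => (hT p hp).1
  have h2 : (T.card : ℝ) ≤ d.primeFactors.card := by exact_mod_cast Finset.card_le_card hsub
  have h3 := Pool.Agent.Helper83.HLD.card_primeFactors_le d hd0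
  have hdR : (0 : ℝ) < d := by exact_mod_cast Nat.pos_of_ne_zero hd0
  have hd6 : (d : ℝ) ≤ (Y : ℝ) ^ 6 := by exact_mod_cast hd
  have h4 : Real.log d ≤ 6 * Real.log Y := by
    have := Real.log_le_log hdR hd6
    rw [Real.log_pow] at this
    exact_mod_cast this
  have h5 := Real.log_two_gt_d9
  have h0 : (0 : ℝ) ≤ d.primeFactors.card := Nat.cast_nonneg _
  have hlogY : 0 ≤ Real.log Y := Real.log_natCast_nonneg Y
  have h6 : (d.primeFactors.card : ℝ) * (2 / 3) ≤ 6 * Real.log Y := by nlinarith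
  have h7 : (d.primeFactors.card : ℝ) ≤ 9 * Real.log Y := by linarith
  have h8 : (T.card : ℝ) * c ≤ 9 * Real.log Y * c :=
    mul_le_mul_of_nonneg_right (h2.trans h7) hc.le
  have h9 : 9 * Real.log Y * c = 9 * (c * Real.log Y) := by ring
  rw [h9] at h8
  linarith

/-- the number of the multiples of `n` in an interval -/
private theorem card_mul (n : ℕ) (hn : 1 ≤ n) (z0 : ℤ) (L : ℕ) :
    (((Ioc z0 (z0 + L)).filter (fun t => (n : ℤ) ∣ t)).card : ℝ) ≤ L / n + 1 := by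
  have hn0 : (0 : ℤ) < n := by exact_mod_cast hn
  have h := Int.Ioc_filter_dvd_card z0 (z0 + L) hn0
  have hnq : (0 : ℚ) < n := by exact_mod_cast hn
  have h1 : ((⌊((z0 + L : ℤ) : ℚ) / ((n : ℤ) : ℚ)⌋ - ⌊(z0 : ℚ) / ((n : ℤ) : ℚ)⌋ : ℤ) : ℚ) ≤ L / n + 1 := by
    have e1 := Int.floor_le (((z0 + L : ℤ) : ℚ) / ((n : ℤ) : ℚ))
    have e2 := Int.lt_floor_add_one ((z0 : ℚ) / ((n : ℤ) : ℚ))
    have e3 : ((z0 + L : ℤ) : ℚ) / ((n : ℤ) : ℚ) = (z0 : ℚ) / ((n : ℤ) : ℚ) + L / n := by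
      push_cast
      ring
    rw [Int.cast_sub]
    rw [e3] at e1 ⊢
    linarith
  have h2 : ((((Ioc z0 (z0 + L)).filter (fun t => (n : ℤ) ∣ t)).card : ℤ) : ℚ) ≤ L / n + 1 := by
    rw [h, Int.cast_max]
    refine max_le h1 ?_
    rw [Int.cast_zero]
    positivity
  have h3 : ((((((Ioc z0 (z0 + L)).filter (fun t => (n : ℤ) ∣ t)).card : ℤ) : ℚ)) : ℝ) ≤
      ((L / n + 1 : ℚ) : ℝ) := by exact_mod_cast h2
  push_cast at h3
  exact h3

private theorem sum_three_half (Q L : ℕ) (hQ : 1 ≤ Q) (hL : Q ≤ L) :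
    ∑ n ∈ Ioc Q L, 1 / ((n : ℝ) * √n) ≤ 2 / √Q - 2 / √L := by
  induction L, hL using Nat.le_induction with
  | base => simp
  | succ L hL ih =>
    rw [Finset.sum_Ioc_succ_top hL]
    have hL0 : (0 : ℝ) < L := by exact_mod_cast (by omega : 0 < L)
    have h1 : 0 < √(L : ℝ) := Real.sqrt_pos.2 hL0
    have h2 : 0 < √((L : ℝ) + 1) := Real.sqrt_pos.2 (by linarith)
    have h3 : √(L : ℝ) ≤ √((L : ℝ) + 1) := Real.sqrt_le_sqrt (by linarith)
    have h4 : √((L : ℝ) + 1) * √((L : ℝ) + 1) = L + 1 := Real.mul_self_sqrt (by linarith)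
    have h5 : √(L : ℝ) * √(L : ℝ) = L := Real.mul_self_sqrt hL0.le
    have key : 1 / (((L : ℝ) + 1) * √((L : ℝ) + 1)) ≤ 2 / √(L : ℝ) - 2 / √((L : ℝ) + 1) := by
      rw [div_sub_div _ _ h1.ne' h2.ne', div_le_div_iff₀ (by positivity) (by positivity)]
      set x := √(L : ℝ)
      set y := √((L : ℝ) + 1)
      have h6 : y * y - x * x = 1 := by linarith
      have h7 : (y - x) * (y + x) = 1 := by linarith
      have h8 : 0 ≤ y - x := by linarith
      rw [← h4]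
      -- 1 * (x y) ≤ (2 y - x 2) * (y y y)
      have h9 : x ≤ (2 * y - 2 * x) * (y * y) := by
        have h10 : 1 ≤ (2 * (y - x)) * y := by nlinarith
        nlinarith
      nlinarith
    push_cast
    linarith

private theorem sum_half (Q L : ℕ) (hL : Q ≤ L) :
    ∑ n ∈ Ioc Q L, 1 / √(n : ℝ) ≤ 2 * √L - 2 * √Q := by
  induction L, hL using Nat.le_induction with
  | base => simp
  | succ L hL ih =>
    rw [Finset.sum_Ioc_succ_top hL]
    have hL0 : (0 : ℝ) ≤ L := Nat.cast_nonneg L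
    have h1 : 0 ≤ √(L : ℝ) := Real.sqrt_nonneg _
    have h2 : 0 < √((L : ℝ) + 1) := Real.sqrt_pos.2 (by linarith)
    have h3 : √(L : ℝ) ≤ √((L : ℝ) + 1) := Real.sqrt_le_sqrt (by linarith)
    have h4 : √((L : ℝ) + 1) * √((L : ℝ) + 1) = L + 1 := Real.mul_self_sqrt (by linarith)
    have h5 : √(L : ℝ) * √(L : ℝ) = L := Real.mul_self_sqrt hL0
    have key : 1 / √((L : ℝ) + 1) ≤ 2 * √((L : ℝ) + 1) - 2 * √(L : ℝ) := by
      rw [div_le_iff₀ h2]
      nlinarith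
    push_cast
    linarith

private theorem prod_sub_one (T : Finset ℕ) (x : ℕ → ℝ) (hx : ∀ p ∈ T, 0 ≤ x p) :
    ∏ p ∈ T, (1 + x p) - 1 ≤ (∑ p ∈ T, x p) * ∏ p ∈ T, (1 + x p) := by
  classical
  induction T using Finset.induction_on with
  | empty => simp
  | insert a T ha ih =>
    have h1 := ih fun p hp => hx p (Finset.mem_insert_of_mem hp)
    have h2 := hx a (Finset.mem_insert_self _ _)
    have h3 : 0 ≤ ∑ p ∈ T, x p :=
      Finset.sum_nonneg fun p hp => hx p (Finset.mem_insert_of_mem hp)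
    have h4 : 1 ≤ ∏ p ∈ T, (1 + x p) := by
      calc (1 : ℝ) = ∏ _p ∈ T, (1 : ℝ) := by simp
        _ ≤ _ := Finset.prod_le_prod (fun _ _ => zero_le_one) fun p hp => by
          have := hx p (Finset.mem_insert_of_mem hp)
          linarith
    rw [Finset.prod_insert ha, Finset.sum_insert ha]
    set P := ∏ p ∈ T, (1 + x p)
    set S := ∑ p ∈ T, x p
    have h5 : 0 ≤ S * P * x a := by positivity
    have h6 : 0 ≤ x a * P * x a := by positivity
    nlinarith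

private theorem W_bound (C : ℝ) (hC : 0 ≤ C) (Q z : ℕ) (t : ℤ) (ht : t ≠ 0) :
    ∏ p ∈ DD Q z t, (1 + C / (p : ℝ)) ≤ W t.natAbs ^ ⌈C⌉₊ := by
  have hsub : DD Q z t ⊆ t.natAbs.primeFactors := by
    intro p hp
    unfold DD PP at hp
    rw [Finset.mem_filter, Finset.mem_filter] at hp
    rw [Nat.mem_primeFactors]
    exact ⟨hp.1.2, Int.natCast_dvd.1 hp.2, Int.natAbs_ne_zero.2 ht⟩
  unfold W
  rw [← Finset.prod_pow]
  have h1 : ∀ p : ℕ, 1 + C / (p : ℝ) ≤ (1 + 2 / (p : ℝ)) ^ ⌈C⌉₊ := by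
    intro p
    have h2 : (0 : ℝ) ≤ 2 / (p : ℝ) := by positivity
    have h3 := one_add_mul_le_pow (a := 2 / (p : ℝ)) (by linarith) ⌈C⌉₊
    refine le_trans ?_ h3
    have h4 : C ≤ ⌈C⌉₊ := Nat.le_ceil C
    have h5 : C / (p : ℝ) ≤ (⌈C⌉₊ : ℝ) * (2 / (p : ℝ)) := by
      rw [mul_div_assoc', ← sub_nonneg, ← sub_div]
      apply div_nonneg _ (Nat.cast_nonneg p)
      linarith
    linarith
  calc ∏ p ∈ DD Q z t, (1 + C / (p : ℝ)) ≤ ∏ p ∈ DD Q z t, (1 + 2 / (p : ℝ)) ^ ⌈C⌉₊ :=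
        Finset.prod_le_prod (fun p _ => by positivity) fun p _ => h1 p
    _ ≤ _ := by
        rw [← Finset.prod_sdiff hsub]
        have h5 : 1 ≤ ∏ p ∈ t.natAbs.primeFactors \ DD Q z t, (1 + 2 / (p : ℝ)) ^ ⌈C⌉₊ := by
          calc (1 : ℝ) = ∏ _p ∈ t.natAbs.primeFactors \ DD Q z t, (1 : ℝ) := by simp
            _ ≤ _ := Finset.prod_le_prod (fun _ _ => zero_le_one) fun p _ => one_le_pow₀ (by
              have : (0 : ℝ) ≤ 2 / (p : ℝ) := by positivity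
              linarith)
        exact le_mul_of_one_le_left (Finset.prod_nonneg fun p _ => by positivity) h5

/-- swapping the sums -/
private theorem swap_le (I : Finset ℤ) (A : ℤ → Finset ℕ) (U : Finset ℕ) (f : ℕ → ℝ)
    (hf : ∀ n ∈ U, 0 ≤ f n) (z0 : ℤ) (L : ℕ) (hI : I ⊆ Ioc z0 (z0 + L))
    (hU : ∀ n ∈ U, 1 ≤ n)
    (hA : ∀ t ∈ I, ∀ n ∈ A t, n ∈ U ∧ (n : ℤ) ∣ t) :
    ∑ t ∈ I, ∑ n ∈ A t, f n ≤ ∑ n ∈ U, f n * (L / n + 1) := by
  classical
  calc ∑ t ∈ I, ∑ n ∈ A t, f n ≤ ∑ t ∈ I, ∑ n ∈ U.filter (fun n : ℕ => (n : ℤ) ∣ t), f n := by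
        refine Finset.sum_le_sum fun t ht => ?_
        refine Finset.sum_le_sum_of_subset_of_nonneg ?_ fun n hn _ => hf n (Finset.mem_filter.1 hn).1
        intro n hn
        exact Finset.mem_filter.2 (hA t ht n hn)
    _ = ∑ t ∈ I, Finset.sum U (fun n : ℕ => if (n : ℤ) ∣ t then f n else 0) := by
        refine Finset.sum_congr rfl fun t _ => ?_
        rw [Finset.sum_filter]
    _ = Finset.sum U (fun n : ℕ => ∑ t ∈ I, if (n : ℤ) ∣ t then f n else 0) := Finset.sum_comm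
    _ = ∑ n ∈ U, f n * ((I.filter (fun t => (n : ℤ) ∣ t)).card : ℝ) := by
        refine Finset.sum_congr rfl fun n _ => ?_
        rw [← Finset.sum_filter, Finset.sum_const, nsmul_eq_mul, mul_comm]
    _ ≤ _ := by
        refine Finset.sum_le_sum fun n hn => ?_
        refine mul_le_mul_of_nonneg_left ?_ (hf n hn)
        refine le_trans ?_ (card_mul n (hU n hn) z0 L)
        exact_mod_cast Finset.card_le_card (Finset.filter_subset_filter _ hI)

private theorem sq_sum (Q : ℕ) (hQ : 1 ≤ Q) (Y : ℕ) (hY : 2 ≤ Y) (z0 : ℤ) (L : ℕ) (hL : 1 ≤ L)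
    (hQL : Q ≤ L) (hz : |z0| ≤ (Y : ℤ) ^ 5) (hLY : L ≤ Y ^ 5)
    (hlog : (Q : ℝ) * Real.log Y ≤ (L : ℝ) ^ 2) (z : ℕ) :
    ∑ t ∈ (Ioc z0 (z0 + L)).filter (fun t => t ≠ 0), (∑ p ∈ DD Q z t, (1 : ℝ) / p) ^ 2 ≤
      400 * (L / Q) := by
  classical
  have hQR : (1 : ℝ) ≤ Q := by exact_mod_cast hQ
  have hLR : (1 : ℝ) ≤ L := by exact_mod_cast hL
  have hQLR : (Q : ℝ) ≤ L := by exact_mod_cast hQL
  have hLQ : (1 : ℝ) ≤ L / Q := by
    rw [le_div_iff₀ (by linarith)]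
    linarith
  set I := (Ioc z0 (z0 + L)).filter (fun t => t ≠ 0) with hI
  have hIs : I ⊆ Ioc z0 (z0 + L) := Finset.filter_subset _ _
  have hD : ∀ t, ∀ p ∈ DD Q z t, p.Prime ∧ Q < p ∧ (p : ℤ) ∣ t := by
    intro t p hp
    unfold DD PP at hp
    rw [Finset.mem_filter, Finset.mem_filter, Finset.mem_Ioc] at hp
    exact ⟨hp.1.2, hp.1.1.1, hp.2⟩
  set s1 : ℤ → ℝ := fun t => ∑ p ∈ (DD Q z t).filter (fun p => p ≤ L), (1 : ℝ) / p with hs1
  set s2 : ℤ → ℝ := fun t => ∑ p ∈ ((DD Q z t).filter (fun p => ¬ p ≤ L)).filter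
    (fun p => p ≤ L ^ 2), (1 : ℝ) / p with hs2
  set s3 : ℤ → ℝ := fun t => ∑ p ∈ ((DD Q z t).filter (fun p => ¬ p ≤ L)).filter
    (fun p => ¬ p ≤ L ^ 2), (1 : ℝ) / p with hs3
  have hsplit : ∀ t, ∑ p ∈ DD Q z t, (1 : ℝ) / p = s1 t + (s2 t + s3 t) := by
    intro t
    rw [← Finset.sum_filter_add_sum_filter_not (DD Q z t) (fun p => p ≤ L),
      ← Finset.sum_filter_add_sum_filter_not ((DD Q z t).filter (fun p => ¬ p ≤ L))
        (fun p => p ≤ L ^ 2)]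
  -- the small primes
  have hb1 : ∑ t ∈ I, s1 t ^ 2 ≤ 8 * (L / Q) := by
    have h1 : ∀ t ∈ I, s1 t ^ 2 ≤ 2 / √Q *
        ∑ p ∈ (DD Q z t).filter (fun p => p ≤ L), 1 / √(p : ℝ) := by
      intro t _
      have h2 := Finset.sum_sq_le_sum_mul_sum_of_sq_le_mul
        ((DD Q z t).filter (fun p => p ≤ L)) (r := fun p : ℕ => (1 : ℝ) / p)
        (f := fun p : ℕ => 1 / ((p : ℝ) * √p)) (g := fun p : ℕ => 1 / √(p : ℝ))
        (fun p _ => by positivity) (fun p _ => by positivity) (by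
          intro p hp
          rw [Finset.mem_filter] at hp
          have hp0 : (0 : ℝ) < p := by exact_mod_cast (hD t p hp.1).1.pos
          have h3 : √(p : ℝ) * √(p : ℝ) = p := Real.mul_self_sqrt hp0.le
          have h4 : 0 < √(p : ℝ) := Real.sqrt_pos.2 hp0
          rw [div_mul_div_comm, one_mul, mul_assoc, h3, div_pow, one_pow, sq])
      refine h2.trans ?_
      refine mul_le_mul_of_nonneg_right ?_ (Finset.sum_nonneg fun p _ => by positivity)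
      have h5 := sum_three_half Q L hQ hQL
      have h6 : (0 : ℝ) ≤ 2 / √L := by positivity
      refine le_trans ?_ (h5.trans (by linarith))
      refine Finset.sum_le_sum_of_subset_of_nonneg ?_ fun n _ _ => by positivity
      intro p hp
      rw [Finset.mem_filter] at hp
      rw [Finset.mem_Ioc]
      exact ⟨(hD t p hp.1).2.1, hp.2⟩
    refine (Finset.sum_le_sum h1).trans ?_
    rw [← Finset.mul_sum]
    have h2 := swap_le I (fun t => (DD Q z t).filter (fun p => p ≤ L)) (Ioc Q L)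
      (fun n => 1 / √(n : ℝ)) (fun n _ => by positivity) z0 L hIs
      (fun n hn => by
        rw [Finset.mem_Ioc] at hn
        omega)
      (fun t _ p hp => by
        rw [Finset.mem_filter] at hp
        rw [Finset.mem_Ioc]
        exact ⟨⟨(hD t p hp.1).2.1, hp.2⟩, (hD t p hp.1).2.2⟩)
    have h3 : ∑ n ∈ Ioc Q L, 1 / √(n : ℝ) * ((L : ℝ) / n + 1) =
        L * ∑ n ∈ Ioc Q L, 1 / ((n : ℝ) * √n) + ∑ n ∈ Ioc Q L, 1 / √(n : ℝ) := by
      rw [Finset.mul_sum, ← Finset.sum_add_distrib]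
      refine Finset.sum_congr rfl fun n hn => ?_
      rw [Finset.mem_Ioc] at hn
      have hn0 : (0 : ℝ) < n := by exact_mod_cast (by omega : 0 < n)
      have h4 : 0 < √(n : ℝ) := Real.sqrt_pos.2 hn0
      field_simp
    rw [h3] at h2
    have h5 := sum_three_half Q L hQ hQL
    have h6 := sum_half Q L hQL
    have h7 : (0 : ℝ) ≤ 2 / √L := by positivity
    have h8 : (0 : ℝ) ≤ 2 * √(Q : ℝ) := by positivity
    have h9 : ∑ t ∈ I, ∑ n ∈ (DD Q z t).filter (fun p => p ≤ L), 1 / √(n : ℝ) ≤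
        L * (2 / √Q) + 2 * √L := by
      refine h2.trans ?_
      refine add_le_add (mul_le_mul_of_nonneg_left (by linarith) (by linarith)) (by linarith)
    have hq0 : 0 < √(Q : ℝ) := Real.sqrt_pos.2 (by linarith)
    have hqq : √(Q : ℝ) * √(Q : ℝ) = Q := Real.mul_self_sqrt (by linarith)
    have hll : √(L : ℝ) * √(L : ℝ) = L := Real.mul_self_sqrt (by linarith)
    have hle : √(Q : ℝ) ≤ √(L : ℝ) := Real.sqrt_le_sqrt hQLR
    refine (mul_le_mul_of_nonneg_left h9 (by positivity)).trans ?_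
    have h10 : 2 / √(Q : ℝ) * (L * (2 / √Q) + 2 * √L) =
        4 * (L / (√(Q : ℝ) * √(Q : ℝ))) + 4 * (√L / √Q) := by
      field_simp
      ring
    rw [h10, hqq]
    have h11 : √(L : ℝ) / √Q ≤ L / Q := by
      have h12 : (L : ℝ) / Q = (√(L : ℝ) / √Q) * (√(L : ℝ) / √Q) := by
        rw [div_mul_div_comm, hll, hqq]
      have h13 : 1 ≤ √(L : ℝ) / √Q := by
        rw [le_div_iff₀ hq0, one_mul]
        exact hle
      rw [h12]
      nlinarith
    linarith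
  -- the primes in `(L, L^2]`
  have hb2 : ∑ t ∈ I, s2 t ^ 2 ≤ 32 := by
    have h1 : ∀ t ∈ I, s2 t ^ 2 ≤ 4 * s2 t := by
      intro t _
      have h2 : s2 t ≤ 4 := by
        apply sum_mid L hL
        intro p hp
        rw [Finset.mem_filter, Finset.mem_filter] at hp
        exact ⟨(hD t p hp.1.1).1, by omega, hp.2⟩
      have h3 : 0 ≤ s2 t := Finset.sum_nonneg fun p _ => by positivity
      nlinarith
    refine (Finset.sum_le_sum h1).trans ?_
    rw [← Finset.mul_sum]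
    have h2 := swap_le I (fun t => ((DD Q z t).filter (fun p => ¬ p ≤ L)).filter
      (fun p => p ≤ L ^ 2)) ((Ioc L (L ^ 2)).filter Nat.Prime)
      (fun n => (1 : ℝ) / n) (fun n _ => by positivity) z0 L hIs
      (fun n hn => by
        rw [Finset.mem_filter] at hn
        exact hn.2.one_lt.le)
      (fun t _ p hp => by
        rw [Finset.mem_filter, Finset.mem_filter] at hp
        rw [Finset.mem_filter, Finset.mem_Ioc]
        exact ⟨⟨⟨by omega, hp.2⟩, (hD t p hp.1.1).1⟩, (hD t p hp.1.1).2.2⟩)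
    have h3 : ∑ n ∈ (Ioc L (L ^ 2)).filter Nat.Prime, (1 : ℝ) / n * (L / n + 1) ≤ 8 := by
      have h4 : ∑ n ∈ (Ioc L (L ^ 2)).filter Nat.Prime, (1 : ℝ) / n * (L / n + 1) ≤
          ∑ n ∈ (Ioc L (L ^ 2)).filter Nat.Prime, 2 * ((1 : ℝ) / n) := by
        refine Finset.sum_le_sum fun n hn => ?_
        rw [Finset.mem_filter, Finset.mem_Ioc] at hn
        have hn0 : (0 : ℝ) < n := by exact_mod_cast hn.2.pos
        have h5 : (L : ℝ) / n ≤ 1 := by
          rw [div_le_one hn0]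
          exact_mod_cast hn.1.1.le
        have h6 : (0 : ℝ) ≤ 1 / n := by positivity
        nlinarith
      refine h4.trans ?_
      rw [← Finset.mul_sum]
      have h5 := sum_mid L hL ((Ioc L (L ^ 2)).filter Nat.Prime) (by
        intro p hp
        rw [Finset.mem_filter, Finset.mem_Ioc] at hp
        exact ⟨hp.2, hp.1.1, hp.1.2⟩)
      linarith
    linarith
  -- the primes larger than `L^2`
  have hb3 : ∑ t ∈ I, s3 t ^ 2 ≤ 81 * (L / Q) := by
    have h1 : ∀ t ∈ I, s3 t ^ 2 ≤ 81 / Q := by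
      intro t ht
      rw [hI, Finset.mem_filter, Finset.mem_Ioc] at ht
      have hY6 : 2 * Y ^ 5 ≤ Y ^ 6 := by
        rw [pow_succ Y 5, mul_comm]
        exact Nat.mul_le_mul_left _ hY
      have htY : t.natAbs ≤ Y ^ 6 := by
        refine le_trans ?_ hY6
        have h2 : z0 ≤ ((Y ^ 5 : ℕ) : ℤ) := by
          push_cast
          exact (le_abs_self z0).trans hz
        have h3 : -z0 ≤ ((Y ^ 5 : ℕ) : ℤ) := by
          push_cast
          exact (neg_le_abs z0).trans hz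
        generalize Y ^ 5 = M at h2 h3 hLY ⊢
        omega
      have h2 : s3 t ≤ 9 / (Q : ℝ) := by
        apply sum_big Y L t.natAbs (Q : ℝ) (by linarith) hY hL (Int.natAbs_ne_zero.2 ht.2) htY hlog
        intro p hp
        rw [Finset.mem_filter, Finset.mem_filter] at hp
        refine ⟨?_, by omega⟩
        rw [Nat.mem_primeFactors]
        exact ⟨(hD t p hp.1.1).1, Int.natCast_dvd.1 (hD t p hp.1.1).2.2,
          Int.natAbs_ne_zero.2 ht.2⟩
      have h3 : 0 ≤ s3 t := Finset.sum_nonneg fun p _ => by positivity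
      calc s3 t ^ 2 ≤ (9 / (Q : ℝ)) ^ 2 := pow_le_pow_left₀ h3 h2 2
        _ ≤ 81 / Q := by
          rw [div_pow, div_le_div_iff₀ (by positivity) (by linarith)]
          nlinarith
    refine (Finset.sum_le_sum h1).trans ?_
    rw [Finset.sum_const, nsmul_eq_mul]
    have h2 : (I.card : ℝ) ≤ L := by
      have h3 := Finset.card_le_card hIs
      rw [Int.card_Ioc] at h3
      have h4 : (z0 + (L : ℤ) - z0).toNat = L := by
        rw [add_sub_cancel_left]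
        exact Int.toNat_natCast L
      rw [h4] at h3
      exact_mod_cast h3
    calc (I.card : ℝ) * (81 / Q) ≤ L * (81 / Q) :=
          mul_le_mul_of_nonneg_right h2 (by positivity)
      _ = 81 * (L / Q) := by ring
  have hfin : ∀ t ∈ I, (∑ p ∈ DD Q z t, (1 : ℝ) / p) ^ 2 ≤
      3 * (s1 t ^ 2 + (s2 t ^ 2 + s3 t ^ 2)) := by
    intro t _
    rw [hsplit]
    nlinarith [sq_nonneg (s1 t - s2 t), sq_nonneg (s1 t - s3 t), sq_nonneg (s2 t - s3 t)]
  refine (Finset.sum_le_sum hfin).trans ?_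
  rw [← Finset.mul_sum, Finset.sum_add_distrib, Finset.sum_add_distrib]
  linarith

theorem gg_small (C : ℝ) (hC : 0 ≤ C) : ∃ C' : ℝ, 0 < C' ∧ ∀ Q : ℕ, 1 ≤ Q → ∃ L0 : ℕ, ∀ Y : ℕ, 2 ≤ Y → ∀ (z0 : ℤ) (L : ℕ),
    L0 ≤ L → 1 ≤ L → |z0| ≤ (Y : ℤ) ^ 5 → L ≤ Y ^ 5 → (Q : ℝ) * Real.log Y ≤ (L : ℝ) ^ 2 → ∀ z : ℕ,
      ∑ t ∈ (Ioc z0 (z0 + L)).filter (fun t => t ≠ 0), gg C Q z t ≤ C' / √Q * L := by
  obtain ⟨C2, hC2, hW⟩ := Pool.Agent.Helper8.DW.sum_W_int (2 * ⌈C⌉₊) 1 one_pos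
  refine ⟨20 * C * √C2 + 1, by positivity, fun Q hQ => ⟨Q, fun Y hY z0 L hL0 hL hz hLY hlog z => ?_⟩⟩
  have hQR : (1 : ℝ) ≤ Q := by exact_mod_cast hQ
  have hLR : (1 : ℝ) ≤ L := by exact_mod_cast hL
  have hlogY : 0 ≤ Real.log Y := Real.log_natCast_nonneg Y
  set I := (Ioc z0 (z0 + L)).filter (fun t => t ≠ 0) with hI
  have h1 : ∀ t ∈ I, gg C Q z t ≤ C * ((∑ p ∈ DD Q z t, (1 : ℝ) / p) * W t.natAbs ^ ⌈C⌉₊) := by
    intro t ht
    rw [hI, Finset.mem_filter] at ht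
    unfold gg
    refine (prod_sub_one _ (fun p => C / (p : ℝ)) fun p _ => by positivity).trans ?_
    have h2 := W_bound C hC Q z t ht.2
    have h3 : ∑ p ∈ DD Q z t, C / (p : ℝ) = C * ∑ p ∈ DD Q z t, (1 : ℝ) / p := by
      rw [Finset.mul_sum]
      exact Finset.sum_congr rfl fun p _ => by ring
    rw [h3, mul_assoc]
    refine mul_le_mul_of_nonneg_left (mul_le_mul_of_nonneg_left h2 ?_) hC
    exact Finset.sum_nonneg fun p _ => by positivity
  refine (Finset.sum_le_sum h1).trans ?_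
  rw [← Finset.mul_sum]
  have h2 : ∑ t ∈ I, (∑ p ∈ DD Q z t, (1 : ℝ) / p) * W t.natAbs ^ ⌈C⌉₊ ≤
      √(∑ t ∈ I, (∑ p ∈ DD Q z t, (1 : ℝ) / p) ^ 2) * √(∑ t ∈ I, (W t.natAbs ^ ⌈C⌉₊) ^ 2) := by
    rw [← Real.sqrt_mul (Finset.sum_nonneg fun t _ => sq_nonneg _)]
    exact Real.le_sqrt_of_sq_le (Finset.sum_mul_sq_le_sq_mul_sq _ _ _)
  have h3 := sq_sum Q hQ Y hY z0 L hL hL0 hz hLY hlog z
  rw [← hI] at h3
  have h4 : ∑ t ∈ I, (W t.natAbs ^ ⌈C⌉₊) ^ 2 ≤ C2 * L := by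
    refine le_trans ?_ (hW Y hY z0 L hz hLY (by
      rw [one_mul]
      nlinarith) hL)
    calc ∑ t ∈ I, (W t.natAbs ^ ⌈C⌉₊) ^ 2 = ∑ t ∈ I, W t.natAbs ^ (2 * ⌈C⌉₊) := by
          refine Finset.sum_congr rfl fun t _ => ?_
          rw [← pow_mul, mul_comm]
      _ ≤ _ := Finset.sum_le_sum_of_subset_of_nonneg (Finset.filter_subset _ _) fun t _ _ =>
          pow_nonneg (zero_le_one.trans (one_le_W _)) _
  have h5 : √(∑ t ∈ I, (∑ p ∈ DD Q z t, (1 : ℝ) / p) ^ 2) *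
      √(∑ t ∈ I, (W t.natAbs ^ ⌈C⌉₊) ^ 2) ≤ √(400 * (L / Q)) * √(C2 * L) :=
    mul_le_mul (Real.sqrt_le_sqrt h3) (Real.sqrt_le_sqrt h4) (Real.sqrt_nonneg _)
      (Real.sqrt_nonneg _)
  have h6 : √(400 * ((L : ℝ) / Q)) * √(C2 * L) = 20 * √C2 / √Q * L := by
    have e1 : (400 : ℝ) * ((L : ℝ) / Q) = 20 ^ 2 * (L / Q) := by norm_num
    rw [e1, Real.sqrt_mul (by positivity), Real.sqrt_sq (by norm_num), Real.sqrt_div (by linarith),
      Real.sqrt_mul hC2.le]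
    have e2 : √(L : ℝ) * √(L : ℝ) = L := Real.mul_self_sqrt (by linarith)
    have e3 : 0 < √(Q : ℝ) := Real.sqrt_pos.2 (by linarith)
    calc 20 * (√(L : ℝ) / √Q) * (√C2 * √L) = 20 * √C2 / √Q * (√(L : ℝ) * √L) := by
          field_simp
      _ = _ := by rw [e2]
  refine (mul_le_mul_of_nonneg_left (h2.trans (h5.trans h6.le)) hC).trans ?_
  have h7 : C * (20 * √C2 / √(Q : ℝ) * L) = 20 * C * √C2 / √Q * L := by ring
  rw [h7]
  refine mul_le_mul_of_nonneg_right ?_ (by linarith)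
  exact div_le_div_of_nonneg_right (by linarith) (Real.sqrt_nonneg _)

end Pool.Agent.Helper8.BC
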