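import Pool.Agent.Helper8.BC.Block
import Pool.Agent.Helper8.BC.ExchC
import Pool.Agent.Helper8.DW.Bad
import Pool.Agent.Helper8.DW.Smooth

/-!
# BC-12: the block theorem for the indicator function of the prime tuples

MODEL: `Pool/Agent/Helper8/DW/Main.lean` (theorem `main0`; same bookkeeping with `M' = 3 X / D + 1`: `X + y + H ≤ 3 X ≤ D M'`, `X ≤ M' ^ 2`, `M' ≤ 4 X / D`).
Let `C`, `N0` be those of `block`, `Cv` the constant of `Helper8.DW.sum_vv`, `J = 160 (Nat.log 2 N + 2)`, `Lg = log X`.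
CHOICE OF `N ≥ max N0 N1`: `√(2 Cv * (2 J)^k * C (log N)^k/√√N * 4) ≤ ε/4`; possible as `J ≤ 600 log N` and a power of `log N` is `o(N^(1/4))`. Then `K`, `L`, `X0` from `block`;
`z` = the largest natural number with `z ^ J ≤ X` (`Nat.findGreatest`, or `z = ⌊X^(1/J)⌋`): `X < (z + 1)^J`, so for `X ≥ X0`: `N ≤ z`, `log z ≥ Lg/(2 J)`, so `VV 0 z ≤ 1/log z ≤ 2 J/Lg`
(`Helper39.SP.VV_log_le`), and `z ≤ √X`. `H0 ≥ 1` with `L Cv ≤ (ε/4) H0`.
(1) `smoothc` for `n` with `vv n ≠ 0`: `∑_n vv n ∑_d |..| ≤ ∑_n vv n ∑_d ∑_(h ∈ mul) |ww ((n + h)/d)| + |S| L ∑_n vv n`; the last term is `≤ |S| L Cv X/Lg^k ≤ (ε/4) |S| H X/(D Lg^k)` (`H ≥ H0 D`).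
(2) Let `w = max (2 D) z`. The part with `n ≤ w` (`|ww| ≤ 1`, `card_mul ≤ H/D + 1 ≤ 2 H/D`): `≤ w |S| 2 H/D ≤ (ε/4) |S| H X/(D Lg^k)`, as `8 w Lg^k ≤ 16 √X Lg^k ≤ ε X` for `X ≥ X0` (`D ≤ √X`).
(3) The part with `n > w`: write `vv n = vv n * [w < n]`. `exchc` (with `F d h m = |ww d h m|` if `w < d m - h` and `0` otherwise): `= ∑_(d,h) ∑_m vv (d m - h) F d h m`. In a nonzero term all `d m - h + a i` are
primes `> 2 D > d`, so `prim a d h` (a common divisor `g` of `d` and `a i - h` divides this prime, so it is `1` or this prime, but `g ≤ d`), and `> z`, so none has a prime factor `≤ z`: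
`vv a X (d m - h) ≤ (VV 0 z)^k nh a z X d h m` (`nuA a 0 z = (VV 0 z)⁻¹ ^ k` there). Cauchy-Schwarz:
`(∑ vv F)^2 ≤ (∑ vv) (∑ vv F^2)`, `∑_(d,h,m) vv (d m - h) = ∑_n vv n ∑_d |mul n d y H| ≤ (Cv X/Lg^k) |S| 2 H/D` (`exchc` with `F = 1`, `sum_vv`) and
`∑ vv F^2 ≤ (VV 0 z)^k ∑_(d, h prim) ∑_m nh ww^2 ≤ (2 J/Lg)^k C (log N)^k/√√N M' |S| H` (`block`), `M' ≤ 4 X/D`. So `∑ vv F ≤ (|S| H X/(D Lg^k)) √(2 Cv (2 J)^k C (log N)^k/√√N * 4) ≤ (ε/4) ...`.
(`ww_le`: `|ww| ≤ 1`.) For `X` large also `2 D ≤ X` (`D^2 ≤ X`, `X ≥ 4`), `D ≤ H` (`H0 ≥ 1`).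
-/

set_option autoImplicit false

namespace Pool.Agent.Helper8.BC

open Finset
open Pool.Agent.Helper40.DB (PP VV DD)
open Pool.Agent.Helper39.SP (nuA phi gg)
open Pool.Agent.Helper8.DW (vv mul Per)

theorem ww_le {q : ℕ} {b : ℕ → ℝ} (hb : Per q b) (c : ℕ → ℕ → ℝ) (hc : ∀ d h, |c d h| ≤ 1) (L d h m : ℕ) :
    |ww b c L d h m| ≤ 1 := by
  unfold ww
  rw [abs_mul]
  have h1 : |∑ i ∈ range L, c d (h + d * i) *
      b (ArithmeticFunction.cardFactors d + ArithmeticFunction.cardFactors (m + i))| ≤ L := by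
    refine (abs_sum_le_sum_abs _ _).trans ?_
    have h2 : ∀ i ∈ range L, |c d (h + d * i) *
        b (ArithmeticFunction.cardFactors d + ArithmeticFunction.cardFactors (m + i))| ≤ 1 := by
      intro i _
      rw [abs_mul]
      exact mul_le_one₀ (hc _ _) (abs_nonneg _) (hb.le _)
    refine (sum_le_sum h2).trans ?_
    simp
  rw [abs_of_nonneg (by positivity : (0 : ℝ) ≤ 1 / (L : ℝ))]
  rcases Nat.eq_zero_or_pos L with h0 | h0
  · subst h0
    simp
  · have h3 : (0 : ℝ) < L := by exact_mod_cast h0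
    calc 1 / (L : ℝ) * |∑ i ∈ range L, c d (h + d * i) *
          b (ArithmeticFunction.cardFactors d + ArithmeticFunction.cardFactors (m + i))| ≤ 1 / (L : ℝ) * L :=
        mul_le_mul_of_nonneg_left h1 (by positivity)
      _ = 1 := by field_simp

/-- powers of the logarithm against the fourth root -/
private theorem lgroot (n : ℕ) (A δ : ℝ) (hδ : 0 < δ) : ∃ N1 : ℕ, ∀ N : ℕ, N1 ≤ N →
    A * Real.log N ^ n ≤ δ * √√(N : ℝ) := by
  have h1 : Filter.Tendsto (fun N : ℕ => √√(N : ℝ)) Filter.atTop Filter.atTop :=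
    Real.tendsto_sqrt_atTop.comp (Real.tendsto_sqrt_atTop.comp tendsto_natCast_atTop_atTop)
  have h2 := (Real.isLittleO_pow_log_id_atTop (n := n)).comp_tendsto h1
  set η : ℝ := δ / ((|A| + 1) * 4 ^ n) with hη
  have hη0 : 0 < η := by positivity
  have h3 := h2.bound hη0
  rw [Filter.eventually_atTop] at h3
  obtain ⟨N1, hN1⟩ := h3
  refine ⟨max N1 1, fun N hN => ?_⟩
  have h4 := hN1 N (le_trans (le_max_left _ _) hN)
  have hN0 : (1 : ℝ) ≤ N := by exact_mod_cast le_trans (le_max_right _ _) hN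
  have hlog : Real.log √√(N : ℝ) = Real.log N / 4 := by
    rw [Real.log_sqrt (Real.sqrt_nonneg _), Real.log_sqrt (by linarith)]
    ring
  have hL0 : 0 ≤ Real.log N := Real.log_nonneg hN0
  simp only [Function.comp_apply, id, hlog, norm_pow, Real.norm_eq_abs] at h4
  rw [abs_of_nonneg (by positivity), abs_of_nonneg (by positivity), div_pow] at h4
  have h5 : Real.log N ^ n ≤ δ / (|A| + 1) * √√(N : ℝ) := by
    rw [div_le_iff₀ (by positivity)] at h4
    calc Real.log N ^ n ≤ η * √√(N : ℝ) * 4 ^ n := h4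
      _ = δ / (|A| + 1) * √√(N : ℝ) := by
        rw [hη]
        field_simp
  calc A * Real.log N ^ n ≤ (|A| + 1) * Real.log N ^ n := by
        apply mul_le_mul_of_nonneg_right _ (by positivity)
        linarith [le_abs_self A]
    _ ≤ (|A| + 1) * (δ / (|A| + 1) * √√(N : ℝ)) := mul_le_mul_of_nonneg_left h5 (by positivity)
    _ = δ * √√(N : ℝ) := by field_simp

/-- the choice of `N` -/
private theorem chooseN (k : ℕ) (A δ : ℝ) (hA : 0 < A) (hδ : 0 < δ) (N2 : ℕ) : ∃ N : ℕ, N2 ≤ N ∧ 3 ≤ N ∧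
    A * (2 * (160 * ((Nat.log 2 N : ℕ) + 2) : ℝ)) ^ k * (Real.log N ^ k / √√(N : ℝ)) ≤ δ := by
  obtain ⟨N1, hN1⟩ := lgroot (2 * k) (A * 1280 ^ k) δ hδ
  refine ⟨max (max N1 N2) 3, ?_, le_max_right _ _, ?_⟩
  · exact le_trans (le_max_right _ _) (le_max_left _ _)
  set N : ℕ := max (max N1 N2) 3 with hN
  have hN3 : 3 ≤ N := le_max_right _ _
  have h1 := hN1 N (le_trans (le_max_left _ _) (le_max_left _ _))
  have hNR : (3 : ℝ) ≤ N := by exact_mod_cast hN3
  have hN0 : (0 : ℝ) < N := by linarith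
  have hL1 : 1 ≤ Real.log N := by
    rw [Real.le_log_iff_exp_le hN0]
    linarith [Real.exp_one_lt_d9]
  have hlg : ((Nat.log 2 N : ℕ) : ℝ) ≤ 2 * Real.log N := by
    have h2 : 2 ^ Nat.log 2 N ≤ N := Nat.pow_log_le_self 2 (by omega)
    have h3 : (2 : ℝ) ^ Nat.log 2 N ≤ N := by exact_mod_cast h2
    have h4 := Real.log_le_log (by positivity) h3
    rw [Real.log_pow] at h4
    have h5 : (1 / 2 : ℝ) ≤ Real.log 2 := by linarith [Real.log_two_gt_d9]
    have h6 : ((Nat.log 2 N : ℕ) : ℝ) * (1 / 2) ≤ (Nat.log 2 N : ℕ) * Real.log 2 :=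
      mul_le_mul_of_nonneg_left h5 (by positivity)
    linarith
  have hs : 0 < √√(N : ℝ) := by positivity
  have hJ : 2 * (160 * (((Nat.log 2 N : ℕ) : ℝ) + 2)) ≤ 1280 * Real.log N := by linarith
  rw [← mul_div_assoc, div_le_iff₀ hs]
  calc A * (2 * (160 * (((Nat.log 2 N : ℕ) : ℝ) + 2))) ^ k * Real.log N ^ k ≤
      A * (1280 * Real.log N) ^ k * Real.log N ^ k := by
        apply mul_le_mul_of_nonneg_right _ (by positivity)
        apply mul_le_mul_of_nonneg_left _ hA.le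
        exact pow_le_pow_left₀ (by positivity) hJ k
    _ = A * 1280 ^ k * Real.log N ^ (2 * k) := by
        rw [mul_pow]
        ring
    _ ≤ δ * √√(N : ℝ) := h1

/-- the choice of `z` -/
private theorem choosez (J N X : ℕ) (hJ : 2 ≤ J) (hN : 2 ≤ N) (hX : N ^ J ≤ X) : ∃ z : ℕ, z ^ J ≤ X ∧ N ≤ z ∧
    z ^ 2 ≤ X ∧ Real.log X ≤ 2 * J * Real.log z := by
  set z : ℕ := Nat.findGreatest (fun z => z ^ J ≤ X) X with hz
  have h0 : (0 : ℕ) ^ J ≤ X := by
    rw [zero_pow (by omega)]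
    exact Nat.zero_le _
  have h1 : z ^ J ≤ X := Nat.findGreatest_spec (P := fun z => z ^ J ≤ X) (Nat.zero_le X) h0
  have hNX : N ≤ X := le_trans (Nat.le_self_pow (by omega) N) hX
  have h2 : N ≤ z := Nat.le_findGreatest hNX hX
  have h3 : X < (z + 1) ^ J := by
    by_contra hcon
    push Not at hcon
    have h4 : z + 1 ≤ X := le_trans (Nat.le_self_pow (by omega) _) hcon
    exact Nat.findGreatest_is_greatest (P := fun z => z ^ J ≤ X) (n := X) (k := z + 1) (by omega) h4 hcon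
  refine ⟨z, h1, h2, ?_, ?_⟩
  · exact le_trans (Nat.pow_le_pow_right (by omega) hJ) h1
  · have h5 : z + 1 ≤ z ^ 2 := by nlinarith
    have h6 : X ≤ z ^ (2 * J) := by
      rw [pow_mul]
      exact h3.le.trans (Nat.pow_le_pow_left h5 J)
    have h7 : (X : ℝ) ≤ (z : ℝ) ^ (2 * J) := by exact_mod_cast h6
    have hX0 : (0 : ℝ) < X := by
      have : 0 < X := by omega
      exact_mod_cast this
    have h8 := Real.log_le_log hX0 h7
    rw [Real.log_pow] at h8
    push_cast at h8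
    exact h8

/-- a nonzero term of the main part -/
private theorem term_le {k : ℕ} (a : Fin k → ℕ) (z X D d h m : ℕ) (hd0 : 1 ≤ d) (hd : d < 2 * D)
    (hv : vv a X (d * m - h) ≠ 0) (hw : max (2 * D) z < d * m - h) :
    prim a d h ∧ vv a X (d * m - h) = VV 0 z ^ k * nh a z X d h m := by
  have hv1 : vv a X (d * m - h) = 1 := by
    unfold vv at hv ⊢
    split_ifs at hv ⊢ with h1
    · rfl
    · exact absurd rfl hv
  obtain ⟨h1, h2, h3⟩ := Pool.Agent.Helper8.DW.vv_pos_iff.1 hv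
  have hlt : h < d * m := by omega
  have hw1 : 2 * D < d * m - h := lt_of_le_of_lt (le_max_left _ _) hw
  have hw2 : z < d * m - h := lt_of_le_of_lt (le_max_right _ _) hw
  constructor
  · intro i
    have hp := h3 i
    set g : ℕ := Int.gcd (d : ℤ) ((a i : ℤ) - h) with hg
    have hgd : (g : ℤ) ∣ (d : ℤ) := Int.gcd_dvd_left ..
    have hga : (g : ℤ) ∣ (a i : ℤ) - h := Int.gcd_dvd_right ..
    have hcast : ((d * m - h + a i : ℕ) : ℤ) = d * m + ((a i : ℤ) - h) := by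
      push_cast [Nat.cast_sub hlt.le]
      ring
    have hgp : g ∣ d * m - h + a i := by
      have : (g : ℤ) ∣ ((d * m - h + a i : ℕ) : ℤ) := by
        rw [hcast]
        exact dvd_add (Dvd.dvd.mul_right hgd _) hga
      exact_mod_cast this
    rcases (Nat.dvd_prime hp).1 hgp with h4 | h4
    · exact h4
    · exfalso
      have h5 : g ∣ d := by exact_mod_cast hgd
      have h6 := Nat.le_of_dvd (by omega) h5
      omega
  · rw [hv1]
    have hnh : nh a z X d h m = (VV 0 z)⁻¹ ^ k := by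
      unfold nh
      rw [if_pos ⟨hlt, by omega⟩]
      unfold nuA
      rw [if_pos]
      intro p hp i hdiv
      have hp1 : p.Prime := (mem_filter.1 hp).2
      have hp2 : p ≤ z := (mem_Ioc.1 (mem_filter.1 hp).1).2
      have h4 := (Nat.prime_dvd_prime_iff_eq hp1 (h3 i)).1 hdiv
      omega
    have hV := Pool.Agent.Helper40.DB.VV_pos 0 z
    rw [hnh, ← mul_pow, mul_inv_cancel₀ hV.ne', one_pow]

/-- the Cauchy-Schwarz inequality for the triple sums -/
private theorem cs3 (S T U : Finset ℕ) (v F : ℕ → ℕ → ℕ → ℝ) (hv : ∀ d h m, 0 ≤ v d h m) :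
    (∑ d ∈ S, ∑ h ∈ T, ∑ m ∈ U, v d h m * F d h m) ^ 2 ≤
      (∑ d ∈ S, ∑ h ∈ T, ∑ m ∈ U, v d h m) * (∑ d ∈ S, ∑ h ∈ T, ∑ m ∈ U, v d h m * F d h m ^ 2) := by
  have hc : ∀ G : ℕ → ℕ → ℕ → ℝ, ∑ d ∈ S, ∑ h ∈ T, ∑ m ∈ U, G d h m =
      ∑ x ∈ S ×ˢ (T ×ˢ U), G x.1 x.2.1 x.2.2 := by
    intro G
    rw [Finset.sum_product]
    refine sum_congr rfl fun d _ => ?_
    rw [Finset.sum_product]
  rw [hc, hc, hc (fun d h m => v d h m * F d h m ^ 2)]
  refine Finset.sum_sq_le_sum_mul_sum_of_sq_le_mul _ ?_ ?_ ?_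
  · intro x _
    exact hv _ _ _
  · intro x _
    exact mul_nonneg (hv _ _ _) (sq_nonneg _)
  · intro x _
    apply le_of_eq
    ring

/-- the number of the multiples -/
private theorem card_sum_le (n D H y : ℕ) (S : Finset ℕ) (hS : S ⊆ Ico D (2 * D)) (hD : 1 ≤ D) (hDH : D ≤ H) :
    ∑ d ∈ S, ((mul n d y H).card : ℝ) ≤ S.card * (2 * H / D) := by
  have hD0 : (0 : ℝ) < D := by exact_mod_cast hD
  have h1 : ∀ d ∈ S, ((mul n d y H).card : ℝ) ≤ 2 * H / D := by
    intro d hd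
    have h2 := mem_Ico.1 (hS hd)
    have h3 := Pool.Agent.Helper8.DW.card_mul n d y H (by omega)
    have h4 : (H : ℝ) / d ≤ H / D := by
      apply div_le_div_of_nonneg_left (by positivity) hD0
      exact_mod_cast h2.1
    have h5 : (1 : ℝ) ≤ H / D := by
      rw [le_div_iff₀ hD0, one_mul]
      exact_mod_cast hDH
    calc ((mul n d y H).card : ℝ) ≤ H / d + 1 := h3
      _ ≤ H / D + H / D := add_le_add h4 h5
      _ = 2 * H / D := by ring
  refine (sum_le_sum h1).trans ?_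
  rw [sum_const, nsmul_eq_mul]

/-- the part with small `n` -/
private theorem part_small {k : ℕ} (a : Fin k → ℕ) (X D H y w : ℕ) (S : Finset ℕ) (hS : S ⊆ Ico D (2 * D)) (hD : 1 ≤ D)
    (hDH : D ≤ H) (G : ℕ → ℕ → ℕ → ℝ) (hG : ∀ d h m, G d h m ≤ 1) :
    ∑ n ∈ Icc 1 X, vv a X n * ∑ d ∈ S, ∑ h ∈ mul n d y H, (if w < n then 0 else G d h ((n + h) / d)) ≤
      w * (S.card * (2 * H / D)) := by
  have hb0 : (0 : ℝ) ≤ S.card * (2 * H / D) := by positivity
  have h1 : ∀ n ∈ Icc 1 X, vv a X n * ∑ d ∈ S, ∑ h ∈ mul n d y H, (if w < n then 0 else G d h ((n + h) / d)) ≤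
      if w < n then 0 else (S.card * (2 * H / D) : ℝ) := by
    intro n _
    by_cases h2 : w < n
    · simp [h2]
    · simp only [h2, if_false]
      have h3 : ∑ d ∈ S, ∑ h ∈ mul n d y H, G d h ((n + h) / d) ≤ S.card * (2 * H / D) := by
        refine le_trans ?_ (card_sum_le n D H y S hS hD hDH)
        refine sum_le_sum fun d _ => ?_
        refine (sum_le_sum fun h _ => hG d h _).trans ?_
        simp
      calc vv a X n * ∑ d ∈ S, ∑ h ∈ mul n d y H, G d h ((n + h) / d) ≤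
          vv a X n * (S.card * (2 * H / D)) := mul_le_mul_of_nonneg_left h3 (Pool.Agent.Helper8.DW.vv_nonneg a X n)
        _ ≤ 1 * (S.card * (2 * H / D)) := mul_le_mul_of_nonneg_right (Pool.Agent.Helper8.DW.vv_le_one a X n) hb0
        _ = _ := one_mul _
  refine (sum_le_sum h1).trans ?_
  have h4 : ∑ n ∈ Icc 1 X, (if w < n then 0 else (S.card * (2 * H / D) : ℝ)) =
      ∑ n ∈ (Icc 1 X).filter (fun n => ¬ w < n), (S.card * (2 * H / D) : ℝ) := by
    rw [sum_filter]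
    refine sum_congr rfl fun n _ => ?_
    by_cases h2 : w < n <;> simp [h2]
  rw [h4, sum_const, nsmul_eq_mul]
  apply mul_le_mul_of_nonneg_right _ hb0
  have h5 : ((Icc 1 X).filter (fun n => ¬ w < n)) ⊆ Icc 1 w := by
    intro n hn
    rw [mem_filter, mem_Icc] at hn
    rw [mem_Icc]
    exact ⟨hn.1.1, by omega⟩
  have h6 := card_le_card h5
  rw [Nat.card_Icc, Nat.add_sub_cancel] at h6
  exact_mod_cast h6

/-- the part with large `n` -/
private theorem part_large {k : ℕ} (a : Fin k → ℕ) (X D H y M z L : ℕ) (S : Finset ℕ) (hS : S ⊆ Ico D (2 * D)) (hD : 1 ≤ D)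
    (hDH : D ≤ H) (hM : X + y + H ≤ D * M) (b : ℕ → ℝ) (c : ℕ → ℕ → ℝ) (P Q : ℝ)
    (hP : ∑ n ∈ Icc 1 X, vv a X n ≤ P)
    (hQ : (open Classical in ∑ d ∈ S, ∑ h ∈ (Ioc y (y + H)).filter (fun h => prim a d h), ∑ m ∈ Icc 1 M,
      nh a z X d h m * ww b c L d h m ^ 2) ≤ Q) :
    (∑ n ∈ Icc 1 X, vv a X n * ∑ d ∈ S, ∑ h ∈ mul n d y H,
      (if max (2 * D) z < n then |ww b c L d h ((n + h) / d)| else 0)) ^ 2 ≤
      (P * (S.card * (2 * H / D))) * (VV 0 z ^ k * Q) := by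
  classical
  have hS1 : ∀ d ∈ S, D ≤ d := fun d hd => (mem_Ico.1 (hS hd)).1
  set F : ℕ → ℕ → ℕ → ℝ := fun d h m => if max (2 * D) z < d * m - h then |ww b c L d h m| else 0 with hF
  have h1 : ∑ n ∈ Icc 1 X, vv a X n * ∑ d ∈ S, ∑ h ∈ mul n d y H,
      (if max (2 * D) z < n then |ww b c L d h ((n + h) / d)| else 0) =
      ∑ n ∈ Icc 1 X, vv a X n * ∑ d ∈ S, ∑ h ∈ mul n d y H, F d h ((n + h) / d) := by
    refine sum_congr rfl fun n _ => ?_
    congr 1
    refine sum_congr rfl fun d _ => ?_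
    refine sum_congr rfl fun h hh => ?_
    have h2 : d ∣ n + h := (mem_filter.1 hh).2
    have h3 : d * ((n + h) / d) - h = n := by
      rw [Nat.mul_div_cancel' h2]
      omega
    simp only [hF, h3]
  rw [h1, exchc a X D H y M hD S hS1 hM F]
  refine (cs3 S (Ioc y (y + H)) (Icc 1 M) (fun d h m => vv a X (d * m - h)) F
    (fun d h m => Pool.Agent.Helper8.DW.vv_nonneg a X _)).trans ?_
  have hV := Pool.Agent.Helper40.DB.VV_pos 0 z
  have h4 : ∑ d ∈ S, ∑ h ∈ Ioc y (y + H), ∑ m ∈ Icc 1 M, vv a X (d * m - h) ≤ P * (S.card * (2 * H / D)) := by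
    have h5 := exchc a X D H y M hD S hS1 hM (fun _ _ _ => 1)
    simp only [mul_one] at h5
    rw [← h5]
    refine le_trans ?_ (mul_le_mul_of_nonneg_right hP (by positivity))
    rw [sum_mul]
    refine sum_le_sum fun n _ => ?_
    apply mul_le_mul_of_nonneg_left _ (Pool.Agent.Helper8.DW.vv_nonneg a X n)
    refine le_trans (le_of_eq ?_) (card_sum_le n D H y S hS hD hDH)
    refine sum_congr rfl fun d _ => ?_
    simp
  have h6 : ∑ d ∈ S, ∑ h ∈ Ioc y (y + H), ∑ m ∈ Icc 1 M, vv a X (d * m - h) * F d h m ^ 2 ≤ VV 0 z ^ k * Q := by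
    refine le_trans ?_ (mul_le_mul_of_nonneg_left hQ (by positivity))
    rw [mul_sum]
    refine sum_le_sum fun d hd => ?_
    rw [mul_sum, sum_filter]
    refine sum_le_sum fun h _ => ?_
    have hd1 := mem_Ico.1 (hS hd)
    by_cases hp : prim a d h
    · rw [if_pos hp, mul_sum]
      refine sum_le_sum fun m _ => ?_
      have hnn : 0 ≤ nh a z X d h m := by
        unfold nh
        split_ifs
        · exact Pool.Agent.Helper39.SP.nuA_nonneg a 0 z _
        · exact le_rfl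
      by_cases hv : vv a X (d * m - h) = 0
      · rw [hv, zero_mul]
        positivity
      · by_cases hw : max (2 * D) z < d * m - h
        · have h7 := (term_le a z X D d h m (by omega) hd1.2 hv hw).2
          rw [h7]
          simp only [hF, hw, if_true, sq_abs]
          rw [mul_assoc]
        · simp only [hF, hw, if_false]
          simp only [ne_eq, OfNat.ofNat_ne_zero, not_false_eq_true, zero_pow, mul_zero]
          positivity
    · rw [if_neg hp]
      refine le_of_eq (sum_eq_zero fun m _ => ?_)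
      by_cases hv : vv a X (d * m - h) = 0
      · rw [hv, zero_mul]
      · by_cases hw : max (2 * D) z < d * m - h
        · exact absurd (term_le a z X D d h m (by omega) hd1.2 hv hw).1 hp
        · simp only [hF, hw, if_false]
          ring
  have h8 : 0 ≤ ∑ d ∈ S, ∑ h ∈ Ioc y (y + H), ∑ m ∈ Icc 1 M, vv a X (d * m - h) * F d h m ^ 2 :=
    sum_nonneg fun _ _ => sum_nonneg fun _ _ => sum_nonneg fun _ _ =>
      mul_nonneg (Pool.Agent.Helper8.DW.vv_nonneg a X _) (sq_nonneg _)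
  have h9 : 0 ≤ ∑ d ∈ S, ∑ h ∈ Ioc y (y + H), ∑ m ∈ Icc 1 M, vv a X (d * m - h) :=
    sum_nonneg fun _ _ => sum_nonneg fun _ _ => sum_nonneg fun _ _ => Pool.Agent.Helper8.DW.vv_nonneg a X _
  exact mul_le_mul h4 h6 h8 (h9.trans h4)

theorem main0 {k : ℕ} (a : Fin k → ℕ) (ha : Function.Injective a) {q : ℕ} {b : ℕ → ℝ} (hb : Per q b) (N1 : ℕ) (ε : ℝ)
    (hε : 0 < ε) : ∃ N : ℕ, N1 ≤ N ∧ ∃ K : ℝ, 0 < K ∧ ∃ H0 X0 : ℕ, ∀ X : ℕ, X0 ≤ X → ∀ D H y : ℕ, 1 ≤ D → D ^ 2 ≤ X →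
      H0 * D ≤ H → D ≤ H → H ≤ X → y ≤ X → ∀ S ⊆ Ico D (2 * D), (∀ d ∈ S, sg N d ≤ 2 / √N) →
        K * Real.log X ^ k ≤ S.card * H → ∀ c : ℕ → ℕ → ℝ, (∀ d h, |c d h| ≤ 1) →
          ∑ n ∈ Icc 1 X, vv a X n * ∑ d ∈ S, |∑ h ∈ mul n d y H, c d h * b (ArithmeticFunction.cardFactors (n + h))| ≤
            ε * S.card * H * X / (D * Real.log X ^ k) := by
  obtain ⟨C, hC, N0, hblk⟩ := block a ha hb
  obtain ⟨Cv, hCv, hsv⟩ := Pool.Agent.Helper8.DW.sum_vv a ha
  obtain ⟨z0, hz0⟩ := Pool.Agent.Helper39.SP.VV_log_le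
  obtain ⟨N, hN01, hN3, hNδ⟩ := chooseN k (8 * Cv * C) ((ε / 4) ^ 2) (by positivity) (by positivity)
    (max (max N0 N1) z0)
  obtain ⟨K, hK, L, hL, Xb, hb1⟩ := hblk N (le_trans (le_trans (le_max_left _ _) (le_max_left _ _)) hN01)
  have hNz0 : z0 ≤ N := le_trans (le_max_right _ _) hN01
  obtain ⟨Y, hY⟩ := lgroot (2 * k) 1 (ε / 16) (by positivity)
  obtain ⟨Y2, hY2⟩ := lgroot k 16 ε hε
  obtain ⟨H0, hH0⟩ := exists_nat_ge (L * Cv / (ε / 4))
  have hH2 : L * Cv ≤ ε / 4 * H0 := by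
    rw [div_le_iff₀ (by positivity)] at hH0
    linarith
  set J : ℕ := 160 * (Nat.log 2 N + 2) with hJ
  refine ⟨N, le_trans (le_trans (le_max_right _ _) (le_max_left _ _)) hN01, K, hK, H0, 16 + Xb + N ^ J + Y2,
    fun X hX D H y hD hDX hHD hDH hHX hyX S hS hSg hKc c hc => ?_⟩
  have hX16 : 16 ≤ X := by omega
  have hXR : (16 : ℝ) ≤ X := by exact_mod_cast hX16
  have hX0 : (0 : ℝ) < X := by linarith
  have hL1 : 1 ≤ Real.log X := by
    rw [Real.le_log_iff_exp_le hX0]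
    linarith [Real.exp_one_lt_d9]
  have hLp : 0 < Real.log X := by linarith
  have hL0 : 0 < Real.log X ^ k := by positivity
  have hDR : (1 : ℝ) ≤ D := by exact_mod_cast hD
  have hD0 : (0 : ℝ) < D := by linarith
  set M' : ℕ := 3 * X / D + 1 with hM'
  have hDM : 3 * X ≤ D * M' := by
    rw [hM', mul_add, mul_one]
    have h1 := Nat.div_add_mod (3 * X) D
    have h2 := Nat.mod_lt (3 * X) (by omega : 0 < D)
    omega
  have hDM2 : 9 * X ≤ M' ^ 2 := by
    have h1 : (3 * X) ^ 2 ≤ (D * M') ^ 2 := Nat.pow_le_pow_left hDM 2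
    have h2 : (D * M') ^ 2 ≤ X * M' ^ 2 := by
      rw [mul_pow]
      exact Nat.mul_le_mul_right _ hDX
    have h3 : X * (9 * X) ≤ X * M' ^ 2 := by
      calc X * (9 * X) = (3 * X) ^ 2 := by ring
        _ ≤ _ := h1.trans h2
    exact Nat.le_of_mul_le_mul_left h3 (by omega)
  have hXM : X ≤ M' ^ 2 := by omega
  have hDleX : D ≤ X := le_trans (Nat.le_self_pow (by norm_num) D) hDX
  have hM'R : (M' : ℝ) ≤ 4 * X / D := by
    have h1 : ((3 * X / D : ℕ) : ℝ) ≤ ((3 * X : ℕ) : ℝ) / D := Nat.cast_div_le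
    have h2 : (1 : ℝ) ≤ X / D := by
      rw [le_div_iff₀ hD0, one_mul]
      exact_mod_cast hDleX
    rw [hM']
    push_cast at h1 ⊢
    calc ((3 * X / D : ℕ) : ℝ) + 1 ≤ 3 * X / D + X / D := add_le_add h1 h2
      _ = 4 * X / D := by ring
  have h2D : 2 * D ≤ X := by
    by_cases h1 : D = 1
    · omega
    · have h2 : 2 ≤ D := by omega
      have h3 : 2 * D ≤ D ^ 2 := by
        rw [pow_two]
        exact Nat.mul_le_mul_right D h2
      omega
  have hJ2 : 2 ≤ J := by omega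
  obtain ⟨z, hz1, hz2, hz3, hz4⟩ := choosez J N X hJ2 (by omega) (by omega)
  have hzb : VV 0 z ≤ 2 * J / Real.log X := by
    have h1 := hz0 z (hNz0.trans hz2)
    have h2 : (3 : ℝ) ≤ z := by exact_mod_cast hN3.trans hz2
    have h3 : 0 < Real.log z := Real.log_pos (by linarith)
    have hV := Pool.Agent.Helper40.DB.VV_pos 0 z
    rw [le_div_iff₀ hLp]
    calc VV 0 z * Real.log X ≤ VV 0 z * (2 * J * Real.log z) := mul_le_mul_of_nonneg_left hz4 hV.le
      _ = (VV 0 z * Real.log z) * (2 * J) := by ring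
      _ ≤ 1 * (2 * J) := mul_le_mul_of_nonneg_right h1 (by positivity)
      _ = 2 * J := one_mul _
  have hcR : (0 : ℝ) ≤ S.card := by positivity
  have hHR : (0 : ℝ) ≤ H := by positivity
  have hQ := hb1 X M' z D H y (by omega) hXM hz1 hz2 hD h2D hDH hHX hyX S hS hSg hKc c hc
  have hP := hsv X (by omega)
  set T : ℝ := S.card * H * X / (D * Real.log X ^ k) with hT
  have hT0 : 0 ≤ T := by positivity
  -- the large part
  have hlarge := part_large a X D H y M' z L S hS hD hDH (by omega) b c _ _ hP hQ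
  have hlg : ∑ n ∈ Icc 1 X, vv a X n * ∑ d ∈ S, ∑ h ∈ mul n d y H,
      (if max (2 * D) z < n then |ww b c L d h ((n + h) / d)| else 0) ≤ ε / 4 * T := by
    apply le_of_sq_le_sq _ (by positivity)
    refine hlarge.trans ?_
    have hV := Pool.Agent.Helper40.DB.VV_pos 0 z
    have hs : 0 < √√(N : ℝ) := by
      have : (0 : ℝ) < N := by
        have : 0 < N := by omega
        exact_mod_cast this
      positivity
    have hlN : 0 ≤ Real.log N := Real.log_natCast_nonneg N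
    have h1 : VV 0 z ^ k ≤ (2 * J / Real.log X) ^ k := pow_le_pow_left₀ hV.le hzb k
    calc Cv * X / Real.log X ^ k * (S.card * (2 * H / D)) *
          (VV 0 z ^ k * (C * Real.log N ^ k / √√(N : ℝ) * M' * (S.card * H))) ≤
        Cv * X / Real.log X ^ k * (S.card * (2 * H / D)) *
          ((2 * J / Real.log X) ^ k * (C * Real.log N ^ k / √√(N : ℝ) * (4 * X / D) * (S.card * H))) := by
          gcongr
      _ = (8 * Cv * C * (2 * J) ^ k * (Real.log N ^ k / √√(N : ℝ))) * T ^ 2 := by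
          rw [hT, div_pow]
          field_simp
          ring
      _ ≤ (ε / 4) ^ 2 * T ^ 2 := by
          apply mul_le_mul_of_nonneg_right _ (sq_nonneg _)
          rw [hJ]
          push_cast
          exact hNδ
      _ = (ε / 4 * T) ^ 2 := by ring
  -- the small part
  have hsmall := part_small a X D H y (max (2 * D) z) S hS hD hDH (fun d h m => |ww b c L d h m|)
    (fun d h m => ww_le hb c hc L d h m)
  have hsm : ((max (2 * D) z : ℕ) : ℝ) * (S.card * (2 * H / D)) ≤ ε / 4 * T := by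
    have h1 : ((max (2 * D) z : ℕ) : ℝ) ≤ 2 * √(X : ℝ) := by
      have hs0 : 0 ≤ √(X : ℝ) := Real.sqrt_nonneg _
      have h2 : (D : ℝ) ≤ √(X : ℝ) := by
        apply Real.le_sqrt_of_sq_le
        exact_mod_cast hDX
      have h3 : (z : ℝ) ≤ √(X : ℝ) := by
        apply Real.le_sqrt_of_sq_le
        exact_mod_cast hz3
      push_cast
      exact max_le (by linarith) (by linarith)
    have h4 := hY2 X (by omega)
    have h5 : √√(X : ℝ) ≤ √(X : ℝ) := by
      have h7 : (1 : ℝ) ≤ √(X : ℝ) := Real.one_le_sqrt.2 (by linarith)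
      rw [Real.sqrt_le_iff]
      exact ⟨Real.sqrt_nonneg _, le_self_pow₀ h7 (by norm_num)⟩
    have h6 : 16 * Real.log X ^ k * √(X : ℝ) ≤ ε * X := by
      calc 16 * Real.log X ^ k * √(X : ℝ) ≤ ε * √√(X : ℝ) * √(X : ℝ) :=
            mul_le_mul_of_nonneg_right h4 (Real.sqrt_nonneg _)
        _ ≤ ε * √(X : ℝ) * √(X : ℝ) := by gcongr
        _ = ε * (√(X : ℝ) * √(X : ℝ)) := by ring
        _ = ε * X := by rw [Real.mul_self_sqrt hX0.le]
    calc ((max (2 * D) z : ℕ) : ℝ) * (S.card * (2 * H / D)) ≤ 2 * √(X : ℝ) * (S.card * (2 * H / D)) :=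
          mul_le_mul_of_nonneg_right h1 (by positivity)
      _ = (16 * Real.log X ^ k * √(X : ℝ)) * (S.card * H / (4 * D * Real.log X ^ k)) := by
          field_simp
          ring
      _ ≤ (ε * X) * (S.card * H / (4 * D * Real.log X ^ k)) :=
          mul_le_mul_of_nonneg_right h6 (by positivity)
      _ = ε / 4 * T := by
          rw [hT]
          field_simp
  -- the smoothing
  have hstep : ∑ n ∈ Icc 1 X, vv a X n * ∑ d ∈ S,
      |∑ h ∈ mul n d y H, c d h * b (ArithmeticFunction.cardFactors (n + h))| ≤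
      (∑ n ∈ Icc 1 X, vv a X n * ∑ d ∈ S, ∑ h ∈ mul n d y H,
        (if max (2 * D) z < n then |ww b c L d h ((n + h) / d)| else 0)) +
      (∑ n ∈ Icc 1 X, vv a X n * ∑ d ∈ S, ∑ h ∈ mul n d y H,
        (if max (2 * D) z < n then 0 else |ww b c L d h ((n + h) / d)|)) +
        L * S.card * ∑ n ∈ Icc 1 X, vv a X n := by
    rw [Finset.mul_sum, ← Finset.sum_add_distrib, ← Finset.sum_add_distrib]
    refine Finset.sum_le_sum fun n hn => ?_
    have hn1 : 1 ≤ n := (Finset.mem_Icc.1 hn).1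
    have h1 : ∑ d ∈ S, |∑ h ∈ mul n d y H, c d h * b (ArithmeticFunction.cardFactors (n + h))| ≤
        ∑ d ∈ S, ∑ h ∈ mul n d y H, |ww b c L d h ((n + h) / d)| + L * S.card := by
      calc ∑ d ∈ S, |∑ h ∈ mul n d y H, c d h * b (ArithmeticFunction.cardFactors (n + h))| ≤
          ∑ d ∈ S, (∑ h ∈ mul n d y H, |ww b c L d h ((n + h) / d)| + L) :=
            Finset.sum_le_sum fun d hd => smoothc hb c hc L hL n d y H hn1 (hD.trans (mem_Ico.1 (hS hd)).1)
        _ = ∑ d ∈ S, ∑ h ∈ mul n d y H, |ww b c L d h ((n + h) / d)| + L * S.card := by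
          rw [Finset.sum_add_distrib, Finset.sum_const, nsmul_eq_mul, mul_comm (L : ℝ)]
    have h2 : ∑ d ∈ S, ∑ h ∈ mul n d y H, |ww b c L d h ((n + h) / d)| =
        ∑ d ∈ S, ∑ h ∈ mul n d y H, (if max (2 * D) z < n then |ww b c L d h ((n + h) / d)| else 0) +
        ∑ d ∈ S, ∑ h ∈ mul n d y H, (if max (2 * D) z < n then 0 else |ww b c L d h ((n + h) / d)|) := by
      rw [← sum_add_distrib]
      refine sum_congr rfl fun d _ => ?_
      rw [← sum_add_distrib]
      refine sum_congr rfl fun h _ => ?_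
      split_ifs <;> simp
    calc vv a X n * ∑ d ∈ S, |∑ h ∈ mul n d y H, c d h * b (ArithmeticFunction.cardFactors (n + h))| ≤
        vv a X n * (∑ d ∈ S, ∑ h ∈ mul n d y H, |ww b c L d h ((n + h) / d)| + L * S.card) :=
          mul_le_mul_of_nonneg_left h1 (Pool.Agent.Helper8.DW.vv_nonneg a X n)
      _ = _ := by
        rw [h2]
        ring
  have hsec : L * S.card * ∑ n ∈ Icc 1 X, vv a X n ≤ ε / 4 * T := by
    have h2 : L * Cv ≤ ε / 4 * (H / D) := by
      refine hH2.trans (mul_le_mul_of_nonneg_left ?_ (by positivity))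
      rw [le_div_iff₀ hD0]
      exact_mod_cast hHD
    calc L * S.card * ∑ n ∈ Icc 1 X, vv a X n ≤ L * S.card * (Cv * X / Real.log X ^ k) :=
          mul_le_mul_of_nonneg_left hP (by positivity)
      _ = (L * Cv) * (S.card * X / Real.log X ^ k) := by ring
      _ ≤ (ε / 4 * (H / D)) * (S.card * X / Real.log X ^ k) :=
          mul_le_mul_of_nonneg_right h2 (by positivity)
      _ = ε / 4 * T := by
          rw [hT]
          field_simp
  calc _ ≤ _ := hstep
    _ ≤ ε / 4 * T + ε / 4 * T + ε / 4 * T := add_le_add (add_le_add hlg (hsmall.trans hsm)) hsec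
    _ ≤ ε * T := by
      have h1 : 0 ≤ ε * T := mul_nonneg hε.le hT0
      linarith
    _ = ε * S.card * H * X / (D * Real.log X ^ k) := by
      rw [hT]
      ring

end Pool.Agent.Helper8.BC
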