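import Pool.Agent.Helper8.BC.GSmall
import Pool.Agent.Helper8.DW.Pair

/-!
# BC-07: the sum over the pairs of shifts

MODEL: `Pool/Agent/Helper8/DW/Pair.lean` (theorem `pair_sum`; copy its private lemmas `fiber_card`, `size_bound`, `range_bound` and the structure of the proof).
PROOF. Let `g = gcd d d'`, `d = g e`, `d' = g e'`: `del d h u d' h' u' = g τ`, `τ = e' (h - u) - e (h' - u')`. With `G(t) = ∏_(p ∈ DD Q z t) (1 + C/p) = 1 + gg C Q z t`:
`G(g τ) ≤ G(g) G(τ)` (a prime dividing `g τ` divides `g` or `τ`) and `G(g) ≤ G(d)` (`g ∣ d`), so, with `gg d ≤ 1`,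
`gg (g τ) ≤ (1 + gg d)(1 + gg τ) - 1 ≤ 2 gg τ + gg d`. For fixed `τ` there are at most `H/e + 1 ≤ 3 H/e` pairs (`e ≤ d ≤ 2 H`), and `τ` lies in an interval `Ioc z0 (z0 + L)` with
`H ≤ L = (e + e') H ≤ 3 e H` (`e' ≤ 2 e`), `|z0| ≤ Y^5`, `L ≤ Y^5` as in the model. Only `τ ≠ 0` is counted. By `gg_small` the sum is at most
`2 (3 H/e) (C1/√Q) (3 e H) + gg d * H^2`.
-/

set_option autoImplicit false

namespace Pool.Agent.Helper8.BC

open Finset
open Pool.Agent.Helper40.DB (PP VV DD)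
open Pool.Agent.Helper39.SP (gg)

private lemma fiber_card {e e' : ℕ} (he : 0 < e) (hco : Nat.Coprime e e') (y H u u' : ℕ) (t : ℤ) :
    ((Ioc y (y + H) ×ˢ Ioc y (y + H)).filter
      (fun q : ℕ × ℕ => (e' : ℤ) * ((q.1 : ℤ) - u) - e * ((q.2 : ℤ) - u') = t)).card ≤
      H / e + 1 := by
  rw [← Finset.card_range (H / e + 1)]
  refine Finset.card_le_card_of_injOn (fun q => (q.1 - y) / e) ?_ ?_
  · intro q hq
    simp only [Finset.coe_filter, Finset.mem_product, Finset.mem_Ioc, Set.mem_ofPred_eq] at hq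
    simp only [Finset.coe_range, Set.mem_Iio]
    have h1 : q.1 - y ≤ H := by omega
    have h2 := Nat.div_le_div_right (c := e) h1
    omega
  · intro a ha b hb hab
    simp only [Finset.coe_filter, Finset.mem_product, Finset.mem_Ioc, Set.mem_ofPred_eq] at ha hb
    have hab' : (a.1 - y) / e = (b.1 - y) / e := hab
    have e1 : (e' : ℤ) * ((a.1 : ℤ) - b.1) = e * ((a.2 : ℤ) - b.2) := by
      have h1 := ha.2
      have h2 := hb.2
      linarith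
    have hdvd : (e : ℤ) ∣ (a.1 : ℤ) - b.1 := by
      have h3 : (e : ℤ) ∣ (e' : ℤ) * ((a.1 : ℤ) - b.1) := ⟨_, e1⟩
      exact (Nat.Coprime.isCoprime hco).dvd_of_dvd_mul_left h3
    have hm : (a.1 - y) % e = (b.1 - y) % e := by
      have h4 : ((a.1 - y : ℕ) : ℤ) - ((b.1 - y : ℕ) : ℤ) = (a.1 : ℤ) - b.1 := by
        rw [Nat.cast_sub (by omega), Nat.cast_sub (by omega)]
        ring
      have h5 : (b.1 - y) ≡ (a.1 - y) [MOD e] := by
        rw [Nat.modEq_iff_dvd, h4]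
        exact hdvd
      exact h5.symm
    have h6 : a.1 - y = b.1 - y := by
      rw [← Nat.div_add_mod (a.1 - y) e, ← Nat.div_add_mod (b.1 - y) e, hab', hm]
    have h7 : a.1 = b.1 := by omega
    have h8 : (a.2 : ℤ) = b.2 := by
      rw [h7, sub_self, mul_zero] at e1
      have h9 : (e : ℤ) ≠ 0 := by exact_mod_cast he.ne'
      have h10 := (mul_eq_zero.1 e1.symm).resolve_left h9
      linarith
    exact Prod.ext h7 (by exact_mod_cast h8)

private lemma size_bound {Y e e' y H u u' : ℕ} (hY : 2 ≤ Y) (hY5 : 8 * Y ^ 2 ≤ Y ^ 5)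
    (he0 : 0 < e) (he0' : 0 < e') (heY : e ≤ Y) (heY' : e' ≤ Y) (hyH : y + H ≤ 2 * Y)
    (hu : u ≤ Y) (hu' : u' ≤ Y) (hH : 1 ≤ H) :
    |(e' : ℤ) * ((y : ℤ) + 1 - u) - e * ((y : ℤ) + H - u') - 1| ≤ (Y : ℤ) ^ 5 := by
  have h1 : (8 : ℤ) * Y ^ 2 ≤ Y ^ 5 := by exact_mod_cast hY5
  have c1 : (1 : ℤ) ≤ e' := by exact_mod_cast he0'
  have c2 : (1 : ℤ) ≤ e := by exact_mod_cast he0
  have c3 : (e' : ℤ) ≤ Y := by exact_mod_cast heY'
  have c4 : (e : ℤ) ≤ Y := by exact_mod_cast heY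
  have c5 : (y : ℤ) + H ≤ 2 * Y := by exact_mod_cast hyH
  have c6 : (u : ℤ) ≤ Y := by exact_mod_cast hu
  have c7 : (u' : ℤ) ≤ Y := by exact_mod_cast hu'
  have c8 : (1 : ℤ) ≤ H := by exact_mod_cast hH
  have c9 : (0 : ℤ) ≤ y := Int.natCast_nonneg y
  have c10 : (0 : ℤ) ≤ u := Int.natCast_nonneg u
  have c11 : (0 : ℤ) ≤ u' := Int.natCast_nonneg u'
  have c12 : (2 : ℤ) ≤ Y := by exact_mod_cast hY
  have d1 : |(y : ℤ) + 1 - u| ≤ 2 * Y := by rw [abs_le]; constructor <;> linarith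
  have d2 : |(y : ℤ) + H - u'| ≤ 2 * Y := by rw [abs_le]; constructor <;> linarith
  have d3 : |(e' : ℤ) * ((y : ℤ) + 1 - u)| ≤ Y * (2 * Y) := by
    rw [abs_mul, abs_of_nonneg (by linarith : (0 : ℤ) ≤ e')]
    exact mul_le_mul c3 d1 (abs_nonneg _) (by linarith)
  have d4 : |(e : ℤ) * ((y : ℤ) + H - u')| ≤ Y * (2 * Y) := by
    rw [abs_mul, abs_of_nonneg (by linarith : (0 : ℤ) ≤ e)]
    exact mul_le_mul c4 d2 (abs_nonneg _) (by linarith)
  have d5 : (1 : ℤ) ≤ 4 * Y ^ 2 := by nlinarith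
  have d6 : (Y : ℤ) * (2 * Y) = 2 * Y ^ 2 := by ring
  rw [d6] at d3 d4
  generalize (e' : ℤ) * ((y : ℤ) + 1 - u) = A at d3 ⊢
  generalize (e : ℤ) * ((y : ℤ) + H - u') = B at d4 ⊢
  rw [abs_le] at d3 d4 ⊢
  constructor
  · linarith [d3.1, d4.2]
  · linarith [d3.2, d4.1]

private lemma range_bound {e e' y H u u' a b : ℤ} (he0 : 1 ≤ e) (he0' : 1 ≤ e')
    (a1 : y + 1 ≤ a) (a2 : a ≤ y + H) (a3 : y + 1 ≤ b) (a4 : b ≤ y + H) :
    e' * (y + 1 - u) - e * (y + H - u') - 1 < e' * (a - u) - e * (b - u') ∧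
      e' * (a - u) - e * (b - u') ≤
        e' * (y + 1 - u) - e * (y + H - u') - 1 + (e + e') * H := by
  have h1 := mul_le_mul_of_nonneg_left (show y + 1 - u ≤ a - u by linarith)
    (by linarith : (0 : ℤ) ≤ e')
  have h2 := mul_le_mul_of_nonneg_left (show b - u' ≤ y + H - u' by linarith)
    (by linarith : (0 : ℤ) ≤ e)
  have h3 := mul_le_mul_of_nonneg_left (show a - u ≤ y + H - u by linarith)
    (by linarith : (0 : ℤ) ≤ e')
  have h4 := mul_le_mul_of_nonneg_left (show y + 1 - u' ≤ b - u' by linarith)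
    (by linarith : (0 : ℤ) ≤ e)
  constructor
  · linarith
  · have h5 : e' * (y + H - u) = e' * (y + 1 - u) + e' * H - e' := by ring
    have h6 : e * (y + 1 - u') = e * (y + H - u') - e * H + e := by ring
    have h7 : (e + e') * H = e * H + e' * H := by ring
    linarith



private lemma GG_pos {C : ℝ} (hC : 0 ≤ C) (p : ℕ) : (1 : ℝ) ≤ 1 + C / (p : ℝ) := by
  have : 0 ≤ C / (p : ℝ) := by positivity
  linarith

private lemma GG_mono {C : ℝ} (hC : 0 ≤ C) {S T : Finset ℕ} (h : S ⊆ T) :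
    ∏ p ∈ S, (1 + C / (p : ℝ)) ≤ ∏ p ∈ T, (1 + C / (p : ℝ)) :=
  Finset.prod_le_prod_of_subset_of_one_le h
    (fun i _ => zero_le_one.trans (GG_pos hC i)) (fun i _ _ => GG_pos hC i)

private lemma GG_one {C : ℝ} (hC : 0 ≤ C) (S : Finset ℕ) :
    (1 : ℝ) ≤ ∏ p ∈ S, (1 + C / (p : ℝ)) := by
  have h := GG_mono hC (Finset.empty_subset S)
  simpa using h

private lemma GG_union {C : ℝ} (hC : 0 ≤ C) (S T : Finset ℕ) :
    ∏ p ∈ S ∪ T, (1 + C / (p : ℝ)) ≤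
      (∏ p ∈ S, (1 + C / (p : ℝ))) * ∏ p ∈ T, (1 + C / (p : ℝ)) := by
  rw [← Finset.prod_union_inter]
  exact le_mul_of_one_le_right (zero_le_one.trans (GG_one hC _)) (GG_one hC _)

private lemma gg_nonneg {C : ℝ} (hC : 0 ≤ C) (Q z : ℕ) (t : ℤ) : 0 ≤ gg C Q z t := by
  have h := GG_one hC (DD Q z t)
  unfold gg
  linarith

private lemma gg_mul {C : ℝ} (hC : 0 ≤ C) (Q z g d : ℕ) (hgd : g ∣ d) (t : ℤ)
    (h1 : gg C Q z d ≤ 1) : gg C Q z ((g : ℤ) * t) ≤ 2 * gg C Q z t + gg C Q z d := by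
  have a1 : DD Q z ((g : ℤ) * t) ⊆ DD Q z (d : ℤ) ∪ DD Q z t := by
    intro p hp
    unfold DD at hp ⊢
    rw [Finset.mem_filter] at hp
    obtain ⟨hp1, hp2⟩ := hp
    have hpp : p.Prime := by
      unfold PP at hp1
      exact (Finset.mem_filter.1 hp1).2
    rw [Finset.mem_union, Finset.mem_filter, Finset.mem_filter]
    rcases (Nat.prime_iff_prime_int.1 hpp).dvd_or_dvd hp2 with h | h
    · left
      exact ⟨hp1, h.trans (Int.natCast_dvd_natCast.2 hgd)⟩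
    · right
      exact ⟨hp1, h⟩
  have a2 := (GG_mono hC a1).trans (GG_union hC _ _)
  have a3 := gg_nonneg hC Q z t
  have a4 := gg_nonneg hC Q z (d : ℤ)
  have e1 : ∏ p ∈ DD Q z ((g : ℤ) * t), (1 + C / (p : ℝ)) = 1 + gg C Q z ((g : ℤ) * t) := by
    unfold gg; ring
  have e2 : ∏ p ∈ DD Q z (d : ℤ), (1 + C / (p : ℝ)) = 1 + gg C Q z d := by
    unfold gg; ring
  have e3 : ∏ p ∈ DD Q z t, (1 + C / (p : ℝ)) = 1 + gg C Q z t := by
    unfold gg; ring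
  rw [e1, e2, e3] at a2
  nlinarith [mul_le_mul_of_nonneg_right h1 a3]

open Classical in
theorem pair_small (C : ℝ) (hC : 0 ≤ C) : ∃ C' : ℝ, 0 < C' ∧ ∀ Q : ℕ, 1 ≤ Q → ∃ H1 : ℕ, ∀ Y : ℕ, 2 ≤ Y → ∀ y H d d' : ℕ,
    H1 ≤ H → 1 ≤ H → (Q : ℝ) * Real.log Y ≤ (H : ℝ) ^ 2 → 1 ≤ d → 1 ≤ d' → d ≤ 2 * H → d' ≤ 2 * d → d ≤ Y → d' ≤ Y →
      y + H ≤ 2 * Y → ∀ u u' : ℕ, u ≤ Y → u' ≤ Y → ∀ z : ℕ, gg C Q z d ≤ 1 →
        ∑ h ∈ Ioc y (y + H), ∑ h' ∈ Ioc y (y + H), (if del d h u d' h' u' = 0 then 0 else gg C Q z (del d h u d' h' u')) ≤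
          (C' / √Q + gg C Q z d) * H ^ 2 := by
  obtain ⟨C₁, hC₁, h0⟩ := gg_small C hC
  refine ⟨18 * C₁, by positivity, ?_⟩
  intro Q hQ
  obtain ⟨L0, h00⟩ := h0 Q hQ
  refine ⟨L0, ?_⟩
  intro Y hY y H d d' hL0 hH hcH hd hd' hdH hdd hdY hdY' hyH u u' hu hu' z hgd1
  obtain ⟨g, hg⟩ : ∃ g, g = Nat.gcd d d' := ⟨_, rfl⟩
  have hg0 : 0 < g := hg ▸ Nat.gcd_pos_of_pos_left _ (by omega)
  have hgd : g ∣ d := hg ▸ Nat.gcd_dvd_left _ _
  obtain ⟨e, he⟩ : g ∣ d := hgd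
  obtain ⟨e', he'⟩ : g ∣ d' := hg ▸ Nat.gcd_dvd_right _ _
  have hco : Nat.Coprime e e' := by
    have h1 := Nat.coprime_div_gcd_div_gcd (m := d) (n := d') (hg ▸ hg0)
    rw [← hg] at h1
    have h2 : d / g = e := by rw [he, Nat.mul_div_cancel_left _ hg0]
    have h3 : d' / g = e' := by rw [he', Nat.mul_div_cancel_left _ hg0]
    rwa [h2, h3] at h1
  have he0 : 0 < e := by
    rcases Nat.eq_zero_or_pos e with h | h
    · rw [h, mul_zero] at he; omega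
    · exact h
  have he0' : 0 < e' := by
    rcases Nat.eq_zero_or_pos e' with h | h
    · rw [h, mul_zero] at he'; omega
    · exact h
  have hee : e' ≤ 2 * e := by
    have h1 : g * e' ≤ g * (2 * e) := by
      calc g * e' = d' := he'.symm
        _ ≤ 2 * d := hdd
        _ = g * (2 * e) := by rw [he]; ring
    exact Nat.le_of_mul_le_mul_left h1 hg0
  have hed : e ≤ d := by rw [he]; exact Nat.le_mul_of_pos_left _ hg0
  have hed' : e' ≤ d' := by rw [he']; exact Nat.le_mul_of_pos_left _ hg0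
  have heY : e ≤ Y := hed.trans hdY
  have heY' : e' ≤ Y := hed'.trans hdY'
  have heH : e ≤ 2 * H := hed.trans hdH
  -- the function τ
  let τ : ℕ × ℕ → ℤ := fun q => (e' : ℤ) * ((q.1 : ℤ) - u) - e * ((q.2 : ℤ) - u')
  let f : ℤ → ℝ := fun t => if t = 0 then 0 else gg C Q z t
  have hf0 : ∀ t, 0 ≤ f t := by
    intro t
    simp only [f]
    split_ifs
    · exact le_refl _
    · exact gg_nonneg hC Q z t
  have hdel : ∀ q : ℕ × ℕ, del d q.1 u d' q.2 u' = (g : ℤ) * τ q := by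
    intro q
    simp only [τ]
    unfold del
    rw [he, he']
    push_cast
    ring
  have hx0 := gg_nonneg hC Q z (d : ℤ)
  have step1 : ∑ h ∈ Ioc y (y + H), ∑ h' ∈ Ioc y (y + H),
      (if del d h u d' h' u' = 0 then 0 else gg C Q z (del d h u d' h' u')) ≤
      2 * ∑ q ∈ Ioc y (y + H) ×ˢ Ioc y (y + H), f (τ q) + gg C Q z d * H ^ 2 := by
    have hcard : ∑ q ∈ Ioc y (y + H) ×ˢ Ioc y (y + H), gg C Q z (d : ℤ) =
        gg C Q z d * H ^ 2 := by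
      rw [Finset.sum_const, Finset.card_product, Nat.card_Ioc, nsmul_eq_mul,
        Nat.add_sub_cancel_left]
      push_cast
      ring
    rw [← hcard, ← Finset.sum_product', Finset.mul_sum, ← Finset.sum_add_distrib]
    refine Finset.sum_le_sum fun q _ => ?_
    have h2 := hdel q
    by_cases h3 : τ q = 0
    · have h4 : del d q.1 u d' q.2 u' = 0 := by rw [h2, h3, mul_zero]
      rw [if_pos h4]
      have := hf0 (τ q)
      linarith
    · have h4 : del d q.1 u d' q.2 u' ≠ 0 := by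
        rw [h2]
        exact mul_ne_zero (by exact_mod_cast hg0.ne') h3
      rw [if_neg h4, h2]
      have h5 := gg_mul hC Q z g d ⟨e, he⟩ (τ q) hgd1
      have h6 : f (τ q) = gg C Q z (τ q) := by
        simp only [f]
        rw [if_neg h3]
      rw [h6]
      exact h5
  -- the interval
  obtain ⟨z0, hz⟩ : ∃ z0 : ℤ, z0 = (e' : ℤ) * ((y : ℤ) + 1 - u) - e * ((y : ℤ) + H - u') - 1 :=
    ⟨_, rfl⟩
  obtain ⟨N, hN⟩ : ∃ N : ℕ, N = (e + e') * H := ⟨_, rfl⟩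
  have hmaps : ∀ q ∈ Ioc y (y + H) ×ˢ Ioc y (y + H), τ q ∈ Ioc z0 (z0 + N) := by
    intro q hq
    rw [Finset.mem_product, Finset.mem_Ioc, Finset.mem_Ioc] at hq
    obtain ⟨⟨h1, h2⟩, h3, h4⟩ := hq
    have a1 : (y : ℤ) + 1 ≤ q.1 := by exact_mod_cast h1
    have a2 : (q.1 : ℤ) ≤ y + H := by exact_mod_cast h2
    have a3 : (y : ℤ) + 1 ≤ q.2 := by exact_mod_cast h3
    have a4 : (q.2 : ℤ) ≤ y + H := by exact_mod_cast h4
    have b2 : (1 : ℤ) ≤ e' := by exact_mod_cast he0'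
    have b3 : (1 : ℤ) ≤ e := by exact_mod_cast he0
    have b4 := range_bound (u := u) (u' := u') b3 b2 a1 a2 a3 a4
    rw [Finset.mem_Ioc, hz, hN]
    push_cast
    exact b4
  have step2 : ∑ q ∈ Ioc y (y + H) ×ˢ Ioc y (y + H), f (τ q) ≤
      ((H / e + 1 : ℕ) : ℝ) * ∑ t ∈ Ioc z0 (z0 + N), f t := by
    rw [← Finset.sum_fiberwise_of_maps_to hmaps, Finset.mul_sum]
    refine Finset.sum_le_sum fun t _ => ?_
    have h1 : ∑ q ∈ (Ioc y (y + H) ×ˢ Ioc y (y + H)).filter (fun q => τ q = t),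
        f (τ q) = ∑ q ∈ (Ioc y (y + H) ×ˢ Ioc y (y + H)).filter (fun q => τ q = t),
        f t := by
      refine Finset.sum_congr rfl fun q hq => ?_
      rw [(Finset.mem_filter.1 hq).2]
    rw [h1, Finset.sum_const, nsmul_eq_mul]
    refine mul_le_mul_of_nonneg_right ?_ (hf0 t)
    exact Nat.cast_le.2 (fiber_card he0 hco y H u u' t)
  have hfil : ∑ t ∈ Ioc z0 (z0 + N), f t =
      ∑ t ∈ (Ioc z0 (z0 + N)).filter (fun t => t ≠ 0), gg C Q z t := by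
    rw [Finset.sum_filter]
    refine Finset.sum_congr rfl fun t _ => ?_
    simp only [f]
    by_cases ht : t = 0
    · rw [if_pos ht, if_neg (not_not.2 ht)]
    · rw [if_neg ht, if_pos ht]
  have hH2Y : H ≤ 2 * Y := by omega
  have hY5 : 8 * Y ^ 2 ≤ Y ^ 5 := by
    have h1 : 8 ≤ Y ^ 3 := by
      calc 8 = 2 ^ 3 := by norm_num
        _ ≤ Y ^ 3 := Nat.pow_le_pow_left hY 3
    calc 8 * Y ^ 2 ≤ Y ^ 3 * Y ^ 2 := Nat.mul_le_mul_right _ h1
      _ = Y ^ 5 := by ring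
  have hN1 : 1 ≤ N := by
    rw [hN]
    exact Nat.mul_pos (by omega) (by omega)
  have hNH : H ≤ N := by
    rw [hN]
    exact Nat.le_mul_of_pos_left _ (by omega)
  have hNY : N ≤ Y ^ 5 := by
    refine le_trans ?_ hY5
    rw [hN]
    calc (e + e') * H ≤ (Y + Y) * (2 * Y) := Nat.mul_le_mul (by omega) hH2Y
      _ = 4 * Y ^ 2 := by ring
      _ ≤ 8 * Y ^ 2 := by omega
  have hzY : |z0| ≤ (Y : ℤ) ^ 5 := by
    rw [hz]
    exact size_bound hY hY5 he0 he0' heY heY' hyH hu hu' hH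
  have hcN : (Q : ℝ) * Real.log Y ≤ (N : ℝ) ^ 2 := by
    refine hcH.trans ?_
    have h1 : (H : ℝ) ≤ N := by exact_mod_cast hNH
    exact pow_le_pow_left₀ (Nat.cast_nonneg _) h1 2
  have step3 := h00 Y hY z0 N (hL0.trans hNH) hN1 hzY hNY hcN z
  rw [← hfil] at step3
  -- assembly
  have hNe : (N : ℝ) ≤ 3 * e * H := by
    have h1 : N ≤ 3 * e * H := by
      rw [hN]
      exact Nat.mul_le_mul_right _ (by omega)
    exact_mod_cast h1
  have hHe : ((H / e + 1 : ℕ) : ℝ) * e ≤ 3 * H := by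
    have h1 : (H / e + 1) * e ≤ 3 * H := by
      have h2 := Nat.div_mul_le_self H e
      calc (H / e + 1) * e = H / e * e + e := by ring
        _ ≤ H + 2 * H := by omega
        _ = 3 * H := by ring
    exact_mod_cast h1
  have hK : 0 ≤ C₁ / √Q := by positivity
  have hsum : ((H / e + 1 : ℕ) : ℝ) * ∑ t ∈ Ioc z0 (z0 + N), f t ≤ 9 * (C₁ / √Q) * H ^ 2 := by
    calc ((H / e + 1 : ℕ) : ℝ) * ∑ t ∈ Ioc z0 (z0 + N), f t
        ≤ ((H / e + 1 : ℕ) : ℝ) * (C₁ / √Q * N) := mul_le_mul_of_nonneg_left step3 (by positivity)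
      _ ≤ ((H / e + 1 : ℕ) : ℝ) * (C₁ / √Q * (3 * e * H)) := by gcongr
      _ = 3 * (C₁ / √Q) * H * (((H / e + 1 : ℕ) : ℝ) * e) := by ring
      _ ≤ 3 * (C₁ / √Q) * H * (3 * H) := by gcongr
      _ = 9 * (C₁ / √Q) * H ^ 2 := by ring
  have hlast := step2.trans hsum
  calc _ ≤ 2 * ∑ q ∈ Ioc y (y + H) ×ˢ Ioc y (y + H), f (τ q) + gg C Q z d * H ^ 2 := step1
    _ ≤ 2 * (9 * (C₁ / √Q) * H ^ 2) + gg C Q z d * H ^ 2 := by linarith
    _ = (18 * C₁ / √Q + gg C Q z d) * H ^ 2 := by ring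

end Pool.Agent.Helper8.BC
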