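import Pool.Agent.Helper8.BC.FormInt

/-!
# BC-05: the mean value of `|phi|` on a line

PROOF. `Λ = (VV 0 N)⁻¹ ^ k`; `|phi a N z n| ≤ Λ (1 + nuA a N z n)` (`Helper39.SP.abs_phi_le` or directly). For `h < d m`: `nuA a N z (d * m - h) = nuL N z (fm a d (-h)) m`.
The `m ∈ Icc 1 M` with `h < d m` are `Ioc (h / d) M` (empty if `h / d ≥ M`); drop the others: `∑ ≤ ∑_(m ∈ Ioc 0 M) nuL N z s m`, `s = fm a d (-h)`, `nuL ≥ 0`.
`corrL k` with `b = 1` and `SSL_sub_one k`: `∑ nuL ≤ (1 + C1) M SSL + R`, `SSL ≤ 1 + C1/N + (k + k^2) gg d` (`PrimN` and the determinants `d (a j - a i)` as in BC-03),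
`R = V⁻¹ ^ k ((2 E + 3) 2 ^ (60 E)) ≤ √X ≤ M` for `X ≥ X0`, as `2 ^ (60 E) ≤ z ^ 60 ≤ X ^ (1/8)`, `V⁻¹ ≤ exp 8 (E + 1)^8`.
-/

set_option autoImplicit false

namespace Pool.Agent.Helper8.BC

open Finset
open Pool.Agent.Helper40.DB (PP VV DD)
open Pool.Agent.Helper39.SP (nuA phi gg)

/-- `(y + 1)^M / (√2)^y → 0`. -/
private theorem exists_log_bound (M : ℕ) (B ε : ℝ) (hB : 0 ≤ B) (hε : 0 < ε) :
    ∃ H₀ : ℕ, 1 ≤ H₀ ∧ ∀ H : ℕ, H₀ ≤ H →
      B * ((Nat.log 2 H : ℝ) + 1) ^ M ≤ ε * Real.sqrt H := by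
  have h1 : Filter.Tendsto (fun n : ℕ => (n : ℝ) ^ M * (1 / Real.sqrt 2) ^ n) Filter.atTop
      (nhds 0) := by
    apply tendsto_pow_const_mul_const_pow_of_abs_lt_one
    rw [abs_of_nonneg (by positivity), div_lt_one (by positivity)]
    rw [Real.lt_sqrt (by norm_num)]
    norm_num
  have h2 : ∀ᶠ n : ℕ in Filter.atTop, (n : ℝ) ^ M * (1 / Real.sqrt 2) ^ n <
      ε / (Real.sqrt 2 * (B + 1)) := by
    apply h1.eventually_lt_const
    positivity
  obtain ⟨n0, hn0⟩ := Filter.eventually_atTop.1 h2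
  refine ⟨2 ^ n0, Nat.one_le_two_pow, ?_⟩
  intro H hH
  have hH0 : H ≠ 0 := by
    have : 0 < 2 ^ n0 := by positivity
    omega
  have h3 : n0 ≤ Nat.log 2 H := Nat.le_log_of_pow_le (by norm_num) hH
  have h4 := hn0 (Nat.log 2 H + 1) (by omega)
  set y := Nat.log 2 H with hy
  have h5 : Real.sqrt 2 ^ y ≤ Real.sqrt H := by
    have h6 : 2 ^ y ≤ H := Nat.pow_log_le_self 2 hH0
    have h7 : Real.sqrt 2 ^ y = Real.sqrt ((2 : ℝ) ^ y) := by
      have h8 : (2 : ℝ) ^ y = (Real.sqrt 2 ^ y) ^ 2 := by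
        rw [← pow_mul, mul_comm, pow_mul, Real.sq_sqrt (by norm_num)]
      rw [h8, Real.sqrt_sq (by positivity)]
    rw [h7]
    apply Real.sqrt_le_sqrt
    exact_mod_cast h6
  have hs : 0 < Real.sqrt 2 := by positivity
  rw [lt_div_iff₀ (by positivity)] at h4
  push_cast at h4
  have h8 : (1 / Real.sqrt 2) ^ (y + 1) * Real.sqrt 2 = 1 / Real.sqrt 2 ^ y := by
    rw [pow_succ, div_pow, one_pow]
    field_simp
  have h9 : ((y : ℝ) + 1) ^ M * (B + 1) * (1 / Real.sqrt 2 ^ y) < ε := by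
    rw [← h8]
    calc _ = ((y : ℝ) + 1) ^ M * (1 / Real.sqrt 2) ^ (y + 1) * (Real.sqrt 2 * (B + 1)) := by ring
      _ < ε := h4
  have h10 : 0 < Real.sqrt 2 ^ y := by positivity
  rw [mul_one_div, div_lt_iff₀ h10] at h9
  have h11 : ε * Real.sqrt 2 ^ y ≤ ε * Real.sqrt H := by gcongr
  have h12 : B * ((y : ℝ) + 1) ^ M ≤ ((y : ℝ) + 1) ^ M * (B + 1) := by
    have : 0 ≤ ((y : ℝ) + 1) ^ M := by positivity
    nlinarith
  linarith

private theorem nuA_nonneg {k : ℕ} (a : Fin k → ℕ) (N z n : ℕ) : 0 ≤ nuA a N z n := by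
  unfold nuA
  have := Pool.Agent.Helper40.DB.VV_pos N z
  split_ifs
  · positivity
  · exact le_refl _

private theorem nuA_le {k : ℕ} (a : Fin k → ℕ) (N z n : ℕ) : nuA a N z n ≤ (VV N z)⁻¹ ^ k := by
  unfold nuA
  have := Pool.Agent.Helper40.DB.VV_pos N z
  split_ifs
  · exact le_refl _
  · positivity

/-- The remainder. -/
private theorem rem_bound (K N b : ℕ) (hN : 1 ≤ N) : ∃ X0 : ℕ, 1 ≤ X0 ∧ ∀ X M z : ℕ, X0 ≤ X → X ≤ M ^ 2 →
    z ^ (160 * (b + 2)) ≤ X → (N.factorial : ℝ) *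
      ((VV N z)⁻¹ ^ K * ((2 * (Nat.log 2 z : ℕ) + 3) * 2 ^ (20 * Nat.log 2 z * (b + 2)))) ≤ M / N := by
  set B : ℝ := N * N.factorial * (3 * Real.exp 8 ^ K) with hB
  have hB0 : 0 ≤ B := by rw [hB]; positivity
  obtain ⟨X0, hX0, hX⟩ := exists_log_bound (2 * (8 * K + 1)) (B ^ 2) 1 (by positivity) one_pos
  refine ⟨X0, hX0, fun X M z hXX hM hz => ?_⟩
  have hX1 : 1 ≤ X := hX0.trans hXX
  have h1 := hX X hXX
  rw [one_mul] at h1
  have hE : Nat.log 2 z ≤ Nat.log 2 X := by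
    rcases Nat.eq_zero_or_pos z with h0 | h0
    · subst h0; simp
    · refine Nat.log_mono_right (le_trans ?_ hz)
      exact Nat.le_self_pow (by omega) z
  set E := Nat.log 2 z with hEd
  set E' := Nat.log 2 X with hE'
  have hEr : (E : ℝ) ≤ E' := by exact_mod_cast hE
  have h2 : (VV N z)⁻¹ ≤ Real.exp 8 * ((E' : ℝ) + 1) ^ 8 := by
    have h3 := Pool.Agent.Helper40.DB.VV_inv_le N z
    have h4 : ((E : ℝ) + 1) ^ (8 : ℝ) = ((E : ℝ) + 1) ^ (8 : ℕ) := by
      rw [← Real.rpow_natCast]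
      norm_num
    rw [← hEd, h4] at h3
    refine h3.trans ?_
    gcongr
  have hV := Pool.Agent.Helper40.DB.VV_pos N z
  have h3 : (VV N z)⁻¹ ^ K ≤ Real.exp 8 ^ K * ((E' : ℝ) + 1) ^ (8 * K) := by
    refine (pow_le_pow_left₀ (by positivity) h2 _).trans (le_of_eq ?_)
    rw [mul_pow, ← pow_mul]
  have h4 : (2 : ℝ) ^ (20 * E * (b + 2)) ≤ Real.sqrt (Real.sqrt X) := by
    refine Real.le_sqrt_of_sq_le (Real.le_sqrt_of_sq_le ?_)
    have h5 : ((2 ^ (20 * E * (b + 2))) ^ 2) ^ 2 ≤ X := by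
      have h6 : ((2 ^ (20 * E * (b + 2))) ^ 2) ^ 2 = (2 ^ E) ^ (80 * (b + 2)) := by
        rw [← pow_mul, ← pow_mul, ← pow_mul]
        congr 1
        ring
      rw [h6]
      rcases Nat.eq_zero_or_pos z with h0 | h0
      · have : E = 0 := by rw [hEd, h0]; simp
        rw [this]
        simpa using hX1
      · refine le_trans (Nat.pow_le_pow_left (Nat.pow_log_le_self 2 h0.ne') _) (le_trans ?_ hz)
        exact Nat.pow_le_pow_right h0 (by omega)
    exact_mod_cast h5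
  have h5 : (2 * (E : ℝ) + 3) ≤ 3 * ((E' : ℝ) + 1) := by
    have : (0 : ℝ) ≤ E := Nat.cast_nonneg _
    linarith
  have h6 : B * ((E' : ℝ) + 1) ^ (8 * K + 1) ≤ Real.sqrt (Real.sqrt X) := by
    refine Real.le_sqrt_of_sq_le ?_
    rw [mul_pow, ← pow_mul, mul_comm (8 * K + 1) 2]
    exact h1
  have h7 : Real.sqrt X ≤ M := by
    refine Real.sqrt_le_iff.2 ⟨Nat.cast_nonneg _, ?_⟩
    exact_mod_cast hM
  have hNr : (0 : ℝ) < N := by exact_mod_cast hN
  rw [le_div_iff₀ hNr]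
  calc (N.factorial : ℝ) * ((VV N z)⁻¹ ^ K * ((2 * (E : ℕ) + 3) * 2 ^ (20 * E * (b + 2)))) * N
      ≤ (N.factorial : ℝ) * ((Real.exp 8 ^ K * ((E' : ℝ) + 1) ^ (8 * K)) *
          ((3 * ((E' : ℝ) + 1)) * Real.sqrt (Real.sqrt X))) * N := by gcongr
    _ = (B * ((E' : ℝ) + 1) ^ (8 * K + 1)) * Real.sqrt (Real.sqrt X) := by rw [hB]; ring
    _ ≤ Real.sqrt (Real.sqrt X) * Real.sqrt (Real.sqrt X) := by gcongr
    _ = Real.sqrt X := Real.mul_self_sqrt (Real.sqrt_nonneg _)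
    _ ≤ M := h7

private theorem card_fm {k : ℕ} (a : Fin k → ℕ) (ha : Function.Injective a) (D e : ℤ) :
    (fm a D e).card = k := by
  unfold fm
  rw [card_image_of_injective, card_univ, Fintype.card_fin]
  intro i j hij
  have h := congrArg Prod.snd hij
  simp only at h
  apply ha
  omega

/-- The sieve weight as the weight of the forms. -/
private theorem nuA_eq_nuL {k : ℕ} (a : Fin k → ℕ) (ha : Function.Injective a) (N z n m : ℕ) (D e : ℤ)
    (h : (n : ℤ) = D * m + e) : nuA a N z n = nuL N z (fm a D e) m := by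
  have key : (∀ p ∈ PP N z, ∀ i, ¬ p ∣ n + a i) ↔
      (∀ p ∈ PP N z, ∀ L ∈ fm a D e, ¬ (p : ℤ) ∣ L.1 * m + L.2) := by
    refine forall₂_congr fun p _ => ?_
    have e1 : ∀ i, (D * m + ((a i : ℤ) + e)) = ((n + a i : ℕ) : ℤ) := by
      intro i
      push_cast
      rw [h]
      ring
    constructor
    · intro h1 L hL
      unfold fm at hL
      rw [mem_image] at hL
      obtain ⟨i, _, rfl⟩ := hL
      simp only
      rw [e1 i, Int.natCast_dvd_natCast]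
      exact h1 i
    · intro h1 i
      have h2 := h1 (D, (a i : ℤ) + e) (by unfold fm; exact mem_image_of_mem _ (mem_univ i))
      simp only at h2
      rw [e1 i, Int.natCast_dvd_natCast] at h2
      exact h2
  unfold nuA nuL
  by_cases hP : ∀ p ∈ PP N z, ∀ i, ¬ p ∣ n + a i
  · rw [if_pos hP, if_pos (key.1 hP), card_fm a ha]
  · rw [if_neg hP, if_neg (fun h => hP (key.2 h))]

private theorem primN_of {k : ℕ} (a : Fin k → ℕ) (N z d h : ℕ) (hp : prim a d h) (D e : ℤ)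
    (hD : ∀ p ∈ PP N z, (p : ℤ) ∣ D → (p : ℤ) ∣ d)
    (he : ∀ p ∈ PP N z, (p : ℤ) ∣ d → (p : ℤ) ∣ (e + h)) : PrimN N z (fm a D e) := by
  intro p hp' L hL ⟨h1, h2⟩
  unfold fm at hL
  rw [mem_image] at hL
  obtain ⟨i, _, rfl⟩ := hL
  simp only at h1 h2
  have h3 : (p : ℤ) ∣ d := hD p hp' h1
  have h4 : (p : ℤ) ∣ (a i : ℤ) - h := by
    have : (a i : ℤ) - h = (a i + e) - (e + h) := by ring
    rw [this]
    exact dvd_sub h2 (he p hp' h3)
  have h5 : (p : ℤ) ∣ ((Int.gcd d ((a i : ℤ) - h) : ℕ) : ℤ) := Int.dvd_coe_gcd h3 h4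
  rw [hp i] at h5
  have h6 : p ∣ 1 := by exact_mod_cast h5
  unfold PP at hp'
  rw [mem_filter] at hp'
  exact hp'.2.one_lt.ne' (Nat.dvd_one.1 h6)

theorem phi_one {k : ℕ} (a : Fin k → ℕ) (ha : Function.Injective a) : ∃ C : ℝ, 0 < C ∧ ∃ N0 : ℕ, ∀ N : ℕ, N0 ≤ N →
    ∃ X0 : ℕ, ∀ X M z : ℕ, X0 ≤ X → X ≤ M ^ 2 → z ^ 480 ≤ X → ∀ d h : ℕ, 1 ≤ d → prim a d h →
      ∑ m ∈ (Icc 1 M).filter (fun m => h < d * m), |phi a N z (d * m - h)| ≤
        (VV 0 N)⁻¹ ^ k * (C * (1 + gg C N z d)) * M := by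
  obtain ⟨C1, hC1, h1⟩ := corrL k
  obtain ⟨C2, hC2, h2⟩ := SSL_sub_one k
  set C : ℝ := 2 + (1 + C1) * (1 + C2) * (1 + k + k ^ 2) with hC
  have hk0 : (0 : ℝ) ≤ k := Nat.cast_nonneg _
  have hC0 : 0 < C := by rw [hC]; positivity
  refine ⟨C, hC0, 2 * k + 2 + ∑ s, a s, fun N hN => ?_⟩
  have hN1 : 1 ≤ N := by omega
  have haN : ∀ s, a s ≤ N := by
    intro s
    have := Finset.single_le_sum (f := a) (fun i _ => Nat.zero_le _) (mem_univ s)
    omega
  obtain ⟨X0, hX0, hX⟩ := rem_bound k N 1 hN1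
  refine ⟨X0, fun X M z hXX hXM hz d h _ hp => ?_⟩
  have hz' : z ^ (160 * (1 + 2)) ≤ X := by
    have e1 : 160 * (1 + 2) = 480 := by norm_num
    rw [e1]
    exact hz
  have hrem := hX X M z hXX hXM hz'
  have hNr : (0 : ℝ) < N := by exact_mod_cast hN1
  have hNr1 : (1 : ℝ) ≤ N := by exact_mod_cast hN1
  have hMr : (0 : ℝ) ≤ M := Nat.cast_nonneg _
  have hV := Pool.Agent.Helper40.DB.VV_pos 0 N
  have hVz := Pool.Agent.Helper40.DB.VV_pos N z
  set Λ := (VV 0 N)⁻¹ ^ k with hΛ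
  have hΛ0 : 0 ≤ Λ := by positivity
  set s := fm a (d : ℤ) (-(h : ℤ)) with hs
  have hcard : s.card = k := card_fm a ha _ _
  have hprim : PrimN N z s := primN_of a N z d h hp _ _ (fun p _ h3 => h3)
    (fun p _ _ => by rw [neg_add_cancel]; exact dvd_zero _)
  set R := (VV N z)⁻¹ ^ k *
    ((2 * ((Nat.log 2 z : ℕ) : ℝ) + 3) * 2 ^ (20 * Nat.log 2 z * (1 + 2))) with hR
  have hR0 : 0 ≤ R := by positivity
  have hRM : R ≤ M := by
    have e1 : (1 : ℝ) ≤ N.factorial := by exact_mod_cast Nat.factorial_pos N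
    calc R = 1 * R := (one_mul R).symm
      _ ≤ N.factorial * R := mul_le_mul_of_nonneg_right e1 hR0
      _ ≤ M / N := hrem
      _ ≤ M := div_le_self hMr hNr1
  have e1 := h1 N z (by omega) s hcard.le hprim 1 le_rfl 0 M
  rw [hcard, ← hR] at e1
  have e2 := h2 N z (by omega) s hcard.le hprim
  have e3 : ∑ L ∈ s, gg C2 N z L.1 = k * gg C2 N z d := by
    have e4 : ∀ L ∈ s, gg C2 N z L.1 = gg C2 N z d := by
      intro L hL
      rw [hs] at hL
      unfold fm at hL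
      rw [mem_image] at hL
      obtain ⟨i, _, rfl⟩ := hL
      rfl
    rw [sum_congr rfl e4, sum_const, hcard, nsmul_eq_mul]
  have hg0 : 0 ≤ gg C2 N z d := gg_nonneg C2 hC2 N z _
  have e5 : ∑ x ∈ s.offDiag, gg C2 N z (x.1.1 * x.2.2 - x.2.1 * x.1.2) ≤ k ^ 2 * gg C2 N z d := by
    have e4 : ∀ x ∈ s.offDiag, gg C2 N z (x.1.1 * x.2.2 - x.2.1 * x.1.2) = gg C2 N z d := by
      rintro ⟨L, L'⟩ hL
      rw [mem_offDiag, hs] at hL
      obtain ⟨hL1, hL2, hne⟩ := hL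
      unfold fm at hL1 hL2
      rw [mem_image] at hL1 hL2
      obtain ⟨i, _, rfl⟩ := hL1
      obtain ⟨j, _, rfl⟩ := hL2
      have e6 : ((d : ℤ), (a i : ℤ) + -(h : ℤ)).1 * ((d : ℤ), (a j : ℤ) + -(h : ℤ)).2 -
          ((d : ℤ), (a j : ℤ) + -(h : ℤ)).1 * ((d : ℤ), (a i : ℤ) + -(h : ℤ)).2 =
          (d : ℤ) * ((a j : ℤ) - a i) := by
        simp only
        ring
      rw [e6]
      refine gg_mul_eq C2 N z _ _ fun p hpp hdvd => ?_
      unfold PP at hpp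
      rw [mem_filter, mem_Ioc] at hpp
      have e7 : (a j : ℤ) - a i ≠ 0 := by
        intro h0
        have h3 : a j = a i := by omega
        exact hne (by rw [h3])
      have e8 : (p : ℤ) ≤ |(a j : ℤ) - a i| :=
        Int.le_of_dvd (abs_pos.2 e7) ((dvd_abs _ _).2 hdvd)
      have e9 : |(a j : ℤ) - a i| ≤ N := by
        rw [abs_le]
        have := haN i
        have := haN j
        omega
      omega
    rw [sum_congr rfl e4, sum_const, nsmul_eq_mul]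
    refine mul_le_mul_of_nonneg_right ?_ hg0
    have e6 : s.offDiag.card ≤ k ^ 2 := by
      rw [offDiag_card, hcard, sq]
      exact Nat.sub_le _ _
    exact_mod_cast e6
  set g := gg C2 N z d with hg
  set S := SSL N z s with hS
  set S' : ℝ := 1 + C2 + (k + k ^ 2) * g with hS'
  have e6 : S ≤ S' := by
    have h3 := (abs_le.1 e2).2
    have h4 : C2 / N ≤ C2 := div_le_self hC2 hNr1
    rw [e3] at h3
    rw [hS']
    linarith
  have hS0 : 0 ≤ S' := by rw [hS']; positivity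
  have e7 : ∑ m ∈ Ioc 0 (0 + M), nuL N z s m ≤ (1 + C1) * (M * S') + M := by
    have h3 := (abs_le.1 e1).2
    have h4 : (M : ℝ) * S ≤ M * S' := mul_le_mul_of_nonneg_left e6 hMr
    have h5 : C1 * (1 / 4) ^ 1 * (M * S) ≤ C1 * (M * S') := by
      calc C1 * (1 / 4) ^ 1 * (M * S) ≤ C1 * (1 / 4) ^ 1 * (M * S') := by gcongr
        _ ≤ C1 * (M * S') := by
          have h6 : 0 ≤ C1 * (M * S') := by positivity
          calc C1 * (1 / 4) ^ 1 * (M * S') = (1 / 4) * (C1 * (M * S')) := by ring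
            _ ≤ C1 * (M * S') := by linarith
    linarith
  have hnn : ∀ m, 0 ≤ nuL N z s m := by
    intro m
    unfold nuL
    split_ifs
    · positivity
    · exact le_refl _
  have e8 : ∀ m ∈ (Icc 1 M).filter (fun m => h < d * m), |phi a N z (d * m - h)| ≤
      Λ * (1 + nuL N z s m) := by
    intro m hm
    rw [mem_filter] at hm
    have h3 : nuA a N z (d * m - h) = nuL N z s m := by
      refine nuA_eq_nuL a ha N z _ _ _ _ ?_
      rw [Nat.cast_sub hm.2.le]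
      push_cast
      ring
    unfold phi
    rw [abs_mul, abs_of_nonneg (nuA_nonneg a 0 N _), h3]
    have h4 : |nuL N z s m - 1| ≤ 1 + nuL N z s m := by
      have := hnn m
      rw [abs_le]
      constructor <;> linarith
    exact mul_le_mul (nuA_le a 0 N _) h4 (abs_nonneg _) hΛ0
  have e9 : ∑ m ∈ (Icc 1 M).filter (fun m => h < d * m), (1 + nuL N z s m) ≤
      M + ∑ m ∈ Ioc 0 (0 + M), nuL N z s m := by
    have h3 : (Icc 1 M).filter (fun m => h < d * m) ⊆ Ioc 0 (0 + M) := by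
      intro m hm
      rw [mem_filter, mem_Icc] at hm
      rw [mem_Ioc]
      omega
    refine (sum_le_sum_of_subset_of_nonneg h3 fun m _ _ => by
      have := hnn m
      linarith).trans ?_
    rw [sum_add_distrib, sum_const, Nat.card_Ioc, nsmul_eq_mul]
    simp
  have hC2C : C2 ≤ C := by
    rw [hC]
    have h3 : (0 : ℝ) ≤ (1 + C1) * (1 + C2) * (k + k ^ 2) := by positivity
    have h4 : 0 ≤ C1 * (1 + C2) := by positivity
    nlinarith
  have e10 : g ≤ gg C N z d := gg_mono hC2 hC2C N z _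
  have e11 : 1 + (1 + C1) * S' + 1 ≤ C * (1 + g) := by
    rw [hS', hC]
    have h3 : (0 : ℝ) ≤ (1 + C1) * (1 + C2) * (k + k ^ 2) := by positivity
    have h4 : (0 : ℝ) ≤ (1 + C1) * C2 * (k + k ^ 2) * g := by positivity
    have h5 : (0 : ℝ) ≤ (1 + C1) * (1 + C2) * g := by positivity
    have h6 : (2 + (1 + C1) * (1 + C2) * (1 + k + k ^ 2)) * (1 + g) -
        (1 + (1 + C1) * (1 + C2 + (k + k ^ 2) * g) + 1) =
        2 * g + (1 + C1) * (1 + C2) * (k + k ^ 2) + (1 + C1) * C2 * (k + k ^ 2) * g +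
          (1 + C1) * (1 + C2) * g := by ring
    linarith
  calc ∑ m ∈ (Icc 1 M).filter (fun m => h < d * m), |phi a N z (d * m - h)|
      ≤ ∑ m ∈ (Icc 1 M).filter (fun m => h < d * m), Λ * (1 + nuL N z s m) := sum_le_sum e8
    _ = Λ * ∑ m ∈ (Icc 1 M).filter (fun m => h < d * m), (1 + nuL N z s m) := by rw [mul_sum]
    _ ≤ Λ * (M + ((1 + C1) * (M * S') + M)) := by
        refine mul_le_mul_of_nonneg_left ?_ hΛ0
        linarith
    _ = Λ * (1 + (1 + C1) * S' + 1) * M := by ring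
    _ ≤ Λ * (C * (1 + gg C N z d)) * M := by
        refine mul_le_mul_of_nonneg_right (mul_le_mul_of_nonneg_left (e11.trans ?_) hΛ0) hMr
        refine mul_le_mul_of_nonneg_left ?_ hC0.le
        linarith

end Pool.Agent.Helper8.BC
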