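import Pool.Agent.Helper8.BC.FormInt

/-!
# BC-04: the correlation of `phi` on two lines

PROOF. `W = N !`: no prime `p > N` divides `W`, every prime `p ≤ N` does. Split `m ∈ Ioc u v` into the classes `m = W q + c`, `c ∈ range W`: for each `c` the `q ∈ ℕ` with
`W q + c ∈ Ioc u v` form an interval `Ioc u_c (u_c + M_c)` (or, if `0` is among them, `insert 0 (Ioc 0 M)`; to avoid this take `c ∈ Ioc 0 W`, `m = W (q - 1) + c` with `q ≥ 1`,
i.e. use the forms with `c - W` in place of `c`), and `∑_c M_c = v - u`.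
On a class (all `m` in question have `h < d m`, so `d * m - h` is the integer `d m - h`):
* `nuA a 0 N (d * m - h)` does not depend on `q` (`p ≤ N` divides `W`), it lies in `[0, Λ]`, `Λ = (VV 0 N)⁻¹ ^ k`; the same for `(d', h')`.
* `nuA a N z (d * m - h) = nuL N z (fm a (d W) (d c - h)) q` (`fm` has `k` elements since `a` is injective; for `k = 0` both are `1`).
* `PrimN N z (fm a (d W) (d c - h))`: `p ∣ d W`, `p ∣ a i + d c - h` gives `p ∣ d`, `p ∣ a i - h`, against `prim`.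
* the determinants are `(d W)(a j + d' c - h') - (d' W)(a i + d c - h) = W (d (a j - h') - d' (a i - h)) = W * del d h (a i) d' h' (a j) ≠ 0`, and
  `gg C N z (W t) = gg C N z t` (`gg_mul_eq`).
Hence `|∑| ≤ Λ^2 ∑_c (C1 (...) M_c + C1 R) = Λ^2 (C1 (...) (v - u) + C1 W R)` by `form_int`. Finally `2 ^ (20 E (b + 2)) ≤ z ^ (20 (b + 2)) ≤ X ^ (1/8)` (`2 ^ E ≤ z` for `z ≥ 1`; `E = 0` for `z = 0`),
`V⁻¹ ≤ exp 8 (E + 1)^8` (`Helper40.DB.VV_inv_le`), `E ≤ Nat.log 2 X`, `M ≥ √X`: `W R ≤ M / N` for `X ≥ X0(N, b)`. See the end of `Helper39/SP/TNon.lean` for the same computations.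
-/

set_option autoImplicit false

namespace Pool.Agent.Helper8.BC

open Finset
open Pool.Agent.Helper40.DB (PP VV DD)
open Pool.Agent.Helper39.SP (nuA phi gg)

/-- Splitting into residue classes. -/
private theorem sum_classes (F : ℕ → ℝ) (W X : ℕ) (hW : 0 < W) :
    ∑ y ∈ Icc 1 X, F y = ∑ c ∈ Icc 1 W, ∑ q ∈ range ((X + W - c) / W), F (W * q + c) := by
  rw [Finset.sum_sigma']
  symm
  refine Finset.sum_nbij' (i := fun w : (_ : ℕ) × ℕ => W * w.2 + w.1)
    (j := fun y => ⟨(y - 1) % W + 1, (y - 1) / W⟩) ?_ ?_ ?_ ?_ ?_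
  · rintro ⟨c, q⟩ h
    simp only [mem_sigma, mem_Icc, mem_range] at h
    obtain ⟨⟨h1, h2⟩, h3⟩ := h
    have h4 : (q + 1) * W ≤ X + W - c := (Nat.le_div_iff_mul_le hW).1 h3
    simp only [mem_Icc]
    constructor
    · omega
    · have h5 : (q + 1) * W = W * q + W := by ring
      omega
  · intro y hy
    rw [mem_Icc] at hy
    simp only [mem_sigma, mem_Icc, mem_range]
    have h1 : (y - 1) % W < W := Nat.mod_lt _ hW
    have h2 := Nat.div_add_mod (y - 1) W
    refine ⟨⟨by omega, by omega⟩, ?_⟩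
    refine (Nat.le_div_iff_mul_le hW).2 ?_
    have h5 : ((y - 1) / W + 1) * W = W * ((y - 1) / W) + W := by ring
    have h6 : (y - 1) / W + 1 = ((y - 1) / W).succ := rfl
    rw [← h6, h5]
    omega
  · rintro ⟨c, q⟩ h
    simp only [mem_sigma, mem_Icc, mem_range] at h
    obtain ⟨⟨h1, h2⟩, h3⟩ := h
    have h4 : W * q + c - 1 = (c - 1) + W * q := by omega
    have h5 : c - 1 < W := by omega
    have h6 : (W * q + c - 1) % W = c - 1 := by
      rw [h4, Nat.add_mul_mod_self_left, Nat.mod_eq_of_lt h5]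
    have h7 : (W * q + c - 1) / W = q := by
      rw [h4, Nat.add_mul_div_left _ _ hW, Nat.div_eq_of_lt h5, zero_add]
    simp only [h6, h7]
    have h8 : c - 1 + 1 = c := by omega
    rw [h8]
  · intro y hy
    rw [mem_Icc] at hy
    have h2 := Nat.div_add_mod (y - 1) W
    simp only
    omega
  · rintro ⟨c, q⟩ h
    rfl

private theorem sum_card_classes (W X : ℕ) (hW : 0 < W) :
    ∑ c ∈ Icc 1 W, (((X + W - c) / W : ℕ) : ℝ) = X := by
  have h := sum_classes (fun _ => 1) W X hW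
  simp only [sum_const, card_range, Nat.card_Icc, nsmul_eq_mul, mul_one] at h
  rw [← h]
  simp

/-- `(y + 1)^M / (√2)^y → 0`. -/
private theorem exists_log_bound (M : ℕ) (B ε : ℝ) (hB : 0 ≤ B) (hε : 0 < ε) :
    ∃ H₀ : ℕ, 1 ≤ H₀ ∧ ∀ H : ℕ, H₀ ≤ H →
      B * ((Nat.log 2 H : ℝ) + 1) ^ M ≤ ε * Real.sqrt H := by
  have h1 : Filter.Tendsto (fun n : ℕ => (n : ℝ) ^ M * (1 / Real.sqrt 2) ^ n) Filter.atTop
      (nhds 0) := by
    apply tendsto_pow_const_mul_const_pow_of_abs_lt_one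
    rw [abs_of_nonneg (by positivity), div_lt_one (by positivity)]
    rw [Real.lt_sqrt (by norm_num)]
    norm_num
  have h2 : ∀ᶠ n : ℕ in Filter.atTop, (n : ℝ) ^ M * (1 / Real.sqrt 2) ^ n <
      ε / (Real.sqrt 2 * (B + 1)) := by
    apply h1.eventually_lt_const
    positivity
  obtain ⟨n0, hn0⟩ := Filter.eventually_atTop.1 h2
  refine ⟨2 ^ n0, Nat.one_le_two_pow, ?_⟩
  intro H hH
  have hH0 : H ≠ 0 := by
    have : 0 < 2 ^ n0 := by positivity
    omega
  have h3 : n0 ≤ Nat.log 2 H := Nat.le_log_of_pow_le (by norm_num) hH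
  have h4 := hn0 (Nat.log 2 H + 1) (by omega)
  set y := Nat.log 2 H with hy
  have h5 : Real.sqrt 2 ^ y ≤ Real.sqrt H := by
    have h6 : 2 ^ y ≤ H := Nat.pow_log_le_self 2 hH0
    have h7 : Real.sqrt 2 ^ y = Real.sqrt ((2 : ℝ) ^ y) := by
      have h8 : (2 : ℝ) ^ y = (Real.sqrt 2 ^ y) ^ 2 := by
        rw [← pow_mul, mul_comm, pow_mul, Real.sq_sqrt (by norm_num)]
      rw [h8, Real.sqrt_sq (by positivity)]
    rw [h7]
    apply Real.sqrt_le_sqrt
    exact_mod_cast h6
  have hs : 0 < Real.sqrt 2 := by positivity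
  rw [lt_div_iff₀ (by positivity)] at h4
  push_cast at h4
  have h8 : (1 / Real.sqrt 2) ^ (y + 1) * Real.sqrt 2 = 1 / Real.sqrt 2 ^ y := by
    rw [pow_succ, div_pow, one_pow]
    field_simp
  have h9 : ((y : ℝ) + 1) ^ M * (B + 1) * (1 / Real.sqrt 2 ^ y) < ε := by
    rw [← h8]
    calc _ = ((y : ℝ) + 1) ^ M * (1 / Real.sqrt 2) ^ (y + 1) * (Real.sqrt 2 * (B + 1)) := by ring
      _ < ε := h4
  have h10 : 0 < Real.sqrt 2 ^ y := by positivity
  rw [mul_one_div, div_lt_iff₀ h10] at h9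
  have h11 : ε * Real.sqrt 2 ^ y ≤ ε * Real.sqrt H := by gcongr
  have h12 : B * ((y : ℝ) + 1) ^ M ≤ ((y : ℝ) + 1) ^ M * (B + 1) := by
    have : 0 ≤ ((y : ℝ) + 1) ^ M := by positivity
    nlinarith
  linarith

/-- The sieve weight of a class as a function of the class. -/
private theorem nuA_periodic {k : ℕ} (a : Fin k → ℕ) (N q c : ℕ) :
    nuA a 0 N (N.factorial * q + c) = nuA a 0 N c := by
  unfold nuA
  have h : (∀ p ∈ PP 0 N, ∀ i, ¬ p ∣ N.factorial * q + c + a i) ↔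
      (∀ p ∈ PP 0 N, ∀ i, ¬ p ∣ c + a i) := by
    refine forall₂_congr fun p hp => forall_congr' fun i => not_congr ?_
    unfold PP at hp
    rw [mem_filter, mem_Ioc] at hp
    have h1 : p ∣ N.factorial * q := Dvd.dvd.mul_right ((hp.2.dvd_factorial).2 hp.1.2) _
    rw [add_assoc]
    exact Nat.dvd_add_right h1
  simp only [h]

private theorem nuA_nonneg {k : ℕ} (a : Fin k → ℕ) (N z n : ℕ) : 0 ≤ nuA a N z n := by
  unfold nuA
  have := Pool.Agent.Helper40.DB.VV_pos N z
  split_ifs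
  · positivity
  · exact le_refl _

private theorem nuA_le {k : ℕ} (a : Fin k → ℕ) (N z n : ℕ) : nuA a N z n ≤ (VV N z)⁻¹ ^ k := by
  unfold nuA
  have := Pool.Agent.Helper40.DB.VV_pos N z
  split_ifs
  · exact le_refl _
  · positivity

/-- The remainder. -/
private theorem rem_bound (K N b : ℕ) (hN : 1 ≤ N) : ∃ X0 : ℕ, 1 ≤ X0 ∧ ∀ X M z : ℕ, X0 ≤ X → X ≤ M ^ 2 →
    z ^ (160 * (b + 2)) ≤ X → (N.factorial : ℝ) *
      ((VV N z)⁻¹ ^ K * ((2 * (Nat.log 2 z : ℕ) + 3) * 2 ^ (20 * Nat.log 2 z * (b + 2)))) ≤ M / N := by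
  set B : ℝ := N * N.factorial * (3 * Real.exp 8 ^ K) with hB
  have hB0 : 0 ≤ B := by rw [hB]; positivity
  obtain ⟨X0, hX0, hX⟩ := exists_log_bound (2 * (8 * K + 1)) (B ^ 2) 1 (by positivity) one_pos
  refine ⟨X0, hX0, fun X M z hXX hM hz => ?_⟩
  have hX1 : 1 ≤ X := hX0.trans hXX
  have h1 := hX X hXX
  rw [one_mul] at h1
  have hE : Nat.log 2 z ≤ Nat.log 2 X := by
    rcases Nat.eq_zero_or_pos z with h0 | h0
    · subst h0; simp
    · refine Nat.log_mono_right (le_trans ?_ hz)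
      exact Nat.le_self_pow (by omega) z
  set E := Nat.log 2 z with hEd
  set E' := Nat.log 2 X with hE'
  have hEr : (E : ℝ) ≤ E' := by exact_mod_cast hE
  have h2 : (VV N z)⁻¹ ≤ Real.exp 8 * ((E' : ℝ) + 1) ^ 8 := by
    have h3 := Pool.Agent.Helper40.DB.VV_inv_le N z
    have h4 : ((E : ℝ) + 1) ^ (8 : ℝ) = ((E : ℝ) + 1) ^ (8 : ℕ) := by
      rw [← Real.rpow_natCast]
      norm_num
    rw [← hEd, h4] at h3
    refine h3.trans ?_
    gcongr
  have hV := Pool.Agent.Helper40.DB.VV_pos N z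
  have h3 : (VV N z)⁻¹ ^ K ≤ Real.exp 8 ^ K * ((E' : ℝ) + 1) ^ (8 * K) := by
    refine (pow_le_pow_left₀ (by positivity) h2 _).trans (le_of_eq ?_)
    rw [mul_pow, ← pow_mul]
  have h4 : (2 : ℝ) ^ (20 * E * (b + 2)) ≤ Real.sqrt (Real.sqrt X) := by
    refine Real.le_sqrt_of_sq_le (Real.le_sqrt_of_sq_le ?_)
    have h5 : ((2 ^ (20 * E * (b + 2))) ^ 2) ^ 2 ≤ X := by
      have h6 : ((2 ^ (20 * E * (b + 2))) ^ 2) ^ 2 = (2 ^ E) ^ (80 * (b + 2)) := by
        rw [← pow_mul, ← pow_mul, ← pow_mul]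
        congr 1
        ring
      rw [h6]
      rcases Nat.eq_zero_or_pos z with h0 | h0
      · have : E = 0 := by rw [hEd, h0]; simp
        rw [this]
        simpa using hX1
      · refine le_trans (Nat.pow_le_pow_left (Nat.pow_log_le_self 2 h0.ne') _) (le_trans ?_ hz)
        exact Nat.pow_le_pow_right h0 (by omega)
    exact_mod_cast h5
  have h5 : (2 * (E : ℝ) + 3) ≤ 3 * ((E' : ℝ) + 1) := by
    have : (0 : ℝ) ≤ E := Nat.cast_nonneg _
    linarith
  have h6 : B * ((E' : ℝ) + 1) ^ (8 * K + 1) ≤ Real.sqrt (Real.sqrt X) := by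
    refine Real.le_sqrt_of_sq_le ?_
    rw [mul_pow, ← pow_mul, mul_comm (8 * K + 1) 2]
    exact h1
  have h7 : Real.sqrt X ≤ M := by
    refine Real.sqrt_le_iff.2 ⟨Nat.cast_nonneg _, ?_⟩
    exact_mod_cast hM
  have hNr : (0 : ℝ) < N := by exact_mod_cast hN
  rw [le_div_iff₀ hNr]
  calc (N.factorial : ℝ) * ((VV N z)⁻¹ ^ K * ((2 * (E : ℕ) + 3) * 2 ^ (20 * E * (b + 2)))) * N
      ≤ (N.factorial : ℝ) * ((Real.exp 8 ^ K * ((E' : ℝ) + 1) ^ (8 * K)) *
          ((3 * ((E' : ℝ) + 1)) * Real.sqrt (Real.sqrt X))) * N := by gcongr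
    _ = (B * ((E' : ℝ) + 1) ^ (8 * K + 1)) * Real.sqrt (Real.sqrt X) := by rw [hB]; ring
    _ ≤ Real.sqrt (Real.sqrt X) * Real.sqrt (Real.sqrt X) := by gcongr
    _ = Real.sqrt X := Real.mul_self_sqrt (Real.sqrt_nonneg _)
    _ ≤ M := h7

private theorem card_fm {k : ℕ} (a : Fin k → ℕ) (ha : Function.Injective a) (D e : ℤ) :
    (fm a D e).card = k := by
  unfold fm
  rw [card_image_of_injective, card_univ, Fintype.card_fin]
  intro i j hij
  have h := congrArg Prod.snd hij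
  simp only at h
  apply ha
  omega

/-- The sieve weight as the weight of the forms. -/
private theorem nuA_eq_nuL {k : ℕ} (a : Fin k → ℕ) (ha : Function.Injective a) (N z n m : ℕ) (D e : ℤ)
    (h : (n : ℤ) = D * m + e) : nuA a N z n = nuL N z (fm a D e) m := by
  have key : (∀ p ∈ PP N z, ∀ i, ¬ p ∣ n + a i) ↔
      (∀ p ∈ PP N z, ∀ L ∈ fm a D e, ¬ (p : ℤ) ∣ L.1 * m + L.2) := by
    refine forall₂_congr fun p _ => ?_
    have e1 : ∀ i, (D * m + ((a i : ℤ) + e)) = ((n + a i : ℕ) : ℤ) := by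
      intro i
      push_cast
      rw [h]
      ring
    constructor
    · intro h1 L hL
      unfold fm at hL
      rw [mem_image] at hL
      obtain ⟨i, _, rfl⟩ := hL
      simp only
      rw [e1 i, Int.natCast_dvd_natCast]
      exact h1 i
    · intro h1 i
      have h2 := h1 (D, (a i : ℤ) + e) (by unfold fm; exact mem_image_of_mem _ (mem_univ i))
      simp only at h2
      rw [e1 i, Int.natCast_dvd_natCast] at h2
      exact h2
  unfold nuA nuL
  by_cases hP : ∀ p ∈ PP N z, ∀ i, ¬ p ∣ n + a i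
  · rw [if_pos hP, if_pos (key.1 hP), card_fm a ha]
  · rw [if_neg hP, if_neg (fun h => hP (key.2 h))]

private theorem primN_of {k : ℕ} (a : Fin k → ℕ) (N z d h : ℕ) (hp : prim a d h) (D e : ℤ)
    (hD : ∀ p ∈ PP N z, (p : ℤ) ∣ D → (p : ℤ) ∣ d)
    (he : ∀ p ∈ PP N z, (p : ℤ) ∣ d → (p : ℤ) ∣ (e + h)) : PrimN N z (fm a D e) := by
  intro p hp' L hL ⟨h1, h2⟩
  unfold fm at hL
  rw [mem_image] at hL
  obtain ⟨i, _, rfl⟩ := hL
  simp only at h1 h2
  have h3 : (p : ℤ) ∣ d := hD p hp' h1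
  have h4 : (p : ℤ) ∣ (a i : ℤ) - h := by
    have : (a i : ℤ) - h = (a i + e) - (e + h) := by ring
    rw [this]
    exact dvd_sub h2 (he p hp' h3)
  have h5 : (p : ℤ) ∣ ((Int.gcd d ((a i : ℤ) - h) : ℕ) : ℤ) := Int.dvd_coe_gcd h3 h4
  rw [hp i] at h5
  have h6 : p ∣ 1 := by exact_mod_cast h5
  unfold PP at hp'
  rw [mem_filter] at hp'
  exact hp'.2.one_lt.ne' (Nat.dvd_one.1 h6)

theorem phi_pair {k : ℕ} (a : Fin k → ℕ) (ha : Function.Injective a) : ∃ C : ℝ, 0 ≤ C ∧ ∃ N0 : ℕ, ∀ N : ℕ, N0 ≤ N →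
    ∀ b : ℕ, 1 ≤ b → ∃ X0 : ℕ, ∀ X M z : ℕ, X0 ≤ X → X ≤ M ^ 2 → z ^ (160 * (b + 2)) ≤ X →
      ∀ d h d' h' : ℕ, 1 ≤ d → 1 ≤ d' → prim a d h → prim a d' h' → (∀ i j, del d h (a i) d' h' (a j) ≠ 0) →
        ∀ u v : ℕ, u ≤ v → v ≤ M → (∀ m ∈ Ioc u v, h < d * m ∧ h' < d' * m) →
          |∑ m ∈ Ioc u v, phi a N z (d * m - h) * phi a N z (d' * m - h')| ≤
            (VV 0 N)⁻¹ ^ (2 * k) * (C * (1 / N + (1 / 4) ^ b + gg C N z d + gg C N z d' +
              ∑ i, ∑ j, gg C N z (del d h (a i) d' h' (a j)))) * M := by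
  obtain ⟨C1, hC1, N1, h1⟩ := form_int a ha
  refine ⟨2 * C1, by positivity, N1 + 1, fun N hN b hb => ?_⟩
  have hN1 : 1 ≤ N := by omega
  obtain ⟨X0, hX0, hX⟩ := rem_bound (2 * k) N b hN1
  refine ⟨X0, fun X M z hXX hXM hz d h d' h' _ _ hp hp' hdel u v huv hvM hpos => ?_⟩
  have hrem := hX X M z hXX hXM hz
  have hNr : (0 : ℝ) < N := by exact_mod_cast hN1
  have hW : 0 < N.factorial := Nat.factorial_pos N
  have hWp : ∀ p ∈ PP N z, ¬ (p : ℤ) ∣ (N.factorial : ℤ) := by
    intro p hpp hdvd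
    unfold PP at hpp
    rw [mem_filter, mem_Ioc] at hpp
    rw [Int.natCast_dvd_natCast] at hdvd
    have := (hpp.2.dvd_factorial).1 hdvd
    omega
  have hprime : ∀ p ∈ PP N z, Prime (p : ℤ) := by
    intro p hpp
    unfold PP at hpp
    rw [mem_filter] at hpp
    exact Nat.prime_iff_prime_int.1 hpp.2
  set R := (VV N z)⁻¹ ^ (2 * k) *
    ((2 * ((Nat.log 2 z : ℕ) : ℝ) + 3) * 2 ^ (20 * Nat.log 2 z * (b + 2))) with hR
  have hVz := Pool.Agent.Helper40.DB.VV_pos N z
  have hR0 : 0 ≤ R := by positivity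
  set G := ∑ i, ∑ j, gg C1 N z (del d h (a i) d' h' (a j)) with hG
  have hG0 : 0 ≤ G := sum_nonneg fun i _ => sum_nonneg fun j _ => gg_nonneg C1 hC1 N z _
  have hd0 : 0 ≤ gg C1 N z d := gg_nonneg C1 hC1 N z _
  have hd0' : 0 ≤ gg C1 N z d' := gg_nonneg C1 hC1 N z _
  set Br := 1 / (N : ℝ) + (1 / 4) ^ b + gg C1 N z d + gg C1 N z d' + G with hBr
  have hBr0 : 0 ≤ Br := by positivity
  have hV := Pool.Agent.Helper40.DB.VV_pos 0 N
  set Λ := (VV 0 N)⁻¹ ^ k with hΛ
  have hΛ0 : 0 ≤ Λ := by positivity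
  have hsum : |∑ m ∈ Ioc u v, phi a N z (d * m - h) * phi a N z (d' * m - h')| ≤
      Λ ^ 2 * (C1 * Br * ((v - u : ℕ) : ℝ) + N.factorial * (C1 * R)) := by
    have e0 : ∑ m ∈ Ioc u v, phi a N z (d * m - h) * phi a N z (d' * m - h') =
        ∑ y ∈ Icc 1 (v - u), phi a N z (d * (u + y) - h) * phi a N z (d' * (u + y) - h') := by
      refine sum_nbij' (fun m => m - u) (fun y => u + y) ?_ ?_ ?_ ?_ ?_
      · intro m hm
        rw [mem_Ioc] at hm
        rw [mem_Icc]
        omega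
      · intro y hy
        rw [mem_Icc] at hy
        rw [mem_Ioc]
        omega
      · intro m hm
        rw [mem_Ioc] at hm
        omega
      · intro y _
        omega
      · intro m hm
        rw [mem_Ioc] at hm
        have : u + (m - u) = m := by omega
        rw [this]
    rw [e0, sum_classes _ N.factorial (v - u) hW]
    refine (abs_sum_le_sum_abs _ _).trans ?_
    have e1 : ∀ c ∈ Icc 1 N.factorial,
        |∑ q ∈ range ((v - u + N.factorial - c) / N.factorial),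
          phi a N z (d * (u + (N.factorial * q + c)) - h) *
            phi a N z (d' * (u + (N.factorial * q + c)) - h')| ≤
        Λ ^ 2 * (C1 * Br * (((v - u + N.factorial - c) / N.factorial : ℕ) : ℝ) + C1 * R) := by
      intro c hc
      rw [mem_Icc] at hc
      set L := (v - u + N.factorial - c) / N.factorial with hL
      rcases Nat.eq_zero_or_pos L with hL0 | hL0
      · rw [hL0]
        simp only [range_zero, sum_empty, abs_zero, Nat.cast_zero, mul_zero, zero_add]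
        positivity
      have hcu : c ≤ v - u := by
        have h2 : 1 * N.factorial ≤ v - u + N.factorial - c := (Nat.le_div_iff_mul_le hW).1 hL0
        omega
      obtain ⟨hh, hh'⟩ := hpos (u + c) (by rw [mem_Ioc]; omega)
      have hn : ∀ (d h q : ℕ), h < d * (u + c) →
          d * (u + (N.factorial * q + c)) - h = N.factorial * (d * q) + (d * (u + c) - h) := by
        intro d h q hlt
        have e2 : d * (u + (N.factorial * q + c)) = N.factorial * (d * q) + d * (u + c) := by ring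
        rw [e2]
        omega
      have hnL : ∀ (d h q : ℕ), h < d * (u + c) →
          nuA a N z (d * (u + (N.factorial * q + c)) - h) =
            nuL N z (fm a ((d : ℤ) * N.factorial) ((d : ℤ) * (u + c) - h - d * N.factorial)) (q + 1) := by
        intro d h q hlt
        refine nuA_eq_nuL a ha N z _ _ _ _ ?_
        rw [hn d h q hlt]
        have e2 : ((d * (u + c) - h : ℕ) : ℤ) = (d : ℤ) * (u + c) - h := by
          rw [Nat.cast_sub hlt.le]
          push_cast
          ring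
        push_cast
        rw [e2]
        ring
      have e2 : ∑ q ∈ range L, phi a N z (d * (u + (N.factorial * q + c)) - h) *
            phi a N z (d' * (u + (N.factorial * q + c)) - h') =
          (nuA a 0 N (d * (u + c) - h) * nuA a 0 N (d' * (u + c) - h')) *
            ∑ m ∈ Ioc 0 (0 + L),
              (nuL N z (fm a ((d : ℤ) * N.factorial) ((d : ℤ) * (u + c) - h - d * N.factorial)) m - 1) *
              (nuL N z (fm a ((d' : ℤ) * N.factorial) ((d' : ℤ) * (u + c) - h' - d' * N.factorial)) m - 1) := by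
        rw [mul_sum]
        refine sum_nbij' (fun q => q + 1) (fun m => m - 1) ?_ ?_ ?_ ?_ ?_
        · intro q hq
          rw [mem_range] at hq
          rw [mem_Ioc]
          omega
        · intro m hm
          rw [mem_Ioc] at hm
          rw [mem_range]
          omega
        · intro q _
          omega
        · intro m hm
          rw [mem_Ioc] at hm
          omega
        · intro q _
          unfold phi
          rw [hnL d h q hh, hnL d' h' q hh', hn d h q hh, hn d' h' q hh', nuA_periodic, nuA_periodic]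
          ring
      rw [e2, abs_mul]
      have hD : ∀ d : ℕ, ∀ p ∈ PP N z, (p : ℤ) ∣ (d : ℤ) * N.factorial → (p : ℤ) ∣ d := by
        intro d p hpp hdvd
        rcases (hprime p hpp).dvd_or_dvd hdvd with h2 | h2
        · exact h2
        · exact absurd h2 (hWp p hpp)
      have he : ∀ d h : ℕ, ∀ p ∈ PP N z, (p : ℤ) ∣ d →
          (p : ℤ) ∣ ((d : ℤ) * (u + c) - h - d * N.factorial) + h := by
        intro d h p _ hdvd
        have e3 : ((d : ℤ) * (u + c) - h - d * N.factorial) + h = d * ((u : ℤ) + c - N.factorial) := by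
          ring
        rw [e3]
        exact hdvd.mul_right _
      have hdet : ∀ i j, ((d : ℤ) * N.factorial) * ((a j : ℤ) + ((d' : ℤ) * (u + c) - h' - d' * N.factorial)) -
          ((d' : ℤ) * N.factorial) * ((a i : ℤ) + ((d : ℤ) * (u + c) - h - d * N.factorial)) =
          del d h (a i) d' h' (a j) * N.factorial := by
        intro i j
        unfold del
        ring
      have e3 := h1 N z (by omega) ((d : ℤ) * N.factorial) ((d : ℤ) * (u + c) - h - d * N.factorial)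
        ((d' : ℤ) * N.factorial) ((d' : ℤ) * (u + c) - h' - d' * N.factorial)
        (primN_of a N z d h hp _ _ (hD d) (he d h)) (primN_of a N z d' h' hp' _ _ (hD d') (he d' h'))
        (fun i j => by
          rw [hdet i j]
          exact mul_ne_zero (hdel i j) (by exact_mod_cast hW.ne')) b hb 0 L
      simp only [hdet, gg_mul_eq C1 N z _ _ hWp] at e3
      have e4 : |nuA a 0 N (d * (u + c) - h) * nuA a 0 N (d' * (u + c) - h')| ≤ Λ ^ 2 := by
        rw [abs_mul, abs_of_nonneg (nuA_nonneg a 0 N _), abs_of_nonneg (nuA_nonneg a 0 N _), sq]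
        exact mul_le_mul (nuA_le a 0 N _) (nuA_le a 0 N _) (nuA_nonneg a 0 N _) hΛ0
      exact mul_le_mul e4 e3 (abs_nonneg _) (by positivity)
    refine (sum_le_sum e1).trans ?_
    rw [← mul_sum, sum_add_distrib, ← mul_sum, sum_card_classes _ _ hW, sum_const,
      Nat.card_Icc, nsmul_eq_mul, Nat.add_sub_cancel]
  refine hsum.trans ?_
  have hMr : (0 : ℝ) ≤ M := Nat.cast_nonneg _
  have e5 : ((v - u : ℕ) : ℝ) ≤ M := by
    have : v - u ≤ M := by omega
    exact_mod_cast this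
  have e6 : (N.factorial : ℝ) * (C1 * R) ≤ C1 * (M / N) := by
    calc (N.factorial : ℝ) * (C1 * R) = C1 * (N.factorial * R) := by ring
      _ ≤ C1 * (M / N) := mul_le_mul_of_nonneg_left hrem hC1
  have e7 : (M : ℝ) / N ≤ Br * M := by
    have : (M : ℝ) / N = 1 / N * M := by ring
    rw [this]
    refine mul_le_mul_of_nonneg_right ?_ hMr
    rw [hBr]
    have h8 : (0 : ℝ) ≤ (1 / 4) ^ b := by positivity
    linarith
  have e8 : C1 * Br * ((v - u : ℕ) : ℝ) ≤ C1 * Br * M :=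
    mul_le_mul_of_nonneg_left e5 (by positivity)
  have e9 : C1 * ((M : ℝ) / N) ≤ C1 * (Br * M) := mul_le_mul_of_nonneg_left e7 hC1
  have hC2 : C1 ≤ 2 * C1 := by linarith
  set Br' := 1 / (N : ℝ) + (1 / 4) ^ b + gg (2 * C1) N z d + gg (2 * C1) N z d' +
    ∑ i, ∑ j, gg (2 * C1) N z (del d h (a i) d' h' (a j)) with hBr'
  have e10 : Br ≤ Br' := by
    have g1 := gg_mono hC1 hC2 N z d
    have g2 := gg_mono hC1 hC2 N z d'
    have g3 : G ≤ ∑ i, ∑ j, gg (2 * C1) N z (del d h (a i) d' h' (a j)) :=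
      sum_le_sum fun i _ => sum_le_sum fun j _ => gg_mono hC1 hC2 N z _
    rw [hBr, hBr']
    linarith
  have e11 : (VV 0 N)⁻¹ ^ (2 * k) = Λ ^ 2 := by
    rw [hΛ, ← pow_mul, mul_comm]
  rw [e11, mul_assoc (Λ ^ 2)]
  refine mul_le_mul_of_nonneg_left ?_ (by positivity)
  calc C1 * Br * ((v - u : ℕ) : ℝ) + N.factorial * (C1 * R) ≤ C1 * Br * M + C1 * (Br * M) := by
        linarith
    _ = 2 * C1 * Br * M := by ring
    _ ≤ 2 * C1 * Br' * M := by gcongr

end Pool.Agent.Helper8.BC
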