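import Pool.Agent.Helper8.BC.Final
import Pool.Agent.Helper8.DW.Rank

/-!
# BC-14: products `e = d p` with coefficients

MODEL: `Pool/Agent/Helper8/DW/Rank.lean` (theorems `set_bound`, `pairs_bound`; `DW.rk`, `DW.Ei`, `DW.card_rank` can be used, the private lemma `rk_inj` must be copied).
`set_boundc`: `C` = the constant of `Helper83.HLC.sum_GG`. `final` with `ε`, `N1` gives `N, K0, H0, X0`; put `K = K0 * max 1 (2 C/ε)`. If `K0 (log X)^k ≤ |E| H`: `final`, `|E| ≤ Nn`.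
Otherwise `|E| H < K0 (log X)^k ≤ (ε/(2 C)) Nn H` (from `K (log X)^k ≤ Nn H`), so `|E| ≤ (ε/(2 C)) Nn` and the sum is at most `C X |E| 2 H/D ≤ ε (Nn/D) H X` (`Tc_le`).
`pairs_boundc`: as `pairs_bound`. `I ≥ 8 C/ε`, `set_boundc` with `ε/(4 I)`. The pairs `(d, p) ∈ A ×ˢ S` of rank `i < I`: `(d, p) ↦ d p` is injective on them, with image `Ei A S i`; define
`c_i e h = c d h` if `e = d p` with such a pair (choose it; it is unique), and `0` otherwise; then `Tc b c y H n d (d * p) = Tc b c_i y H n (d p) (d p)`. Apply `set_boundc` to `Ei A S i ∩ [B D, 2 B D)` and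
`Ei A S i ∩ [2 B D, 4 B D)` with `Nn = D |S|`, coefficient `c_i`. The condition on `e = d p`: the prime factors of `d p` are those of `d` and `p`, so `sg N (d p) ≤ sg N d + 1/p ≤ 2/√N` (`√N ≤ p`).
The pairs of rank `≥ I`: at most `2 D |S|/I` (`card_rank`), each `Tc ≤ 2 H/(B D)` (`Tc_le`).
-/

set_option autoImplicit false

namespace Pool.Agent.Helper8.BC

open Finset Pool.Agent.Helper83.HLC
open Pool.Agent.Helper8.DW (vv mul Per)

private theorem dvd_swapc {S : Finset ℕ} (hS : ∀ p ∈ S, p.Prime) {x y : ℕ × ℕ} (hy : y.2 ∈ S)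
    (h : x.1 * x.2 = y.1 * y.2) {p : ℕ} (hp : p ∈ S) (hpy : p < y.2) (hd : p ∣ x.1 * x.2) : p ∣ y.1 := by
  rw [h] at hd
  rcases (hS p hp).dvd_mul.1 hd with h1 | h1
  · exact h1
  · have := (Nat.prime_dvd_prime_iff_eq (hS p hp) (hS _ hy)).1 h1
    omega

private theorem rk_ltc {S : Finset ℕ} (hS : ∀ p ∈ S, p.Prime) {x y : ℕ × ℕ} (hx : x.2 ∈ S) (hy : y.2 ∈ S)
    (h : x.1 * x.2 = y.1 * y.2) (hlt : x.2 < y.2) : DW.rk S x < DW.rk S y := by
  unfold DW.rk
  refine Finset.card_lt_card ⟨?_, ?_⟩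
  · intro p hp
    rw [Finset.mem_filter] at hp ⊢
    refine ⟨hp.1, ?_, hp.2.2.trans hlt⟩
    exact dvd_swapc hS hy h hp.1 (hp.2.2.trans hlt) (hp.2.1.mul_right _)
  · intro hsub
    have h1 : x.2 ∈ S.filter (fun p' => p' ∣ y.1 ∧ p' < y.2) := by
      rw [Finset.mem_filter]
      exact ⟨hx, dvd_swapc hS hy h hx hlt (Dvd.intro_left _ rfl), hlt⟩
    have h2 := (Finset.mem_filter.1 (hsub h1)).2.2
    omega

private theorem rk_injc {S : Finset ℕ} (hS : ∀ p ∈ S, p.Prime) {x y : ℕ × ℕ} (hx : x.2 ∈ S) (hy : y.2 ∈ S)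
    (h : x.1 * x.2 = y.1 * y.2) (hr : DW.rk S x = DW.rk S y) : x = y := by
  rcases lt_trichotomy x.2 y.2 with h1 | h1 | h1
  · have := rk_ltc hS hx hy h h1
    omega
  · rw [h1] at h
    exact Prod.ext (Nat.eq_of_mul_eq_mul_right (hS _ hy).pos h) h1
  · have := rk_ltc hS hy hx h.symm h1
    omega

private theorem split_rankc (A S : Finset ℕ) (I : ℕ) (F : ℕ × ℕ → ℝ) :
    ∑ x ∈ A ×ˢ S, F x = ∑ i ∈ range I, ∑ x ∈ (A ×ˢ S).filter (fun x => DW.rk S x = i), F x +
      ∑ x ∈ (A ×ˢ S).filter (fun x => I ≤ DW.rk S x), F x := by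
  have h1 : ∀ i ∈ range I, ∑ x ∈ (A ×ˢ S).filter (fun x => DW.rk S x = i), F x =
      ∑ x ∈ ((A ×ˢ S).filter (fun x => DW.rk S x < I)).filter (fun x => DW.rk S x = i), F x := by
    intro i hi
    rw [Finset.mem_range] at hi
    rw [Finset.filter_filter]
    refine Finset.sum_congr (Finset.filter_congr fun x _ => ?_) fun _ _ => rfl
    constructor
    · intro h
      exact ⟨by omega, h⟩
    · intro h
      exact h.2
  rw [Finset.sum_congr rfl h1, Finset.sum_fiberwise_of_maps_to (g := DW.rk S)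
    (fun x hx => Finset.mem_range.2 (Finset.mem_filter.1 hx).2),
    ← Finset.sum_filter_add_sum_filter_not (A ×ˢ S) (fun x => DW.rk S x < I)]
  congr 1
  exact Finset.sum_congr (Finset.filter_congr fun x _ => not_lt) fun _ _ => rfl

/-- The first component of a pair of rank `i` with product `e`. -/
private noncomputable def pick (A S : Finset ℕ) (i e : ℕ) : ℕ :=
  open Classical in if h : ∃ x ∈ (A ×ˢ S).filter (fun x => DW.rk S x = i), x.1 * x.2 = e then h.choose.1 else 0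

private theorem pick_eq (A S : Finset ℕ) (hS : ∀ p ∈ S, p.Prime) (i : ℕ) (x : ℕ × ℕ)
    (hx : x ∈ (A ×ˢ S).filter (fun x => DW.rk S x = i)) : pick A S i (x.1 * x.2) = x.1 := by
  have h : ∃ y ∈ (A ×ˢ S).filter (fun y => DW.rk S y = i), y.1 * y.2 = x.1 * x.2 := ⟨x, hx, rfl⟩
  unfold pick
  rw [dif_pos h]
  have h1 := h.choose_spec
  have h2 := Finset.mem_filter.1 h1.1
  have h3 := Finset.mem_filter.1 hx
  rw [rk_injc hS (Finset.mem_product.1 h2.1).2 (Finset.mem_product.1 h3.1).2 h1.2 (h2.2.trans h3.2.symm)]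

private theorem sum_Eic (A S : Finset ℕ) (hS : ∀ p ∈ S, p.Prime) (i : ℕ) (b : ℕ → ℝ) (c : ℕ → ℕ → ℝ) (y H n : ℕ) :
    ∑ x ∈ (A ×ˢ S).filter (fun x => DW.rk S x = i), Tc b c y H n x.1 (x.1 * x.2) =
      ∑ e ∈ DW.Ei A S i, Tc b (fun e h => c (pick A S i e) h) y H n e e := by
  unfold DW.Ei
  rw [Finset.sum_image]
  · refine Finset.sum_congr rfl fun x hx => ?_
    unfold Tc
    simp only [pick_eq A S hS i x hx]
  · intro x hx y hy h
    have hx' := Finset.mem_filter.1 hx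
    have hy' := Finset.mem_filter.1 hy
    exact rk_injc hS (Finset.mem_product.1 hx'.1).2 (Finset.mem_product.1 hy'.1).2 h (hx'.2.trans hy'.2.symm)

private theorem sg_mul_le (N d p : ℕ) (hd : d ≠ 0) (hp : p.Prime) : sg N (d * p) ≤ sg N d + 1 / p := by
  unfold sg
  rw [Nat.primeFactors_mul hd hp.ne_zero, hp.primeFactors, Finset.filter_union]
  have h1 := Finset.sum_union_inter (s₁ := d.primeFactors.filter (fun p => N < p))
    (s₂ := ({p} : Finset ℕ).filter (fun p => N < p)) (f := fun p : ℕ => (1 : ℝ) / p)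
  have h2 : 0 ≤ ∑ x ∈ d.primeFactors.filter (fun p => N < p) ∩ ({p} : Finset ℕ).filter (fun p => N < p), (1 : ℝ) / x :=
    Finset.sum_nonneg fun _ _ => by positivity
  have h3 : ∑ x ∈ ({p} : Finset ℕ).filter (fun p => N < p), (1 : ℝ) / x ≤ 1 / p := by
    calc ∑ x ∈ ({p} : Finset ℕ).filter (fun p => N < p), (1 : ℝ) / x ≤ ∑ x ∈ ({p} : Finset ℕ), (1 : ℝ) / x :=
          Finset.sum_le_sum_of_subset_of_nonneg (Finset.filter_subset _ _) fun _ _ _ => by positivity
      _ = 1 / p := Finset.sum_singleton _ _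
  linarith

theorem set_boundc {k : ℕ} (a : Fin k → ℕ) (ha : Function.Injective a) {q : ℕ} {b : ℕ → ℝ} (hb : Per q b) (N1 : ℕ) (ε : ℝ)
    (hε : 0 < ε) : ∃ N : ℕ, N1 ≤ N ∧ ∃ K : ℝ, 0 < K ∧ ∃ H0 X0 : ℕ, ∀ X : ℕ, X0 ≤ X → ∀ D H y : ℕ, 1 ≤ D → D ^ 2 ≤ X →
      H0 * D ≤ H → D ≤ H → H ≤ X → y ≤ X → ∀ E ⊆ Ico D (2 * D), (∀ d ∈ E, sg N d ≤ 2 / √N) →
        ∀ Nn : ℝ, (E.card : ℝ) ≤ Nn → K * Real.log X ^ k ≤ Nn * H → ∀ c : ℕ → ℕ → ℝ, (∀ d h, |c d h| ≤ 1) →
          ∑ n ∈ Icc 1 X, GG a n * ∑ d ∈ E, Tc b c y H n d d ≤ ε * (Nn / D) * H * X := by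
  obtain ⟨C, hC, X1, hGG⟩ := sum_GG a ha
  obtain ⟨N, hN1, K0, hK0, H0, X2, hF⟩ := final a ha hb N1 ε hε
  refine ⟨N, hN1, K0 * max 1 (2 * C / ε), by positivity, H0, max X1 X2,
    fun X hX D H y hD hDX hHD hDH hHX hyX E hE hφ Nn hN hlog c hc => ?_⟩
  have hD0 : (0 : ℝ) < D := by exact_mod_cast hD
  have hN0 : 0 ≤ Nn := (Nat.cast_nonneg _).trans hN
  have hsum := hGG X ((le_max_left _ _).trans hX)
  have hlog0 : 0 ≤ Real.log X ^ k := pow_nonneg (Real.log_natCast_nonneg _) _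
  by_cases hrich : K0 * Real.log X ^ k ≤ (E.card : ℝ) * H
  · have h1 := hF X ((le_max_right _ _).trans hX) D H y hD hDX hHD hDH hHX hyX E hE hφ hrich c hc
    refine h1.trans ?_
    have h2 : (E.card : ℝ) / D ≤ Nn / D := div_le_div_of_nonneg_right hN hD0.le
    exact mul_le_mul_of_nonneg_right (mul_le_mul_of_nonneg_right (mul_le_mul_of_nonneg_left h2 hε.le)
      (Nat.cast_nonneg _)) (Nat.cast_nonneg _)
  · rw [not_le] at hrich
    have hHR : (0 : ℝ) < H := by
      have : 0 < H := lt_of_lt_of_le hD hDH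
      exact_mod_cast this
    have h0 : K0 * (2 * C / ε) * Real.log X ^ k ≤ Nn * H :=
      (mul_le_mul_of_nonneg_right (mul_le_mul_of_nonneg_left (le_max_right _ _) hK0.le) hlog0).trans hlog
    have h0' : K0 * Real.log X ^ k ≤ ε / (2 * C) * (Nn * H) := by
      calc K0 * Real.log X ^ k = ε / (2 * C) * (K0 * (2 * C / ε) * Real.log X ^ k) := by
            field_simp
        _ ≤ _ := mul_le_mul_of_nonneg_left h0 (by positivity)
    have h1 : (E.card : ℝ) ≤ ε / (2 * C) * Nn := by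
      have h2 : (E.card : ℝ) * H ≤ (ε / (2 * C) * Nn) * H := by
        calc (E.card : ℝ) * H ≤ K0 * Real.log X ^ k := hrich.le
          _ ≤ ε / (2 * C) * (Nn * H) := h0'
          _ = _ := by ring
      exact le_of_mul_le_mul_right h2 hHR
    have hT : ∀ n ∈ Icc 1 X, GG a n * ∑ d ∈ E, Tc b c y H n d d ≤ GG a n * ((E.card : ℝ) * (2 * H / D)) := by
      intro n _
      refine mul_le_mul_of_nonneg_left ?_ (GG_nonneg a n)
      calc ∑ d ∈ E, Tc b c y H n d d ≤ ∑ _d ∈ E, 2 * (H : ℝ) / D :=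
            Finset.sum_le_sum fun d hd => Tc_le hb c hc y H n d d D hD (Finset.mem_Ico.1 (hE hd)).1 hDH
        _ = _ := by rw [Finset.sum_const, nsmul_eq_mul]
    calc ∑ n ∈ Icc 1 X, GG a n * ∑ d ∈ E, Tc b c y H n d d
        ≤ ∑ n ∈ Icc 1 X, GG a n * ((E.card : ℝ) * (2 * H / D)) := Finset.sum_le_sum hT
      _ = (∑ n ∈ Icc 1 X, GG a n) * ((E.card : ℝ) * (2 * H / D)) := by rw [Finset.sum_mul]
      _ ≤ (C * X) * ((ε / (2 * C) * Nn) * (2 * H / D)) :=
          mul_le_mul hsum (mul_le_mul_of_nonneg_right h1 (by positivity)) (by positivity) (by positivity)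
      _ = ε * (Nn / D) * H * X := by
          field_simp

theorem pairs_boundc {k : ℕ} (a : Fin k → ℕ) (ha : Function.Injective a) {q : ℕ} {b : ℕ → ℝ} (hb : Per q b) (N1 : ℕ) (ε : ℝ)
    (hε : 0 < ε) : ∃ N : ℕ, N1 ≤ N ∧ ∃ K : ℝ, 0 < K ∧ ∃ H0 X0 : ℕ, ∀ X : ℕ, X0 ≤ X → ∀ D B H y : ℕ, 1 ≤ D → 1 ≤ B →
      (2 * (B * D)) ^ 2 ≤ X → H0 * (2 * (B * D)) ≤ H → 2 * (B * D) ≤ H → H ≤ X → y ≤ X →
        ∀ A ⊆ Ico D (2 * D), (∀ d ∈ A, sg N d ≤ 1 / √N) →
          ∀ S ⊆ Ico B (2 * B), (∀ p ∈ S, p.Prime) → (∀ p ∈ S, √N ≤ p) → K * Real.log X ^ k ≤ D * S.card * H →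
            ∀ c : ℕ → ℕ → ℝ, (∀ d h, |c d h| ≤ 1) →
              ∑ n ∈ Icc 1 X, GG a n * ∑ d ∈ A, ∑ p ∈ S, Tc b c y H n d (d * p) ≤ ε * (S.card / B) * H * X := by
  obtain ⟨C, hC, X1, hGG⟩ := sum_GG a ha
  obtain ⟨I, hI⟩ := exists_nat_ge (8 * C / ε)
  have hI0 : (0 : ℝ) < I := lt_of_lt_of_le (by positivity) hI
  obtain ⟨N, hN1, K, hK, H0, X2, hF⟩ := set_boundc a ha hb (max N1 1) (ε / (4 * I)) (by positivity)
  have hN1' : 1 ≤ N := (le_max_right _ _).trans hN1
  have hsN : 0 < √(N : ℝ) := Real.sqrt_pos.2 (by exact_mod_cast hN1')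
  refine ⟨N, (le_max_left _ _).trans hN1, K, hK, H0, max X1 X2,
    fun X hX D B H y hD hB hDX hHD hDH hHX hyX A hA hφ S hS hSp hSN hlog c hc => ?_⟩
  have hD0 : (0 : ℝ) < D := by exact_mod_cast hD
  have hB0 : (0 : ℝ) < B := by exact_mod_cast hB
  have hBD : 1 ≤ B * D := Nat.mul_pos hB hD
  have hsum := hGG X ((le_max_left _ _).trans hX)
  have hAcard : (A.card : ℝ) ≤ D := by
    have h1 := Finset.card_le_card hA
    rw [Nat.card_Ico] at h1
    have h2 : A.card ≤ D := by omega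
    exact_mod_cast h2
  -- the sets `Ei`
  have hEmem : ∀ i, ∀ e ∈ DW.Ei A S i, B * D ≤ e ∧ e < 2 * (2 * (B * D)) ∧ sg N e ≤ 2 / √N := by
    intro i e he
    unfold DW.Ei at he
    rw [Finset.mem_image] at he
    obtain ⟨x, hx, rfl⟩ := he
    have hx1 := Finset.mem_product.1 (Finset.mem_filter.1 hx).1
    have h1 := Finset.mem_Ico.1 (hA hx1.1)
    have h2 := Finset.mem_Ico.1 (hS hx1.2)
    have hp := hSp _ hx1.2
    refine ⟨?_, ?_, ?_⟩
    · rw [mul_comm B D]
      exact Nat.mul_le_mul h1.1 h2.1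
    · calc x.1 * x.2 < (2 * D) * (2 * B) := Nat.mul_lt_mul'' h1.2 h2.2
        _ = _ := by ring
    · have h3 := sg_mul_le N x.1 x.2 (by omega) hp
      have h4 := hφ _ hx1.1
      have h5 : (1 : ℝ) / x.2 ≤ 1 / √N := one_div_le_one_div_of_le hsN (hSN _ hx1.2)
      calc sg N (x.1 * x.2) ≤ 1 / √N + 1 / √N := by linarith
        _ = 2 / √N := by ring
  have hEcard : ∀ i, ((DW.Ei A S i).card : ℝ) ≤ D * S.card := by
    intro i
    have h1 : (DW.Ei A S i).card ≤ A.card * S.card := by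
      unfold DW.Ei
      refine Finset.card_image_le.trans ((Finset.card_filter_le _ _).trans (le_of_eq ?_))
      rw [Finset.card_product]
    calc ((DW.Ei A S i).card : ℝ) ≤ (A.card : ℝ) * S.card := by exact_mod_cast h1
      _ ≤ D * S.card := mul_le_mul_of_nonneg_right hAcard (Nat.cast_nonneg _)
  have hE : ∀ i, ∑ n ∈ Icc 1 X, GG a n * ∑ e ∈ DW.Ei A S i, Tc b (fun e h => c (pick A S i e) h) y H n e e ≤
      ε / (2 * I) * (S.card / B) * H * X := by
    intro i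
    have hc' : ∀ d h, |(fun e h => c (pick A S i e) h) d h| ≤ 1 := fun d h => hc _ _
    have h1 := hF X ((le_max_right _ _).trans hX) (B * D) H y hBD
      (le_trans (Nat.pow_le_pow_left (by omega) 2) hDX) (le_trans (Nat.mul_le_mul_left _ (by omega)) hHD)
      (by omega) hHX hyX ((DW.Ei A S i).filter (fun e => e < 2 * (B * D)))
      (fun e he => by
        rw [Finset.mem_filter] at he
        exact Finset.mem_Ico.2 ⟨(hEmem i e he.1).1, he.2⟩)
      (fun e he => (hEmem i e (Finset.mem_filter.1 he).1).2.2) (D * S.card)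
      (le_trans (by exact_mod_cast Finset.card_filter_le _ _) (hEcard i)) hlog _ hc'
    have h2 := hF X ((le_max_right _ _).trans hX) (2 * (B * D)) H y (by omega) hDX hHD hDH hHX hyX
      ((DW.Ei A S i).filter (fun e => ¬ e < 2 * (B * D)))
      (fun e he => by
        rw [Finset.mem_filter, not_lt] at he
        exact Finset.mem_Ico.2 ⟨he.2, (hEmem i e he.1).2.1⟩)
      (fun e he => (hEmem i e (Finset.mem_filter.1 he).1).2.2) (D * S.card)
      (le_trans (by exact_mod_cast Finset.card_filter_le _ _) (hEcard i)) hlog _ hc'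
    have h3 : ∑ n ∈ Icc 1 X, GG a n * ∑ e ∈ DW.Ei A S i, Tc b (fun e h => c (pick A S i e) h) y H n e e =
        ∑ n ∈ Icc 1 X, GG a n * ∑ e ∈ (DW.Ei A S i).filter (fun e => e < 2 * (B * D)),
            Tc b (fun e h => c (pick A S i e) h) y H n e e +
          ∑ n ∈ Icc 1 X, GG a n * ∑ e ∈ (DW.Ei A S i).filter (fun e => ¬ e < 2 * (B * D)),
            Tc b (fun e h => c (pick A S i e) h) y H n e e := by
      rw [← Finset.sum_add_distrib]
      refine Finset.sum_congr rfl fun n _ => ?_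
      rw [← mul_add, Finset.sum_filter_add_sum_filter_not]
    rw [h3]
    have h4 : (D : ℝ) * S.card / ((B * D : ℕ) : ℝ) = S.card / B := by
      push_cast
      field_simp
    have h5 : (D : ℝ) * S.card / ((2 * (B * D) : ℕ) : ℝ) ≤ S.card / B := by
      rw [← h4]
      refine div_le_div_of_nonneg_left (by positivity) (by exact_mod_cast hBD) ?_
      push_cast
      have h6 : (0 : ℝ) ≤ B * D := by positivity
      linarith
    rw [h4] at h1
    have h7 : ε / (4 * I) * (D * S.card / ((2 * (B * D) : ℕ) : ℝ)) * H * X ≤ ε / (4 * I) * (S.card / B) * H * X :=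
      mul_le_mul_of_nonneg_right (mul_le_mul_of_nonneg_right (mul_le_mul_of_nonneg_left h5 (by positivity))
        (Nat.cast_nonneg _)) (Nat.cast_nonneg _)
    calc _ ≤ ε / (4 * I) * (S.card / B) * H * X + ε / (4 * I) * (S.card / B) * H * X :=
          add_le_add h1 (h2.trans h7)
      _ = ε / (2 * I) * (S.card / B) * H * X := by
          field_simp
          ring
  -- the pairs of large rank
  have hrank : ∑ n ∈ Icc 1 X, GG a n * ∑ x ∈ (A ×ˢ S).filter (fun x => I ≤ DW.rk S x), Tc b c y H n x.1 (x.1 * x.2) ≤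
      ε / 2 * (S.card / B) * H * X := by
    have hcr := DW.card_rank A S D B I hD hB hA hS
    have hT : ∀ n ∈ Icc 1 X, GG a n * ∑ x ∈ (A ×ˢ S).filter (fun x => I ≤ DW.rk S x), Tc b c y H n x.1 (x.1 * x.2) ≤
        GG a n * (((((A ×ˢ S).filter (fun x => I ≤ DW.rk S x)).card : ℕ) : ℝ) * (2 * H / ((B * D : ℕ) : ℝ))) := by
      intro n _
      refine mul_le_mul_of_nonneg_left ?_ (GG_nonneg a n)
      calc ∑ x ∈ (A ×ˢ S).filter (fun x => I ≤ DW.rk S x), Tc b c y H n x.1 (x.1 * x.2)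
          ≤ ∑ _x ∈ (A ×ˢ S).filter (fun x => I ≤ DW.rk S x), 2 * (H : ℝ) / ((B * D : ℕ) : ℝ) := by
            refine Finset.sum_le_sum fun x hx => Tc_le hb c hc y H n _ _ (B * D) hBD ?_ (by omega)
            have hx1 := Finset.mem_product.1 (Finset.mem_filter.1 hx).1
            rw [mul_comm B D]
            exact Nat.mul_le_mul (Finset.mem_Ico.1 (hA hx1.1)).1 (Finset.mem_Ico.1 (hS hx1.2)).1
        _ = _ := by rw [Finset.sum_const, nsmul_eq_mul]
    have hc2 : ((((A ×ˢ S).filter (fun x => I ≤ DW.rk S x)).card : ℕ) : ℝ) ≤ 2 * D * S.card / I := by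
      rw [le_div_iff₀ hI0]
      exact hcr
    calc _ ≤ ∑ n ∈ Icc 1 X, GG a n *
          (((((A ×ˢ S).filter (fun x => I ≤ DW.rk S x)).card : ℕ) : ℝ) * (2 * H / ((B * D : ℕ) : ℝ))) :=
          Finset.sum_le_sum hT
      _ = (∑ n ∈ Icc 1 X, GG a n) *
          (((((A ×ˢ S).filter (fun x => I ≤ DW.rk S x)).card : ℕ) : ℝ) * (2 * H / ((B * D : ℕ) : ℝ))) := by
          rw [Finset.sum_mul]
      _ ≤ (C * X) * ((2 * D * S.card / I) * (2 * H / ((B * D : ℕ) : ℝ))) :=
          mul_le_mul hsum (mul_le_mul_of_nonneg_right hc2 (by positivity)) (by positivity) (by positivity)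
      _ = (4 * C / I) * (S.card / B) * H * X := by
          push_cast
          field_simp
          ring
      _ ≤ ε / 2 * (S.card / B) * H * X := by
          have h8 : 4 * C / I ≤ ε / 2 := by
            rw [div_le_iff₀ hε] at hI
            rw [div_le_iff₀ hI0]
            linarith
          exact mul_le_mul_of_nonneg_right (mul_le_mul_of_nonneg_right (mul_le_mul_of_nonneg_right h8 (by positivity))
            (Nat.cast_nonneg _)) (Nat.cast_nonneg _)
  have hsplit : ∑ n ∈ Icc 1 X, GG a n * ∑ d ∈ A, ∑ p ∈ S, Tc b c y H n d (d * p) =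
      ∑ i ∈ range I, ∑ n ∈ Icc 1 X, GG a n * ∑ e ∈ DW.Ei A S i, Tc b (fun e h => c (pick A S i e) h) y H n e e +
        ∑ n ∈ Icc 1 X, GG a n * ∑ x ∈ (A ×ˢ S).filter (fun x => I ≤ DW.rk S x), Tc b c y H n x.1 (x.1 * x.2) := by
    rw [Finset.sum_comm, ← Finset.sum_add_distrib]
    refine Finset.sum_congr rfl fun n _ => ?_
    rw [← Finset.mul_sum, ← mul_add]
    congr 1
    rw [← Finset.sum_product', split_rankc A S I (fun x => Tc b c y H n x.1 (x.1 * x.2))]
    congr 1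
    exact Finset.sum_congr rfl fun i _ => sum_Eic A S hSp i b c y H n
  rw [hsplit]
  calc _ ≤ ∑ _i ∈ range I, ε / (2 * I) * (S.card / B) * H * X + ε / 2 * (S.card / B) * H * X :=
        add_le_add (Finset.sum_le_sum fun i _ => hE i) hrank
    _ = ε * (S.card / B) * H * X := by
        rw [Finset.sum_const, Finset.card_range, nsmul_eq_mul]
        field_simp
        ring

end Pool.Agent.Helper8.BC
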