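import Pool.Agent.Helper8.BC.PhiPair
import Pool.Agent.Helper8.BC.PhiOne
import Pool.Agent.Helper8.BC.PairSmall

/-!
# BC-08: small variance

MODEL for the bookkeeping: `Pool/Agent/Helper8/DW/Mom.lean` (theorem `second_moment`).
For `k = 0`: `nuA = 1`, `phi = 0`, everything is `0`. Let `k ≥ 1`, `Λ = (VV 0 N)⁻¹ ^ k ≤ (C0 log N) ^ k` (`Helper39.SP.VV_inv_le_log`), `b = Nat.log 2 N`, `(1/4)^b ≤ 4/N^2 ≤ 1/√N`.
* `gg C N z d ≤ exp (C sg N d) - 1 ≤ exp (2 C/√N) - 1 ≤ 4 C/√N ≤ 1` for `d ∈ S`, `N ≥ N0` (`1 + x ≤ exp x`; `exp x - 1 ≤ 2 x` for `x ≤ 1`; the primes in `DD N z d` are prime factors `> N` of `d`).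
* Expand the square: `∑_m (∑ γ ph)^2 ≤ ∑_((d,h),(d',h')) |∑_m ph a N z X d h m * ph a N z X d' h' m|`, over the pairs with `γ d h ≠ 0`, `γ d' h' ≠ 0`, so both primitive.
  The `m ∈ Icc 1 M` with `h < d m ≤ X + h`, `h' < d' m ≤ X + h'` are `Ioc (max (h/d) (h'/d')) (min M (min ((X+h)/d) ((X+h')/d')))`.
* DEGENERATE pairs: some `del d h (a i) d' h' (a j) = 0`, i.e. `d' (a i - h) = d (a j - h')`; as `gcd (d, a i - h) = 1 = gcd (d', a j - h')`: `d ∣ d'`, `d' ∣ d`, so `d = d'` and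
  `a i - h = a j - h'`: for given `(d, h)` at most `k ^ 2` pairs `(d', h')`. For each one `|∑_m| ≤ sup |phi| ∑_(h < d m) |phi (d m - h)| ≤ Λ V⁻¹ ^ k * Λ C (1 + gg d) M`
  (`Helper39.SP.abs_phi_le`, `phi_one`), `V⁻¹ ≤ C0 log X` (`V = VV N z`; `V = 1` if `z < 3 ≤ N`; `z ≤ X`). Total `≤ k^2 |S| H * 2 Λ^2 C (C0 log X)^k M ≤ Λ^2/√N * M (|S| H)^2`, if
  `K ≥ 2 √N k^2 C C0^k` (`(log X)^k ≤ |S| H/K`).
* THE OTHERS: `phi_pair` with `b`: `|∑_m| ≤ Λ^2 C M (1/N + (1/4)^b + gg d + gg d' + ∑_(i,j) gg (del ..)) ≤ Λ^2 C M ((2 + 8 C)/√N + ∑_(i,j) gg (del ..))`; here all `del ≠ 0`, so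
  `∑_(h, h')` of each `gg (del d h (a i) d' h' (a j))` is at most `(C'/√N + gg d) H^2 ≤ (C' + 4 C) H^2/√N` by `pair_small` (`Y = X`, `Q = N`, `u = a i`, `u' = a j ≤ X`;
  `N log X ≤ H^2` and `H1 ≤ H`: `H^2 ≥ D H ≥ |S| H ≥ K (log X)^k ≥ K log X`, take `K ≥ N + H1^2 + 1`).
-/

set_option autoImplicit false

namespace Pool.Agent.Helper8.BC

open Finset
open Pool.Agent.Helper40.DB (PP VV DD)
open Pool.Agent.Helper39.SP (nuA phi gg)

private lemma sec_gg0 {C : ℝ} (hC : 0 ≤ C) (N z : ℕ) (t : ℤ) : 0 ≤ gg C N z t := by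
  have h : (1 : ℝ) ≤ ∏ p ∈ DD N z t, (1 + C / (p : ℝ)) := by
    have h1 : ∏ p ∈ DD N z t, (1 : ℝ) ≤ ∏ p ∈ DD N z t, (1 + C / (p : ℝ)) := by
      refine Finset.prod_le_prod (fun _ _ => zero_le_one) fun p _ => ?_
      have : 0 ≤ C / (p : ℝ) := by positivity
      linarith
    simpa using h1
  unfold gg
  linarith

private lemma sec_gg_le {C : ℝ} (hC : 0 ≤ C) {N : ℕ} (z d : ℕ) (hd : 1 ≤ d)
    (h2 : C * (2 / √(N : ℝ)) ≤ 1) (hs : sg N d ≤ 2 / √(N : ℝ)) :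
    gg C N z d ≤ 4 * C / √(N : ℝ) := by
  have h1 : ∏ p ∈ DD N z (d : ℤ), (1 + C / (p : ℝ)) ≤ Real.exp (C * sg N d) := by
    calc ∏ p ∈ DD N z (d : ℤ), (1 + C / (p : ℝ))
        ≤ ∏ p ∈ DD N z (d : ℤ), Real.exp (C / (p : ℝ)) :=
          Finset.prod_le_prod (fun p _ => by positivity)
            (fun p _ => by linarith [Real.add_one_le_exp (C / (p : ℝ))])
      _ = Real.exp (∑ p ∈ DD N z (d : ℤ), C / (p : ℝ)) := (Real.exp_sum _ _).symm
      _ ≤ Real.exp (C * sg N d) := by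
        apply Real.exp_le_exp.2
        unfold sg
        rw [Finset.mul_sum]
        have hsub : DD N z (d : ℤ) ⊆ d.primeFactors.filter (fun p => N < p) := by
          intro p hp
          unfold DD PP at hp
          simp only [mem_filter, mem_Ioc] at hp
          rw [mem_filter, Nat.mem_primeFactors]
          exact ⟨⟨hp.1.2, Int.natCast_dvd_natCast.1 hp.2, by omega⟩, hp.1.1.1⟩
        refine (Finset.sum_le_sum_of_subset_of_nonneg hsub
          (fun p _ _ => by positivity)).trans (le_of_eq ?_)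
        refine Finset.sum_congr rfl fun p _ => by ring
  have h3 : C * sg N d ≤ C * (2 / √(N : ℝ)) := mul_le_mul_of_nonneg_left hs hC
  have h4 : 0 ≤ C * (2 / √(N : ℝ)) := by positivity
  have h5 : |C * (2 / √(N : ℝ))| ≤ 1 := by
    rw [abs_of_nonneg h4]
    exact h2
  have h6 := Real.abs_exp_sub_one_le h5
  rw [abs_of_nonneg h4] at h6
  have h7 := le_abs_self (Real.exp (C * (2 / √(N : ℝ))) - 1)
  have h8 : Real.exp (C * sg N d) ≤ Real.exp (C * (2 / √(N : ℝ))) := Real.exp_le_exp.2 h3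
  have h9 : 2 * (C * (2 / √(N : ℝ))) = 4 * C / √(N : ℝ) := by ring
  unfold gg
  linarith

private theorem sec_del_zero {d h u d' h' u' : ℕ} (hd : 1 ≤ d)
    (h1 : Int.gcd d ((u : ℤ) - h) = 1) (h2 : Int.gcd d' ((u' : ℤ) - h') = 1)
    (h0 : del d h u d' h' u' = 0) : d = d' ∧ h' + u = h + u' := by
  unfold del at h0
  have e1 : (d' : ℤ) * ((u : ℤ) - h) = d * ((u' : ℤ) - h') := by linarith
  have c1 : IsCoprime (d : ℤ) ((u : ℤ) - h) := Int.isCoprime_iff_gcd_eq_one.2 h1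
  have c2 : IsCoprime (d' : ℤ) ((u' : ℤ) - h') := Int.isCoprime_iff_gcd_eq_one.2 h2
  have d1 : (d : ℤ) ∣ d' := c1.dvd_of_dvd_mul_right ⟨_, e1⟩
  have d2 : (d' : ℤ) ∣ d := c2.dvd_of_dvd_mul_right ⟨_, e1.symm⟩
  have e2 : d = d' :=
    Nat.dvd_antisymm (Int.natCast_dvd_natCast.1 d1) (Int.natCast_dvd_natCast.1 d2)
  subst e2
  have e3 : (u : ℤ) - h = u' - h' := mul_left_cancel₀ (by omega : (d : ℤ) ≠ 0) e1
  exact ⟨rfl, by omega⟩

/-- The pairs of lines with a coincidence. -/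
private def secBad {k : ℕ} (a : Fin k → ℕ) (q q' : ℕ × ℕ) : Prop :=
  ∃ i j, del q.1 q.2 (a i) q'.1 q'.2 (a j) = 0

open Classical in
private theorem sec_card_bad {k : ℕ} (a : Fin k → ℕ) (P : Finset (ℕ × ℕ))
    (hP : ∀ q ∈ P, 1 ≤ q.1 ∧ prim a q.1 q.2) (q : ℕ × ℕ) (hq : q ∈ P) :
    (P.filter (fun q' => secBad a q q')).card ≤ k ^ 2 := by
  have h1 : P.filter (fun q' => secBad a q q') ⊆
      (univ : Finset (Fin k × Fin k)).image (fun t => (q.1, a t.2 + q.2 - a t.1)) := by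
    intro q' hq'
    rw [mem_filter] at hq'
    obtain ⟨h0, i, j, hij⟩ := hq'
    have h1 := hP q hq
    have h2 := hP q' h0
    obtain ⟨h3, h4⟩ := sec_del_zero h1.1 (h1.2 i) (h2.2 j) hij
    rw [mem_image]
    refine ⟨(i, j), mem_univ _, ?_⟩
    apply Prod.ext
    · exact h3
    · change a j + q.2 - a i = q'.2
      omega
  refine (card_le_card h1).trans (card_image_le.trans ?_)
  rw [card_univ, Fintype.card_prod, Fintype.card_fin, sq]

private theorem sec_corr_le {k : ℕ} (a : Fin k → ℕ) (N z X M d h d' h' : ℕ) (hd : 1 ≤ d)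
    (hd' : 1 ≤ d') (B : ℝ) (hB : 0 ≤ B)
    (H : ∀ u v : ℕ, u ≤ v → v ≤ M → (∀ m ∈ Ioc u v, h < d * m ∧ h' < d' * m) →
          |∑ m ∈ Ioc u v, phi a N z (d * m - h) * phi a N z (d' * m - h')| ≤ B) :
    |∑ m ∈ Icc 1 M, ph a N z X d h m * ph a N z X d' h' m| ≤ B := by
  have f1 : ∀ m, h / d < m ↔ h < d * m := fun m => by
    rw [Nat.div_lt_iff_lt_mul (by omega), mul_comm]
  have f2 : ∀ m, h' / d' < m ↔ h' < d' * m := fun m => by
    rw [Nat.div_lt_iff_lt_mul (by omega), mul_comm]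
  have f3 : ∀ m, m ≤ (X + h) / d ↔ d * m ≤ X + h := fun m => by
    rw [Nat.le_div_iff_mul_le (by omega), mul_comm]
  have f4 : ∀ m, m ≤ (X + h') / d' ↔ d' * m ≤ X + h' := fun m => by
    rw [Nat.le_div_iff_mul_le (by omega), mul_comm]
  obtain ⟨u, hu⟩ : ∃ u, u = max (h / d) (h' / d') := ⟨_, rfl⟩
  obtain ⟨v, hv⟩ : ∃ v, v = min M (min ((X + h) / d) ((X + h') / d')) := ⟨_, rfl⟩
  have e1 : ∑ m ∈ Icc 1 M, ph a N z X d h m * ph a N z X d' h' m =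
      ∑ m ∈ Ioc u v, phi a N z (d * m - h) * phi a N z (d' * m - h') := by
    have e2 : ∀ m, ph a N z X d h m * ph a N z X d' h' m =
        if (h < d * m ∧ d * m ≤ X + h) ∧ (h' < d' * m ∧ d' * m ≤ X + h') then
          phi a N z (d * m - h) * phi a N z (d' * m - h') else 0 := by
      intro m
      unfold ph
      by_cases c1 : h < d * m ∧ d * m ≤ X + h
      · by_cases c2 : h' < d' * m ∧ d' * m ≤ X + h'
        · rw [if_pos c1, if_pos c2, if_pos ⟨c1, c2⟩]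
        · rw [if_neg c2, mul_zero, if_neg (show ¬ ((h < d * m ∧ d * m ≤ X + h) ∧
            (h' < d' * m ∧ d' * m ≤ X + h')) from fun c => c2 c.2)]
      · rw [if_neg c1, zero_mul, if_neg (show ¬ ((h < d * m ∧ d * m ≤ X + h) ∧
            (h' < d' * m ∧ d' * m ≤ X + h')) from fun c => c1 c.1)]
    rw [Finset.sum_congr rfl (fun m _ => e2 m), ← Finset.sum_filter]
    refine Finset.sum_congr ?_ fun _ _ => rfl
    ext m
    simp only [mem_filter, mem_Icc, mem_Ioc]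
    constructor
    · rintro ⟨⟨h1, h2⟩, ⟨h3, h4⟩, h5, h6⟩
      rw [hu, hv]
      exact ⟨max_lt ((f1 m).2 h3) ((f2 m).2 h5), le_min h2 (le_min ((f3 m).2 h4) ((f4 m).2 h6))⟩
    · rintro ⟨h1, h2⟩
      rw [hu, max_lt_iff] at h1
      rw [hv, le_min_iff, le_min_iff] at h2
      exact ⟨⟨by omega, h2.1⟩, ⟨(f1 m).1 h1.1, (f3 m).1 h2.2.1⟩, (f2 m).1 h1.2,
        (f4 m).1 h2.2.2⟩
  rw [e1]
  by_cases huv : u ≤ v
  · refine H u v huv (by rw [hv]; exact min_le_left _ _) ?_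
    intro m hm
    rw [mem_Ioc, hu, max_lt_iff] at hm
    exact ⟨(f1 m).1 hm.1.1, (f2 m).1 hm.1.2⟩
  · rw [Ioc_eq_empty_of_le (by omega), sum_empty, abs_zero]
    exact hB

private theorem sec_corr_bad {k : ℕ} (a : Fin k → ℕ) (N z X M d h d' h' : ℕ) (B : ℝ)
    (H : ∑ m ∈ (Icc 1 M).filter (fun m => h < d * m), |phi a N z (d * m - h)| ≤ B) :
    |∑ m ∈ Icc 1 M, ph a N z X d h m * ph a N z X d' h' m| ≤
      (VV 0 N)⁻¹ ^ k * (VV N z)⁻¹ ^ k * B := by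
  have v1 := Pool.Agent.Helper40.DB.VV_pos 0 N
  have v2 := Pool.Agent.Helper40.DB.VV_pos N z
  have hL : 0 ≤ (VV 0 N)⁻¹ ^ k * (VV N z)⁻¹ ^ k := by positivity
  have h1 : ∀ m ∈ Icc 1 M, |ph a N z X d h m * ph a N z X d' h' m| ≤
      (VV 0 N)⁻¹ ^ k * (VV N z)⁻¹ ^ k *
        (if h < d * m then |phi a N z (d * m - h)| else 0) := by
    intro m _
    rw [abs_mul, mul_comm]
    have g1 : |ph a N z X d' h' m| ≤ (VV 0 N)⁻¹ ^ k * (VV N z)⁻¹ ^ k := by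
      unfold ph
      split_ifs
      · exact Pool.Agent.Helper39.SP.abs_phi_le a N z _
      · rw [abs_zero]
        exact hL
    have g2 : |ph a N z X d h m| ≤ (if h < d * m then |phi a N z (d * m - h)| else 0) := by
      unfold ph
      by_cases c1 : h < d * m
      · rw [if_pos c1]
        by_cases c2 : d * m ≤ X + h
        · rw [if_pos ⟨c1, c2⟩]
        · rw [if_neg (fun c => c2 c.2), abs_zero]
          exact abs_nonneg _
      · rw [if_neg c1, if_neg (fun c => c1 c.1), abs_zero]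
    exact mul_le_mul g1 g2 (abs_nonneg _) hL
  refine (abs_sum_le_sum_abs _ _).trans ((Finset.sum_le_sum h1).trans ?_)
  rw [← Finset.mul_sum, ← Finset.sum_filter]
  exact mul_le_mul_of_nonneg_left H hL

private theorem sec_zero (a : Fin 0 → ℕ) (N z X d h m : ℕ) : ph a N z X d h m = 0 := by
  unfold ph phi nuA
  simp

open Classical in
/-- The sum over all pairs, with the constants. -/
private theorem sec_sum {k : ℕ} (a : Fin k → ℕ) (N z X M y H D : ℕ) (S : Finset ℕ)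
    (_hD : 1 ≤ D) (hS : S ⊆ Ico D (2 * D))
    (γ : ℕ → ℕ → ℝ) (hγ : ∀ d h, |γ d h| ≤ 1)
    (hprim : ∀ d ∈ S, ∀ h, γ d h ≠ 0 → prim a d h) (G : Fin k → Fin k → ℕ × ℕ → ℕ × ℕ → ℝ)
    (hG : ∀ i j q q', 0 ≤ G i j q q') (B1 B2 B3 B4 : ℝ) (hB1 : 0 ≤ B1) (hB2 : 0 ≤ B2)
    (hB3 : 0 ≤ B3)
    (hT : ∀ q ∈ (S ×ˢ Ioc y (y + H)).filter (fun q => γ q.1 q.2 ≠ 0),
      ∀ q' ∈ (S ×ˢ Ioc y (y + H)).filter (fun q => γ q.1 q.2 ≠ 0),
      |∑ m ∈ Icc 1 M, ph a N z X q.1 q.2 m * ph a N z X q'.1 q'.2 m| ≤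
        (if secBad a q q' then B1 else 0) + B2 * (B3 + ∑ i, ∑ j, G i j q q'))
    (hpair : ∀ i j : Fin k, ∀ d ∈ S, ∀ d' ∈ S, ∑ h ∈ Ioc y (y + H), ∑ h' ∈ Ioc y (y + H),
      G i j (d, h) (d', h') ≤ B4) :
    ∑ m ∈ Icc 1 M, (∑ d ∈ S, ∑ h ∈ Ioc y (y + H), γ d h * ph a N z X d h m) ^ 2 ≤
      (S.card * H : ℝ) * ((k : ℝ) ^ 2 * B1) +
        B2 * (B3 * (S.card * H) ^ 2 + (k : ℝ) ^ 2 * ((S.card : ℝ) ^ 2 * B4)) := by
  set I := Ioc y (y + H) with hI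
  set P := S ×ˢ I with hP
  set P' := P.filter (fun q => γ q.1 q.2 ≠ 0) with hP'
  have hIc : (I.card : ℝ) = H := by
    rw [hI, Nat.card_Ioc, Nat.add_sub_cancel_left]
  have hPc : (P.card : ℝ) = S.card * H := by
    rw [hP, card_product]
    push_cast
    rw [hIc]
  have hPP : P' ⊆ P := filter_subset _ _
  have hPc' : (P'.card : ℝ) ≤ S.card * H := by
    rw [← hPc]
    exact_mod_cast card_le_card hPP
  have hsum : ∀ m, ∑ d ∈ S, ∑ h ∈ I, γ d h * ph a N z X d h m =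
      ∑ q ∈ P', γ q.1 q.2 * ph a N z X q.1 q.2 m := by
    intro m
    rw [hP', Finset.sum_filter_of_ne, hP, Finset.sum_product]
    intro q _ hq h0
    exact hq (by rw [h0, zero_mul])
  have hexp : ∑ m ∈ Icc 1 M, (∑ d ∈ S, ∑ h ∈ I, γ d h * ph a N z X d h m) ^ 2 ≤
      ∑ q ∈ P', ∑ q' ∈ P',
        |∑ m ∈ Icc 1 M, ph a N z X q.1 q.2 m * ph a N z X q'.1 q'.2 m| := by
    have e1 : ∀ m ∈ Icc 1 M, (∑ d ∈ S, ∑ h ∈ I, γ d h * ph a N z X d h m) ^ 2 =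
        ∑ q ∈ P', ∑ q' ∈ P', (γ q.1 q.2 * γ q'.1 q'.2) *
          (ph a N z X q.1 q.2 m * ph a N z X q'.1 q'.2 m) := by
      intro m _
      rw [hsum, sq, Finset.sum_mul_sum]
      exact Finset.sum_congr rfl fun q _ => Finset.sum_congr rfl fun q' _ => by ring
    rw [Finset.sum_congr rfl e1, Finset.sum_comm]
    refine Finset.sum_le_sum fun q _ => ?_
    rw [Finset.sum_comm]
    refine Finset.sum_le_sum fun q' _ => ?_
    rw [← Finset.mul_sum]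
    refine (le_abs_self _).trans ?_
    rw [abs_mul]
    refine mul_le_of_le_one_left (abs_nonneg _) ?_
    rw [abs_mul]
    exact mul_le_one₀ (hγ _ _) (abs_nonneg _) (hγ _ _)
  have hbadsum : ∑ q ∈ P', ∑ q' ∈ P', (if secBad a q q' then B1 else 0) ≤
      (S.card * H : ℝ) * ((k : ℝ) ^ 2 * B1) := by
    have h1 : ∑ q ∈ P', ∑ q' ∈ P', (if secBad a q q' then B1 else 0) ≤
        ∑ q ∈ P', (k : ℝ) ^ 2 * B1 := by
      refine Finset.sum_le_sum fun q hq => ?_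
      rw [← Finset.sum_filter, Finset.sum_const, nsmul_eq_mul]
      apply mul_le_mul_of_nonneg_right _ hB1
      have h2 : ∀ q ∈ P', 1 ≤ q.1 ∧ prim a q.1 q.2 := by
        intro q hq
        rw [hP', mem_filter, hP, mem_product] at hq
        have h3 := mem_Ico.1 (hS hq.1.1)
        exact ⟨by omega, hprim _ hq.1.1 _ hq.2⟩
      exact_mod_cast sec_card_bad a P' h2 q hq
    rw [Finset.sum_const, nsmul_eq_mul] at h1
    exact h1.trans (mul_le_mul_of_nonneg_right hPc' (by positivity))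
  have hGsum : ∑ q ∈ P', ∑ q' ∈ P', ∑ i, ∑ j, G i j q q' ≤
      (k : ℝ) ^ 2 * ((S.card : ℝ) ^ 2 * B4) := by
    have h1 : ∑ q ∈ P', ∑ q' ∈ P', ∑ i, ∑ j, G i j q q' ≤
        ∑ q ∈ P, ∑ q' ∈ P, ∑ i, ∑ j, G i j q q' := by
      have hnn : ∀ q q', 0 ≤ ∑ i, ∑ j, G i j q q' := fun q q' =>
        Finset.sum_nonneg fun i _ => Finset.sum_nonneg fun j _ => hG i j q q'
      refine (Finset.sum_le_sum fun q _ =>
        Finset.sum_le_sum_of_subset_of_nonneg hPP fun q' _ _ => hnn q q').trans ?_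
      exact Finset.sum_le_sum_of_subset_of_nonneg hPP fun q _ _ =>
        Finset.sum_nonneg fun q' _ => hnn q q'
    refine h1.trans ?_
    have h2 : ∑ q ∈ P, ∑ q' ∈ P, ∑ i, ∑ j, G i j q q' =
        ∑ i, ∑ j, ∑ q ∈ P, ∑ q' ∈ P, G i j q q' := by
      calc ∑ q ∈ P, ∑ q' ∈ P, ∑ i, ∑ j, G i j q q'
          = ∑ q ∈ P, ∑ i, ∑ q' ∈ P, ∑ j, G i j q q' :=
            Finset.sum_congr rfl fun q _ => Finset.sum_comm
        _ = ∑ i, ∑ q ∈ P, ∑ q' ∈ P, ∑ j, G i j q q' := Finset.sum_comm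
        _ = ∑ i, ∑ q ∈ P, ∑ j, ∑ q' ∈ P, G i j q q' :=
            Finset.sum_congr rfl fun i _ => Finset.sum_congr rfl fun q _ => Finset.sum_comm
        _ = ∑ i, ∑ j, ∑ q ∈ P, ∑ q' ∈ P, G i j q q' :=
            Finset.sum_congr rfl fun i _ => Finset.sum_comm
    rw [h2]
    have h3 : ∀ i j : Fin k, ∑ q ∈ P, ∑ q' ∈ P, G i j q q' ≤ (S.card : ℝ) ^ 2 * B4 := by
      intro i j
      have h4 : ∑ q ∈ P, ∑ q' ∈ P, G i j q q' =
          ∑ d ∈ S, ∑ d' ∈ S, ∑ h ∈ I, ∑ h' ∈ I, G i j (d, h) (d', h') := by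
        rw [hP, Finset.sum_product]
        refine Finset.sum_congr rfl fun d _ => ?_
        rw [Finset.sum_congr rfl fun h _ => Finset.sum_product S I (fun q' => G i j (d, h) q')]
        exact Finset.sum_comm
      rw [h4]
      calc ∑ d ∈ S, ∑ d' ∈ S, ∑ h ∈ I, ∑ h' ∈ I, G i j (d, h) (d', h')
          ≤ ∑ d ∈ S, ∑ d' ∈ S, B4 :=
            Finset.sum_le_sum fun d hd => Finset.sum_le_sum fun d' hd' => hpair i j d hd d' hd'
        _ = (S.card : ℝ) ^ 2 * B4 := by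
            rw [Finset.sum_const, Finset.sum_const, nsmul_eq_mul, nsmul_eq_mul]
            ring
    calc ∑ i, ∑ j, ∑ q ∈ P, ∑ q' ∈ P, G i j q q'
        ≤ ∑ i : Fin k, ∑ j : Fin k, (S.card : ℝ) ^ 2 * B4 :=
          Finset.sum_le_sum fun i _ => Finset.sum_le_sum fun j _ => h3 i j
      _ = (k : ℝ) ^ 2 * ((S.card : ℝ) ^ 2 * B4) := by
          rw [Finset.sum_const, Finset.sum_const, card_univ, Fintype.card_fin, nsmul_eq_mul,
            nsmul_eq_mul]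
          ring
  have hcc : ∑ q ∈ P', ∑ q' ∈ P', B3 ≤ B3 * (S.card * H) ^ 2 := by
    rw [Finset.sum_const, Finset.sum_const, nsmul_eq_mul, nsmul_eq_mul]
    have h1 : (0 : ℝ) ≤ P'.card := Nat.cast_nonneg _
    have h2 : (P'.card : ℝ) ^ 2 ≤ (S.card * H) ^ 2 := pow_le_pow_left₀ h1 hPc' 2
    nlinarith
  calc _ ≤ ∑ q ∈ P', ∑ q' ∈ P',
        |∑ m ∈ Icc 1 M, ph a N z X q.1 q.2 m * ph a N z X q'.1 q'.2 m| := hexp
    _ ≤ ∑ q ∈ P', ∑ q' ∈ P', ((if secBad a q q' then B1 else 0) +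
        B2 * (B3 + ∑ i, ∑ j, G i j q q')) :=
        Finset.sum_le_sum fun q hq => Finset.sum_le_sum fun q' hq' => hT q hq q' hq'
    _ = ∑ q ∈ P', ∑ q' ∈ P', (if secBad a q q' then B1 else 0) +
        B2 * (∑ q ∈ P', ∑ q' ∈ P', B3 + ∑ q ∈ P', ∑ q' ∈ P', ∑ i, ∑ j, G i j q q') := by
        simp only [Finset.sum_add_distrib, Finset.mul_sum, mul_add]
    _ ≤ _ := by
        have := mul_le_mul_of_nonneg_left (add_le_add hcc hGsum) hB2
        linarith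

theorem second {k : ℕ} (a : Fin k → ℕ) (ha : Function.Injective a) : ∃ C : ℝ, 0 < C ∧ ∃ N0 : ℕ, ∀ N : ℕ, N0 ≤ N →
    ∃ K : ℝ, 0 < K ∧ ∃ X0 : ℕ, ∀ X M z D H y : ℕ, X0 ≤ X → X ≤ M ^ 2 → z ^ (160 * (Nat.log 2 N + 2)) ≤ X →
      1 ≤ D → 2 * D ≤ X → D ≤ H → H ≤ X → y ≤ X → ∀ S ⊆ Ico D (2 * D), (∀ d ∈ S, sg N d ≤ 2 / √N) →
        K * Real.log X ^ k ≤ S.card * H → ∀ γ : ℕ → ℕ → ℝ, (∀ d h, |γ d h| ≤ 1) →
          (∀ d ∈ S, ∀ h, γ d h ≠ 0 → prim a d h) →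
            ∑ m ∈ Icc 1 M, (∑ d ∈ S, ∑ h ∈ Ioc y (y + H), γ d h * ph a N z X d h m) ^ 2 ≤
              C * Real.log N ^ (2 * k) / √N * M * (S.card * H) ^ 2 := by
  classical
  rcases Nat.eq_zero_or_pos k with rfl | hk
  · refine ⟨1, one_pos, 0, fun N _ => ⟨1, one_pos, 0, ?_⟩⟩
    intro X M z D H y _ _ _ _ _ _ _ _ S _ _ _ γ _ _
    have h1 : ∀ m, (∑ d ∈ S, ∑ h ∈ Ioc y (y + H), γ d h * ph a N z X d h m) ^ 2 = 0 := by
      intro m
      simp only [sec_zero, mul_zero, Finset.sum_const_zero]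
      norm_num
    rw [Finset.sum_congr rfl fun m _ => h1 m, Finset.sum_const_zero]
    positivity
  obtain ⟨C1, hC1, N1, h1⟩ := phi_pair a ha
  obtain ⟨C2, hC2, N2, h2⟩ := phi_one a ha
  obtain ⟨C3, hC3, h3⟩ := pair_small C1 hC1
  obtain ⟨C0', hC0', h0'⟩ := Pool.Agent.Helper39.SP.VV_inv_le_log
  obtain ⟨C0, hC0d⟩ : ∃ C0, C0 = max C0' 1 := ⟨_, rfl⟩
  have hC01 : 1 ≤ C0 := hC0d ▸ le_max_right _ _
  have hC0 : 0 < C0 := by linarith
  have h0 : ∀ N z : ℕ, 3 ≤ z → (VV N z)⁻¹ ≤ C0 * Real.log z := by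
    intro N z hz
    refine (h0' N z hz).trans (mul_le_mul_of_nonneg_right (hC0d ▸ le_max_left _ _) ?_)
    exact Real.log_nonneg (by exact_mod_cast (by omega : 1 ≤ z))
  refine ⟨C0 ^ (2 * k) * (1 + C1 * (5 + 8 * C1) + C1 * (k : ℝ) ^ 2 * (C3 + 4 * C1)),
    by positivity, ?_⟩
  refine ⟨max (max N1 N2) (max (⌈(4 * (C1 + C2)) ^ 2⌉₊) 4), ?_⟩
  intro N hN
  have hN1 : N1 ≤ N := (le_max_left _ _).trans ((le_max_left _ _).trans hN)
  have hN2 : N2 ≤ N := (le_max_right _ _).trans ((le_max_left _ _).trans hN)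
  have hN3 : ⌈(4 * (C1 + C2)) ^ 2⌉₊ ≤ N := (le_max_left _ _).trans ((le_max_right _ _).trans hN)
  have hN4 : 4 ≤ N := (le_max_right _ _).trans ((le_max_right _ _).trans hN)
  have hNr : (4 : ℝ) ≤ N := by exact_mod_cast hN4
  have hsN : 4 * (C1 + C2) ≤ √(N : ℝ) := by
    apply Real.le_sqrt_of_sq_le
    exact (Nat.le_ceil _).trans (by exact_mod_cast hN3)
  have hs0 : 0 < √(N : ℝ) := Real.sqrt_pos.2 (by linarith)
  have hs1 : 1 ≤ √(N : ℝ) := Real.one_le_sqrt.2 (by linarith)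
  have hb : 1 ≤ Nat.log 2 N := by
    have := Nat.log_mono_right (b := 2) (show 2 ≤ N by omega)
    rwa [Nat.log_eq_one_iff'.2 (by norm_num)] at this
  obtain ⟨X1, h1⟩ := h1 N hN1 (Nat.log 2 N) hb
  obtain ⟨X2, h2⟩ := h2 N hN2
  obtain ⟨H1, h3⟩ := h3 N (by omega)
  refine ⟨N + (H1 : ℝ) ^ 2 + 1 + 2 * C2 * (k : ℝ) ^ 2 * C0 ^ k * √(N : ℝ), by positivity, ?_⟩
  refine ⟨max (max X1 X2) (max 3 (∑ i, a i)), ?_⟩
  intro X M z D H y hX hXM hz hD hDX hDH hHX hyX S hS hsg hK γ hγ hprim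
  have hX1 : X1 ≤ X := (le_max_left _ _).trans ((le_max_left _ _).trans hX)
  have hX2 : X2 ≤ X := (le_max_right _ _).trans ((le_max_left _ _).trans hX)
  have hX3 : 3 ≤ X := (le_max_left _ _).trans ((le_max_right _ _).trans hX)
  have haX : ∀ i, a i ≤ X := fun i =>
    (Finset.single_le_sum (fun _ _ => Nat.zero_le _) (mem_univ i)).trans
      ((le_max_right _ _).trans ((le_max_right _ _).trans hX))
  have hXr : (3 : ℝ) ≤ X := by exact_mod_cast hX3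
  have hlX : 1 ≤ Real.log X := by
    rw [Real.le_log_iff_exp_le (by linarith)]
    exact Real.exp_one_lt_three.le.trans hXr
  have hzX : z ≤ X := by
    refine le_trans ?_ hz
    exact Nat.le_self_pow (by omega) z
  have hz480 : z ^ 480 ≤ X := by
    rcases Nat.eq_zero_or_pos z with h | h
    · rw [h, zero_pow (by norm_num)]
      exact Nat.zero_le _
    · have h5 : 480 ≤ 160 * (Nat.log 2 N + 2) := by omega
      exact le_trans (Nat.pow_le_pow_right h h5) hz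
  have hM0 : (0 : ℝ) ≤ M := Nat.cast_nonneg M
  have hSc : S.card ≤ D := by
    have := card_le_card hS
    rw [Nat.card_Ico] at this
    omega
  have hSd : ∀ d ∈ S, D ≤ d ∧ d < 2 * D := fun d hd => mem_Ico.1 (hS hd)
  set SH : ℝ := S.card * H with hSH
  have hSH0 : 0 ≤ SH := by positivity
  have hSH2 : SH ≤ (H : ℝ) ^ 2 := by
    have h4 : (S.card : ℝ) ≤ H := by exact_mod_cast hSc.trans hDH
    rw [hSH, sq]
    exact mul_le_mul_of_nonneg_right h4 (Nat.cast_nonneg _)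
  have hlk : Real.log X ≤ Real.log X ^ k := le_self_pow₀ hlX (by omega)
  have hlk1 : 1 ≤ Real.log X ^ k := one_le_pow₀ hlX
  have hkk : 0 ≤ 2 * C2 * (k : ℝ) ^ 2 * C0 ^ k * √(N : ℝ) := by positivity
  have hNX : (N : ℝ) * Real.log X ≤ (H : ℝ) ^ 2 := by
    have h5 : (N : ℝ) * Real.log X ≤ (N + (H1 : ℝ) ^ 2 + 1 +
        2 * C2 * (k : ℝ) ^ 2 * C0 ^ k * √(N : ℝ)) * Real.log X ^ k := by
      apply mul_le_mul _ hlk (by linarith) (by positivity)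
      nlinarith [sq_nonneg (H1 : ℝ)]
    linarith
  have hH1 : H1 ≤ H := by
    have h5 : (H1 : ℝ) ^ 2 ≤ (N + (H1 : ℝ) ^ 2 + 1 +
        2 * C2 * (k : ℝ) ^ 2 * C0 ^ k * √(N : ℝ)) * Real.log X ^ k := by
      have h6 : (H1 : ℝ) ^ 2 * 1 ≤ (N + (H1 : ℝ) ^ 2 + 1 +
        2 * C2 * (k : ℝ) ^ 2 * C0 ^ k * √(N : ℝ)) * Real.log X ^ k := by
        apply mul_le_mul _ hlk1 (by norm_num) (by positivity)
        linarith
      linarith
    have h7 : (H1 : ℝ) ^ 2 ≤ (H : ℝ) ^ 2 := by linarith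
    have h8 : (H1 : ℝ) ≤ H := (sq_le_sq₀ (Nat.cast_nonneg _) (Nat.cast_nonneg _)).1 h7
    exact_mod_cast h8
  -- the small quantities
  have v1 := Pool.Agent.Helper40.DB.VV_pos 0 N
  have v2 := Pool.Agent.Helper40.DB.VV_pos N z
  have hg1 : ∀ d ∈ S, gg C1 N z d ≤ 4 * C1 / √(N : ℝ) := by
    intro d hd
    refine sec_gg_le hC1 z d (by have := hSd d hd; omega) ?_ (hsg d hd)
    rw [← mul_div_assoc, div_le_one hs0]
    linarith
  have hg2 : ∀ d ∈ S, gg C2 N z d ≤ 1 := by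
    intro d hd
    have h5 := sec_gg_le (N := N) hC2.le z d (by have := hSd d hd; omega)
      (by rw [← mul_div_assoc, div_le_one hs0]; linarith) (hsg d hd)
    refine h5.trans ?_
    rw [div_le_one hs0]
    linarith
  have hg11 : 4 * C1 / √(N : ℝ) ≤ 1 := by
    rw [div_le_one hs0]
    linarith
  have hNi : 1 / (N : ℝ) ≤ 1 / √(N : ℝ) := by
    apply one_div_le_one_div_of_le hs0
    have h5 := Real.mul_self_sqrt (show (0 : ℝ) ≤ N by linarith)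
    nlinarith
  have h4b : (1 / 4 : ℝ) ^ (Nat.log 2 N) ≤ 4 / √(N : ℝ) := by
    have h5 : N < 2 ^ (Nat.log 2 N + 1) := Nat.lt_pow_succ_log_self (by norm_num) N
    have h6 : (N : ℝ) ≤ 2 * 2 ^ (Nat.log 2 N) := by
      have : (N : ℝ) < 2 ^ (Nat.log 2 N + 1) := by exact_mod_cast h5
      rw [pow_succ] at this
      linarith
    have h7 : (1 / 4 : ℝ) ^ (Nat.log 2 N) = (1 / 2 ^ (Nat.log 2 N)) ^ 2 := by
      rw [div_pow, one_pow, div_pow, one_pow, ← pow_mul, mul_comm, pow_mul]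
      norm_num
    have h8 : 1 / (2 : ℝ) ^ (Nat.log 2 N) ≤ 2 / N := by
      rw [div_le_div_iff₀ (by positivity) (by linarith)]
      linarith
    have h9 : (1 / (2 : ℝ) ^ (Nat.log 2 N)) ^ 2 ≤ (2 / N) ^ 2 :=
      pow_le_pow_left₀ (by positivity) h8 2
    rw [h7]
    refine h9.trans ?_
    have h10 : (2 / (N : ℝ)) ^ 2 = 4 * (1 / N * (1 / N)) := by ring
    have h11 : 1 / (N : ℝ) ≤ 1 := by
      rw [div_le_one (by linarith)]
      linarith
    have h12 : 0 ≤ 1 / (N : ℝ) := by positivity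
    rw [h10]
    have h13 : 4 / √(N : ℝ) = 4 * (1 / √(N : ℝ)) := by ring
    rw [h13]
    have h14 := mul_le_mul_of_nonneg_left h11 h12
    rw [mul_one] at h14
    linarith
  have hVinv : (VV N z)⁻¹ ^ k ≤ C0 ^ k * Real.log X ^ k := by
    rw [← mul_pow]
    apply pow_le_pow_left₀ (by positivity)
    rcases Nat.lt_or_ge z 3 with h | h
    · have h5 : VV N z = 1 := by
        unfold VV PP
        rw [Finset.Ioc_eq_empty_of_le (by omega)]
        simp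
      rw [h5, inv_one]
      nlinarith
    · refine (h0 N z h).trans (mul_le_mul_of_nonneg_left ?_ hC0.le)
      apply Real.log_le_log (by exact_mod_cast (by omega : 0 < z))
      exact_mod_cast hzX
  set Λ : ℝ := (VV 0 N)⁻¹ ^ k with hΛ
  have hΛ0 : 0 ≤ Λ := by positivity
  have hΛ2 : (VV 0 N)⁻¹ ^ (2 * k) = Λ ^ 2 := by
    rw [hΛ, ← pow_mul, mul_comm]
  have hΛle : Λ ^ 2 ≤ C0 ^ (2 * k) * Real.log N ^ (2 * k) := by
    rw [← hΛ2, ← mul_pow]
    exact pow_le_pow_left₀ (by positivity) (h0 0 N (by omega)) _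
  have hmain := sec_sum a N z X M y H D S hD hS γ hγ hprim
    (fun i j q q' => if del q.1 q.2 (a i) q'.1 q'.2 (a j) = 0 then 0 else
      gg C1 N z (del q.1 q.2 (a i) q'.1 q'.2 (a j)))
    (fun i j q q' => by
      split_ifs
      · exact le_rfl
      · exact sec_gg0 hC1 _ _ _)
    (Λ * (VV N z)⁻¹ ^ k * (Λ * (2 * C2) * M)) (Λ ^ 2 * C1 * M) ((5 + 8 * C1) / √(N : ℝ))
    ((C3 + 4 * C1) / √(N : ℝ) * (H : ℝ) ^ 2) (by positivity) (by positivity) (by positivity)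
    ?_ ?_
  · refine hmain.trans ?_
    have k1 : SH * ((k : ℝ) ^ 2 * (Λ * (VV N z)⁻¹ ^ k * (Λ * (2 * C2) * M))) ≤
        Λ ^ 2 / √(N : ℝ) * M * SH ^ 2 := by
      have k2 : (2 * C2 * (k : ℝ) ^ 2 * C0 ^ k * √(N : ℝ)) * Real.log X ^ k ≤ SH := by
        refine le_trans ?_ hK
        apply mul_le_mul_of_nonneg_right _ (by linarith)
        have : (0 : ℝ) ≤ (H1 : ℝ) ^ 2 := by positivity
        linarith
      have k3 : (2 * C2 * (k : ℝ) ^ 2) * (VV N z)⁻¹ ^ k * √(N : ℝ) ≤ SH := by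
        refine le_trans ?_ k2
        calc (2 * C2 * (k : ℝ) ^ 2) * (VV N z)⁻¹ ^ k * √(N : ℝ)
            ≤ (2 * C2 * (k : ℝ) ^ 2) * (C0 ^ k * Real.log X ^ k) * √(N : ℝ) := by gcongr
          _ = _ := by ring
      have k4 : (2 * C2 * (k : ℝ) ^ 2) * (VV N z)⁻¹ ^ k ≤ SH / √(N : ℝ) := by
        rw [le_div_iff₀ hs0]
        exact k3
      calc SH * ((k : ℝ) ^ 2 * (Λ * (VV N z)⁻¹ ^ k * (Λ * (2 * C2) * M)))
          = Λ ^ 2 * M * SH * ((2 * C2 * (k : ℝ) ^ 2) * (VV N z)⁻¹ ^ k) := by ring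
        _ ≤ Λ ^ 2 * M * SH * (SH / √(N : ℝ)) := by gcongr
        _ = _ := by ring
    have k5 : SH * ((k : ℝ) ^ 2 * (Λ * (VV N z)⁻¹ ^ k * (Λ * (2 * C2) * M))) +
        Λ ^ 2 * C1 * M * ((5 + 8 * C1) / √(N : ℝ) * SH ^ 2 +
          (k : ℝ) ^ 2 * ((S.card : ℝ) ^ 2 * ((C3 + 4 * C1) / √(N : ℝ) * (H : ℝ) ^ 2))) ≤
        Λ ^ 2 * (1 + C1 * (5 + 8 * C1) + C1 * (k : ℝ) ^ 2 * (C3 + 4 * C1)) / √(N : ℝ) *
          M * SH ^ 2 := by
      have k6 : Λ ^ 2 * C1 * M * ((5 + 8 * C1) / √(N : ℝ) * SH ^ 2 +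
          (k : ℝ) ^ 2 * ((S.card : ℝ) ^ 2 * ((C3 + 4 * C1) / √(N : ℝ) * (H : ℝ) ^ 2))) =
          Λ ^ 2 * (C1 * (5 + 8 * C1) + C1 * (k : ℝ) ^ 2 * (C3 + 4 * C1)) / √(N : ℝ) *
          M * SH ^ 2 := by
        rw [hSH]
        ring
      rw [k6]
      refine (add_le_add k1 le_rfl).trans (le_of_eq ?_)
      ring
    refine k5.trans ?_
    have k7 : 0 ≤ (1 + C1 * (5 + 8 * C1) + C1 * (k : ℝ) ^ 2 * (C3 + 4 * C1)) / √(N : ℝ) *
        M * SH ^ 2 := by positivity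
    calc Λ ^ 2 * (1 + C1 * (5 + 8 * C1) + C1 * (k : ℝ) ^ 2 * (C3 + 4 * C1)) / √(N : ℝ) *
          M * SH ^ 2 = Λ ^ 2 * ((1 + C1 * (5 + 8 * C1) + C1 * (k : ℝ) ^ 2 * (C3 + 4 * C1)) /
            √(N : ℝ) * M * SH ^ 2) := by ring
      _ ≤ C0 ^ (2 * k) * Real.log N ^ (2 * k) *
          ((1 + C1 * (5 + 8 * C1) + C1 * (k : ℝ) ^ 2 * (C3 + 4 * C1)) /
            √(N : ℝ) * M * SH ^ 2) := mul_le_mul_of_nonneg_right hΛle k7
      _ = _ := by ring
  · intro q hq q' hq'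
    rw [mem_filter, mem_product] at hq hq'
    have hd := hSd _ hq.1.1
    have hd' := hSd _ hq'.1.1
    have p1 := hprim _ hq.1.1 _ hq.2
    have p2 := hprim _ hq'.1.1 _ hq'.2
    by_cases hbad : secBad a q q'
    · rw [if_pos hbad]
      have c1 := h2 X M z hX2 hXM hz480 q.1 q.2 (by omega) p1
      have c2 := sec_corr_bad a N z X M q.1 q.2 q'.1 q'.2 _ c1
      have c3 : Λ * (C2 * (1 + gg C2 N z q.1)) * M ≤ Λ * (2 * C2) * M := by
        have := hg2 _ hq.1.1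
        have c4 : C2 * (1 + gg C2 N z q.1) ≤ 2 * C2 := by nlinarith
        gcongr
      have c5 : 0 ≤ Λ ^ 2 * C1 * M * ((5 + 8 * C1) / √(N : ℝ) + ∑ i, ∑ j,
          (if del q.1 q.2 (a i) q'.1 q'.2 (a j) = 0 then (0 : ℝ) else
            gg C1 N z (del q.1 q.2 (a i) q'.1 q'.2 (a j)))) := by
        have c6 : 0 ≤ ∑ i, ∑ j,
          (if del q.1 q.2 (a i) q'.1 q'.2 (a j) = 0 then (0 : ℝ) else
            gg C1 N z (del q.1 q.2 (a i) q'.1 q'.2 (a j))) := by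
          refine Finset.sum_nonneg fun i _ => Finset.sum_nonneg fun j _ => ?_
          split_ifs
          · exact le_rfl
          · exact sec_gg0 hC1 _ _ _
        positivity
      have c7 : Λ * (VV N z)⁻¹ ^ k * (Λ * (C2 * (1 + gg C2 N z q.1)) * M) ≤
          Λ * (VV N z)⁻¹ ^ k * (Λ * (2 * C2) * M) :=
        mul_le_mul_of_nonneg_left c3 (by positivity)
      exact (c2.trans c7).trans (le_add_of_nonneg_right c5)
    · rw [if_neg hbad, zero_add]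
      have hne : ∀ i j, del q.1 q.2 (a i) q'.1 q'.2 (a j) ≠ 0 := fun i j h => hbad ⟨i, j, h⟩
      have c0 : ∑ i, ∑ j, (if del q.1 q.2 (a i) q'.1 q'.2 (a j) = 0 then (0 : ℝ) else
            gg C1 N z (del q.1 q.2 (a i) q'.1 q'.2 (a j))) =
          ∑ i, ∑ j, gg C1 N z (del q.1 q.2 (a i) q'.1 q'.2 (a j)) :=
        Finset.sum_congr rfl fun i _ => Finset.sum_congr rfl fun j _ => if_neg (hne i j)
      have c1 : 0 ≤ ∑ i, ∑ j, gg C1 N z (del q.1 q.2 (a i) q'.1 q'.2 (a j)) :=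
        Finset.sum_nonneg fun i _ => Finset.sum_nonneg fun j _ => sec_gg0 hC1 _ _ _
      rw [c0]
      refine sec_corr_le a N z X M q.1 q.2 q'.1 q'.2 (by omega) (by omega) _ (by positivity) ?_
      intro u v huv hvM huv2
      refine (h1 X M z hX1 hXM hz q.1 q.2 q'.1 q'.2 (by omega) (by omega) p1 p2 hne u v huv hvM
        huv2).trans ?_
      rw [hΛ2]
      have c2 : 1 / (N : ℝ) + (1 / 4) ^ (Nat.log 2 N) + gg C1 N z q.1 + gg C1 N z q'.1 ≤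
          (5 + 8 * C1) / √(N : ℝ) := by
        have := hg1 _ hq.1.1
        have := hg1 _ hq'.1.1
        have c3 : (5 + 8 * C1) / √(N : ℝ) = 1 / √(N : ℝ) + 4 / √(N : ℝ) + 4 * C1 / √(N : ℝ) +
          4 * C1 / √(N : ℝ) := by ring
        rw [c3]
        linarith
      calc _ ≤ Λ ^ 2 * (C1 * ((5 + 8 * C1) / √(N : ℝ) +
            ∑ i, ∑ j, gg C1 N z (del q.1 q.2 (a i) q'.1 q'.2 (a j)))) * M := by gcongr
        _ = _ := by ring
  · intro i j d hd d' hd'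
    have e1 := hSd _ hd
    have e2 := hSd _ hd'
    have e3 := h3 X (by omega) y H d d' hH1 (by omega) hNX (by omega) (by omega) (by omega)
      (by omega) (by omega) (by omega) (by omega) (a i) (a j) (haX i) (haX j) z
      ((hg1 d hd).trans hg11)
    refine e3.trans ?_
    apply mul_le_mul_of_nonneg_right _ (by positivity)
    have e4 := hg1 d hd
    have e5 : (C3 + 4 * C1) / √(N : ℝ) = C3 / √(N : ℝ) + 4 * C1 / √(N : ℝ) := by ring
    rw [e5]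
    linarith

end Pool.Agent.Helper8.BC
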