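import Pool.Agent.Helper8.BC.CorrL

/-!
# BC-02: the singular series of a set of linear forms

MODEL: `Pool/Agent/Helper39/SP/SingD.lean` (theorem `SSD_sub_one`), same proof; its private lemmas can be copied.
PROOF. Let `n = s.card ≤ t`; `p > N ≥ 2 t + 2`, so `1 - n/p ≥ 1/2 > 0`. Always `rhoL s p ≤ n` (`rhoL_le`).
Lower bound: every factor is `≥ (1 - n/p) / (1 - 1/p)^n ≥ 1 - C₁/p^2`, so `SSL ≥ 1 - C₁/N`.
Upper bound: if `p` divides no `L.1` (`L ∈ s`) and no determinant `L.1 L'.2 - L'.1 L.2` (`L ≠ L'` in `s`) then `rhoL s p = n` (every form has exactly one root, and a common root `x`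
of `L ≠ L'` gives `p ∣ L'.1 (L.1 x + L.2) - L.1 (L'.1 x + L'.2) = - determinant`), so the factor is `(1 - n/p)/(1 - 1/p)^n ≤ 1`.
Otherwise the factor is `≤ (1 - 1/p)^(-n) ≤ 1 + C₀/p`. So `SSL ≤ ∏_j X_j`, where `j` runs over `s` (`X_L = ∏_(p ∈ DD N z L.1) (1 + C₀/p) ≥ 1`) and over `s.offDiag`
(`X_x = ∏_(p ∈ DD N z det) (1 + C₀/p) ≥ 1`). With `q = t + t^2 ≥` the number of these factors: `∏ X ≤ (max X)^q ≤ 1 + ∑ (X^q - 1)` and
`X^q ≤ ∏ (1 + C/p)`, `1 + C/p ≥ (1 + C₀/p)^q` with `C = (1 + C₀)^q` (as in the model). `gg C N z t = ∏_(p ∈ DD N z t) (1 + C/p) - 1`.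
-/

set_option autoImplicit false

namespace Pool.Agent.Helper8.BC

open Finset
open Pool.Agent.Helper40.DB (PP VV DD)
open Pool.Agent.Helper39.SP (gg)

/-- `∏ (1 - a) ≥ 1 - ∑ a`. -/
private theorem prod_one_sub_ge {ι : Type*} (s : Finset ι) (a : ι → ℝ) (h0 : ∀ i ∈ s, 0 ≤ a i)
    (h1 : ∀ i ∈ s, a i ≤ 1) : 1 - ∑ i ∈ s, a i ≤ ∏ i ∈ s, (1 - a i) := by
  classical
  induction s using Finset.induction_on with
  | empty => simp
  | insert i s hi ih =>
    rw [Finset.sum_insert hi, Finset.prod_insert hi]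
    have ih' := ih (fun j hj => h0 j (Finset.mem_insert_of_mem hj))
      (fun j hj => h1 j (Finset.mem_insert_of_mem hj))
    have hP1 : ∏ j ∈ s, (1 - a j) ≤ 1 := by
      apply Finset.prod_le_one
      · intro j hj
        have := h1 j (Finset.mem_insert_of_mem hj)
        linarith
      · intro j hj
        have := h0 j (Finset.mem_insert_of_mem hj)
        linarith
    have ha0 := h0 i (Finset.mem_insert_self i s)
    have : a i * ∏ j ∈ s, (1 - a j) ≤ a i * 1 := mul_le_mul_of_nonneg_left hP1 ha0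
    nlinarith

/-- `(1 - x)^t ≤ 1 - t x + t^2 x^2`. -/
private theorem pow_one_sub_le (t : ℕ) (x : ℝ) (h0 : 0 ≤ x) (h1 : x ≤ 1) :
    (1 - x) ^ t ≤ 1 - t * x + (t : ℝ) ^ 2 * x ^ 2 := by
  induction t with
  | zero => simp
  | succ t ih =>
    rw [pow_succ]
    have h2 : (1 - x) ^ t * (1 - x) ≤ (1 - t * x + (t : ℝ) ^ 2 * x ^ 2) * (1 - x) :=
      mul_le_mul_of_nonneg_right ih (by linarith)
    refine h2.trans ?_
    push_cast
    have ht : (0 : ℝ) ≤ t := Nat.cast_nonneg t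
    have hx2 : 0 ≤ x ^ 2 := sq_nonneg x
    have hx3 : 0 ≤ (t : ℝ) ^ 2 * x ^ 3 := by positivity
    nlinarith [mul_nonneg ht hx2]

/-- `(1 + c x)^n ≤ 1 + x ((1 + c)^n - 1)`. -/
private theorem pow_one_add_le (n : ℕ) (c x : ℝ) (hc : 0 ≤ c) (h0 : 0 ≤ x) (h1 : x ≤ 1) :
    (1 + c * x) ^ n ≤ 1 + x * ((1 + c) ^ n - 1) := by
  induction n with
  | zero => simp
  | succ n ih =>
    rw [pow_succ]
    have h2 : (1 + c * x) ^ n * (1 + c * x) ≤ (1 + x * ((1 + c) ^ n - 1)) * (1 + c * x) :=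
      mul_le_mul_of_nonneg_right ih (by positivity)
    refine h2.trans ?_
    have hP : 1 ≤ (1 + c) ^ n := one_le_pow₀ (by linarith)
    rw [pow_succ]
    have h3 : 0 ≤ c * x * (1 - x) * ((1 + c) ^ n - 1) := by
      apply mul_nonneg
      · apply mul_nonneg (mul_nonneg hc h0); linarith
      · linarith
    nlinarith

/-- `∑_(N < p ≤ z) 1/p^2 ≤ 1/N`. -/
private theorem sum_inv_sq_le (N z : ℕ) (hN : 1 ≤ N) :
    ∑ p ∈ Finset.Ioc N z, (1 / (p : ℝ) ^ 2) ≤ 1 / (N : ℝ) := by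
  have key : ∀ m : ℕ, N ≤ m → ∑ p ∈ Finset.Ioc N m, (1 / (p : ℝ) ^ 2) ≤ 1 / (N : ℝ) - 1 / (m : ℝ) := by
    intro m hm
    induction m, hm using Nat.le_induction with
    | base => simp
    | succ m hm ih =>
      rw [Finset.sum_Ioc_succ_top (by omega)]
      have hm0 : (0 : ℝ) < m := by exact_mod_cast (by omega : 0 < m)
      have : 1 / ((m + 1 : ℕ) : ℝ) ^ 2 ≤ 1 / m - 1 / ((m + 1 : ℕ) : ℝ) := by
        push_cast
        rw [div_sub_div _ _ hm0.ne' (by positivity), div_le_div_iff₀ (by positivity) (by positivity)]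
        nlinarith
      linarith
  rcases le_or_gt N z with h | h
  · refine (key z h).trans ?_
    have : (0 : ℝ) ≤ 1 / (z : ℝ) := by positivity
    linarith
  · rw [Finset.Ioc_eq_empty (by omega)]
    simp

private theorem exists_root (p : ℕ) (hp : p.Prime) (a b : ℤ) (ha : ¬ (p : ℤ) ∣ a) :
    ∃ x ∈ range p, (p : ℤ) ∣ a * x + b := by
  have : Fact p.Prime := ⟨hp⟩
  have ha' : (a : ZMod p) ≠ 0 := fun h => ha ((ZMod.intCast_zmod_eq_zero_iff_dvd a p).1 h)
  refine ⟨((-(b : ZMod p)) * (a : ZMod p)⁻¹).val, ?_, ?_⟩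
  · rw [mem_range]
    exact ZMod.val_lt _
  · rw [← ZMod.intCast_zmod_eq_zero_iff_dvd]
    push_cast
    rw [ZMod.natCast_val, ZMod.cast_id]
    rw [mul_comm (-(b : ZMod p)), ← mul_assoc, mul_inv_cancel₀ ha', one_mul, neg_add_cancel]

private theorem rhoL_eq (N z : ℕ) (s : Finset (ℤ × ℤ)) (hs : PrimN N z s) (p : ℕ) (hp : p ∈ PP N z)
    (h1 : ∀ L ∈ s, ¬ (p : ℤ) ∣ L.1)
    (h2 : ∀ L ∈ s, ∀ L' ∈ s, L ≠ L' → ¬ (p : ℤ) ∣ L.1 * L'.2 - L'.1 * L.2) :
    rhoL s p = s.card := by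
  classical
  have hpp : p.Prime := (Finset.mem_filter.1 hp).2
  refine le_antisymm (rhoL_le N z s hs p hp) ?_
  have hroot : ∀ L : ℤ × ℤ, ∃ x : ℕ, L ∈ s → x ∈ range p ∧ (p : ℤ) ∣ L.1 * x + L.2 := by
    intro L
    by_cases hL : L ∈ s
    · obtain ⟨x, hx, hx2⟩ := exists_root p hpp L.1 L.2 (h1 L hL)
      exact ⟨x, fun _ => ⟨hx, hx2⟩⟩
    · exact ⟨0, fun h => absurd h hL⟩
  choose r hr using hroot
  unfold rhoL
  refine Finset.card_le_card_of_injOn r ?_ ?_
  · intro L hL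
    have hL' : L ∈ s := hL
    rw [Finset.mem_coe, Finset.mem_filter]
    exact ⟨(hr L hL').1, L, hL', (hr L hL').2⟩
  · intro L hL L' hL' hw
    by_contra hne
    have hL1 : L ∈ s := hL
    have hL2 : L' ∈ s := hL'
    apply h2 L hL1 L' hL2 hne
    have e1 := (hr L hL1).2
    have e2 := (hr L' hL2).2
    have hw' : r L = r L' := hw
    rw [hw'] at e1
    have e3 : L.1 * L'.2 - L'.1 * L.2 = L.1 * (L'.1 * (r L' : ℤ) + L'.2) -
        L'.1 * (L.1 * (r L' : ℤ) + L.2) := by ring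
    rw [e3]
    exact dvd_sub (Dvd.dvd.mul_left e2 _) (Dvd.dvd.mul_left e1 _)

/-- The integer belonging to a pair of forms. -/
private def wt (x : (ℤ × ℤ) × (ℤ × ℤ)) : ℤ :=
  if x.1 = x.2 then x.1.1 else x.1.1 * x.2.2 - x.2.1 * x.1.2

private theorem sum_wt (s : Finset (ℤ × ℤ)) (g : ℤ → ℝ) :
    ∑ x ∈ s ×ˢ s, g (wt x) = ∑ L ∈ s, g L.1 +
      ∑ x ∈ s.offDiag, g (x.1.1 * x.2.2 - x.2.1 * x.1.2) := by
  classical
  rw [← Finset.diag_union_offDiag, Finset.sum_union (Finset.disjoint_diag_offDiag s),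
    Finset.sum_diag]
  refine congrArg₂ (· + ·) ?_ ?_
  · refine Finset.sum_congr rfl fun x _ => ?_
    unfold wt
    rw [if_pos rfl]
  · refine Finset.sum_congr rfl fun x hx => ?_
    rw [Finset.mem_offDiag] at hx
    unfold wt
    rw [if_neg hx.2.2]

theorem SSL_sub_one (t : ℕ) : ∃ C : ℝ, 0 ≤ C ∧ ∀ N z : ℕ, 2 * t + 2 ≤ N → ∀ s : Finset (ℤ × ℤ), s.card ≤ t → PrimN N z s →
    |SSL N z s - 1| ≤ C / N + ∑ L ∈ s, gg C N z L.1 + ∑ x ∈ s.offDiag, gg C N z (x.1.1 * x.2.2 - x.2.1 * x.1.2) := by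

  obtain ⟨t1, rfl⟩ : ∃ t1, t1 = t := ⟨t, rfl⟩
  classical
  set M : ℕ := t1 * t1 with hM
  set T : ℝ := (t1 : ℝ) + 1 with hT
  have hT0 : 0 < T := by rw [hT]; positivity
  set C0 : ℝ := 2 * T with hC0
  have hC00 : 0 ≤ C0 := by rw [hC0]; positivity
  set C1 : ℝ := (1 + C0) ^ M - 1 with hC1
  have hC10 : 0 ≤ C1 := by
    rw [hC1]
    have : (1 : ℝ) ≤ (1 + C0) ^ M := one_le_pow₀ (by linarith)
    linarith
  refine ⟨2 * T ^ 2 + C1, by positivity, ?_⟩
  intro N z hN s hD hs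
  set U : Finset ((ℤ × ℤ) × (ℤ × ℤ)) := s ×ˢ s with hU
  have hUM : U.card ≤ M := by
    rw [hU, Finset.card_product, hM]
    exact Nat.mul_le_mul hD hD
  have hN1 : 1 ≤ N := by omega
  have hN0 : (0 : ℝ) < N := by exact_mod_cast hN1
  have hNT : 2 * T ≤ N := by
    have : ((2 * t1 + 2 : ℕ) : ℝ) ≤ N := by exact_mod_cast hN
    push_cast at this
    rw [hT]; linarith
  have ht : (s.card : ℝ) ≤ T := by
    have h1 : (s.card : ℝ) ≤ t1 := by exact_mod_cast hD
    rw [hT]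
    linarith
  set t : ℕ := s.card with htdef
  have hPP : ∀ p ∈ PP N z, N < p ∧ p ≤ z ∧ p.Prime := by
    intro p hp
    unfold PP at hp
    rw [Finset.mem_filter, Finset.mem_Ioc] at hp
    exact ⟨hp.1.1, hp.1.2, hp.2⟩
  -- basic inequalities for one prime
  have hx : ∀ p ∈ PP N z, 0 < (p : ℝ) ∧ (t : ℝ) * (1 / p) ≤ 1 / 2 ∧ 1 / (p : ℝ) ≤ 1 / 2 ∧
      1 / 2 ≤ (1 - 1 / (p : ℝ)) ^ t := by
    intro p hp
    obtain ⟨h1, -, -⟩ := hPP p hp
    have hp1 : (N : ℝ) < p := by exact_mod_cast h1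
    have hp0 : (0 : ℝ) < p := by linarith
    have hT1 : 1 ≤ T := by rw [hT]; have : (0 : ℝ) ≤ t1 := Nat.cast_nonneg _; linarith
    have h2 : 2 * T ≤ p := by linarith
    have h3 : (t : ℝ) * (1 / p) ≤ 1 / 2 := by
      rw [mul_one_div, div_le_iff₀ hp0]; linarith
    have h4 : 1 / (p : ℝ) ≤ 1 / 2 := by
      rw [div_le_div_iff₀ hp0 (by norm_num)]; linarith
    refine ⟨hp0, h3, h4, ?_⟩
    have h5 := one_add_mul_le_pow (a := -(1 / (p : ℝ))) (by linarith) t
    have h6 : (1 + -(1 / (p : ℝ))) ^ t = (1 - 1 / (p : ℝ)) ^ t := by ring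
    rw [h6] at h5
    linarith
  set F : ℕ → ℝ := fun p => (1 - (rhoL s p : ℝ) / p) / (1 - 1 / (p : ℝ)) ^ t with hF
  have hSS : SSL N z s = ∏ p ∈ PP N z, F p := rfl
  have hFlow : ∀ p ∈ PP N z, 1 - 2 * T ^ 2 * (1 / (p : ℝ) ^ 2) ≤ F p := by
    intro p hp
    obtain ⟨hp0, h3, h4, h5⟩ := hx p hp
    have hpos : 0 < (1 - 1 / (p : ℝ)) ^ t := by linarith
    have h6 := pow_one_sub_le t (1 / (p : ℝ)) (by positivity) (by linarith)
    have h7 : (rhoL s p : ℝ) ≤ t := by exact_mod_cast rhoL_le N z s hs p hp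
    have h8 : (rhoL s p : ℝ) / p ≤ t * (1 / p) := by
      rw [mul_one_div]; gcongr
    simp only [hF]
    rw [le_div_iff₀ hpos]
    have h9 : (t : ℝ) ^ 2 * (1 / (p : ℝ)) ^ 2 ≤ T ^ 2 * (1 / (p : ℝ)) ^ 2 := by gcongr
    have h10 : (1 / (p : ℝ)) ^ 2 = 1 / (p : ℝ) ^ 2 := by rw [div_pow, one_pow]
    rw [h10] at h6 h9
    have h11 : 0 ≤ T ^ 2 * (1 / (p : ℝ) ^ 2) := by positivity
    nlinarith [mul_le_mul_of_nonneg_left h5 h11]
  have hle1 : ∀ p ∈ PP N z, 2 * T ^ 2 * (1 / (p : ℝ) ^ 2) ≤ 1 := by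
    intro p hp
    obtain ⟨h1, -, -⟩ := hPP p hp
    have hp1 : (N : ℝ) < p := by exact_mod_cast h1
    have hp0 : (0 : ℝ) < p := by linarith
    rw [mul_one_div, div_le_one (by positivity)]
    nlinarith
  have hF0 : ∀ p ∈ PP N z, 0 ≤ F p := fun p hp => by
    have h1 := hFlow p hp
    have h2 := hle1 p hp
    linarith
  have hFbad : ∀ p ∈ PP N z, F p ≤ 1 + C0 * (1 / p) := by
    intro p hp
    obtain ⟨hp0, h3, h4, h5⟩ := hx p hp
    have hpos : 0 < (1 - 1 / (p : ℝ)) ^ t := by linarith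
    simp only [hF]
    rw [div_le_iff₀ hpos]
    have h6 := one_add_mul_le_pow (a := -(1 / (p : ℝ))) (by linarith) t
    have h7 : (1 + -(1 / (p : ℝ))) ^ t = (1 - 1 / (p : ℝ)) ^ t := by ring
    rw [h7] at h6
    have h8 : 0 ≤ (rhoL s p : ℝ) / p := by positivity
    have h9 : (t : ℝ) * (1 / p) ≤ T * (1 / p) := by gcongr
    have h10 : 0 ≤ T * (1 / (p : ℝ)) := by positivity
    have h11 : 0 ≤ C0 * (1 / (p : ℝ)) := by positivity
    have h12 := mul_le_mul_of_nonneg_left h5 h11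
    rw [hC0] at h12 ⊢
    nlinarith
  have hFgood : ∀ p ∈ PP N z, (∀ u ∈ U, p ∉ DD N z (wt u)) → F p ≤ 1 := by
    intro p hp hgood
    obtain ⟨hp0, h3, h4, h5⟩ := hx p hp
    have hpos : 0 < (1 - 1 / (p : ℝ)) ^ t := by linarith
    have hr : rhoL s p = t := by
      apply rhoL_eq N z s hs p hp
      · intro L hL hdvd
        apply hgood (L, L) (by rw [hU, Finset.mem_product]; exact ⟨hL, hL⟩)
        unfold DD wt
        rw [Finset.mem_filter, if_pos rfl]
        exact ⟨hp, hdvd⟩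
      · intro L hL L' hL' hne hdvd
        apply hgood (L, L') (by rw [hU, Finset.mem_product]; exact ⟨hL, hL'⟩)
        unfold DD wt
        rw [Finset.mem_filter, if_neg hne]
        exact ⟨hp, hdvd⟩
    simp only [hF]
    rw [div_le_one hpos, hr]
    have h6 := one_add_mul_le_pow (a := -(1 / (p : ℝ))) (by linarith) t
    have h7 : (1 + -(1 / (p : ℝ))) ^ t = (1 - 1 / (p : ℝ)) ^ t := by ring
    rw [h7] at h6
    rw [mul_neg, mul_one_div] at h6
    linarith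
  have hSS0 : 0 ≤ SSL N z s := by
    rw [hSS]; exact Finset.prod_nonneg hF0
  have hlow : 1 - SSL N z s ≤ 2 * T ^ 2 / N := by
    have h1 := prod_one_sub_ge (PP N z) (fun p => 2 * T ^ 2 * (1 / (p : ℝ) ^ 2))
      (fun p _ => by positivity) hle1
    have h2 : ∏ p ∈ PP N z, (1 - 2 * T ^ 2 * (1 / (p : ℝ) ^ 2)) ≤ ∏ p ∈ PP N z, F p := by
      apply Finset.prod_le_prod
      · intro p hp
        have := hle1 p hp
        linarith
      · exact hFlow
    have h3 : ∑ p ∈ PP N z, 2 * T ^ 2 * (1 / (p : ℝ) ^ 2) ≤ 2 * T ^ 2 * (1 / N) := by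
      rw [← Finset.mul_sum]
      apply mul_le_mul_of_nonneg_left _ (by positivity)
      refine le_trans ?_ (sum_inv_sq_le N z hN1)
      apply Finset.sum_le_sum_of_subset_of_nonneg
      · exact Finset.filter_subset _ _
      · intro _ _ _; positivity
    rw [hSS]
    rw [mul_one_div] at h3
    linarith
  -- upper bound
  set X : (ℤ × ℤ) × (ℤ × ℤ) → ℝ := fun u =>
    ∏ p ∈ DD N z (wt u), (1 + C0 * (1 / (p : ℝ))) with hX
  have hX1 : ∀ u, 1 ≤ X u := by
    intro u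
    simp only [hX]
    have : ∏ p ∈ DD N z (wt u), (1 : ℝ) ≤
        ∏ p ∈ DD N z (wt u), (1 + C0 * (1 / (p : ℝ))) := by
      apply Finset.prod_le_prod
      · intro _ _; norm_num
      · intro p _
        have : 0 ≤ C0 * (1 / (p : ℝ)) := by positivity
        linarith
    simpa using this
  have hup : SSL N z s ≤ ∏ u ∈ U, X u := by
    rw [hSS]
    -- for every prime, `F p ≤ ∏_u (if p ∈ DD then 1 + C0/p else 1)`
    have h1 : ∀ p ∈ PP N z, F p ≤ ∏ u ∈ U, (if p ∈ DD N z (wt u) then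
        (1 + C0 * (1 / (p : ℝ))) else 1) := by
      intro p hp
      have hge : ∀ u ∈ U, (1 : ℝ) ≤ (if p ∈ DD N z (wt u) then
        (1 + C0 * (1 / (p : ℝ))) else 1) := by
        intro u _
        split_ifs
        · have : 0 ≤ C0 * (1 / (p : ℝ)) := by positivity
          linarith
        · exact le_refl 1
      by_cases hb : ∀ u ∈ U, p ∉ DD N z (wt u)
      · refine (hFgood p hp hb).trans ?_
        have : ∏ u ∈ U, (1 : ℝ) ≤ ∏ u ∈ U, (if p ∈ DD N z (wt u) then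
          (1 + C0 * (1 / (p : ℝ))) else 1) :=
          Finset.prod_le_prod (fun _ _ => by norm_num) hge
        simpa using this
      · push Not at hb
        obtain ⟨u, hu, hpu⟩ := hb
        refine (hFbad p hp).trans ?_
        rw [← Finset.mul_prod_erase U _ hu, if_pos hpu]
        have h2 : 0 ≤ C0 * (1 / (p : ℝ)) := by positivity
        have h3 : (1 : ℝ) ≤ ∏ v ∈ U.erase u, (if p ∈ DD N z (wt v) then
          (1 + C0 * (1 / (p : ℝ))) else 1) := by
          have : ∏ v ∈ U.erase u, (1 : ℝ) ≤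
              ∏ v ∈ U.erase u, (if p ∈ DD N z (wt v) then
                (1 + C0 * (1 / (p : ℝ))) else 1) :=
            Finset.prod_le_prod (fun _ _ => by norm_num)
              (fun v hv => hge v (Finset.mem_of_mem_erase hv))
          simpa using this
        nlinarith
    refine (Finset.prod_le_prod hF0 h1).trans ?_
    rw [Finset.prod_comm]
    apply le_of_eq
    apply Finset.prod_congr rfl
    intro u _
    simp only [hX]
    rw [← Finset.prod_filter]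
    congr 1
    ext p
    simp only [Finset.mem_filter]
    constructor
    · intro hh; exact hh.2
    · intro hh
      refine ⟨?_, hh⟩
      unfold DD at hh
      exact (Finset.mem_filter.mp hh).1
  have hup2 : ∏ u ∈ U, X u ≤ 1 + ∑ u ∈ U, (X u ^ M - 1) := by
    have hterm : ∀ u ∈ U, 0 ≤ X u ^ M - 1 := fun u _ => by
      have := one_le_pow₀ (hX1 u) (n := M)
      linarith
    rcases U.eq_empty_or_nonempty with hE | hne
    · rw [hE]; simp
    · obtain ⟨u0, hu0, hmax⟩ := Finset.exists_max_image U X hne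
      have h1 : ∏ u ∈ U, X u ≤ X u0 ^ U.card := by
        rw [← Finset.prod_const]
        exact Finset.prod_le_prod (fun u _ => by linarith [hX1 u]) hmax
      have h1' : X u0 ^ U.card ≤ X u0 ^ M := pow_le_pow_right₀ (hX1 u0) hUM
      have h2 : X u0 ^ M - 1 ≤ ∑ u ∈ U, (X u ^ M - 1) :=
        Finset.single_le_sum hterm hu0
      linarith
  have hup3 : ∀ u ∈ U, X u ^ M ≤ ∏ p ∈ DD N z (wt u),
        (1 + (2 * T ^ 2 + C1) / (p : ℝ)) := by
    intro u _
    simp only [hX]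
    rw [← Finset.prod_pow]
    apply Finset.prod_le_prod
    · intro p _
      positivity
    · intro p hp
      have hpP : p ∈ PP N z := by
        unfold DD at hp; exact (Finset.mem_filter.mp hp).1
      obtain ⟨hp0, -, h4, -⟩ := hx p hpP
      have h5 := pow_one_add_le M C0 (1 / (p : ℝ)) hC00 (by positivity) (by linarith)
      refine h5.trans ?_
      have h6 : (1 / (p : ℝ)) * ((1 + C0) ^ M - 1) = C1 / p := by
        rw [hC1]; ring
      rw [h6]
      have h7 : C1 / (p : ℝ) ≤ (2 * T ^ 2 + C1) / p := by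
        gcongr
        have : 0 ≤ 2 * T ^ 2 := by positivity
        linarith
      linarith
  have hsum : ∑ u ∈ U, (X u ^ M - 1) ≤ ∑ u ∈ U,
      (∏ p ∈ DD N z (wt u), (1 + (2 * T ^ 2 + C1) / (p : ℝ)) - 1) := by
    apply Finset.sum_le_sum
    intro u hu
    have := hup3 u hu
    linarith
  have hgg : ∑ u ∈ U, gg (2 * T ^ 2 + C1) N z (wt u) = ∑ u ∈ U,
      (∏ p ∈ DD N z (wt u), (1 + (2 * T ^ 2 + C1) / (p : ℝ)) - 1) := rfl
  have hsplit := sum_wt s (gg (2 * T ^ 2 + C1) N z)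
  rw [add_assoc, ← hsplit, hgg]
  have hsum0 : 0 ≤ ∑ u ∈ U, (X u ^ M - 1) := by
    apply Finset.sum_nonneg
    intro u _
    have := one_le_pow₀ (hX1 u) (n := M)
    linarith
  have hCN : 2 * T ^ 2 / N ≤ (2 * T ^ 2 + C1) / (N : ℝ) := by
    gcongr
    linarith
  have hCN0 : 0 ≤ (2 * T ^ 2 + C1) / (N : ℝ) := by positivity
  rw [abs_le]
  constructor
  · linarith
  · linarith

end Pool.Agent.Helper8.BC
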